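import Pool.Agent.MP_1037db_co.PT.Stm

namespace Pool.Agent.MP_1037db_co.PT

section


open Real

theorem t_QD (hT : S_TR) : S_QD := by
  intro ν j A B D e i hL hj h
  have h0 : (A + B) * (A + B) * 1048576 + e ≤ D * D * 1048576 + A * B * ch (j * 2) * 2 :=
    Nat.le_of_ble_eq_true h
  have h1 : ((A : ℝ) + B) * (A + B) * 1048576 + e ≤ D * D * 1048576 + A * B * ch (j * 2) * 2 := by
    exact_mod_cast h0
  have h2 := (hT (j * 2) (by omega)).1
  have e1 : ((j * 2 : ℕ) : ℝ) * (π / 480) = ((i + j : ℕ) : ℝ) * (π / 240) - i * (π / 240) := by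
    push_cast; ring
  rw [e1, cos_sub] at h2
  have h3 := hL ((A : ℝ) • ev (i + j) - (B : ℝ) • ev i)
  simp only [ev, Prod.fst_sub, Prod.snd_sub, Prod.smul_mk, smul_eq_mul] at h3
  have c1 := cos_sq_add_sin_sq (((i + j : ℕ) : ℝ) * (π / 240))
  have c2 := cos_sq_add_sin_sq ((i : ℝ) * (π / 240))
  have hAB : (0 : ℝ) ≤ A * B := by positivity
  have h4 := mul_le_mul_of_nonneg_left h2 hAB
  have h5 : ν ((A : ℝ) • ev (i + j) - (B : ℝ) • ev i) ^ 2 * 1048576 + e ≤ (D : ℝ) ^ 2 * 1048576 := by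
    simp only [ev, Prod.smul_mk, smul_eq_mul]
    set x := ν _
    set a := cos (((i + j : ℕ) : ℝ) * (π / 240))
    set b := sin (((i + j : ℕ) : ℝ) * (π / 240))
    set c := cos ((i : ℝ) * (π / 240))
    set d := sin ((i : ℝ) * (π / 240))
    have e2 : (A * a - B * c) ^ 2 + (A * b - B * d) ^ 2 =
        A ^ 2 + B ^ 2 - 2 * (A * B) * (a * c + b * d) := by
      linear_combination (A : ℝ) ^ 2 * c1 + (B : ℝ) ^ 2 * c2
    rw [e2] at h3
    linarith
  have hD : (0 : ℝ) ≤ D := Nat.cast_nonneg D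
  have he : (0 : ℝ) ≤ e := Nat.cast_nonneg e
  refine ⟨le_of_pow_le_pow_left₀ two_ne_zero hD (by linarith), fun h1 => ?_⟩
  rw [h1, Nat.cast_one] at h5
  exact lt_of_pow_lt_pow_left₀ 2 hD (by linarith)

namespace GC_

theorem corner (hQ : S_QD) {ν : SN} {j A B s r1 r2 f : ℕ} (i : ℕ) (hL : Le ν) (hj : j < 240)
    (h : g2 (ch (j * 2)) A B s r1 r2 f = true) :
    ν (((A : ℝ) * r2) • ev (i + j) - ((B : ℝ) * r1) • ev i) ≤ f * 8192 - s := by
  obtain ⟨h1, h2⟩ := an_iff.1 h
  have h3 : s ≤ f * 8192 := Nat.le_of_ble_eq_true h1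
  have h4 := (hQ (A := A * r2) (B := B * r1) (D := f * 8192 - s) (e := 0) i hL hj h2).1
  rw [Nat.cast_sub h3] at h4
  exact_mod_cast h4

theorem bt_shr (c s t w : ℕ) : bt (c >>> s) t w = bt c (s + t) w := by
  change (c >>> s) >>> t &&& w = c >>> (s + t) &&& w
  rw [Nat.shiftRight_add]

theorem four (ν : SN) {l m : ℝ} (h : U2 l m) (a b c d : ℝ × ℝ) :
    ν (((1 - l) * (1 - m)) • a + ((1 - l) * m) • b + (l * (1 - m)) • c + (l * m) • d) ≤
      bil l m (ν a) (ν b) (ν c) (ν d) := by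
  obtain ⟨l0, l1, m0, m1⟩ := h
  have l2 := sub_nonneg.2 l1
  have m2 := sub_nonneg.2 m1
  have h1 := map_add_le_add ν (((1 - l) * (1 - m)) • a + ((1 - l) * m) • b + (l * (1 - m)) • c)
    ((l * m) • d)
  have h2 := map_add_le_add ν (((1 - l) * (1 - m)) • a + ((1 - l) * m) • b) ((l * (1 - m)) • c)
  have h3 := map_add_le_add ν (((1 - l) * (1 - m)) • a) (((1 - l) * m) • b)
  rw [smul_nn ν (mul_nonneg l0 m0)] at h1
  rw [smul_nn ν (mul_nonneg l0 m2)] at h2
  rw [smul_nn ν (mul_nonneg l2 m2), smul_nn ν (mul_nonneg l2 m0)] at h3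
  rw [bil]; linarith

theorem bil_le {l m a b c d a' b' c' d' : ℝ} (h : U2 l m) (ha : a ≤ a') (hb : b ≤ b') (hc : c ≤ c')
    (hd : d ≤ d') : bil l m a b c d ≤ bil l m a' b' c' d' := by
  obtain ⟨l0, l1, m0, m1⟩ := h
  have l2 := sub_nonneg.2 l1
  have m2 := sub_nonneg.2 m1
  unfold bil
  gcongr

end GC_

theorem t_GC (hQ : S_QD) : S_GC := by
  intro ν i j p q y z c l m d hL hj hC h
  obtain ⟨h1, h2⟩ := an_iff.1 h
  obtain ⟨h1, h1'⟩ := an_iff.1 h1
  refine ⟨⟨lt_iff.1 (an_iff.1 h1).1, lt_iff.1 (an_iff.1 h1).2, lt_iff.1 (an_iff.1 h1').1,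
    lt_iff.1 (an_iff.1 h1').2⟩, fun o ho => ?_⟩
  have h3 : g0 (ch (j * 2)) p q y z c (c >>> ((o + 1) * 64)) (bt RA (o * 16) 65535)
      (bt RB (o * 16) 65535) (bt (gt d 0) (o * 32) 65535) (bt (gt d 0) (o * 32 + 16) 65535) = true :=
    al_iff.1 h2 o ho
  rw [nv, ra, rb]
  generalize bt RA (o * 16) 65535 = a at h3 ⊢
  generalize bt RB (o * 16) 65535 = b at h3 ⊢
  generalize bt (gt d 0) (o * 32) 65535 = u at h3
  generalize bt (gt d 0) (o * 32 + 16) 65535 = v at h3
  obtain ⟨h4, h5⟩ := an_iff.1 h3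
  have hu : u ≤ a := Nat.le_of_ble_eq_true (an_iff.1 h4).1
  have hv : v ≤ b := Nat.le_of_ble_eq_true (an_iff.1 h4).2
  obtain ⟨h6, h7⟩ := an_iff.1 h5
  have e : ∀ n, bt (c >>> ((o + 1) * 64)) (n * 16) 65535 = ph c n o := fun n => by
    rw [GC_.bt_shr, ph]; congr 1; ring
  have k0 := GC_.corner hQ (A := a - u) (B := b - v) (s := (u + v) * 16384) (r1 := p) (r2 := y)
    (f := ph c 0 o) i hL hj (e 0 ▸ (an_iff.1 h6).1)
  have k1 := GC_.corner hQ (A := a - u) (B := b - v) (s := (u + v) * 16384) (r1 := p)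
    (r2 := bt c 0 65535) (f := ph c 1 o) i hL hj (e 1 ▸ (an_iff.1 h6).2)
  have k2 := GC_.corner hQ (A := a - u) (B := b - v) (s := (u + v) * 16384) (r1 := q) (r2 := z)
    (f := ph c 2 o) i hL hj (e 2 ▸ (an_iff.1 h7).1)
  have k3 := GC_.corner hQ (A := a - u) (B := b - v) (s := (u + v) * 16384) (r1 := q)
    (r2 := bt c 16 65535) (f := ph c 3 o) i hL hj (e 3 ▸ (an_iff.1 h7).2)
  have k4 := (GC_.four ν hC.u _ _ _ _).trans (GC_.bil_le hC.u k0 k1 k2 k3)
  rw [Nat.cast_sub hu, Nat.cast_sub hv] at k4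
  have u1 : (16384 : ℝ) • uv ν i = ((1 - l) * p + l * q) • ev i := by
    rw [uv, smul_smul, ← div_eq_mul_inv, hC.r1]
  have u2 : (16384 : ℝ) • uv ν (i + j) = bil l m y (bt c 0 65535) z (bt c 16 65535) • ev (i + j) := by
    rw [uv, smul_smul, ← div_eq_mul_inv, hC.r2]
  have e1 : (16384 * 8192 : ℝ) • (((a : ℝ) / 8192) • uv ν (i + j) - ((b : ℝ) / 8192) • uv ν i) =
      (((a : ℝ) - u) • (16384 : ℝ) • uv ν (i + j) - ((b : ℝ) - v) • (16384 : ℝ) • uv ν i) +
        (((u : ℝ) * 16384) • uv ν (i + j) - ((v : ℝ) * 16384) • uv ν i) := by module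
  have e2 := congrArg ν e1
  rw [smul_nn ν (by norm_num), u1, u2] at e2
  have k5 := map_add_le_add ν
    (((a : ℝ) - u) • bil l m y (bt c 0 65535) z (bt c 16 65535) • ev (i + j) -
      ((b : ℝ) - v) • ((1 - l) * p + l * q) • ev i)
    (((u : ℝ) * 16384) • uv ν (i + j) - ((v : ℝ) * 16384) • uv ν i)
  have k6 := map_sub_le_add ν (((u : ℝ) * 16384) • uv ν (i + j)) (((v : ℝ) * 16384) • uv ν i)
  rw [smul_nn ν (by positivity), smul_nn ν (by positivity), nu_uv hC.n1, nu_uv hC.n2] at k6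
  have e3 : ((a : ℝ) - u) • bil l m y (bt c 0 65535) z (bt c 16 65535) • ev (i + j) -
      ((b : ℝ) - v) • ((1 - l) * p + l * q) • ev i =
      ((1 - l) * (1 - m)) • ((((a : ℝ) - u) * y) • ev (i + j) - (((b : ℝ) - v) * p) • ev i) +
      ((1 - l) * m) • ((((a : ℝ) - u) * (bt c 0 65535 : ℕ)) • ev (i + j) - (((b : ℝ) - v) * p) • ev i) +
      (l * (1 - m)) • ((((a : ℝ) - u) * z) • ev (i + j) - (((b : ℝ) - v) * q) • ev i) +
      (l * m) • ((((a : ℝ) - u) * (bt c 16 65535 : ℕ)) • ev (i + j) - (((b : ℝ) - v) * q) • ev i) := by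
    rw [bil]; module
  rw [← e3] at k4
  have e4 : ∀ a b c d s : ℝ, bil l m (a * 8192 - s) (b * 8192 - s) (c * 8192 - s) (d * 8192 - s) =
      8192 * bil l m a b c d - s := fun a b c d s => by unfold bil; ring
  rw [e4] at k4
  push_cast at k4
  linarith

end

section


open Real

namespace CV_

theorem mid {a b x : ℝ} (h1 : a ≤ x) (h2 : x ≤ b) :
    ∃ m, 0 ≤ m ∧ m ≤ 1 ∧ x = (1 - m) * a + m * b := by
  rcases (h1.trans h2).eq_or_lt with e | h
  · exact ⟨0, le_rfl, zero_le_one, by linarith⟩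
  · have h' : 0 < b - a := sub_pos.2 h
    refine ⟨(x - a) / (b - a), div_nonneg (sub_nonneg.2 h1) h'.le,
      (div_le_one h').2 (by linarith), ?_⟩
    field_simp
    ring

theorem conv (hQ : S_QD) {ν : SN} {j a A B A' B' : ℕ} (i : ℕ) (hL : Le ν) (hj : j < 240) {l : ℝ}
    (l0 : 0 ≤ l) (l1 : l ≤ 1) (h : el (ch (j * 2)) a A B A' B' = true) :
    ν (((1 - l) * A + l * A') • ev (i + j) - ((1 - l) * B + l * B') • ev i) <
      (16384 - a) * 16384 := by
  simp only [el, an_iff, Nat.mul_eq, Nat.sub_eq, Nat.ble_eq] at h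
  obtain ⟨h0, h1, h2⟩ := h
  have k1 := (hQ i hL hj h1).2 rfl
  have k2 := (hQ i hL hj h2).2 rfl
  have e : (((16384 - a) * 16384 : ℕ) : ℝ) = (16384 - a) * 16384 := by
    rw [Nat.cast_mul, Nat.cast_sub h0]; norm_num
  rw [e] at k1 k2
  have v : ((1 - l) * A + l * A') • ev (i + j) - ((1 - l) * B + l * B') • ev i =
      (1 - l) • ((A : ℝ) • ev (i + j) - (B : ℝ) • ev i) +
        l • ((A' : ℝ) • ev (i + j) - (B' : ℝ) • ev i) := by module
  rw [v]
  refine (map_add_le_add ν _ _).trans_lt ?_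
  rw [smul_nn ν (sub_nonneg.2 l1), smul_nn ν l0]
  rcases l0.eq_or_lt with e0 | l0'
  · rw [← e0]; linarith
  · have a1 := mul_le_mul_of_nonneg_left k1.le (sub_nonneg.2 l1)
    have a2 := mul_lt_mul_of_pos_left k2 l0'
    linarith

theorem top_nil (R C p q a y z : ℕ) : top R C p q a [] y z =
    orr (an (Nat.ble R y) (Nat.ble R z)) (el C a (a * y) (p * 16384) (a * z) (q * 16384)) := rfl
theorem top_cons (R C p q a c : ℕ) (cs : List ℕ) (y z : ℕ) : top R C p q a (c :: cs) y z =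
    top R C p q a cs (bt c 0 65535) (bt c 16 65535) := rfl
theorem cells_cons (f : ℕ → ℕ → ℕ → List ℕ → Bool) (c : ℕ) (cs : List ℕ) (ds : List (List ℕ))
    (y z : ℕ) : cells f (c :: cs) ds y z =
      an (f y z c (hd ds)) (cells f cs (tl ds) (bt c 0 65535) (bt c 16 65535)) := rfl
theorem cov_nil (R C p : ℕ) : cov R C [] p = Nat.ble R p := rfl
theorem cov_cons (R C p : ℕ) (s : List ℕ) (ss : List (List ℕ)) : cov R C (s :: ss) p =
    an (cv1 R C p (gt s 0) (tl s)) (cov R C ss (bt (gt s 0) 0 65535)) := rfl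
theorem strips_cons (f : ℕ → ℕ → ℕ → ℕ → ℕ → List ℕ → Bool) (s : List ℕ) (ss : List (List ℕ))
    (ds : List (List (List ℕ))) (p : ℕ) : strips f (s :: ss) ds p =
      an (cells (f p (bt (gt s 0) 0 65535)) (tl s) (hd ds) (bt (gt s 0) 16 65535)
        (bt (gt s 0) 32 65535)) (strips f ss (tl ds) (bt (gt s 0) 0 65535)) := rfl
theorem cv1_eq (R C p h : ℕ) (cs : List ℕ) : cv1 R C p h cs =
    an (lt p (bt h 0 65535)) (an (orr (an (Nat.ble (bt h 16 65535) 16384)
      (Nat.ble (bt h 32 65535) 16384))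
      (el C (bt h 48 65535) (bt h 16 65535 * 16384) (bt h 48 65535 * p)
        (bt h 32 65535 * 16384) (bt h 48 65535 * bt h 0 65535)))
      (top R C p (bt h 0 65535) (bt h 64 65535) cs (bt h 16 65535) (bt h 32 65535))) := rfl

theorem cel (hQ : S_QD) {ν : SN} {R j p q a : ℕ} (i : ℕ) (hL : Le ν) (hj : j < 240) {l : ℝ}
    (l0 : 0 ≤ l) (l1 : l ≤ 1) (n1 : 0 < ν (ev i)) (n2 : 0 < ν (ev (i + j)))
    (r1 : 16384 / ν (ev i) = (1 - l) * p + l * q) (cs : List ℕ) :
    ∀ y z : ℕ, top R (ch (j * 2)) p q a cs y z = true →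
      (1 - l) * y + l * z ≤ 16384 / ν (ev (i + j)) → (1 - l) * y + l * z < R →
      16384 / ν (ev (i + j)) ≤ R →
      ∃ y' z' c : ℕ, ∃ m : ℝ, ∃ τ : List (List ℕ) → List ℕ, (0 ≤ m ∧ m ≤ 1 ∧
        16384 / ν (ev (i + j)) = bil l m y' (bt c 0 65535) z' (bt c 16 65535) ∧
        (1 - l) * y' + l * z' ≤ 16384 / ν (ev (i + j)) ∧
        16384 / ν (ev (i + j)) ≤ (1 - l) * bt c 0 65535 + l * bt c 16 65535) ∧
        ∀ f ds, cells f cs ds y z = true → f y' z' c (τ ds) = true := by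
  induction cs with
  | nil =>
    intro y z h h1 h2 _
    exfalso
    rw [top_nil, orr_iff, an_iff, Nat.ble_eq, Nat.ble_eq] at h
    rcases h with ⟨a1, a2⟩ | h
    · have b1 : (R : ℝ) ≤ y := Nat.cast_le.2 a1
      have b2 : (R : ℝ) ≤ z := Nat.cast_le.2 a2
      have c1 := mul_le_mul_of_nonneg_left b1 (sub_nonneg.2 l1)
      have c2 := mul_le_mul_of_nonneg_left b2 l0
      linarith
    · have k := conv hQ i hL hj l0 l1 h
      have e1 : (1 - l) * ((a * y : ℕ) : ℝ) + l * ((a * z : ℕ) : ℝ) =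
          a * ((1 - l) * y + l * z) := by push_cast; ring
      have e2 : (1 - l) * ((p * 16384 : ℕ) : ℝ) + l * ((q * 16384 : ℕ) : ℝ) =
          16384 / ν (ev i) * 16384 := by rw [r1]; push_cast; ring
      rw [e1, e2] at k
      set e : ℝ := (1 - l) * y + l * z
      have e0 : 0 ≤ e := add_nonneg (mul_nonneg (sub_nonneg.2 l1) y.cast_nonneg)
        (mul_nonneg l0 z.cast_nonneg)
      have t2 : ν ((16384 / ν (ev i) * 16384) • ev i) ≤
          ν ((a * e) • ev (i + j) - (16384 / ν (ev i) * 16384) • ev i) +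
            ν ((a * e) • ev (i + j)) := by
        rw [map_sub_rev]
        simpa using map_add_le_add ν ((16384 / ν (ev i) * 16384) • ev i - (a * e) • ev (i + j))
          ((a * e) • ev (i + j))
      rw [smul_nn ν (by positivity), smul_nn ν (mul_nonneg a.cast_nonneg e0)] at t2
      have s1 : 16384 / ν (ev i) * 16384 * ν (ev i) = 16384 * 16384 := by field_simp
      have s2 : e * ν (ev (i + j)) ≤ 16384 := (le_div_iff₀ n2).1 h1
      have s3 := mul_le_mul_of_nonneg_left s2 (a.cast_nonneg (α := ℝ))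
      linarith
  | cons c cs ih =>
    intro y z h h1 h2 h3
    rw [top_cons] at h
    rcases le_or_gt (16384 / ν (ev (i + j))) ((1 - l) * bt c 0 65535 + l * bt c 16 65535) with k | k
    · obtain ⟨m, m0, m1, e⟩ := mid h1 k
      refine ⟨y, z, c, m, hd, ⟨m0, m1, by rw [e, bil]; ring, h1, k⟩, fun f ds hf => ?_⟩
      rw [cells_cons, an_iff] at hf
      exact hf.1
    · obtain ⟨y', z', c', m, τ, H, hf⟩ := ih _ _ h k.le (k.trans_le h3) h3
      refine ⟨y', z', c', m, fun d => τ (tl d), H, fun f ds h' => ?_⟩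
      rw [cells_cons, an_iff] at h'
      exact hf f _ h'.2

end CV_

open CV_ in
theorem t_CV (hQ : S_QD) : S_CV := by
  intro ν R w j ss i hL hw hR h0 hj hc
  have hR' : (268435456 : ℝ) ≤ R * w := by exact_mod_cast hR
  have h0' : (16384 : ℝ) < R := by exact_mod_cast h0
  have w0 : (0 : ℝ) < w := by
    rcases (w.cast_nonneg (α := ℝ)).eq_or_lt with e | e
    · rw [← e] at hR'; linarith
    · exact e
  have n : ∀ k, 0 < ν (ev k) := fun k => by linarith [hw k]
  have lo : ∀ k, 16384 ≤ 16384 / ν (ev k) := fun k =>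
    (le_div_iff₀ (n k)).2 (by linarith [hL.ev k])
  have hi : ∀ k, 16384 / ν (ev k) ≤ R := fun k => (div_le_iff₀ (n k)).2 (by
    have := mul_le_mul_of_nonneg_left (hw k) (R.cast_nonneg (α := ℝ))
    linarith)
  have main : ∀ p : ℕ, cov R (ch (j * 2)) ss p = true → 16384 ≤ p → (p : ℝ) ≤ 16384 / ν (ev i) →
      p < R → ∃ p' q y z c l m, ∃ σ : List (List (List ℕ)) → List ℕ, Cel ν i j p' q y z c l m ∧
        ∀ f ds, strips f ss ds p = true → f p' q y z c (σ ds) = true := by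
    clear hc
    induction ss with
    | nil =>
      intro p h _ _ h3
      rw [cov_nil, Nat.ble_eq] at h
      omega
    | cons s ss ih =>
      intro p h h1 h2 h3
      rw [cov_cons, an_iff, cv1_eq, an_iff, an_iff, lt_iff] at h
      obtain ⟨⟨pq, hb, ht⟩, hr⟩ := h
      rcases le_or_gt (16384 / ν (ev i)) (bt (gt s 0) 0 65535 : ℕ) with k | k
      · obtain ⟨l, l0, l1, e⟩ := mid h2 k
        have bot : (1 - l) * (bt (gt s 0) 16 65535 : ℕ) + l * (bt (gt s 0) 32 65535 : ℕ) ≤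
            16384 / ν (ev (i + j)) ∧
            (1 - l) * (bt (gt s 0) 16 65535 : ℕ) + l * (bt (gt s 0) 32 65535 : ℕ) < R := by
          generalize bt (gt s 0) 16 65535 = y at hb
          generalize bt (gt s 0) 32 65535 = z at hb
          generalize bt (gt s 0) 48 65535 = a at hb
          generalize bt (gt s 0) 0 65535 = q at hb e
          rw [orr_iff, an_iff, Nat.ble_eq, Nat.ble_eq] at hb
          rcases hb with ⟨a1, a2⟩ | hb
          · have b1 : (y : ℝ) ≤ 16384 := by exact_mod_cast a1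
            have b2 : (z : ℝ) ≤ 16384 := by exact_mod_cast a2
            have c1 := mul_le_mul_of_nonneg_left b1 (sub_nonneg.2 l1)
            have c2 := mul_le_mul_of_nonneg_left b2 l0
            exact ⟨by linarith [lo (i + j)], by linarith⟩
          · have k := conv hQ i hL hj l0 l1 hb
            have e1 : (1 - l) * ((y * 16384 : ℕ) : ℝ) + l * ((z * 16384 : ℕ) : ℝ) =
                ((1 - l) * y + l * z) * 16384 := by push_cast; ring
            have e2 : (1 - l) * ((a * p : ℕ) : ℝ) + l * ((a * q : ℕ) : ℝ) =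
                a * (16384 / ν (ev i)) := by rw [e]; push_cast; ring
            rw [e1, e2] at k
            set g : ℝ := (1 - l) * y + l * z
            have e0 : 0 ≤ g := add_nonneg (mul_nonneg (sub_nonneg.2 l1) y.cast_nonneg)
              (mul_nonneg l0 z.cast_nonneg)
            have t2 : ν ((g * 16384) • ev (i + j)) ≤
                ν ((g * 16384) • ev (i + j) - (a * (16384 / ν (ev i))) • ev i) +
                  ν ((a * (16384 / ν (ev i))) • ev i) := by
              simpa using map_add_le_add ν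
                ((g * 16384) • ev (i + j) - (a * (16384 / ν (ev i))) • ev i)
                ((a * (16384 / ν (ev i))) • ev i)
            have p1 := n i
            rw [smul_nn ν (by positivity), smul_nn ν (by positivity)] at t2
            have s1 : a * (16384 / ν (ev i)) * ν (ev i) = a * 16384 := by field_simp
            have s2 : g < 16384 / ν (ev (i + j)) := (lt_div_iff₀ (n _)).2 (by linarith)
            exact ⟨s2.le, s2.trans_le (hi _)⟩
        obtain ⟨y, z, c, m, τ, ⟨m0, m1, r2, a1, a2⟩, hf⟩ :=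
          cel hQ i hL hj l0 l1 (n i) (n _) e _ _ _ ht bot.1 bot.2 (hi _)
        refine ⟨p, _, y, z, c, l, m, fun d => τ (hd d),
          ⟨⟨l0, l1, m0, m1⟩, h1, pq, n i, n _, e, r2, a1, a2⟩, fun f ds h' => ?_⟩
        rw [strips_cons, an_iff] at h'
        exact hf _ _ h'.1
      · obtain ⟨p', q, y, z, c, l, m, σ, H, hf⟩ := ih _ hr (h1.trans pq.le) k.le
          (by exact_mod_cast k.trans_le (hi i))
        refine ⟨p', q, y, z, c, l, m, fun d => σ (tl d), H, fun f ds h' => ?_⟩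
        rw [strips_cons, an_iff] at h'
        exact hf f _ h'.2
  exact main 16384 hc le_rfl (by exact_mod_cast lo i) h0

end

section


open Real

theorem t_SH : S_SH := by
  intro ν θ x y s hle hs h1
  set w := ν (cos θ, sin θ) with hw
  have w0 : 0 ≤ w := apply_nonneg ν _
  obtain ⟨u, u0, hu⟩ : ∃ u : ℝ, 0 ≤ u ∧ |y| = s * u :=
    ⟨|y| / s, div_nonneg (abs_nonneg y) hs.le, by field_simp⟩
  have hy : y ^ 2 = (s * u) ^ 2 := by rw [← hu, sq_abs]
  have e : (x + w * u) • (cos θ, sin θ) = (x * cos θ - y * sin θ, x * sin θ + y * cos θ) +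
      (w * u * cos θ + y * sin θ, w * u * sin θ - y * cos θ) := by
    ext <;> simp <;> ring
  have a1 : (x + w * u) * w ≤ ν ((x + w * u) • (cos θ, sin θ)) := by
    rw [map_smul_eq_mul, ← hw]
    exact mul_le_mul_of_nonneg_right (le_abs_self _) w0
  have a2 : ν (w * u * cos θ + y * sin θ, w * u * sin θ - y * cos θ) ≤ u * (s ^ 2 + w ^ 2) := by
    refine (pow_le_pow_iff_left₀ (apply_nonneg ν _) (by positivity) two_ne_zero).1 ?_
    refine (hle _).trans ?_
    have c := sin_sq_add_cos_sq θ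
    have b1 : (w * u * cos θ + y * sin θ) ^ 2 + (w * u * sin θ - y * cos θ) ^ 2 =
        u ^ 2 * (s ^ 2 + w ^ 2) := by
      linear_combination ((w * u) ^ 2 + y ^ 2) * c + hy
    show (w * u * cos θ + y * sin θ) ^ 2 + (w * u * sin θ - y * cos θ) ^ 2 ≤ _
    rw [b1, mul_pow]
    exact mul_le_mul_of_nonneg_left (by nlinarith) (sq_nonneg u)
  have a3 := map_add_le_add ν (x * cos θ - y * sin θ, x * sin θ + y * cos θ)
    (w * u * cos θ + y * sin θ, w * u * sin θ - y * cos θ)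
  rw [← e] at a3
  rw [hu]
  nlinarith

namespace RO_

theorem sh0 (hS : S_SH) {ν : SN} (θ x y s : ℝ) (hle : Le ν) (hs : 0 ≤ s)
    (h1 : 1 ≤ s ^ 2 + ν (cos θ, sin θ) ^ 2) :
    ν (cos θ, sin θ) * x - s * |y| ≤ ν (x * cos θ - y * sin θ, x * sin θ + y * cos θ) := by
  refine le_of_forall_pos_le_add fun ε hε => ?_
  have y0 := abs_nonneg y
  have e0 : 0 < ε / (|y| + 1) := by positivity
  have := hS θ x y (s + ε / (|y| + 1)) hle (by positivity) (by nlinarith)
  have e1 : ε / (|y| + 1) * |y| ≤ ε := by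
    rw [div_mul_eq_mul_div, div_le_iff₀ (by positivity)]; nlinarith
  nlinarith

theorem polar (x : ℝ × ℝ) : ∃ r φ : ℝ, 0 ≤ r ∧ 0 ≤ φ ∧ φ < 2 * π ∧ x.1 = r * cos φ ∧
    x.2 = r * sin φ := by
  set z : ℂ := ⟨x.1, x.2⟩ with hz
  have h1 : x.1 = ‖z‖ * cos z.arg := (Complex.norm_mul_cos_arg z).symm
  have h2 : x.2 = ‖z‖ * sin z.arg := (Complex.norm_mul_sin_arg z).symm
  have h3 := Complex.neg_pi_lt_arg z
  have h4 := Complex.arg_le_pi z
  have := pi_pos
  rcases le_or_gt 0 z.arg with h | h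
  · exact ⟨‖z‖, z.arg, norm_nonneg _, h, by linarith, h1, h2⟩
  · exact ⟨‖z‖, z.arg + 2 * π, norm_nonneg _, by linarith, by linarith,
      by rw [cos_add_two_pi]; exact h1, by rw [sin_add_two_pi]; exact h2⟩

theorem cone (x : ℝ × ℝ) : ∃ k < 480, ∃ A B : ℝ, 0 ≤ A ∧ 0 ≤ B ∧ x = A • ev k + B • ev (k + 1) := by
  obtain ⟨r, φ, r0, p0, p1, h1, h2⟩ := polar x
  have hp := pi_pos
  have d0 : 0 < π / 240 := by positivity
  have s0 : 0 < sin (π / 240) := sin_pos_of_pos_of_lt_pi d0 (by linarith)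
  set k := ⌊φ / (π / 240)⌋₊ with hk
  have k1 : (k : ℝ) * (π / 240) ≤ φ := by
    rw [← le_div_iff₀ d0]; exact Nat.floor_le (by positivity)
  have k2 : φ < (k + 1) * (π / 240) := by
    rw [← div_lt_iff₀ d0]; exact Nat.lt_floor_add_one _
  have k3 : k < 480 := by
    rw [hk, Nat.floor_lt (by positivity), div_lt_iff₀ d0]; push_cast; linarith
  clear hk
  clear_value k
  obtain ⟨ψ, rfl⟩ : ∃ ψ, φ = k * (π / 240) + ψ := ⟨φ - k * (π / 240), by ring⟩
  have q0 : 0 ≤ ψ := by linarith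
  have q1 : ψ ≤ π / 240 := by linarith
  refine ⟨k, k3, r * sin (π / 240 - ψ) / sin (π / 240), r * sin ψ / sin (π / 240),
    div_nonneg (mul_nonneg r0 (sin_nonneg_of_nonneg_of_le_pi (by linarith) (by linarith))) s0.le,
    div_nonneg (mul_nonneg r0 (sin_nonneg_of_nonneg_of_le_pi q0 (by linarith))) s0.le, ?_⟩
  have e : ((k + 1 : ℕ) : ℝ) * (π / 240) = k * (π / 240) + π / 240 := by push_cast; ring
  ext
  · simp only [ev, e, Prod.fst_add, Prod.smul_fst, smul_eq_mul, h1, cos_add, sin_sub]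
    field_simp
    ring
  · simp only [ev, e, Prod.snd_add, Prod.smul_snd, smul_eq_mul, h2, sin_add, sin_sub]
    field_simp
    ring

theorem alg {a b A B g N : ℝ} (a0 : 0 < a) (b0 : 0 < b) (A0 : 0 ≤ A) (B0 : 0 ≤ B) (g0 : 0 ≤ g)
    (g1 : g ≤ 1) (h1 : a * A + a * B * g ≤ N) (h2 : b * B + b * A * g ≤ N) :
    (a * A + b * B) * (1 + g) ≤ 2 * N := by
  have r0 : 0 ≤ a * A + b * B := by positivity
  by_contra hc
  obtain ⟨d, hd⟩ : ∃ d, d = a * A + b * B - N := ⟨_, rfl⟩
  have c1 : (1 - g) * (a * A + b * B) < 2 * d := by nlinarith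
  have d0 : 0 < d := by nlinarith [mul_nonneg (sub_nonneg.2 g1) r0]
  have c2 : d ≤ B * (b - a * g) := by nlinarith
  have c3 : d ≤ A * (a - b * g) := by nlinarith
  have P0 : 0 < b - a * g := by
    by_contra h; nlinarith [mul_nonneg B0 (neg_nonneg.2 (not_lt.1 h))]
  have Q0 : 0 < a - b * g := by
    by_contra h; nlinarith [mul_nonneg A0 (neg_nonneg.2 (not_lt.1 h))]
  have e1 := mul_le_mul_of_nonneg_left c2 (mul_pos b0 Q0).le
  have e2 := mul_le_mul_of_nonneg_left c3 (mul_pos a0 P0).le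
  have e3 := mul_lt_mul_of_pos_right c1 (mul_pos P0 Q0)
  have e4 : d * (b * (a - b * g) + a * (b - a * g)) ≤
      (a * A + b * B) * ((b - a * g) * (a - b * g)) := by nlinarith
  have e5 := mul_le_mul_of_nonneg_left e4 (sub_nonneg.2 g1)
  have e6 : 0 ≤ d * (g * (1 + g) * (a - b) ^ 2) := by positivity
  nlinarith

end RO_

open RO_

theorem t_RO (hT : S_TR) (hS : S_SH) : S_RO := by
  intro ν w ta ro hle hw hta hwa hro x
  have hp := pi_pos
  have hp4 := pi_le_four
  set τ : ℝ := ta / 1024 with hτ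
  have t0 : 0 ≤ τ := by positivity
  have t4 : τ ≤ 4 := by
    have : (ta : ℝ) ≤ 4096 := by exact_mod_cast hta
    rw [hτ]; linarith
  have hta' : (ta : ℝ) = 1024 * τ := by rw [hτ]; ring
  have hwa' : (281474976710656 : ℝ) ≤ w * w * (1048576 + ta * ta) := by exact_mod_cast hwa
  have w0 : (0 : ℝ) < w := by
    rcases Nat.eq_zero_or_pos w with h | h
    · rw [h] at hwa; omega
    · exact_mod_cast h
  have pos : ∀ k, 0 < ν (ev k) := fun k => by have := hw k; linarith
  have big : ∀ k, 1 ≤ (τ * ν (ev k)) ^ 2 + ν (ev k) ^ 2 := fun k => by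
    have a1 := mul_self_le_mul_self w0.le (hw k)
    have a2 := mul_le_mul_of_nonneg_right a1 (by positivity : (0 : ℝ) ≤ 1048576 + ta * ta)
    rw [hta'] at a2 hwa'
    linarith only [a2, hwa']
  have s0 : 0 ≤ sin (π / 240) := sin_nonneg_of_nonneg_of_le_pi (by positivity) (by linarith)
  have s1 : sin (π / 240) ≤ π / 240 := sin_le (by positivity)
  have c1 := one_sub_sq_div_two_le_cos (x := π / 240)
  have c2 := cos_le_one (π / 240)
  set g := cos (π / 240) - τ * sin (π / 240) with hg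
  have g0 : 0 ≤ g := by rw [hg]; nlinarith
  have g1 : g ≤ 1 := by rw [hg]; nlinarith [mul_nonneg t0 s0]
  have hro' : 20000 ≤ ro * (1 + g) := by
    have a1 := (hT 2 (by norm_num)).1
    have a2 := (hT 1198 (by norm_num)).2
    have e1 : ((2 : ℕ) : ℝ) * (π / 480) = π / 240 := by push_cast; ring
    have e2 : ((1198 : ℕ) : ℝ) * (π / 480) = π / 2 - π / 240 + 2 * π := by push_cast; ring
    rw [e1] at a1
    rw [e2, cos_add_two_pi, cos_pi_div_two_sub] at a2
    generalize ch 2 = m at a1 hro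
    generalize ch 1198 = m' at a2 hro
    have a3 : (m' : ℝ) ≤ (m' - 1048574 : ℕ) + 1048574 := by exact_mod_cast le_tsub_add
    generalize m' - 1048574 = q at a3 hro
    have a4 : (21474836480000 : ℝ) + ro * ta * q ≤ ro * 1024 * m := by exact_mod_cast hro
    have r0 : (0 : ℝ) ≤ ro := Nat.cast_nonneg _
    have a5 := mul_le_mul_of_nonneg_left a1 r0
    have a6 : 2 ^ 20 * sin (π / 240) ≤ q := by linarith
    have a7 := mul_le_mul_of_nonneg_left a6 (mul_nonneg r0 t0)
    rw [hta'] at a4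
    rw [hg]; linarith only [a4, a5, a7]
  obtain ⟨k, hk, A, B, A0, B0, hx⟩ := cone x
  have e : ((k + 1 : ℕ) : ℝ) * (π / 240) = k * (π / 240) + π / 240 := by push_cast; ring
  have h1 := sh0 hS (k * (π / 240)) (A + B * cos (π / 240)) (B * sin (π / 240)) _ hle
    (mul_nonneg t0 (pos k).le) (big k)
  have h2 := sh0 hS (((k + 1 : ℕ) : ℝ) * (π / 240)) (B + A * cos (π / 240))
    (-(A * sin (π / 240))) _ hle (mul_nonneg t0 (pos (k + 1)).le) (big (k + 1))
  have c := sin_sq_add_cos_sq (π / 240)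
  have x1 : ((A + B * cos (π / 240)) * cos (k * (π / 240)) - B * sin (π / 240) * sin (k * (π / 240)),
      (A + B * cos (π / 240)) * sin (k * (π / 240)) + B * sin (π / 240) * cos (k * (π / 240))) = x := by
    rw [hx]
    ext <;> simp only [ev, e, Prod.fst_add, Prod.smul_fst, Prod.snd_add, Prod.smul_snd, smul_eq_mul,
      cos_add, sin_add] <;> ring
  have x2 : ((B + A * cos (π / 240)) * cos (((k + 1 : ℕ) : ℝ) * (π / 240)) -
      -(A * sin (π / 240)) * sin (((k + 1 : ℕ) : ℝ) * (π / 240)),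
      (B + A * cos (π / 240)) * sin (((k + 1 : ℕ) : ℝ) * (π / 240)) +
      -(A * sin (π / 240)) * cos (((k + 1 : ℕ) : ℝ) * (π / 240))) = x := by
    rw [hx]
    ext <;> simp only [ev, e, Prod.fst_add, Prod.smul_fst, Prod.snd_add, Prod.smul_snd, smul_eq_mul,
      cos_add, sin_add]
    · linear_combination A * cos (k * (π / 240)) * c
    · linear_combination A * sin (k * (π / 240)) * c
  rw [x1, abs_of_nonneg (mul_nonneg B0 s0)] at h1
  rw [x2, abs_neg, abs_of_nonneg (mul_nonneg A0 s0)] at h2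
  change ν (ev k) * _ - _ ≤ _ at h1
  change ν (ev (k + 1)) * _ - _ ≤ _ at h2
  have pa := pos k
  have pb := pos (k + 1)
  have key := alg (N := ν x) pa pb A0 B0 g0 g1 (by rw [hg]; linarith) (by rw [hg]; linarith)
  have tri : ν x ≤ ν (ev k) * A + ν (ev (k + 1)) * B := by
    have := map_add_le_add ν (A • ev k) (B • ev (k + 1))
    rw [← hx, smul_nn ν A0, smul_nn ν B0] at this
    linarith
  have r0 : 0 ≤ ν (ev k) * A + ν (ev (k + 1)) * B := by positivity
  have fin : 10000 * (ν (ev k) * A + ν (ev (k + 1)) * B) ≤ ro * ν x := by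
    have a1 := mul_le_mul_of_nonneg_left key (Nat.cast_nonneg ro : (0 : ℝ) ≤ ro)
    have a2 := mul_le_mul_of_nonneg_left hro' r0
    linarith only [a1, a2]
  have m1 := mul_nonneg pa.le A0
  have m2 := mul_nonneg pb.le B0
  rcases r0.eq_or_lt with h0 | h0
  · have hA : A = 0 :=
      (mul_eq_zero.1 (le_antisymm (by linarith only [h0, m2]) m1)).resolve_left pa.ne'
    have hB : B = 0 :=
      (mul_eq_zero.1 (le_antisymm (by linarith only [h0, m1]) m2)).resolve_left pb.ne'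
    refine ⟨k, hk, 0, _, le_rfl, zero_le_one, ?_, tri, fin⟩
    rw [← h0, hx, hA, hB]; simp
  · refine ⟨k, hk, ν (ev (k + 1)) * B / (ν (ev k) * A + ν (ev (k + 1)) * B), _, by positivity,
      (div_le_one h0).2 (by linarith only [m1]), ?_, tri, fin⟩
    rw [smul_add, uv, uv, smul_smul, smul_smul, smul_smul, smul_smul]
    refine hx.trans ?_
    congr 2
    · rw [mul_one_sub, mul_div_cancel₀ _ h0.ne', add_sub_cancel_right, mul_comm (ν (ev k)),
        mul_inv_cancel_right₀ pa.ne']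
    · rw [mul_div_cancel₀ _ h0.ne', mul_comm (ν (ev (k + 1))), mul_inv_cancel_right₀ pb.ne']

end

section


open Real

namespace YV_

theorem sub_ge (a b : ℕ) : (a : ℝ) - b ≤ ((a - b : ℕ) : ℝ) := by
  rcases le_total a b with h | h
  · have : (a : ℝ) ≤ b := by exact_mod_cast h
    have h0 : (0 : ℝ) ≤ ((a - b : ℕ) : ℝ) := Nat.cast_nonneg _
    linarith
  · rw [Nat.cast_sub h]

theorem div_gt (a d : ℕ) (hd : 0 < d) : (a : ℝ) / d ≤ ((a / d : ℕ) : ℝ) + 1 := by
  have h : a < d * (a / d + 1) := Nat.lt_mul_div_succ a hd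
  have h' : (a : ℝ) < d * ((a / d : ℕ) + 1) := by exact_mod_cast h
  have hd' : (0 : ℝ) < d := by exact_mod_cast hd
  rw [div_le_iff₀ hd']
  linarith

theorem yv_eq (B j m w s a b : ℕ) : yv B j m w s a b =
    (B * 16384 + w * (a + b) + s * (((b * (ch (1200 - (j - m) * 2) + 2) + a * 1048576 -
      (a * ch (1200 - m * 2) + b * 1048576)) + (a * (ch (1200 - m * 2) + 2) + b * 1048576 -
      (b * ch (1200 - (j - m) * 2) + a * 1048576))) / 1048576 + 1) -
      w * ((a * ch (m * 2) + b * ch ((j - m) * 2)) / 1048576)) / 16384 + 1 := by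
  simp only [yv, Nat.add_eq, Nat.mul_eq, Nat.sub_eq, Nat.shiftRight_eq, div_eq,
    Nat.shiftRight_eq_div_pow]

theorem tc (hT : S_TR) {k : ℕ} (hk : k < 240) :
    (ch (k * 2) : ℝ) ≤ 1048576 * (1 + cos (k * (π / 240))) := by
  have h := (hT (k * 2) (by omega)).1
  have e : ((k * 2 : ℕ) : ℝ) * (π / 480) = k * (π / 240) := by push_cast; ring
  rw [e] at h
  linarith

theorem ts (hT : S_TR) {k : ℕ} (hk : k < 240) :
    (ch (1200 - k * 2) : ℝ) ≤ 1048576 * (1 + sin (k * (π / 240))) ∧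
      1048576 * (1 + sin (k * (π / 240))) ≤ (ch (1200 - k * 2) : ℝ) + 2 := by
  have h := hT (1200 - k * 2) (by omega)
  have e : ((1200 - k * 2 : ℕ) : ℝ) * (π / 480) = (π / 2 - k * (π / 240)) + 2 * π := by
    rw [Nat.cast_sub (by omega)]; push_cast; ring
  rw [e, cos_add_two_pi, cos_pi_div_two_sub] at h
  constructor <;> linarith [h.1, h.2]

theorem yv_ge (hT : S_TR) (B : ℕ) {j n : ℕ} (hj : j < 240) (hn : n ≤ j) (w s a b : ℕ) :
    (B * 16384 - w * (a * cos (n * (π / 240)) + b * cos ((j - n : ℕ) * (π / 240))) +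
      s * |b * sin ((j - n : ℕ) * (π / 240)) - a * sin (n * (π / 240))|) / 16384 ≤
      (yv B j n w s a b : ℝ) := by
  have c1 := tc hT (k := n) (by omega)
  have c2 := tc hT (k := j - n) (by omega)
  obtain ⟨s1, s1'⟩ := ts hT (k := n) (by omega)
  obtain ⟨s2, s2'⟩ := ts hT (k := j - n) (by omega)
  rw [yv_eq]
  generalize cos ((n : ℝ) * (π / 240)) = C1 at *
  generalize cos (((j - n : ℕ) : ℝ) * (π / 240)) = C2 at *
  generalize sin ((n : ℝ) * (π / 240)) = S1 at *
  generalize sin (((j - n : ℕ) : ℝ) * (π / 240)) = S2 at *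
  generalize ch (n * 2) = k1 at *
  generalize ch ((j - n) * 2) = k2 at *
  generalize ch (1200 - n * 2) = h1 at *
  generalize ch (1200 - (j - n) * 2) = h2 at *
  have ha : (0 : ℝ) ≤ a := Nat.cast_nonneg _
  have hb : (0 : ℝ) ≤ b := Nat.cast_nonneg _
  have hw : (0 : ℝ) ≤ w := Nat.cast_nonneg _
  have hs : (0 : ℝ) ≤ s := Nat.cast_nonneg _
  have t1 := sub_ge (b * (h2 + 2) + a * 1048576) (a * h1 + b * 1048576)
  have t2 := sub_ge (a * (h1 + 2) + b * 1048576) (b * h2 + a * 1048576)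
  have p1 : (0 : ℝ) ≤ ((b * (h2 + 2) + a * 1048576 - (a * h1 + b * 1048576) : ℕ) : ℝ) :=
    Nat.cast_nonneg _
  have p2 : (0 : ℝ) ≤ ((a * (h1 + 2) + b * 1048576 - (b * h2 + a * 1048576) : ℕ) : ℝ) :=
    Nat.cast_nonneg _
  generalize b * (h2 + 2) + a * 1048576 - (a * h1 + b * 1048576) = T1 at *
  generalize a * (h1 + 2) + b * 1048576 - (b * h2 + a * 1048576) = T2 at *
  have d1 := div_gt (T1 + T2) 1048576 (by norm_num)
  have d2 : (((a * k1 + b * k2) / 1048576 : ℕ) : ℝ) ≤ ((a * k1 + b * k2 : ℕ) : ℝ) / (1048576 : ℕ) :=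
    Nat.cast_div_le
  generalize (T1 + T2) / 1048576 = D1 at *
  generalize (a * k1 + b * k2) / 1048576 = D2 at *
  have t3 := sub_ge (B * 16384 + w * (a + b) + s * (D1 + 1)) (w * D2)
  generalize B * 16384 + w * (a + b) + s * (D1 + 1) - w * D2 = T3 at *
  have d3 := div_gt T3 16384 (by norm_num)
  push_cast at *
  have y1 : |b * S2 - a * S1| ≤ (D1 : ℝ) + 1 := by
    have m1 := mul_le_mul_of_nonneg_left s1 ha
    have m2 := mul_le_mul_of_nonneg_left s1' ha
    have m3 := mul_le_mul_of_nonneg_left s2 hb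
    have m4 := mul_le_mul_of_nonneg_left s2' hb
    rw [abs_le]
    constructor <;> linarith
  have x1 : (D2 : ℝ) ≤ a + b + (a * C1 + b * C2) := by
    have m1 := mul_le_mul_of_nonneg_left c1 ha
    have m2 := mul_le_mul_of_nonneg_left c2 hb
    linarith
  have m1 := mul_le_mul_of_nonneg_left y1 hs
  have m2 := mul_le_mul_of_nonneg_left x1 hw
  linarith

theorem bil_le {l m a b c d a' b' c' d' : ℝ} (h : U2 l m) (ha : a ≤ a') (hb : b ≤ b')
    (hc : c ≤ c') (hd : d ≤ d') : bil l m a b c d ≤ bil l m a' b' c' d' := by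
  obtain ⟨h1, h2, h3, h4⟩ := h
  have h5 : 0 ≤ 1 - l := by linarith
  have h6 : 0 ≤ 1 - m := by linarith
  unfold bil
  gcongr

theorem bil_abs {l m a b c d : ℝ} (h : U2 l m) :
    |bil l m a b c d| ≤ bil l m |a| |b| |c| |d| := by
  rw [abs_le]
  constructor
  · have := bil_le h (neg_abs_le a) (neg_abs_le b) (neg_abs_le c) (neg_abs_le d)
    have e : bil l m (-|a|) (-|b|) (-|c|) (-|d|) = -bil l m |a| |b| |c| |d| := by
      unfold bil; ring
    linarith
  · exact bil_le h (le_abs_self a) (le_abs_self b) (le_abs_self c) (le_abs_self d)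

theorem key (hS : S_SH) {ν : SN} {B i j n : ℕ} {w s : ℝ} (hN : Nm ν B) (hn : n ≤ j)
    (n1 : 0 < ν (ev i)) (n2 : 0 < ν (ev (i + j))) (hw : 16384 * ν (ev (i + n)) = w) (hs : 0 < s)
    (h : 268435456 ≤ w * w + s * s) :
    16384 * ν (uv ν (i + j) - uv ν i) ≤ (B * 16384 -
      w * (16384 / ν (ev i) * cos (n * (π / 240)) +
        16384 / ν (ev (i + j)) * cos ((j - n : ℕ) * (π / 240))) +
      s * |16384 / ν (ev (i + j)) * sin ((j - n : ℕ) * (π / 240)) -
        16384 / ν (ev i) * sin (n * (π / 240))|) / 16384 := by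
  have hl := hN.lam (uv ν (i + j)) (uv ν i) (nu_uv n2).le (nu_uv n1).le
  have e0 : ν (cos (((i + n : ℕ) : ℝ) * (π / 240)), sin (((i + n : ℕ) : ℝ) * (π / 240))) =
      w / 16384 := by
    rw [← hw]; simp only [ev]; ring
  have h1 := @hS ν (((i + n : ℕ) : ℝ) * (π / 240))
    ((ν (ev i))⁻¹ * cos (n * (π / 240)) + (ν (ev (i + j)))⁻¹ * cos ((j - n : ℕ) * (π / 240)))
    ((ν (ev (i + j)))⁻¹ * sin ((j - n : ℕ) * (π / 240)) - (ν (ev i))⁻¹ * sin (n * (π / 240)))
    (s / 16384) hN.le (by positivity) (by rw [e0]; nlinarith)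
  have e1 : (i : ℝ) * (π / 240) = ((i + n : ℕ) : ℝ) * (π / 240) - n * (π / 240) := by
    push_cast; ring
  have e2 : ((i + j : ℕ) : ℝ) * (π / 240) =
      ((i + n : ℕ) : ℝ) * (π / 240) + (j - n : ℕ) * (π / 240) := by
    rw [Nat.cast_sub hn]; push_cast; ring
  have e3 : uv ν (i + j) + uv ν i =
      (((ν (ev i))⁻¹ * cos (n * (π / 240)) + (ν (ev (i + j)))⁻¹ * cos ((j - n : ℕ) * (π / 240))) *
          cos (((i + n : ℕ) : ℝ) * (π / 240)) -
        ((ν (ev (i + j)))⁻¹ * sin ((j - n : ℕ) * (π / 240)) - (ν (ev i))⁻¹ * sin (n * (π / 240))) *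
          sin (((i + n : ℕ) : ℝ) * (π / 240)),
      ((ν (ev i))⁻¹ * cos (n * (π / 240)) + (ν (ev (i + j)))⁻¹ * cos ((j - n : ℕ) * (π / 240))) *
          sin (((i + n : ℕ) : ℝ) * (π / 240)) +
        ((ν (ev (i + j)))⁻¹ * sin ((j - n : ℕ) * (π / 240)) - (ν (ev i))⁻¹ * sin (n * (π / 240))) *
          cos (((i + n : ℕ) : ℝ) * (π / 240))) := by
    unfold uv
    generalize (ν (ev i))⁻¹ = r1
    generalize (ν (ev (i + j)))⁻¹ = r2
    unfold ev
    rw [e1, e2, cos_add, sin_add, cos_sub, sin_sub]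
    ext
    · simp only [Prod.fst_add, Prod.smul_fst, smul_eq_mul]; ring
    · simp only [Prod.snd_add, Prod.smul_snd, smul_eq_mul]; ring
  rw [← e3, e0] at h1
  have e4 : |16384 / ν (ev (i + j)) * sin ((j - n : ℕ) * (π / 240)) -
        16384 / ν (ev i) * sin (n * (π / 240))| = 16384 *
      |(ν (ev (i + j)))⁻¹ * sin ((j - n : ℕ) * (π / 240)) - (ν (ev i))⁻¹ * sin (n * (π / 240))| := by
    have e5 : ∀ x : ℝ, 16384 * |x| = |16384 * x| := fun x => by
      rw [abs_mul, abs_of_pos (show (0 : ℝ) < 16384 by norm_num)]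
    rw [e5]
    congr 1
    ring
  rw [e4, div_eq_mul_inv 16384 (ν (ev i)), div_eq_mul_inv 16384 (ν (ev (i + j)))]
  linarith

end YV_

theorem t_YV (hT : S_TR) (hS : S_SH) : S_YV := by
  intro ν B i j p q y z c l m n lo hi s κ hN hj hC hn k0 k1 hlh hw hs h
  have hlo : (lo : ℝ) ≤ hi := by exact_mod_cast hlh
  have hl0 : (0 : ℝ) ≤ lo := Nat.cast_nonneg _
  have hs' : (0 : ℝ) < s := by exact_mod_cast hs
  have h' : (268435456 : ℝ) ≤ lo * lo + s * s := by exact_mod_cast h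
  have hw1 : (lo : ℝ) ≤ (1 - κ) * lo + κ * hi := by nlinarith
  have K := YV_.key hS hN hn hC.n1 hC.n2 hw hs' (by nlinarith)
  rw [hC.r1, hC.r2] at K
  have g := fun w a b => YV_.yv_ge hT B hj hn w s a b
  have b1 := YV_.bil_le hC.u (g lo p y) (g lo p (bt c 0 65535)) (g lo q z) (g lo q (bt c 16 65535))
  have b2 := YV_.bil_le hC.u (g hi p y) (g hi p (bt c 0 65535)) (g hi q z) (g hi q (bt c 16 65535))
  clear g
  generalize cos ((n : ℝ) * (π / 240)) = C1 at *
  generalize cos (((j - n : ℕ) : ℝ) * (π / 240)) = C2 at *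
  generalize sin ((n : ℝ) * (π / 240)) = S1 at *
  generalize sin (((j - n : ℕ) : ℝ) * (π / 240)) = S2 at *
  have a1 := YV_.bil_abs (a := y * S2 - p * S1) (b := (bt c 0 65535 : ℕ) * S2 - p * S1)
    (c := z * S2 - q * S1) (d := (bt c 16 65535 : ℕ) * S2 - q * S1) hC.u
  have e1 : bil l m (y * S2 - p * S1) ((bt c 0 65535 : ℕ) * S2 - p * S1) (z * S2 - q * S1)
      ((bt c 16 65535 : ℕ) * S2 - q * S1) =
      bil l m y (bt c 0 65535 : ℕ) z (bt c 16 65535 : ℕ) * S2 - ((1 - l) * p + l * q) * S1 := by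
    unfold bil; ring
  rw [e1] at a1
  have a2 := mul_le_mul_of_nonneg_left a1 hs'.le
  have m1 := mul_le_mul_of_nonneg_left b1 (sub_nonneg.2 k1)
  have m2 := mul_le_mul_of_nonneg_left b2 k0
  refine K.trans (le_trans ?_ (add_le_add m1 m2))
  generalize |(y : ℝ) * S2 - p * S1| = Y1 at *
  generalize |((bt c 0 65535 : ℕ) : ℝ) * S2 - p * S1| = Y2 at *
  generalize |(z : ℝ) * S2 - q * S1| = Y3 at *
  generalize |((bt c 16 65535 : ℕ) : ℝ) * S2 - q * S1| = Y4 at *
  generalize |bil l m y (bt c 0 65535 : ℕ) z (bt c 16 65535 : ℕ) * S2 -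
    ((1 - l) * p + l * q) * S1| = Y0 at *
  unfold bil at a2 ⊢
  linarith

end

section


open Real

namespace TA_

theorem tb_le (T k o : ℕ) : Tb T k o ≤ 65535 := bt_le _ _ _

theorem row_rep (hB : LB) (hC : LC) (T k : ℕ) : Rep 64 15 (row T k) (Tb T k) :=
  (hB.bt (m := 16) T (k * 960) (by norm_num) hC.m5).congr fun _ _ => rfl

theorem mul_le {a b A B : ℕ} (h : a ≤ A) (h' : b ≤ B) : a * b ≤ A * B := Nat.mul_le_mul h h'

theorem mb_le (g i o : ℕ) : mb g i o ≤ 1 := Nat.and_le_right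

theorem mk_rep (hA : LA) (hB : LB) (hC : LC) (g i : ℕ) :
    Rep 64 15 (mk g i) fun o => mb g i o * 1099511627775 :=
  hA.mul 1099511627775 (hB.land (bt g i 32767 * on 63 15) hC.o5) fun o _ => by
    have := mb_le g i o
    show mb g i o * 1099511627775 < 2 ^ 64
    omega

theorem sl_rep (hA : LA) (hB : LB) (hC : LC) (g i : ℕ) {x y : ℕ} {f e : ℕ → ℕ}
    (hx : Rep 64 15 x f) (hy : Rep 64 15 y e) (hf : ∀ o < 15, f o < 2 ^ 40)
    (he : ∀ o < 15, e o < 2 ^ 40) :
    Rep 64 15 (sl (mk g i) x y) fun o => if mb g i o = 1 then f o else e o := by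
  have h : ∀ a o, a < 2 ^ 40 →
      a &&& mb g i o * 1099511627775 = if mb g i o = 1 then a else 0 := fun a o ha => by
    rcases Nat.le_one_iff_eq_zero_or_eq_one.1 (mb_le g i o) with h | h
    · rw [h]; simp
    · rw [h, if_pos rfl, one_mul, show 1099511627775 = 2 ^ 40 - 1 from rfl,
        Nat.and_two_pow_sub_one_eq_mod, Nat.mod_eq_of_lt ha]
  have h1 : Rep 64 15 (x &&& mk g i) fun o => if mb g i o = 1 then f o else 0 :=
    (hB.land x (mk_rep hA hB hC g i)).congr fun o ho => by rw [hx.eq o ho, h _ _ (hf o ho)]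
  have h2 : Rep 64 15 (y &&& mk g i) fun o => if mb g i o = 1 then e o else 0 :=
    (hB.land y (mk_rep hA hB hC g i)).congr fun o ho => by rw [hy.eq o ho, h _ _ (he o ho)]
  have h3 := hA.sub hy h2 fun o _ => by split_ifs <;> omega
  refine (hA.add h1 h3 fun o ho => ?_).congr fun o _ => by split_ifs <;> omega
  have := hf o ho
  have := he o ho
  split_ifs <;> omega

end TA_

open TA_ in
theorem t_TA (hA : LA) (hB : LB) (hC : LC) : TA := by
  have hr := row_rep hB hC
  have hm : ∀ (T k c : ℕ), c ≤ 2 ^ 40 → Rep 64 15 (row T k * c) fun o => Tb T k o * c :=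
    fun T k c hc => hA.mul c (hr T k) fun o _ => by
      have := mul_le (tb_le T k o) hc; omega
  constructor
  · intro D K T h
    simp only [tab, an_iff, orr_iff, al_iff, mn_eq, Nat.add_eq, Nat.mul_eq, Nat.sub_eq,
      Nat.ble_eq] at h
    obtain ⟨⟨⟨hD, hK⟩, hz⟩, hk⟩ := h
    have hmono : ∀ k < K, ∀ o < 15, Tb T k o ≤ Tb T (k + 1) o := fun k hk' =>
      hC.ge (w := 63) hC.h5 (hr T (k + 1)) (hr T k)
        (fun o _ => by have := tb_le T (k + 1) o; omega)
        (fun o _ => by have := tb_le T k o; omega) (hk k hk').1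
    refine ⟨hD, hK, fun o ho => ?_, hmono, fun k hk1 o ho => ?_⟩
    · have h1 : Rep 64 15 (RN * 16384) fun o => nn o * 16384 :=
        hA.mul 16384 rep_RN fun o ho => by have := (ray_cases o ho).1; omega
      have hb : ∀ o < 15, Tb T 0 o * 128 + nn o * 16384 < 2 ^ 63 := fun o ho => by
        have := (ray_cases o ho).1; have := tb_le T 0 o; omega
      have h2 := hA.add (hm T 0 128 (by norm_num)) h1 fun o ho => by have := hb o ho; omega
      have h3 := hA.mul 2097152 hC.o5 fun o _ => by norm_num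
      have := hC.ge (w := 63) hC.h5 h2 h3 hb (fun o _ => by norm_num) hz o ho
      omega
    · have h0 := ((hk k (by omega)).2).resolve_left (by omega)
      have hmin : min D (k * 1024) ≤ 1023 := (min_le_left _ _).trans hD
      have b1 : ∀ j o, Tb T j o * 1024 ≤ 65535 * 1024 := fun j o => mul_le (tb_le T j o) le_rfl
      have b2 : ∀ j o, Tb T j o * D ≤ 65535 * 1023 := fun j o => mul_le (tb_le T j o) hD
      have b3 : ∀ o, (Tb T (k + 1) o - Tb T k o) * min D (k * 1024) ≤ 65535 * 1023 := fun o =>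
        mul_le ((Nat.sub_le _ _).trans (tb_le T _ o)) hmin
      have h1 := hA.add (hm T (k + 1) 1024 (by norm_num)) (hm T (k + 1) D (by omega))
        fun o _ => by have := b1 (k + 1) o; have := b2 (k + 1) o; omega
      have h2 := hA.mul (min D (k * 1024))
        (hA.sub (hr T (k + 1)) (hr T k) (hmono k (by omega))) fun o _ => by have := b3 o; omega
      have hb : ∀ o < 15, Tb T (k + 1) o * 1024 + Tb T (k + 1) o * D +
          (Tb T (k + 1) o - Tb T k o) * min D (k * 1024) < 2 ^ 63 := fun o _ => by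
        have := b1 (k + 1) o; have := b2 (k + 1) o; have := b3 o; omega
      have hb' : ∀ o < 15, Tb T k o * 1024 + Tb T (k + 2) o * D < 2 ^ 63 := fun o _ => by
        have := b1 k o; have := b2 (k + 2) o; omega
      have h3 := hA.add h1 h2 fun o ho => by have := hb o ho; omega
      have h4 := hA.add (hm T k 1024 (by norm_num)) (hm T (k + 2) D (by omega))
        fun o ho => by have := hb' o ho; omega
      have h5 := hC.ge (w := 63) hC.h5 h3 h4 hb hb' h0 o ho
      have h6 : ((Tb T k o * 1024 + Tb T (k + 2) o * D : ℕ) : ℝ) ≤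
          (Tb T (k + 1) o * 1024 + Tb T (k + 1) o * D +
            (Tb T (k + 1) o - Tb T k o) * min D (k * 1024) : ℕ) := Nat.cast_le.2 h5
      have e1 : ((k * 1024 - D : ℕ) : ℝ) = k * 1024 - (min D (k * 1024) : ℕ) := by
        rw [show k * 1024 - D = k * 1024 - min D (k * 1024) by omega,
          Nat.cast_sub (min_le_right _ _)]
        push_cast; ring
      have e2 : (((k + 1) * 1024 - D : ℕ) : ℝ) = (k + 1) * 1024 - D := by
        rw [Nat.cast_sub (by omega)]; push_cast; ring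
      unfold Lk
      rw [e1, e2]
      generalize min D (k * 1024) = μ at h6
      push_cast [Nat.cast_sub (hmono k (by omega) o ho)] at h6 ⊢
      rw [show k + 1 + 1 = k + 2 from rfl]
      linarith
  · intro Bl T V k x f hBl hk hx hmono hV hf h o ho
    simp only [tk, dl, Nat.add_eq, Nat.mul_eq, Nat.sub_eq] at h
    have hd := hA.sub (hr T (k + 1)) (hr T k) hmono
    have d0 : ∀ o, Tb T (k + 1) o - Tb T k o ≤ 65535 := fun o =>
      (Nat.sub_le _ _).trans (tb_le T _ o)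
    have b1 : ∀ o, Tb T k o * (Bl * 917504) ≤ 65535 * (65535 * 917504) := fun o =>
      mul_le (tb_le T k o) (mul_le hBl le_rfl)
    have b2 : ∀ o, (Tb T (k + 1) o - Tb T k o) * (Bl * 896) ≤ 65535 * (65535 * 896) := fun o =>
      mul_le (d0 o) (mul_le hBl le_rfl)
    have b3 : ∀ o, (Tb T (k + 1) o - Tb T k o) * (Bl * 896) * x ≤ 65535 * (65535 * 896) * 65535 :=
      fun o => mul_le (b2 o) hx
    have b4 : ∀ o, (Tb T (k + 1) o - Tb T k o) * (Bl * 917504 * k) ≤
        65535 * (65535 * 917504 * 59) := fun o => mul_le (d0 o) (mul_le (mul_le hBl le_rfl) hk)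
    have h1 := hA.mul x (hA.mul (Bl * 896) hd fun o _ => by have := b2 o; omega)
      fun o _ => by have := b3 o; omega
    have hb : ∀ o < 15, Tb T k o * (Bl * 917504) +
        (Tb T (k + 1) o - Tb T k o) * (Bl * 896) * x < 2 ^ 63 := fun o _ => by
      have := b1 o; have := b3 o; omega
    have hb' : ∀ o < 15, f o + (Tb T (k + 1) o - Tb T k o) * (Bl * 917504 * k) < 2 ^ 63 :=
      fun o ho => by have := b4 o; have := hf o ho; omega
    have h2 := hA.add (hm T k (Bl * 917504) (by omega)) h1 fun o ho => by have := hb o ho; omega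
    have h3 := hA.add hV (hA.mul (Bl * 917504 * k) hd fun o _ => by have := b4 o; omega)
      fun o ho => by have := hb' o ho; omega
    have h5 := hC.ge (w := 63) hC.h5 h2 h3 hb hb' h o ho
    have h6 : ((f o + (Tb T (k + 1) o - Tb T k o) * (Bl * 917504 * k) : ℕ) : ℝ) ≤
        (Tb T k o * (Bl * 917504) + (Tb T (k + 1) o - Tb T k o) * (Bl * 896) * x : ℕ) :=
      Nat.cast_le.2 h5
    unfold Lk
    push_cast [Nat.cast_sub (hmono o ho)] at h6
    linarith

open TA_ in
theorem t_VL (hA : LA) (hB : LB) (hC : LC) : S_VL := by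
  intro P φ Y g h hP hφ hY
  have hn : ∀ o < 15, nn o ≤ 128 := fun o ho => (ray_cases o ho).1
  have hRN : ∀ c, c ≤ 1048576 → Rep 64 15 (RN * c) fun o => nn o * c := fun c hc =>
    hA.mul c rep_RN fun o ho => by have := mul_le (hn o ho) hc; omega
  have hO : ∀ c, c ≤ 2 ^ 40 → Rep 64 15 (O5 * c) fun _ => c := fun c hc =>
    (hA.mul c hC.o5 fun o _ => by omega).congr fun _ _ => one_mul c
  have a1 := hA.add (hO 14680064 (by norm_num)) (hRN 114688 (by norm_num))
    fun o ho => by have := hn o ho; omega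
  have a2 : ∀ c, c ≤ 896 → Rep 64 15 (P * c) fun o => φ o * c := fun c hc =>
    hA.mul c hP fun o ho => by have := mul_le (hφ o ho).le hc; omega
  have bY : ∀ o < 15, nn o * Y ≤ 128 * 1048576 := fun o ho => mul_le (hn o ho) hY
  have a3 := hA.add (hA.sub (hO 2097152 (by norm_num)) (hRN 16384 (by norm_num))
    fun o ho => by have := hn o ho; omega) (hRN Y hY) fun o ho => by have := bY o ho; omega
  have a4 := fun i => sl_rep hA hB hC g i (a2 128 (by norm_num)) a3
    (fun o ho => by have := hφ o ho; omega) fun o ho => by have := bY o ho; omega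
  have b4 : ∀ i, ∀ o < 15, (if mb g i o = 1 then φ o * 128 else
      2097152 - nn o * 16384 + nn o * Y) ≤ 136314880 := fun i o ho => by
    have := bY o ho; have := hφ o ho; split_ifs <;> omega
  have a5 := hA.add (hA.add (a4 32) (hA.mul 2 (a4 48) fun o ho => by have := b4 48 o ho; omega)
    fun o ho => by have := b4 32 o ho; have := b4 48 o ho; omega)
    (hA.mul 4 (a4 64) fun o ho => by have := b4 64 o ho; omega)
    fun o ho => by have := b4 32 o ho; have := b4 48 o ho; have := b4 64 o ho; omega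
  have c3 : ∀ o < 15, ((2097152 - nn o * 16384 : ℕ) : ℝ) = 2097152 - nn o * 16384 :=
    fun o ho => by rw [Nat.cast_sub (by have := hn o ho; omega)]; push_cast; ring
  by_cases h0 : h = 0
  · subst h0
    refine ⟨_, sl_rep hA hB hC g 80 a1 (a2 896 le_rfl) (fun o ho => by have := hn o ho; omega)
      fun o ho => by have := hφ o ho; omega, fun o ho => ⟨?_, ?_⟩⟩
    · have := hn o ho; have := hφ o ho; split_ifs <;> omega
    · simp only [vr, sr, if_true]; push_cast; rfl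
  · have e : vl g h P Y = sl (mk g 80) (O5 * 14680064 + RN * 114688)
        (v7 g (P * 128) (O5 * 2097152 - RN * 16384 + RN * Y)) := by
      simp only [vl, cn_eq, Nat.beq_eq, h0, if_false, Nat.add_eq, Nat.mul_eq, Nat.sub_eq]
    rw [e]
    refine ⟨_, sl_rep hA hB hC g 80 a1 a5 (fun o ho => by have := hn o ho; omega)
      fun o ho => by have := b4 32 o ho; have := b4 48 o ho; have := b4 64 o ho; omega,
      fun o ho => ⟨?_, ?_⟩⟩
    · have := hn o ho; have := b4 32 o ho; have := b4 48 o ho; have := b4 64 o ho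
      by_cases h1 : mb g 80 o = 1
      · rw [if_pos h1]; omega
      · rw [if_neg h1]; omega
    · simp only [vr, sr, h0, if_false, Nat.cast_ite, Nat.cast_add, Nat.cast_mul, c3 o ho,
        Nat.cast_ofNat]

end

section


open Real

namespace AV_

theorem lk_mix (T k o : ℕ) (t x x' : ℝ) :
    Lk T k o ((1 - t) * x + t * x') = (1 - t) * Lk T k o x + t * Lk T k o x' := by
  unfold Lk; ring

theorem cvx {t a b a' b' : ℝ} (h0 : 0 ≤ t) (h1 : t ≤ 1) (h : a ≤ b) (h' : a' ≤ b') :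
    (1 - t) * a + t * a' ≤ (1 - t) * b + t * b' :=
  add_le_add (mul_le_mul_of_nonneg_left h (sub_nonneg.2 h1)) (mul_le_mul_of_nonneg_left h' h0)

theorem lk_mono {D K T k o : ℕ} (hT : Tab D K T) (hk : k < K) (ho : o < 15) {x y : ℝ}
    (h : x ≤ y) : Lk T k o x ≤ Lk T k o y := by
  have h1 : (Tb T k o : ℝ) ≤ Tb T (k + 1) o := by exact_mod_cast hT.mono k hk o ho
  unfold Lk
  exact add_le_add le_rfl (mul_le_mul_of_nonneg_left (by linarith) (sub_nonneg.2 h1))

theorem lk_st {D K T k o : ℕ} (hT : Tab D K T) (ho : o < 15) : ∀ l, k ≤ l → l < K →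
    Lk T k o (k * 1024 - D : ℕ) ≤ Lk T l o (l * 1024 - D : ℕ) := by
  intro l hl
  induction l, hl using Nat.le_induction with
  | base => exact fun _ => le_rfl
  | succ l _ ih => exact fun h => (ih (by omega)).trans (hT.st l h o ho)

theorem ray {ν : SN} {u v : ℝ × ℝ} (hu : ν u = 1) (hv : ν v = 1) {o : ℕ} (ho : o < 15) :
    128 * ν (ra o • v - rb o • u) ≤ 128 + nn o ∧
      128 * ν (ra o • v - rb o • u) ≤ 128 - nn o + nn o * ν (v - u) := by
  obtain ⟨h, e⟩ := ray_cases o ho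
  have h1 : (nn o : ℝ) ≤ 128 := by exact_mod_cast h
  have h0 : (0 : ℝ) ≤ nn o / 128 := by positivity
  have h2 : (0 : ℝ) ≤ 1 - nn o / 128 := by linarith
  have h3 : ν (-u) = 1 := by rw [map_neg_eq_map, hu]
  rcases e with ⟨a, b⟩ | ⟨a, b⟩
  · have e1 : ra o = 1 := by rw [ra, a]; norm_num
    have e2 : rb o = nn o / 128 := by rw [rb, b]; push_cast; ring
    have p1 := comb_le ν zero_le_one h0 v (-u)
    have p2 := comb_le ν h2 h0 v (v - u)
    rw [show (1 : ℝ) • v + ((nn o : ℝ) / 128) • -u = ra o • v - rb o • u by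
      rw [e1, e2]; module, hv, h3] at p1
    rw [show (1 - (nn o : ℝ) / 128) • v + ((nn o : ℝ) / 128) • (v - u) = ra o • v - rb o • u by
      rw [e1, e2]; module, hv] at p2
    constructor <;> linarith
  · have e1 : ra o = nn o / 128 := by rw [ra, a]; push_cast; ring
    have e2 : rb o = 1 := by rw [rb, b]; norm_num
    have p1 := comb_le ν h0 zero_le_one v (-u)
    have p2 := comb_le ν h2 h0 (-u) (v - u)
    rw [show ((nn o : ℝ) / 128) • v + (1 : ℝ) • -u = ra o • v - rb o • u by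
      rw [e1, e2]; module, hv, h3] at p1
    rw [show (1 - (nn o : ℝ) / 128) • -u + ((nn o : ℝ) / 128) • (v - u) = ra o • v - rb o • u by
      rw [e1, e2]; module, h3] at p2
    constructor <;> linarith

theorem le_sr {g i o : ℕ} {a x y : ℝ} (hx : a ≤ x) (hy : a ≤ y) : a ≤ sr g i o x y := by
  unfold sr; split_ifs <;> assumption

end AV_

open AV_ in
theorem t_AV : AV where
  mix := fun {B0 Bl D K T j g a b w x V a' b' w' x' V' t} h h' h0 h1 => by
    refine ⟨fun n hn => ?_, ?_, fun k a1 a2 a3 o ho => ?_, ?_⟩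
    · have := cvx h0 h1 (h.pl n hn) (h'.pl n hn)
      linarith
    · rcases h.k0 with e | e
      · exact .inl e
      rcases h'.k0 with e' | e'
      · exact .inl e'
      right
      rcases le_total x x' with c | c <;> nlinarith
    · have := cvx h0 h1 (h.md k a1 a2 a3 o ho) (h'.md k a1 a2 a3 o ho)
      rw [lk_mix]; linarith
    · rcases h.k1 with e | e | e
      · exact .inl e
      · exact .inr (.inl e)
      rcases h'.k1 with e' | e' | e'
      · exact .inl e'
      · exact .inr (.inl e')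
      refine .inr (.inr fun o ho => ?_)
      have := cvx h0 h1 (e o ho) (e' o ho)
      linarith
  mono := fun {B0 Bl D K T j g a b w x V a' b' w' V'} h ha hb hw hV => by
    have hB : ∀ o < 15, (B0 : ℝ) * V' o ≤ B0 * V o := fun o ho =>
      mul_le_mul_of_nonneg_left (hV o ho) (Nat.cast_nonneg _)
    refine ⟨fun n hn => ?_, h.k0, fun k a1 a2 a3 o ho => (hB o ho).trans (h.md k a1 a2 a3 o ho),
      h.k1.imp_right (Or.imp_right fun e o ho => (hB o ho).trans (e o ho))⟩
    have p1 := mul_le_mul_of_nonneg_left ha (Nat.cast_nonneg (X1 g n))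
    have p2 := mul_le_mul_of_nonneg_left hb (Nat.cast_nonneg (X2 g n))
    have p3 := mul_le_mul_of_nonneg_left hw (Nat.cast_nonneg (X3 g n))
    linarith [h.pl n hn]
  fin := fun {B0 Bl D K T j g n a b w x V u} hT h hn hp u0 u1 o ho k hk z z0 z1 hz => by
    have hx : x ≤ u := by linarith [h.pl n hn]
    obtain ⟨c1, c2⟩ := abs_le.1 hz
    have hB : (0 : ℝ) ≤ 896 * Bl := by positivity
    by_cases c : k < bt g 8 255
    · have hk0 : bt g 0 255 ≤ k := by
        rcases h.k0 with e | e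
        · omega
        · have : ((bt g 0 255 * 1024 + D : ℕ) : ℝ) < ((k + 1) * 1024 + D : ℕ) := by
            refine e.trans_le ?_
            push_cast; linarith
          have := Nat.cast_lt.1 this
          omega
      exact (h.md k hk0 c hk o ho).trans (mul_le_mul_of_nonneg_left (lk_mono hT hk ho hx) hB)
    rcases h.k1 with e | e | e
    · omega
    · have : ((k * 1024 : ℕ) : ℝ) ≤ ((j + 1) * D : ℕ) := by push_cast; linarith
      have := Nat.cast_le.1 this
      omega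
    refine (e o ho).trans (mul_le_mul_of_nonneg_left
      ((lk_st hT ho k (not_lt.1 c) hk).trans (lk_mono hT hk ho ?_)) hB)
    rcases le_total (k * 1024) D with d | d
    · rw [Nat.sub_eq_zero_of_le d, Nat.cast_zero]; exact u0
    · rw [Nat.cast_sub d]; push_cast; linarith
  vmix := fun g h o t φ Y φ' Y' => by
    unfold vr sr
    split_ifs <;> ring
  val := fun {ν i j o} g h {φ Y} ho h1 h2 hφ hY => by
    obtain ⟨p1, p2⟩ := ray (nu_uv h1) (nu_uv h2) ho
    unfold vr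
    refine le_sr (by unfold nv; linarith) ?_
    split_ifs with c
    · linarith
    have q1 : 128 * nv ν i j o ≤ φ * 128 := by linarith
    have q2 : 128 * nv ν i j o ≤ 2097152 - nn o * 16384 + nn o * Y := by
      have := mul_le_mul_of_nonneg_left (hY c) (Nat.cast_nonneg (nn o))
      unfold nv; linarith
    linarith [le_sr (g := g) (i := 32) (o := o) q1 q2, le_sr (g := g) (i := 48) (o := o) q1 q2,
      le_sr (g := g) (i := 64) (o := o) q1 q2]

end

section


open Real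

namespace S0_

theorem fb_el {n : ℕ} {f : ℕ → Bool} (h : fb n f = true) : f n = true := (fb_eq n f).symm.trans h

theorem pc_spec {g a b w x : ℕ} (h : pc g a b w x = true) :
    ∀ n < bt g 16 15, x * 256 + X1 g n * a + (X2 g n * b + X3 g n * w) ≤ X0 g n :=
  fun n hn => Nat.le_of_ble_eq_true (al_iff.1 h n hn)

theorem s2_spec {B0 Bl D K T j g h w a b P x Y : ℕ} (e : s2 B0 Bl D K T j g h w a b P x Y = true) :
    (Y ≤ 1048576 ∧ pc g (ou a) (ou b) w x = true) ∧
      s3 Bl D K T j g (vl g h P Y * (B0 * 1024)) x = true := by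
  unfold s2 at e
  obtain ⟨e1, e2⟩ := an_iff.1 e
  obtain ⟨e3, e4⟩ := an_iff.1 e1
  have e5 := fb_el e2
  simp only [Nat.mul_eq] at e5
  exact ⟨⟨Nat.le_of_ble_eq_true e3, e4⟩, e5⟩

theorem s3_spec {Bl D K T j g V x : ℕ} (e : s3 Bl D K T j g V x = true) :
    (bt g 0 255 = 0 ∨ bt g 0 255 * 1024 + D < x) ∧
    (∀ i < min (bt g 8 255) K - bt g 0 255, tk Bl T V (bt g 0 255 + i) x = true) ∧
    ((K ≤ bt g 8 255 ∨ (j + 1) * D < bt g 8 255 * 1024) ∨
      tk Bl T V (bt g 8 255) (bt g 8 255 * 1024 - D) = true) := by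
  simpa only [s3, an_iff, orr_iff, al_iff, fb_eq, lt_iff, mn_eq, Nat.add_eq, Nat.mul_eq,
    Nat.sub_eq, Nat.ble_eq, Nat.beq_eq] using e

def Up (A a : ℝ) : Prop := 0 < a ∧ 268435456 ≤ A * a

theorem up_ou {r : ℕ} (h : 0 < r) : Up (ou r) r := by
  refine ⟨by exact_mod_cast h, ?_⟩
  have h1 : 268435456 < (268435456 / r + 1) * r := by
    rw [mul_comm]; exact Nat.lt_mul_div_succ _ h
  have h2 : ou r = 268435456 / r + 1 := rfl
  rw [h2]
  exact_mod_cast h1.le

theorem Up.mix {A a B b t : ℝ} (h : Up A a) (h' : Up B b) (h0 : 0 ≤ t) (h1 : t ≤ 1) :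
    Up ((1 - t) * A + t * B) ((1 - t) * a + t * b) := by
  obtain ⟨ha, hA⟩ := h
  obtain ⟨hb, hB⟩ := h'
  have h2 : 0 ≤ 1 - t := by linarith
  have h3 : 2 * 268435456 ≤ A * b + B * a := by
    refine le_of_mul_le_mul_right ?_ (mul_pos ha hb)
    have e1 := mul_le_mul_of_nonneg_right hA (sq_nonneg b)
    have e2 := mul_le_mul_of_nonneg_right hB (sq_nonneg a)
    have e3 := sq_nonneg (a - b)
    linarith
  refine ⟨?_, ?_⟩
  · rcases h0.eq_or_lt with h4 | h4
    · rw [← h4]; linarith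
    · have := mul_nonneg h2 ha.le
      have := mul_pos h4 hb
      linarith
  · have e1 := mul_le_mul_of_nonneg_left hA (sq_nonneg (1 - t))
    have e2 := mul_le_mul_of_nonneg_left hB (sq_nonneg t)
    have e3 := mul_le_mul_of_nonneg_left h3 (mul_nonneg h0 h2)
    linarith

theorem Up.fin {A v : ℝ} (hv : 0 < v) (h : Up A (16384 / v)) : 16384 * v ≤ A := by
  have h1 := h.2
  rw [← mul_div_assoc, le_div_iff₀ hv] at h1
  linarith

theorem s1_av (hB : LB) (hC : LC) (h1 : S_S2) {B0 Bl B D K T j c g h w s e a b n : ℕ}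
    (ht : Tab D K T) (b0 : B0 ≤ 65535) (bl : Bl ≤ 65535)
    (hs : s1 B0 Bl B D K T j c g h w s e a b n = true) :
    ∃ x : ℝ, Av B0 Bl D K T j g (ou a) (ou b) w x fun o =>
      vr g h o (ph c n o) (yc B j c h w s a b) := by
  have r : Rep 64 15 (bt c (n * 16 + 64) M5) (ph c n) :=
    hB.bt (m := 16) c (n * 16 + 64) (by norm_num) hC.m5
  have y : cn (Nat.beq h 0) 0 (yv B j (bt c 32 255) w s a b) = yc B j c h w s a b := by
    rw [cn_eq, yc]; simp only [Nat.beq_eq]
  have hs' : s2 B0 Bl D K T j g h w a b (bt c (n * 16 + 64) M5) (bt g (n * 16 + e) 65535)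
      (cn (Nat.beq h 0) 0 (yv B j (bt c 32 255) w s a b)) = true := hs
  rw [y] at hs'
  exact ⟨_, h1 ht b0 bl r (fun o _ => Nat.lt_succ_of_le (bt_le _ _ _)) (bt_le _ _ _) hs'⟩

end S0_

open S0_

theorem t_S2 (hA : LA) (h1 : TA) (h2 : S_VL) : S_S2 := by
  intro B0 Bl D K T j g h w a b P x Y φ ht b0 bl hP hφ hx e
  obtain ⟨⟨hY, hp⟩, e3⟩ := s2_spec e
  obtain ⟨c1, c2, c3⟩ := s3_spec e3
  obtain ⟨f, rf, hf⟩ := h2 g h hP hφ hY
  have bd : ∀ o < 15, f o * (B0 * 1024) ≤ 2 ^ 60 := fun o ho =>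
    (Nat.mul_le_mul (hf o ho).1.le (show B0 * 1024 ≤ 2 ^ 30 by omega)).trans (by norm_num)
  have rV := hA.mul (B0 * 1024) rf fun o ho => (bd o ho).trans_lt (by norm_num)
  have hK := ht.k
  have key : ∀ k x', k < K → x' ≤ 65535 → tk Bl T (vl g h P Y * (B0 * 1024)) k x' = true →
      ∀ o < 15, B0 * vr g h o (φ o) Y ≤ 896 * Bl * Lk T k o x' := by
    intro k x' hk hx' e' o ho
    have h3 := h1.tk bl (by omega) hx' (ht.mono k hk) rV bd e' o ho
    rw [← (hf o ho).2]
    push_cast at h3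
    linarith
  refine ⟨fun n hn => ?_, c1.imp id fun h3 => by exact_mod_cast h3, fun k k1 k2 k3 => ?_, ?_⟩
  · have h3 : ((x * 256 + X1 g n * ou a + (X2 g n * ou b + X3 g n * w) : ℕ) : ℝ) ≤ X0 g n := by
      exact_mod_cast pc_spec hp n hn
    push_cast at h3
    linarith
  · have h3 := c2 (k - bt g 0 255) (by omega)
    rw [Nat.add_sub_cancel' k1] at h3
    exact key k x k3 hx h3
  · rcases c3 with (c3 | c3) | c3
    · exact Or.inl c3
    · exact Or.inr (Or.inl c3)
    · by_cases h3 : K ≤ bt g 8 255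
      · exact Or.inl h3
      · exact Or.inr (Or.inr (key _ _ (by omega) (by omega) c3))

theorem t_S0 (hB : LB) (hC : LC) (h1 : S_S2) (h2 : AV) : S_S0 := by
  intro ν B0 Bl B D K T i j p q y z c l m g h w s e ht b0 bl hc y0 z0 c0 c1 hs
  obtain ⟨e1, e2⟩ := an_iff.1 hs
  obtain ⟨e3, e4⟩ := an_iff.1 e1
  obtain ⟨e5, e6⟩ := an_iff.1 e2
  obtain ⟨x0, a0⟩ := s1_av hB hC h1 (n := 0) (b := y) ht b0 bl e3
  obtain ⟨x1, a1⟩ := s1_av hB hC h1 (n := 1) (b := bt c 0 65535) ht b0 bl e4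
  obtain ⟨x2, a2⟩ := s1_av hB hC h1 (n := 2) (b := z) ht b0 bl e5
  obtain ⟨x3, a3⟩ := s1_av hB hC h1 (n := 3) (b := bt c 16 65535) ht b0 bl e6
  obtain ⟨l0, l1, m0, m1⟩ := hc.u
  have p0 : 0 < p := by have := hc.p0; omega
  have q0 : 0 < q := by have := hc.pq; omega
  refine ⟨_, h2.mono (h2.mix (h2.mix a0 a1 m0 m1) (h2.mix a2 a3 m0 m1) l0 l1) ?_ ?_
    (le_of_eq (by ring)) fun o _ => le_of_eq ?_⟩
  · have u := (up_ou p0).mix (up_ou q0) l0 l1
    rw [← hc.r1] at u
    have := u.fin hc.n1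
    linarith
  · have u := ((up_ou y0).mix (up_ou c0) m0 m1).mix ((up_ou z0).mix (up_ou c1) m0 m1) l0 l1
    refine Up.fin hc.n2 ?_
    rw [hc.r2]
    exact u
  · rw [h2.vmix, h2.vmix, h2.vmix]
    rfl

end

section


open Real

namespace LP_

theorem r_ad (hA : LA) {n w s : ℕ} {fw fs : ℕ → ℕ} (x : ℕ) (hw : Rep 32 n w fw) (hs : Rep 32 n s fs)
    (h : ∀ k < n, fs k + fw k * x < 2 ^ 32) : Rep 32 n (ad x w s) fun k => fs k + fw k * x := by
  have e : ad x w s = if x = 0 then s else s + w * x := by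
    simp only [ad, cn_eq, Nat.beq_eq, Nat.add_eq, Nat.mul_eq]
  rw [e]
  split_ifs with h0
  · exact hs.congr fun k _ => by rw [h0, Nat.mul_zero, Nat.add_zero]
  · exact hA.add hs (hA.mul x hw fun k hk => lt_of_le_of_lt (Nat.le_add_left _ _) (h k hk)) h

/-- one plane -/
noncomputable def p1 (O x a b w g i : ℕ) : ℕ :=
  ad (X1 g i) a (ad (X2 g i) b (ad (X3 g i) w (x + O * (2147483648 - X0 g i))))

noncomputable def pm (O x a b w g m : ℕ) : ℕ := Nat.rec 0 (fun i ih => p1 O x a b w g i ||| ih) m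

theorem pls_eq (O x a b w g : ℕ) : pls O x a b w g = pm O x a b w g (bt g 16 15) := rfl

theorem pr_lt {u x : ℕ} (hu : u < 65536) (hx : x ≤ 4095) : u * x ≤ 65535 * 4095 :=
  Nat.mul_le_mul (by omega) hx

theorem r_pm (hA : LA) (hB : LB) {n O x a b w : ℕ} {fx fa fb fw : ℕ → ℕ} (g : ℕ)
    (hO : Rep 32 n O fun _ => 1) (hx : Rep 32 n x fun k => fx k * 256) (ha : Rep 32 n a fa)
    (hb : Rep 32 n b fb) (hw : Rep 32 n w fw)
    (h : ∀ k < n, fx k < 131072 ∧ fa k < 65536 ∧ fb k < 65536 ∧ fw k < 65536) (m : ℕ) :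
    ∃ f, Rep 32 n (pm O x a b w g m) f ∧ ∀ k < n, 2 ^ 31 ≤ f k →
      ∃ i < m, X0 g i ≤ 256 * fx k + X1 g i * fa k + X2 g i * fb k + X3 g i * fw k := by
  induction m with
  | zero => exact ⟨_, Rep.zero 32 n, fun k _ h => absurd h (by decide)⟩
  | succ m ih =>
    obtain ⟨f, hf, hf'⟩ := ih
    have b0 : X0 g m ≤ 268435455 := bt_le _ _ _
    have b1 : ∀ k < n, fa k * X1 g m ≤ 65535 * 4095 := fun k hk => pr_lt (h k hk).2.1 (bt_le _ _ _)
    have b2 : ∀ k < n, fb k * X2 g m ≤ 65535 * 4095 := fun k hk => pr_lt (h k hk).2.2.1 (bt_le _ _ _)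
    have b3 : ∀ k < n, fw k * X3 g m ≤ 65535 * 4095 := fun k hk => pr_lt (h k hk).2.2.2 (bt_le _ _ _)
    have r0 := hA.add hx (hA.mul (2147483648 - X0 g m) hO fun k _ => by omega)
      fun k hk => by have := (h k hk).1; omega
    have r3 := r_ad hA (X3 g m) hw r0 fun k hk => by have := (h k hk).1; have := b3 k hk; omega
    have r2 := r_ad hA (X2 g m) hb r3
      fun k hk => by have := (h k hk).1; have := b3 k hk; have := b2 k hk; omega
    have r1 := r_ad hA (X1 g m) ha r2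
      fun k hk => by have := (h k hk).1; have := b3 k hk; have := b2 k hk; have := b1 k hk; omega
    refine ⟨_, hB.lor r1 hf, fun k hk h31 => ?_⟩
    rcases hB.or31 (r1.bd hk) (hf.bd hk) h31 with h' | h'
    · refine ⟨m, Nat.lt_succ_self m, ?_⟩
      rw [Nat.mul_comm (X1 g m), Nat.mul_comm (X2 g m), Nat.mul_comm (X3 g m)]
      omega
    · obtain ⟨i, hi, hi'⟩ := hf' k hk h'
      exact ⟨i, Nat.lt_succ_of_lt hi, hi'⟩

theorem tv_lt (L r : ℕ) : tv L (r % 240) ≤ 65535 := by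
  have := bt_le L (32 * (r % 240 % 240)) 65535
  have e : r % 240 / 240 = 0 := by omega
  rw [tv, e]; omega

end LP_

theorem t_LP (hA : LA) (hB : LB) (hC : LC) (hE : LE) : LP := by
  refine ⟨fun g hO hx ha hb hw h => LP_.r_pm hA hB g hO hx ha hb hw h _,
    fun {n O w f} h hO hw hf hh => ?_, fun {n O H w f l} hO hH hw hf hl => ?_,
    fun {A N O H V T j} hK hj => ?_⟩
  · exact ⟨_, hA.add hw (hA.mul (2147483647 - h) hO fun k _ => by omega)
      fun k hk => by have := hf k hk; omega, fun k _ h' => by omega⟩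
  · have r0 := hA.mul l hO fun k _ => by omega
    have r1 := hC.ls hH hw r0 (fun k hk => by have := hf k hk; omega) fun k _ => by omega
    exact (hA.add r0 r1 fun k hk => by have := hf k hk; omega).congr fun k _ => by omega
  · have r0 := hA.mul 61440 hK.o fun k _ => by decide
    have r1 : Rep 32 (N * 240) (O * 61440 &&& mh N j)
        fun i => if 240 ≤ i % 240 + j then 61440 else 0 := by
      refine (hB.land (O * 61440) (hE.mh N hj)).congr fun k hk => ?_
      rw [r0.eq k hk]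
      split_ifs <;> decide
    have r2 : Rep 32 (N * 240) (rot N T j)
        fun i => tv (A.getD (i / 240) 0) ((i % 240 + j) % 240) := by
      refine (hE.rot hK.t hj).congr fun k _ => ?_
      have e1 : (240 * (k / 240) + (k % 240 + j) % 240) / 240 = k / 240 := by omega
      have e2 : (240 * (k / 240) + (k % 240 + j) % 240) % 240 = (k % 240 + j) % 240 := by omega
      rw [e1, e2]
    have b : ∀ k, tv (A.getD (k / 240) 0) ((k % 240 + j) % 240) +
        (if 240 ≤ k % 240 + j then 61440 else 0) < 2 ^ 31 := fun k => by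
      have := LP_.tv_lt (A.getD (k / 240) 0) (k % 240 + j)
      split_ifs <;> omega
    have r3 := hA.add r2 r1 fun k _ => (b k).trans (by decide)
    refine (hC.ls hK.h r3 hK.t (fun k _ => b k) fun k _ => ?_).congr fun k _ => ?_
    · have := LP_.tv_lt (A.getD (k / 240) 0) k
      omega
    · congr 1
      have e1 : (k % 240 + j) % 240 / 240 = 0 := by omega
      rw [tv, tv, Nat.mod_mod, e1]
      split_ifs with h
      · rw [show (k % 240 + j) / 240 = 1 by omega]
      · rw [show (k % 240 + j) / 240 = 0 by omega]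

namespace BK_

theorem tv_sh (L i j : ℕ) : tv L (i + j) = tv L (i % 240 + j) + 61440 * (i / 240) := by
  have e1 : (i + j) % 240 = (i % 240 + j) % 240 := by omega
  have e2 : (i + j) / 240 = (i % 240 + j) / 240 + i / 240 := by omega
  rw [tv, tv, e1, e2, Nat.mul_add, Nat.add_assoc]

theorem tv_bd (L i : ℕ) {j : ℕ} (hj : j ≤ 240) : tv L (i % 240 + j) < 131072 := by
  have := bt_le L (32 * ((i % 240 + j) % 240)) 65535
  have e : (i % 240 + j) / 240 ≤ 1 := by omega
  rw [tv]; omega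

theorem r_sum (hA : LA) (hB : LB) (hE : LE) {A : List ℕ} {N O H V T j : ℕ} (hK : Blk A N O H V T)
    (hj : j ≤ 240) : Rep 32 (N * 240) (rot N T j + (O * 61440 &&& mh N j))
      fun i => tv (A.getD (i / 240) 0) (i % 240 + j) := by
  have r0 := hA.mul 61440 hK.o fun k _ => by decide
  have r1 : Rep 32 (N * 240) (O * 61440 &&& mh N j)
      fun i => if 240 ≤ i % 240 + j then 61440 else 0 := by
    refine (hB.land (O * 61440) (hE.mh N hj)).congr fun k hk => ?_
    rw [r0.eq k hk]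
    split_ifs <;> decide
  have r2 : Rep 32 (N * 240) (rot N T j)
      fun i => tv (A.getD (i / 240) 0) ((i % 240 + j) % 240) := by
    refine (hE.rot hK.t hj).congr fun k _ => ?_
    have e1 : (240 * (k / 240) + (k % 240 + j) % 240) / 240 = k / 240 := by omega
    have e2 : (240 * (k / 240) + (k % 240 + j) % 240) % 240 = (k % 240 + j) % 240 := by omega
    rw [e1, e2]
  refine (hA.add r2 r1 fun k _ => ?_).congr fun k _ => ?_
  · have := LP_.tv_lt (A.getD (k / 240) 0) (k % 240 + j)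
    split_ifs <;> omega
  · have e1 : (k % 240 + j) % 240 / 240 = 0 := by omega
    rw [tv, tv, Nat.mod_mod, e1]
    split_ifs with h
    · rw [show (k % 240 + j) / 240 = 1 by omega]
    · rw [show (k % 240 + j) / 240 = 0 by omega]

end BK_

theorem t_BK (hA : LA) (hB : LB) (hC : LC) (hD : LD) (hE : LE) (hP : LP) : S_BK := by
  intro D K J w A hD' hK' hJ hw h L hL
  obtain ⟨N, O, H, V, T, hK, h⟩ := hD.wt h
  obtain ⟨h1, h⟩ := an_iff.1 h
  obtain ⟨h, h4⟩ := an_iff.1 h
  obtain ⟨h2, h3⟩ := an_iff.1 h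
  have b0 : ∀ k, tv (A.getD (k / 240) 0) (k % 240) < 2 ^ 31 := fun k => by
    have := LP_.tv_lt (A.getD (k / 240) 0) k
    omega
  have b1 : ∀ k j, j ≤ 240 → tv (A.getD (k / 240) 0) (k % 240 + j) < 2 ^ 31 := fun k j hj => by
    have := BK_.tv_bd (A.getD (k / 240) 0) k hj
    omega
  have g1 := hC.ge (w := 31) hK.h hK.v (hA.mul w hK.o fun k _ => by omega)
    (fun k _ => lt_of_le_of_lt (bt_le _ _ _) (by decide)) (fun k _ => by omega) h1
  have g2 := hC.ge (w := 31) hK.h (BK_.r_sum hA hB hE hK (j := 1) (by decide)) hK.t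
    (fun k _ => b1 k 1 (by decide)) (fun k _ => b0 k) h2
  have g3 := hC.ge (w := 31) hK.h (hA.mul D hK.o fun k _ => by omega) (hP.xj hK (j := 1) (by decide))
    (fun k _ => by omega) (fun k _ => lt_of_le_of_lt (Nat.sub_le _ _) (b1 k 1 (by decide))) h3
  have g4 := hC.ge (w := 31) hK.h (hP.xj hK hJ)
    (hA.mul (K * 1024 + D + 1) hK.o fun k _ => by omega)
    (fun k _ => lt_of_le_of_lt (Nat.sub_le _ _) (b1 k J hJ)) (fun k _ => by omega) h4
  obtain ⟨n, hn, rfl⟩ := List.getElem_of_mem hL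
  have eL : A.getD n 0 = A[n] := List.getD_eq_getElem _ _ hn
  have hk : ∀ i, 240 * n + i % 240 < N * 240 := fun i => by have := hK.n; omega
  have e1 : ∀ i, (240 * n + i % 240) / 240 = n := fun i => by omega
  have e2 : ∀ i, (240 * n + i % 240) % 240 = i % 240 := fun i => by omega
  have e0 : ∀ i, tv A[n] i = tv A[n] (i % 240) + 61440 * (i / 240) := fun i => BK_.tv_sh A[n] i 0
  refine ⟨fun i => ?_, fun i => ?_, fun i => ?_, fun i => ?_⟩
  · have := g1 _ (hk i)
    rw [e1, e2, eL, wv, Nat.mod_mod, Nat.one_mul] at this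
    exact this
  · have := g2 _ (hk i)
    rw [e1, e2, eL] at this
    rw [BK_.tv_sh, e0 i]; omega
  · have := g3 _ (hk i)
    rw [e1, e2, eL] at this
    rw [BK_.tv_sh, e0 i]; omega
  · have := g4 _ (hk i)
    rw [e1, e2, eL] at this
    rw [BK_.tv_sh, e0 i]; omega

end

section


open Real

namespace LN_

/-- the top bit of lane `k` certifies `P k` -/
def Sg (n x : ℕ) (P : ℕ → Prop) : Prop := ∃ r, Rep 32 n x r ∧ ∀ k < n, 2 ^ 31 ≤ r k → P k

theorem s_or (hB : LB) {n x y P Q} (a : Sg n x P) (b : Sg n y Q) :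
    Sg n (x ||| y) fun k => P k ∨ Q k := by
  obtain ⟨r, hr, er⟩ := a
  obtain ⟨s, hs, es⟩ := b
  exact ⟨_, hB.lor hr hs, fun k hk h =>
    (hB.or31 (hr.bd hk) (hs.bd hk) h).imp (er k hk) (es k hk)⟩

theorem s_and (hB : LB) {n x y P Q} (a : Sg n x P) (b : Sg n y Q) :
    Sg n (x &&& y) fun k => P k ∧ Q k := by
  obtain ⟨r, hr, er⟩ := a
  obtain ⟨s, hs, es⟩ := b
  exact ⟨_, hB.land x hs, fun k hk h =>
    ⟨er k hk (hr.eq k hk ▸ h.trans Nat.and_le_left), es k hk (h.trans Nat.and_le_right)⟩⟩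

theorem s_fl (hB : LB) {n H x P} (hH : Rep 32 n H fun _ => 2 ^ 31) (a : Sg n x P)
    (h : fl H x = true) : ∀ k < n, P k := by
  obtain ⟨r, hr, er⟩ := a
  exact fun k hk => er k hk (hB.fl (w := 31) hH hr h k hk)

theorem s_zero (n : ℕ) (P : ℕ → Prop) : Sg n 0 P :=
  ⟨_, Rep.zero 32 n, fun _ _ h => absurd h (by norm_num)⟩

theorem s_lw (hB : LB) {n H} {f : ℕ → ℕ → ℕ} {P : ℕ → ℕ → ℕ → Prop}
    (hH : Rep 32 n H fun _ => 2 ^ 31) (hf : ∀ w g, Sg n (f w g) fun k => P k w g) (W : List ℕ) :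
    ∀ d, Sg n (lw f H W d) fun k => AllW (P k) W d := by
  induction W with
  | nil => exact fun _ => ⟨_, hH, fun _ _ _ => trivial⟩
  | cons w W ih => exact fun d => s_and hB (hf w (gt d 0)) (ih (tl d))

theorem wv_lt (L i : ℕ) : wv L i < 65536 := Nat.lt_succ_of_le (bt_le _ _ _)
theorem bt_lt (x i : ℕ) : bt x i 65535 < 65536 := Nat.lt_succ_of_le (bt_le _ _ _)
theorem om_lt (r : ℕ) : om r < 65536 := by
  simp only [om, mn_eq]; omega
theorem ou_lt (r : ℕ) : ou r < 2 ^ 31 := by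
  have : 268435456 / r ≤ 268435456 := Nat.div_le_self _ _
  simp only [ou, div_eq, Nat.add_eq]; omega

theorem s_l1 (hB : LB) (hP : LP) {n O H x a b u i W d} {fx fa fb fu : ℕ → ℕ} {I : ℕ → Prop}
    (hO : Rep 32 n O fun _ => 1) (hH : Rep 32 n H fun _ => 2 ^ 31)
    (hx : Rep 32 n x fun k => fx k * 256) (ha : Rep 32 n a fa) (hb : Rep 32 n b fb)
    (hu : Rep 32 n u fu) (bd : ∀ k < n, fx k < 131072 ∧ fa k < 65536 ∧ fb k < 65536)
    (bu : ∀ k < n, fu k < 65536) (hi : Sg n i I) (h : l1 O H W x a b u i d = true) :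
    ∀ k < n, I k ∨ (d ≠ [] ∧ (Pl (gt d 0) (fx k) (fa k) (fb k) 0 ∨ (tl d ≠ [] ∧
      AllW (fun w g => bt w 16 65535 < fu k ∨
        Pl g (fx k) (fa k) (fb k) (max (fu k) (bt w 0 65535))) W (tl d)))) := by
  intro k hk
  simp only [l1, orr_iff, cb_eq, cn_eq, emp_iff, Nat.lor_eq] at h
  rcases h with h | h
  · exact .inl (s_fl hB hH hi h k hk)
  by_cases e : d = []
  · simp [e] at h
  rw [if_neg e] at h
  have p0 : Sg n (pls O x a b 0 (gt d 0)) fun k => Pl (gt d 0) (fx k) (fa k) (fb k) 0 :=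
    hP.pls _ hO hx ha hb (Rep.zero 32 n) fun k hk =>
      ⟨(bd k hk).1, (bd k hk).2.1, (bd k hk).2.2, by norm_num⟩
  by_cases e' : tl d = []
  · rw [if_pos e'] at h
    rcases s_fl hB hH (s_or hB (s_or hB hi p0) (s_zero n fun _ => False)) h k hk with (t | t) | t
    exacts [.inl t, .inr ⟨e, .inl t⟩, t.elim]
  rw [if_neg e'] at h
  have p1 := s_lw hB (f := fun w g => inf O u (bt w 16 65535) ||| pls O x a b (mc O H u (bt w 0 65535)) g)
    (P := fun k w g => bt w 16 65535 < fu k ∨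
      Pl g (fx k) (fa k) (fb k) (max (fu k) (bt w 0 65535))) hH (fun w g =>
    s_or hB (hP.inf _ hO hu bu ((bt_lt _ _).trans (by norm_num)))
      (hP.pls g hO hx ha hb (hP.mc hO hH hu bu (bt_lt _ _)) fun k hk =>
        ⟨(bd k hk).1, (bd k hk).2.1, (bd k hk).2.2, max_lt (bu k hk) (bt_lt _ _)⟩)) W (tl d)
  rcases s_fl hB hH (s_or hB (s_or hB hi p0) p1) h k hk with (t | t) | t
  exacts [.inl t, .inr ⟨e, .inl t⟩, .inr ⟨e, .inr ⟨e', t⟩⟩]

theorem tv_lt (L i j : ℕ) (hj : j ≤ 240) : tv L (i % 240 + j) - tv L (i % 240) < 131072 := by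
  have := bt_lt L (32 * ((i % 240 + j) % 240))
  simp only [tv]; omega

theorem tv_mod (L i j : ℕ) : tv L (i % 240 + j) - tv L (i % 240) = tv L (i + j) - tv L i := by
  simp only [tv, Nat.mod_add_mod, Nat.mod_mod]; omega

theorem wv_mod (L i : ℕ) : wv L (i % 240) = wv L i := by simp only [wv, Nat.mod_mod]

theorem r_rot (hE : LE) {A N O H V T j} (h : Blk A N O H V T) (hj : j ≤ 240) :
    Rep 32 (N * 240) (rot N V j) fun k => wv (A.getD (k / 240) 0) (k % 240 + j) :=
  (hE.rot h.v hj).congr fun k _ => by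
    rw [show (240 * (k / 240) + (k % 240 + j) % 240) / 240 = k / 240 by omega,
      show (240 * (k / 240) + (k % 240 + j) % 240) % 240 = (k % 240 + j) % 240 by omega, wv_mod]

end LN_

open LN_ in
theorem t_LN (hA : LA) (hB : LB) (hE : LE) (hP : LP) : S_LN := by
  intro A N O H V T W j p q y z c d L h hL hj hc i
  obtain ⟨a, ha, rfl⟩ := List.getElem_of_mem hL
  simp only [lnC, fb_eq, mn_eq, mx_eq, Nat.lor_eq] at hc
  have hU := r_rot hE h hj
  have hk : 240 * a + i % 240 < N * 240 := by have := h.n; omega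
  have t := s_l1 hB hP h.o h.h
    (hA.mul 256 (hP.xj h hj) fun k _ => by have := tv_lt (A.getD (k / 240) 0) k j hj; omega)
    (hP.mc h.o h.h h.v (fun _ _ => wv_lt _ _) (om_lt _))
    (hP.mc h.o h.h hU (fun _ _ => wv_lt _ _) (om_lt _))
    (r_rot hE h (Nat.min_le_right _ 240))
    (fun k _ => ⟨tv_lt _ k j hj, max_lt (wv_lt _ _) (om_lt _), max_lt (wv_lt _ _) (om_lt _)⟩)
    (fun _ _ => wv_lt _ _)
    (s_or hB (hP.inf _ h.o h.v (fun _ _ => wv_lt _ _) (ou_lt _))
      (hP.inf _ h.o hU (fun _ _ => wv_lt _ _) (ou_lt _))) hc _ hk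
  have e1 : (240 * a + i % 240) / 240 = a := by omega
  have e2 : (240 * a + i % 240) % 240 = i % 240 := by omega
  have e3 : ∀ m, wv A[a] (i % 240 + m) = wv A[a] (i + m) := fun m => by
    rw [← wv_mod, Nat.mod_add_mod, wv_mod]
  simp only [e1, e2, List.getD_eq_getElem _ _ ha, e3, wv_mod, tv_mod] at t
  exact or_assoc.1 t

end

section


open Real

namespace CE_

theorem up {r : ℕ} {n : ℝ} (hr : 0 < r) (hn : 0 < n) (h : (r : ℝ) ≤ 16384 / n) :
    16384 * n < ou r := by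
  have e : 268435456 < r * (268435456 / r + 1) := Nat.lt_mul_div_succ _ hr
  have e' : (268435456 : ℝ) < r * (ou r : ℕ) := by exact_mod_cast e
  have r0 : (0 : ℝ) < r := by exact_mod_cast hr
  rw [le_div_iff₀ hn] at h
  refine lt_of_mul_lt_mul_left (a := (r : ℝ)) ?_ r0.le
  linarith

theorem dn {r : ℕ} {n : ℝ} (hn : 0 < n) (h : 16384 / n ≤ (r : ℝ)) : (om r : ℝ) ≤ 16384 * n := by
  have r0 : (0 : ℝ) < r := lt_of_lt_of_le (by positivity) h
  have e : om r * r ≤ 268435456 := by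
    refine le_trans (Nat.mul_le_mul_right _ ?_) (Nat.div_mul_le_self 268435456 r)
    rw [om, mn_eq]
    exact min_le_left _ _
  have e' : (om r : ℝ) * r ≤ 268435456 := by exact_mod_cast e
  rw [div_le_iff₀ hn] at h
  refine le_of_mul_le_mul_right ?_ r0
  linarith

theorem tv_le {D K J w L : ℕ} (h : TOK D K J w L) (i j : ℕ) :
    tv L i ≤ tv L (i + j) ∧ tv L (i + j) ≤ tv L i + j * D := by
  induction j with
  | zero => simp
  | succ j ih =>
    have h1 := h.le (i + j)
    have h2 := h.st (i + j)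
    rw [← Nat.add_assoc, Nat.succ_mul]
    omega

theorem pick (f : ℕ → ℕ → Bool) (P : ℕ → ℕ → Prop) {x : ℝ} (hx : x ≤ 16384) (W : List ℕ) :
    ∀ (l : ℕ) (d : List ℕ), wok W l = true → sw f W d = true → AllW P W d → (l : ℝ) ≤ x →
      l < 16384 → ∃ w g, f w g = true ∧ P w g ∧ (bt w 0 65535 : ℝ) ≤ x ∧ x ≤ bt w 16 65535 ∧
        bt w 0 65535 < bt w 16 65535 ∧ 0 < bt w 32 65535 ∧
        268435456 ≤ bt w 0 65535 * bt w 0 65535 + bt w 32 65535 * bt w 32 65535 := by
  induction W with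
  | nil =>
    intro l d h _ _ _ hl
    have : 16384 ≤ l := Nat.le_of_ble_eq_true h
    omega
  | cons w W ih =>
    intro l d h1 h2 h3 hl _
    obtain ⟨a, h1⟩ := an_iff.1 h1
    obtain ⟨a, b⟩ := an_iff.1 a
    obtain ⟨a1, a2⟩ := an_iff.1 a
    obtain ⟨-, b⟩ := an_iff.1 b
    obtain ⟨b1, b2⟩ := an_iff.1 b
    obtain ⟨c, h2⟩ := an_iff.1 h2
    by_cases hc : x ≤ bt w 16 65535
    · have : ((bt w 0 65535 : ℕ) : ℝ) ≤ l := Nat.cast_le.2 (Nat.le_of_ble_eq_true a1)
      exact ⟨w, gt d 0, c, h3.1, this.trans hl, hc, lt_iff.1 a2, lt_iff.1 b1,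
        Nat.le_of_ble_eq_true b2⟩
    · have hc := not_le.1 hc
      exact ih _ _ h1 h2 h3.2 hc.le (by exact_mod_cast hc.trans_le hx)

theorem plane {g x a b w : ℕ} {u A B C : ℝ} (h : Pl g x a b w) (hu : (x : ℝ) = u)
    (ha : (a : ℝ) ≤ A) (hb : (b : ℝ) ≤ B) (hw : (w : ℝ) ≤ C) :
    ∃ n < bt g 16 15, (X0 g n : ℝ) ≤ 256 * u + X1 g n * A + X2 g n * B + X3 g n * C := by
  obtain ⟨n, hn, e⟩ := h
  have e' : (X0 g n : ℝ) ≤ 256 * x + X1 g n * a + X2 g n * b + X3 g n * w := by exact_mod_cast e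
  have := mul_le_mul_of_nonneg_left ha (X1 g n).cast_nonneg
  have := mul_le_mul_of_nonneg_left hb (X2 g n).cast_nonneg
  have := mul_le_mul_of_nonneg_left hw (X3 g n).cast_nonneg
  exact ⟨n, hn, by rw [← hu]; linarith⟩

end CE_

open CE_ in
theorem t_CE (h1 : S_GC) (h2 : S_YV) (h3 : AV) (h4 : S_S0) : S_CE := by
  intro ν B0 Bl B D K J T W w L i j p q y z c l m d d' hN hV hT hb hB0 hBl hW hw hj hC hg hs hL
  obtain ⟨⟨y0, z0, c0, c1⟩, hG⟩ := h1 hN.le hj hC hg
  obtain ⟨l0, l1, -, -⟩ := hC.u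
  have pq : (p : ℝ) ≤ q := Nat.cast_le.2 hC.pq.le
  have ap : 16384 * ν (ev i) < ou p :=
    up (by have := hC.p0; omega) hC.n1 (by rw [hC.r1]; nlinarith)
  have aq : (om q : ℝ) ≤ 16384 * ν (ev i) := dn hC.n1 (by rw [hC.r1]; nlinarith)
  have bp : 16384 * ν (ev (i + j)) < ou (min y z) := up (lt_min y0 z0) hC.n2 (by
    refine le_trans ?_ hC.lo
    have e1 : ((min y z : ℕ) : ℝ) ≤ y := Nat.cast_le.2 (min_le_left _ _)
    have e2 : ((min y z : ℕ) : ℝ) ≤ z := Nat.cast_le.2 (min_le_right _ _)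
    nlinarith)
  have bq : (om (max (bt c 0 65535) (bt c 16 65535)) : ℝ) ≤ 16384 * ν (ev (i + j)) :=
    dn hC.n2 (by
      refine hC.hi.trans ?_
      have e1 : ((bt c 0 65535 : ℕ) : ℝ) ≤ (max (bt c 0 65535) (bt c 16 65535) : ℕ) :=
        Nat.cast_le.2 (le_max_left _ _)
      have e2 : ((bt c 16 65535 : ℕ) : ℝ) ≤ (max (bt c 0 65535) (bt c 16 65535) : ℕ) :=
        Nat.cast_le.2 (le_max_right _ _)
      nlinarith)
  obtain ⟨t1, t2⟩ := tv_le hT i j
  have hu : ((tv L (i + j) - tv L i : ℕ) : ℝ) = tv L (i + j) - tv L i := Nat.cast_sub t1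
  have u0 : (0 : ℝ) ≤ tv L (i + j) - tv L i := hu ▸ Nat.cast_nonneg _
  have u1 : (tv L (i + j) - tv L i : ℝ) ≤ j * D := by
    have : (tv L (i + j) : ℝ) ≤ tv L i + j * D := by exact_mod_cast t2
    linarith
  have ha : ((max (wv L i) (om q) : ℕ) : ℝ) ≤ 16384 * ν (ev i) := by
    rw [Nat.cast_max]; exact max_le (hV i) aq
  have hb' : ((max (wv L (i + j)) (om (max (bt c 0 65535) (bt c 16 65535))) : ℕ) : ℝ) ≤
      16384 * ν (ev (i + j)) := by
    rw [Nat.cast_max]; exact max_le (hV _) bq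
  rcases hL with e | e | ⟨d0, hL⟩
  · exact absurd ((ap.trans (Nat.cast_lt.2 e)).trans_le (hV i)) (lt_irrefl _)
  · exact absurd ((bp.trans (Nat.cast_lt.2 e)).trans_le (hV _)) (lt_irrefl _)
  obtain ⟨s1, s2⟩ := an_iff.1 ((orr_iff.1 hs).resolve_left fun h => d0 (emp_iff.1 h))
  intro o ho k hk x x1 x2 x3
  have B0n : (0 : ℝ) ≤ B0 := Nat.cast_nonneg _
  rcases hL with e | ⟨d1, e⟩
  · obtain ⟨x', hA⟩ := h4 hb hB0 hBl hC y0 z0 c0 c1 s1
    obtain ⟨n, hn, e⟩ := plane e hu ha hb' le_rfl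
    have f1 := h3.fin hb hA hn e u0 u1 o ho k hk x x1 x2 x3
    refine le_of_mul_le_mul_left (le_trans ?_ (f1.trans_eq (mul_assoc _ _ _)))
      (by norm_num : (0 : ℝ) < 896)
    rw [mul_left_comm]
    exact mul_le_mul_of_nonneg_left
      (h3.val _ _ ho hC.n1 hC.n2 (hG o ho) fun h => absurd rfl h) B0n
  obtain ⟨s3, s4⟩ := an_iff.1 ((orr_iff.1 s2).resolve_left fun h => d1 (emp_iff.1 h))
  have nj : bt c 32 255 ≤ j := Nat.le_of_ble_eq_true s3
  rw [min_eq_left (by omega : bt c 32 255 ≤ 240)] at e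
  have w1 : 16384 * ν (ev (i + bt c 32 255)) ≤ 16384 := by linarith [hN.le.ev (i + bt c 32 255)]
  obtain ⟨v, g, k1, k2, k3, k4, k5, k6, k7⟩ := pick _ _ w1 W w (tl d) hW s4 e
    ((Nat.cast_le.2 (hT.w _)).trans (hV _)) hw
  obtain ⟨k8, k9⟩ := an_iff.1 k1
  have k2 := k2.resolve_left fun h =>
    absurd (((Nat.cast_lt.2 h).trans_le (hV _)).trans_le k4) (lt_irrefl _)
  obtain ⟨x', hA⟩ := h4 hb hB0 hBl hC y0 z0 c0 c1 k8
  obtain ⟨x'', hA'⟩ := h4 hb hB0 hBl hC y0 z0 c0 c1 k9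
  have k5' : (0 : ℝ) < (bt v 16 65535 : ℕ) - (bt v 0 65535 : ℕ) := sub_pos.2 (Nat.cast_lt.2 k5)
  obtain ⟨κ, hκ⟩ : ∃ κ : ℝ, κ = (16384 * ν (ev (i + bt c 32 255)) - (bt v 0 65535 : ℕ)) /
    ((bt v 16 65535 : ℕ) - (bt v 0 65535 : ℕ)) := ⟨_, rfl⟩
  have κ0 : 0 ≤ κ := hκ ▸ div_nonneg (sub_nonneg.2 k3) k5'.le
  have κ1 : κ ≤ 1 := hκ ▸ (div_le_one k5').2 (by linarith)
  have κe : 16384 * ν (ev (i + bt c 32 255)) =
      (1 - κ) * (bt v 0 65535 : ℕ) + κ * (bt v 16 65535 : ℕ) := by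
    rw [eq_div_iff k5'.ne'] at hκ
    linarith
  obtain ⟨n, hn, e⟩ := plane k2 hu
    (A := (1 - κ) * (16384 * ν (ev i)) + κ * (16384 * ν (ev i)))
    (B := (1 - κ) * (16384 * ν (ev (i + j))) + κ * (16384 * ν (ev (i + j))))
    (C := (1 - κ) * (bt v 0 65535 : ℕ) + κ * (bt v 16 65535 : ℕ)) (by linarith) (by linarith)
    (by rw [← κe, Nat.cast_max]; exact max_le (hV _) k3)
  have f1 := h3.fin hb (h3.mix hA hA' κ0 κ1) hn e u0 u1 o ho k hk x x1 x2 x3
  refine le_of_mul_le_mul_left (le_trans ?_ (f1.trans_eq (mul_assoc _ _ _)))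
    (by norm_num : (0 : ℝ) < 896)
  rw [mul_left_comm, h3.vmix]
  refine mul_le_mul_of_nonneg_left (h3.val _ _ ho hC.n1 hC.n2 (by linarith [hG o ho]) fun h => ?_) B0n
  simp only [yc, if_neg h]
  exact h2 hN hj hC nj κ0 κ1 k5.le κe k6 k7

end

section


open Real

namespace RG_

theorem rng_cons (f : ℕ → List (List ℕ) → List (List (List ℕ)) → Bool) (g : List (List ℕ))
    (G : List (List (List ℕ))) (E : List (List (List (List ℕ)))) (j : ℕ) :
    rng f (g :: G) E j = an (f j g (hd E)) (rng f G (tl E) (j + 1)) := rfl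

theorem rng_at {f : ℕ → List (List ℕ) → List (List (List ℕ)) → Bool} {G : List (List (List ℕ))}
    {E : List (List (List (List ℕ)))} {j : ℕ} (h : rng f G E j = true) :
    ∀ n < G.length, f (j + n) (G.getD n []) (E.getD n []) = true := by
  induction G generalizing E j with
  | nil => intro n hn; exact absurd hn (Nat.not_lt_zero n)
  | cons g G ih =>
    rw [rng_cons, an_iff] at h
    intro n hn
    cases n with
    | zero => rw [hd_eq] at h; exact h.1
    | succ n =>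
      have k := ih h.2 n (Nat.lt_of_succ_lt_succ hn)
      have e : (tl E).getD n [] = E.getD (n + 1) [] := by cases E <;> rfl
      rw [e, Nat.add_assoc, Nat.add_comm 1 n] at k
      exact k

theorem geos_eq (R : ℕ) (G : List (List (List ℕ))) (E : List (List (List (List ℕ)))) (j j' : ℕ) :
    geos R G E j j' = an (Nat.beq (j + ln G) j') (rng (fun j ss ds => geo R j ss ds) G E j) := rfl

theorem geo_eq (R j : ℕ) (ss : List (List ℕ)) (ds : List (List (List ℕ))) :
    geo R j ss ds = an (lt j 240) (an (cov R (ch (j * 2)) ss 16384)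
      (strips (geoC (ch (j * 2))) ss ds 16384)) := rfl

end RG_

theorem t_RG (hD : LD) (h1 : TA) (h2 : S_CV) (h3 : S_BK) (h4 : S_LN) (h5 : S_CE) : RG where
  rng := by
    intro B0 Bl B D K J T R w ta ro W A G E F j0 j1 hp hb hg hs hl L hL ν hN hV i j a b
    have P := par_spec hp
    have tb := h1.tab P.t
    have tk := h3 tb.d tb.k P.j P.v.le hb L hL
    rw [RG_.geos_eq, an_iff, Nat.beq_eq, ln_eq] at hg
    obtain ⟨n, rfl⟩ := Nat.exists_eq_add_of_le a
    have hn : n < G.length := by have := hg.1; omega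
    have g1 := RG_.rng_at hg.2 n hn
    rw [RG_.geo_eq, an_iff, an_iff, lt_iff] at g1
    have s1 : strips (scC B0 Bl B D K T W (j0 + n)) (G.getD n []) (F.getD n []) 16384 = true :=
      RG_.rng_at (f := fun j ss ds => sca B0 Bl B D K T W j ss ds) hs n hn
    obtain ⟨N, O, H, V, T', hk, hl⟩ := hD.wt hl
    have l1 : strips (lnC N O H V W (xj N O H T' (j0 + n) * 256) (rot N V (j0 + n)))
        (G.getD n []) (F.getD n []) 16384 = true :=
      RG_.rng_at (f := fun j ss ds => ln1 N O H V T' W j ss ds) hl n hn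
    have hw : ∀ k, (w : ℝ) ≤ 16384 * ν (ev k) := fun k =>
      le_trans (Nat.cast_le.2 (tk.w k)) (hV k)
    obtain ⟨p, q, y, z, c, l, m, σ, hc, hσ⟩ := h2 i hN.le hw P.rw P.r g1.1 g1.2.1
    exact h5 hN hV tk tb (P.bl.trans P.b) P.b P.k P.v g1.1 hc (hσ _ _ g1.2.2) (hσ _ _ s1)
      (h4 hk hL g1.1.le (hσ _ _ l1) i)
  app := by
    intro B0 Bl B D K T A a b c x y L hL ν hN hV i j u v
    rcases lt_or_ge j b with h | h
    · exact x L hL ν hN hV i j u h
    · exact y L hL ν hN hV i j h v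
  good := by
    intro B0 Bl B D K J T R w ta ro W A hp hb hc L hL
    have P := par_spec hp
    have tb := h1.tab P.t
    exact ⟨h3 tb.d tb.k P.j P.v.le hb L hL, fun ν hN hV i j u v => hc L hL ν hN hV i j u v⟩
  sp0 := by
    intro G B p1 p2 q1 q2 p x y ν b c hJ hN a1 a2 a3 a4
    rcases le_total b (p * (π / 480)) with h | h
    · exact x ν b c hJ hN a1 h a3 a4
    · exact y ν b c hJ hN h a2 a3 a4
  sp1 := by
    intro G B p1 p2 q1 q2 p x y ν b c hJ hN a1 a2 a3 a4
    rcases le_total c (p * (π / 480)) with h | h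
    · exact x ν b c hJ hN a1 a2 a3 h
    · exact y ν b c hJ hN a1 a2 h a4

end

end Pool.Agent.MP_1037db_co.PT
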