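import Pool.Agent.MP_1037db_co.PT.Stm

namespace Pool.Agent.MP_1037db_co.PT

section


open Real

namespace CP_

theorem tv_mono {D K J w L : ℕ} (h : TOK D K J w L) : Monotone (tv L) :=
  monotone_nat_of_le_succ h.le

theorem ry_mem : ∀ n ≤ 8, 0 ≤ ry n ∧ ry n ≤ 1 := by
  intro n hn
  have h : ∀ n ≤ 8, rn n ≤ 128 := by decide
  have h1 : (rn n : ℝ) ≤ 128 := by exact_mod_cast h n hn
  have h0 : (0 : ℝ) ≤ rn n := Nat.cast_nonneg _
  unfold ry
  constructor
  · positivity
  · linarith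

/-- one ray of the table -/
theorem one {ν : SN} {B0 Bl D K J T w L : ℕ} (h : Ctx ν B0 Bl D K J T w L) (i j : ℕ) {o k r : ℕ}
    (ho : o < 15) (hk : k < K) {z : ℝ} (h1 : 1024 * k ≤ z) (h2 : z ≤ 1024 * (k + 1))
    (h3 : |(tv L (i + j) - tv L i : ℝ) - z| ≤ D) (hr : nn o = r)
    (hv : ra o = 1 ∧ rb o = r / 128 ∨ ra o = r / 128 ∧ rb o = 1) (hr1 : (r : ℝ) / 128 ≤ 1) :
    B0 * nv ν i j o ≤ Bl * Lk T k o (tv L (i + j) - tv L i) := by
  have hD : (D : ℝ) ≤ 1023 := by exact_mod_cast h.tab.d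
  obtain ⟨h4, h5⟩ := abs_le.1 h3
  rcases Nat.eq_zero_or_pos j with rfl | hj
  · simp only [add_zero, sub_self] at h4 h5 ⊢
    have hk0 : k = 0 := by
      by_contra hc
      have : (1 : ℝ) ≤ k := by exact_mod_cast Nat.one_le_iff_ne_zero.2 hc
      linarith
    subst hk0
    have e1 : nv ν i 0 o = 16384 * (1 - r / 128) := by
      unfold nv
      rw [add_zero, ← sub_smul, map_smul_eq_mul, nu_uv (h.pos i), mul_one, Real.norm_eq_abs]
      rcases hv with ⟨a, b⟩ | ⟨a, b⟩
      · rw [a, b, abs_of_nonneg (by linarith)]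
      · rw [a, b, abs_of_nonpos (by linarith), neg_sub]
    have e2 : Lk T 0 o 0 = Tb T 0 o := by simp [Lk]
    have h6 : (2097152 : ℝ) ≤ Tb T 0 o * 128 + r * 16384 := by
      have := h.tab.z o ho
      rw [hr] at this
      exact_mod_cast this
    have h7 : (B0 : ℝ) ≤ Bl := by exact_mod_cast h.bl
    rw [e1, e2]
    exact mul_le_mul h7 (by linarith) (by linarith) (Nat.cast_nonneg _)
  · by_cases hJ : j < J
    · exact h.pr i j hj hJ o ho k hk z h1 h2 h3
    · exfalso
      have a1 := h.tok.far i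
      have a2 : tv L (i + J) ≤ tv L (i + j) := tv_mono h.tok (by omega)
      have a3 : (tv L i : ℝ) + (K * 1024 + D + 1) ≤ tv L (i + j) := by exact_mod_cast a1.trans a2
      have a4 : (k : ℝ) + 1 ≤ K := by exact_mod_cast hk
      linarith

theorem Lr_aff (T : ℕ) (σ : Bool) (k n : ℕ) {p q r x y z : ℝ} (h : p + q + r = 1) :
    p * Lr T σ k n x + q * Lr T σ k n y + r * Lr T σ k n z =
      Lr T σ k n (p * x + q * y + r * z) := by
  obtain rfl : r = 1 - p - q := by linarith
  unfold Lr Lk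
  split_ifs <;> ring

theorem Lr_le (T : ℕ) (σ : Bool) (k n : ℕ) {x : ℝ} (h0 : 0 ≤ x - k) (h1 : x - k ≤ 1) :
    Lr T σ k n (1024 * x) ≤ (1 - (x - k)) * tb T k n + (x - k) * tb T (k + 1) n := by
  have key : ∀ o : ℕ, Tb T k o ≤ tb T k n → Tb T (k + 1) o ≤ tb T (k + 1) n →
      Lk T k o (1024 * x) ≤ (1 - (x - k)) * tb T k n + (x - k) * tb T (k + 1) n := by
    intro o a b
    have a' : (Tb T k o : ℝ) ≤ tb T k n := by exact_mod_cast a
    have b' : (Tb T (k + 1) o : ℝ) ≤ tb T (k + 1) n := by exact_mod_cast b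
    have e : Lk T k o (1024 * x) = (1 - (x - k)) * Tb T k o + (x - k) * Tb T (k + 1) o := by
      unfold Lk; ring
    rw [e]
    exact add_le_add (mul_le_mul_of_nonneg_left a' (by linarith)) (mul_le_mul_of_nonneg_left b' h0)
  unfold Lr
  by_cases hn : n = 0
  · rw [if_pos hn]
    simp only [tb, if_pos hn]
    push_cast
    linarith
  · rw [if_neg hn]
    by_cases h8 : n = 8
    · rw [if_pos h8]
      exact key 14 (by simp only [tb, if_neg hn, if_pos h8, le_refl])
        (by simp only [tb, if_neg hn, if_pos h8, le_refl])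
    · rw [if_neg h8]
      cases σ
      · exact key (n + 6) (by simp only [tb, if_neg hn, if_neg h8, le_max_right])
          (by simp only [tb, if_neg hn, if_neg h8, le_max_right])
      · exact key (n - 1) (by simp only [tb, if_neg hn, if_neg h8, le_max_left])
          (by simp only [tb, if_neg hn, if_neg h8, le_max_left])

theorem nu3 (ν : SN) {p q r : ℝ} (hp : 0 ≤ p) (hq : 0 ≤ q) (hr : 0 ≤ r) (x y z : ℝ × ℝ) :
    ν (p • x + q • y + r • z) ≤ p * ν x + q * ν y + r * ν z := by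
  have h1 := map_add_le_add ν (p • x + q • y) (r • z)
  have h2 := map_add_le_add ν (p • x) (q • y)
  rw [smul_nn ν hp, smul_nn ν hq] at h2
  rw [smul_nn ν hr] at h1
  linarith

theorem nu2 (ν : SN) {p q : ℝ} (hp : 0 ≤ p) (hq : 0 ≤ q) (x y : ℝ × ℝ) :
    ν (p • x + q • y) ≤ p * ν x + q * ν y := by
  have h2 := map_add_le_add ν (p • x) (q • y)
  rwa [smul_nn ν hp, smul_nn ν hq] at h2

/-- three coupled pairs -/
theorem mix {ν : SN} {B0 Bl T : ℕ} {σ : Bool} {k n : ℕ} {p q r x y z : ℝ} {u v w : ℝ × ℝ}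
    (hp : 0 ≤ p) (hq : 0 ≤ q) (hr : 0 ≤ r) (h : p + q + r = 1)
    (h1 : B0 * (16384 * ν u) ≤ Bl * Lr T σ k n x) (h2 : B0 * (16384 * ν v) ≤ Bl * Lr T σ k n y)
    (h3 : B0 * (16384 * ν w) ≤ Bl * Lr T σ k n z) :
    B0 * (16384 * ν (p • u + q • v + r • w)) ≤ Bl * Lr T σ k n (p * x + q * y + r * z) := by
  rw [← Lr_aff T σ k n h]
  have a := mul_le_mul_of_nonneg_left (nu3 ν hp hq hr u v w)
    (by positivity : (0 : ℝ) ≤ B0 * 16384)
  have b1 := mul_le_mul_of_nonneg_left h1 hp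
  have b2 := mul_le_mul_of_nonneg_left h2 hq
  have b3 := mul_le_mul_of_nonneg_left h3 hr
  nlinarith

theorem ray {a b : ℝ} (ha : 0 ≤ a) (hab : a ≤ b) : ∃ n < 8, ∃ α β : ℝ, 0 ≤ α ∧ 0 ≤ β ∧
    b = α + β ∧ a = α * ry n + β * ry (n + 1) := by
  have step : ∀ n < 8, ry n < ry (n + 1) → ry n * b ≤ a → a ≤ ry (n + 1) * b →
      ∃ n < 8, ∃ α β : ℝ, 0 ≤ α ∧ 0 ≤ β ∧ b = α + β ∧ a = α * ry n + β * ry (n + 1) := by
    intro n hn h h1 h2
    have hd : 0 < ry (n + 1) - ry n := sub_pos.2 h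
    refine ⟨n, hn, (ry (n + 1) * b - a) / (ry (n + 1) - ry n), (a - ry n * b) / (ry (n + 1) - ry n),
      div_nonneg (by linarith) hd.le, div_nonneg (by linarith) hd.le, ?_, ?_⟩
    · field_simp; ring
    · field_simp; ring
  have hlt : ∀ n < 8, ry n < ry (n + 1) := by
    intro n hn
    have h : ∀ n < 8, rn n < rn (n + 1) := by decide
    have h1 : (rn n : ℝ) < rn (n + 1) := by exact_mod_cast h n hn
    unfold ry
    linarith
  by_contra hc
  have ind : ∀ n ≤ 8, ry n * b ≤ a ∧ (n = 0 ∨ ry n * b < a) := by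
    intro n
    induction n with
    | zero => intro _; exact ⟨by simpa [ry, rn] using ha, Or.inl rfl⟩
    | succ n ih =>
      intro hn
      have h1 := (ih (by omega)).1
      have h2 : ry (n + 1) * b < a := by
        by_contra h3
        exact hc (step n (by omega) (hlt n (by omega)) h1 (not_lt.1 h3))
      exact ⟨h2.le, Or.inr h2⟩
  have h8 : ry 8 = 1 := by norm_num [ry, rn]
  rcases (ind 8 le_rfl).2 with h | h
  · omega
  · rw [h8] at h; linarith

theorem fz_eq {k : ℕ} (h : k ≤ 60) : fz (k : ℤ) = k := by unfold fz; omega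

/-- the bound for one ray and two points of chords -/
theorem chord (h : S_P1) {ν : SN} {B0 Bl D K J T w L : ℕ} (hC : Ctx ν B0 Bl D K J T w L)
    {k l m n : ℕ} {s t : ℝ} (hkl : k ≤ l) (s0 : 0 ≤ s) (s1 : s ≤ 1) (t0 : 0 ≤ t) (t1 : t ≤ 1)
    (hst : k = l → s ≤ t) (hn : n ≤ 8) (hm : m < K) (h0 : 0 ≤ tc L l t - tc L k s - m)
    (h1 : tc L l t - tc L k s - m ≤ 1) :
    B0 * (16384 * ν (((1 - t) • uv ν l + t • uv ν (l + 1)) -
        ry n • ((1 - s) • uv ν k + s • uv ν (k + 1)))) ≤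
      Bl * Lr T true m n (1024 * (tc L l t - tc L k s)) ∧
    B0 * (16384 * ν (ry n • ((1 - t) • uv ν l + t • uv ν (l + 1)) -
        ((1 - s) • uv ν k + s • uv ν (k + 1)))) ≤
      Bl * Lr T false m n (1024 * (tc L l t - tc L k s)) := by
  have P : ∀ i i', i ≤ i' → |(tv L i' - tv L i : ℝ) - 1024 * (tc L l t - tc L k s)| ≤ D →
      B0 * (16384 * ν (uv ν i' - ry n • uv ν i)) ≤ Bl * Lr T true m n (tv L i' - tv L i) ∧
      B0 * (16384 * ν (ry n • uv ν i' - uv ν i)) ≤ Bl * Lr T false m n (tv L i' - tv L i) := by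
    intro i i' hi hD
    obtain ⟨j, rfl⟩ := Nat.exists_eq_add_of_le hi
    exact h hC i j n hn m hm _ (by linarith) (by linarith) hD
  have a0 : (tv L k : ℝ) ≤ tv L (k + 1) := by exact_mod_cast hC.tok.le k
  have a1 : (tv L (k + 1) : ℝ) ≤ tv L k + D := by exact_mod_cast hC.tok.st k
  have b0 : (tv L l : ℝ) ≤ tv L (l + 1) := by exact_mod_cast hC.tok.le l
  have b1 : (tv L (l + 1) : ℝ) ≤ tv L l + D := by exact_mod_cast hC.tok.st l
  have ez : 1024 * (tc L l t - tc L k s) =
      tv L l - tv L k + t * (tv L (l + 1) - tv L l) - s * (tv L (k + 1) - tv L k) := by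
    unfold tc; ring
  have c1 := mul_nonneg s0 (sub_nonneg.2 a0)
  have c2 := mul_nonneg (sub_nonneg.2 s1) (sub_nonneg.2 a0)
  have c3 := mul_nonneg t0 (sub_nonneg.2 b0)
  have c4 := mul_nonneg (sub_nonneg.2 t1) (sub_nonneg.2 b0)
  have d1 := mul_nonneg s0 (sub_nonneg.2 a1)
  have d2 := mul_nonneg (sub_nonneg.2 s1) (sub_nonneg.2 a1)
  have d3 := mul_nonneg t0 (sub_nonneg.2 b1)
  have d4 := mul_nonneg (sub_nonneg.2 t1) (sub_nonneg.2 b1)
  have hD : (0 : ℝ) ≤ D := Nat.cast_nonneg _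
  have p1 := P k l hkl (by rw [ez, abs_le]; constructor <;> linarith)
  have p2 := P (k + 1) (l + 1) (by omega) (by rw [ez, abs_le]; constructor <;> linarith)
  rcases le_or_gt s t with hc | hc
  · have e := mul_nonneg (sub_nonneg.2 hc) hD
    have p3 := P k (l + 1) (by omega) (by rw [ez, abs_le]; constructor <;> linarith)
    have q1 := mix s0 (sub_nonneg.2 hc) (sub_nonneg.2 t1) (by ring) p2.1 p3.1 p1.1
    have q2 := mix s0 (sub_nonneg.2 hc) (sub_nonneg.2 t1) (by ring) p2.2 p3.2 p1.2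
    rw [ez]
    constructor
    · convert q1 using 4
      · module
      · ring
    · convert q2 using 4
      · module
      · ring
  · have e := mul_nonneg (sub_nonneg.2 hc.le) hD
    have hlt : k + 1 ≤ l := by
      by_contra h3
      exact absurd (hst (by omega)) (not_le.2 hc)
    have p3 := P (k + 1) l hlt (by rw [ez, abs_le]; constructor <;> linarith)
    have q1 := mix t0 (sub_nonneg.2 hc.le) (sub_nonneg.2 s1) (by ring) p2.1 p3.1 p1.1
    have q2 := mix t0 (sub_nonneg.2 hc.le) (sub_nonneg.2 s1) (by ring) p2.2 p3.2 p1.2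
    rw [ez]
    constructor
    · convert q1 using 4
      · module
      · ring
    · convert q2 using 4
      · module
      · ring

/-- two rays -/
theorem fin {ν : SN} {B0 Bl T : ℕ} {c p q : ℝ}
    (hc : c * Bl ≤ B0) (hB : 0 < Bl) {σ : Bool} {m n n' : ℕ} {x α β : ℝ} {u v : ℝ × ℝ}
    (h0 : 0 ≤ x - m) (h1 : x - m ≤ 1) (hα : 0 ≤ α) (hβ : 0 ≤ β)
    (r1 : α * tb T m n + β * tb T m n' ≤ 16384 * p)
    (r2 : α * tb T (m + 1) n + β * tb T (m + 1) n' ≤ 16384 * q)
    (hu : B0 * (16384 * ν u) ≤ Bl * Lr T σ m n (1024 * x))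
    (hv : B0 * (16384 * ν v) ≤ Bl * Lr T σ m n' (1024 * x)) :
    c * ν (α • u + β • v) ≤ (1 - (x - m)) * p + (x - m) * q := by
  have hB' : (0 : ℝ) < Bl := by exact_mod_cast hB
  have l1 := mul_le_mul_of_nonneg_left (Lr_le T σ m n h0 h1) hα
  have l2 := mul_le_mul_of_nonneg_left (Lr_le T σ m n' h0 h1) hβ
  have r1 := mul_le_mul_of_nonneg_left r1 (sub_nonneg.2 h1)
  have r2 := mul_le_mul_of_nonneg_left r2 h0
  have k1 : α * Lr T σ m n (1024 * x) + β * Lr T σ m n' (1024 * x) ≤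
      16384 * ((1 - (x - m)) * p + (x - m) * q) := by linarith
  have k2 := mul_le_mul_of_nonneg_left k1 hB'.le
  have k3 := mul_le_mul_of_nonneg_left hu hα
  have k4 := mul_le_mul_of_nonneg_left hv hβ
  have k5 := mul_le_mul_of_nonneg_left (nu2 ν hα hβ u v) (Nat.cast_nonneg B0 : (0 : ℝ) ≤ B0)
  have k6 := mul_le_mul_of_nonneg_right hc (apply_nonneg ν (α • u + β • v))
  refine le_of_mul_le_mul_left ?_ hB'
  linarith

end CP_

open CP_ in
theorem t_P1 : S_P1 := by
  intro ν B0 Bl D K J T w L h i j n hn k hk z h1 h2 h3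
  have h7 : (B0 : ℝ) ≤ Bl := by exact_mod_cast h.bl
  rcases Nat.eq_zero_or_pos n with rfl | h0
  · have e : ry 0 = 0 := by simp [ry, rn]
    rw [e, zero_smul, zero_smul, sub_zero, zero_sub, map_neg_eq_map, nu_uv (h.pos _),
      nu_uv (h.pos _)]
    simp only [Lr, if_true]
    constructor <;> linarith
  · obtain ⟨⟨a1, a2, a3⟩, b1, b2, b3⟩ := ray_rn n (by omega) h0
    have hr : (rn n : ℝ) / 128 ≤ 1 := (ry_mem n hn).2
    have ea : ra (if n = 8 then 14 else n - 1) = 1 := by rw [ra, a2]; norm_num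
    have eb : rb (if n = 8 then 14 else n - 1) = rn n / 128 := by rw [rb, a3]; push_cast; ring
    have fa : ra (if n = 8 then 14 else n + 6) = rn n / 128 := by rw [ra, b2]; push_cast; ring
    have fb : rb (if n = 8 then 14 else n + 6) = 1 := by rw [rb, b3]; norm_num
    have g1 := one h i j (o := if n = 8 then 14 else n - 1) (by split_ifs <;> omega) hk h1 h2 h3 a1
      (Or.inl ⟨ea, eb⟩) hr
    have g2 := one h i j (o := if n = 8 then 14 else n + 6) (by split_ifs <;> omega) hk h1 h2 h3 b1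
      (Or.inr ⟨fa, fb⟩) hr
    rw [nv, ea, eb, one_smul] at g1
    rw [nv, fa, fb, one_smul] at g2
    simp only [Lr, if_neg h0.ne', if_true, Bool.false_eq_true, if_false]
    exact ⟨g1, g2⟩

open CP_ in
theorem t_CP (h : S_P1) : S_CP := by
  intro ν B0 Bl D K J T w L P c hC hP c0 hc hB k l s t a b hkl s0 s1 t0 t1 hst h60 a0 b0
  have hx : 0 ≤ tc L l t - tc L k s := by
    have a0 : (tv L k : ℝ) ≤ tv L (k + 1) := by exact_mod_cast hC.tok.le k
    have b0 : (tv L l : ℝ) ≤ tv L (l + 1) := by exact_mod_cast hC.tok.le l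
    rcases hkl.eq_or_lt with rfl | hlt
    · have := mul_nonneg (sub_nonneg.2 (hst rfl)) (sub_nonneg.2 a0)
      unfold tc
      linarith
    · have c0 : (tv L (k + 1) : ℝ) ≤ tv L l := by exact_mod_cast tv_mono hC.tok hlt
      have := mul_nonneg (sub_nonneg.2 s1) (sub_nonneg.2 a0)
      have := mul_nonneg t0 (sub_nonneg.2 b0)
      unfold tc
      linarith
  obtain ⟨m, hm⟩ := Int.eq_ofNat_of_zero_le (Int.floor_nonneg.2 hx)
  have f0 : 0 ≤ tc L l t - tc L k s - m := by
    have := Int.floor_le (tc L l t - tc L k s)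
    rw [hm, Int.cast_natCast] at this
    linarith
  have f1 : tc L l t - tc L k s - m ≤ 1 := by
    have := Int.lt_floor_add_one (tc L l t - tc L k s)
    rw [hm, Int.cast_natCast] at this
    linarith
  have hm60 : m ≤ 60 := by
    have : (m : ℝ) ≤ 60 := by linarith
    exact_mod_cast this
  have hK := hC.tab.k
  unfold DD
  rw [hm, Int.cast_natCast, fz_eq hm60]
  by_cases hmK : m < K
  · rw [show (m : ℤ) + 1 = ((m + 1 : ℕ) : ℤ) by push_cast; ring, fz_eq (by omega)]
    rcases le_total a b with hab | hab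
    · obtain ⟨n, hn, n', hn', α, β, hα, hβ, e1, e2, r1, r2⟩ := hP.ray m hmK b a a0 hab
      have g := fin hc hB f0 f1 hα hβ r1 r2
        (chord h hC hkl s0 s1 t0 t1 hst hn hmK f0 f1).1
        (chord h hC hkl s0 s1 t0 t1 hst hn' hmK f0 f1).1
      rw [hP.sym m, hP.sym (m + 1)] at g
      convert g using 3
      rw [e1, e2]
      module
    · obtain ⟨n, hn, n', hn', α, β, hα, hβ, e1, e2, r1, r2⟩ := hP.ray m hmK a b b0 hab
      have g := fin hc hB f0 f1 hα hβ r1 r2
        (chord h hC hkl s0 s1 t0 t1 hst hn hmK f0 f1).2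
        (chord h hC hkl s0 s1 t0 t1 hst hn' hmK f0 f1).2
      convert g using 3
      rw [e1, e2]
      module
  · have g1 := hP.sat m (by omega) hm60 a b a0 b0
    have g2 := hP.sat (fz ((m : ℤ) + 1)) (by unfold fz; omega) (by unfold fz; omega) a b a0 b0
    have hB' : (0 : ℝ) < Bl := by exact_mod_cast hB
    have h7 : (B0 : ℝ) ≤ Bl := by exact_mod_cast hC.bl
    have c1 : c ≤ 1 := le_of_mul_le_mul_right (by linarith) hB'
    have u1 := nu2 ν (sub_nonneg.2 t1) t0 (uv ν l) (uv ν (l + 1))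
    have u2 := nu2 ν (sub_nonneg.2 s1) s0 (uv ν k) (uv ν (k + 1))
    rw [nu_uv (hC.pos _), nu_uv (hC.pos _)] at u1 u2
    have u3 := map_sub_le_add ν (b • ((1 - t) • uv ν l + t • uv ν (l + 1)))
      (a • ((1 - s) • uv ν k + s • uv ν (k + 1)))
    rw [smul_nn ν b0, smul_nn ν a0] at u3
    have u4 := mul_le_mul_of_nonneg_left u1 b0
    have u5 := mul_le_mul_of_nonneg_left u2 a0
    have u6 := mul_le_mul_of_nonneg_right c1 (apply_nonneg ν
      (b • ((1 - t) • uv ν l + t • uv ν (l + 1)) - a • ((1 - s) • uv ν k + s • uv ν (k + 1))))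
    have u7 := mul_le_mul_of_nonneg_left g1 (sub_nonneg.2 f1)
    have u8 := mul_le_mul_of_nonneg_left g2 f0
    linarith

end

section


open Real

namespace EM_

theorem fz_neg (n : ℤ) : fz (-n) = fz n := by unfold fz; omega

theorem fz_per (n : ℤ) : fz (n + 120) = fz n := by unfold fz; omega

theorem DD_symm {P : ℕ → ℝ → ℝ → ℝ} (h : ∀ k a b, P k a b = P k b a) (a s b t : ℝ) :
    DD P a s b t = DD P b t a s := by
  unfold DD
  have e : s - t = -(t - s) := by ring
  rw [e]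
  generalize t - s = d
  have h1 := Int.floor_le d
  have h2 := Int.lt_floor_add_one d
  rcases h1.eq_or_lt with h3 | h3
  · have h4 : ⌊-d⌋ = -⌊d⌋ := by rw [Int.floor_eq_iff]; push_cast; constructor <;> linarith
    rw [h4, fz_neg, h (fz ⌊d⌋) a b]; push_cast
    have h5 : d - ⌊d⌋ = 0 := by linarith
    have h6 : -d - -(⌊d⌋ : ℝ) = 0 := by linarith
    rw [h5, h6]; ring
  · have h4 : ⌊-d⌋ = -(⌊d⌋ + 1) := by
      rw [Int.floor_eq_iff]; push_cast; constructor <;> linarith
    have h5 : -(⌊d⌋ + 1) + 1 = -⌊d⌋ := by ring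
    rw [h4, h5, fz_neg, fz_neg, h (fz ⌊d⌋) a b, h (fz (⌊d⌋ + 1)) a b]; push_cast; ring

theorem DD_per (P : ℕ → ℝ → ℝ → ℝ) (a s b t : ℝ) : DD P a s b (t + 120) = DD P a s b t := by
  unfold DD
  have e : t + 120 - s = t - s + (120 : ℤ) := by push_cast; ring
  have e2 : ⌊t - s⌋ + 120 + 1 = ⌊t - s⌋ + 1 + 120 := by ring
  rw [e, Int.floor_add_intCast, e2, fz_per, fz_per]; push_cast; ring

theorem uv_per (ν : SN) (k : ℕ) : uv ν (k + 480) = uv ν k := by
  rw [show k + 480 = k + 240 + 240 from rfl, uv_half, uv_half, neg_neg]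

theorem tv_per (L k : ℕ) : tv L (k + 480) = tv L k + 122880 := by
  unfold tv
  rw [show (k + 480) % 240 = k % 240 by omega, show (k + 480) / 240 = k / 240 + 2 by omega]; ring

theorem tc_per (L k : ℕ) (s : ℝ) : tc L (k + 480) s = tc L k s + 120 := by
  unfold tc
  rw [show k + 480 + 1 = k + 1 + 480 by ring, tv_per, tv_per]; push_cast; ring

end EM_

open EM_ in
theorem t_EM (h1 : TA) (h2 : S_RO) (h3 : S_CP) : S_EM := by
  intro B0 Bl B D K J T R w ta ro W P hp hb hM hBl ν b c hJ hl1 hl2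
  have p := par_spec hp
  have hN : Nm ν B := ⟨hJ.le, fun x y hx hy => by have := le_Lam ν hx hy; linarith⟩
  have hpi := pi_pos
  obtain ⟨L, ⟨htok, hpr⟩, hV⟩ := hb ν b c hJ hN (by simpa using hJ.b0)
    (by have := hJ.h1; have := hJ.h2; push_cast; linarith)
    (by have := hJ.h3; push_cast; linarith)
    (by have := hJ.h1; have := hJ.h2; push_cast; linarith)
  have hw : ∀ k, (w : ℝ) ≤ 16384 * ν (ev k) := fun k =>
    (Nat.cast_le.2 (htok.w k)).trans (hV k)
  have hw0 : (0 : ℝ) < w := by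
    have := p.rw
    rcases Nat.eq_zero_or_pos w with h | h
    · rw [h] at this; omega
    · exact_mod_cast h
  have hC : Ctx ν B0 Bl D K J T w L :=
    ⟨fun k => by have := hw k; linarith, p.bl, h1.tab p.t, htok, hpr ν hN hV⟩
  have hB : (0 : ℝ) < Bl := by exact_mod_cast hBl
  have hL : 0 < 10000 * Lam ν := hB.trans_le hl1
  have hc0 : (0 : ℝ) ≤ B0 / (10000 * Lam ν) := div_nonneg (Nat.cast_nonneg _) hL.le
  have hc1 : (B0 / (10000 * Lam ν) : ℝ) * Bl ≤ B0 := by
    rw [div_mul_eq_mul_div, div_le_iff₀ hL]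
    exact mul_le_mul_of_nonneg_left hl1 (Nat.cast_nonneg _)
  have H := h3 hC hM hc0 hc1 hBl
  generalize (B0 / (10000 * Lam ν) : ℝ) = e at H ⊢
  have key : ∀ (k l : ℕ) (s t a b : ℝ), k ≤ l → l < 480 → 0 ≤ s → s ≤ 1 → 0 ≤ t → t ≤ 1 →
      (k = l → s ≤ t) → 0 ≤ a → 0 ≤ b →
      e * ν (b • ((1 - t) • uv ν l + t • uv ν (l + 1)) -
        a • ((1 - s) • uv ν k + s • uv ν (k + 1))) ≤ DD P a (tc L k s) b (tc L l t) := by
    intro k l s t a b hkl hl s0 s1 t0 t1 hst ha hb
    by_cases h : tc L l t - tc L k s ≤ 60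
    · exact H k l s t a b hkl s0 s1 t0 t1 hst h ha hb
    · have := H l (k + 480) t s b a (by omega) t0 t1 s0 s1 (by omega)
        (by rw [tc_per]; linarith [not_le.1 h]) hb ha
      rwa [tc_per, DD_per, DD_symm hM.sym, show k + 480 + 1 = k + 1 + 480 by ring, uv_per, uv_per,
        map_sub_rev] at this
  choose k hk t ρ t0 t1 hx hρ hρ' using h2 hJ.le hw p.a p.wa p.o
  have ρ0 : ∀ x, 0 ≤ ρ x := fun x => (apply_nonneg ν x).trans (hρ x)
  refine ⟨ρ, fun x => tc L (k x) (t x), fun x => ⟨hρ x, hρ' x⟩, fun x y => ?_⟩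
  by_cases h : k x < k y ∨ (k x = k y ∧ t x ≤ t y)
  · have := key (k x) (k y) (t x) (t y) (ρ x) (ρ y) (by omega) (hk y) (t0 x) (t1 x) (t0 y) (t1 y)
      (fun h' => h.elim (fun h => by omega) (·.2)) (ρ0 x) (ρ0 y)
    rwa [← hx, ← hx] at this
  · push Not at h
    have := key (k y) (k x) (t y) (t x) (ρ y) (ρ x) h.1 (hk x) (t0 y) (t1 y) (t0 x) (t1 x)
      (fun h' => (h.2 h'.symm).le) (ρ0 y) (ρ0 x)
    rwa [← hx, ← hx, map_sub_rev, DD_symm hM.sym] at this

end

section


open Real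

namespace RD_

/-- the functional of direction `θ` is dominated by `ν` -/
def F (ν : SN) (θ : ℝ) : Prop := ∀ x : ℝ × ℝ, |cos θ * x.1 + sin θ * x.2| ≤ ν x

theorem F.add_pi {ν : SN} {θ : ℝ} (h : F ν θ) : F ν (θ + π) := fun x => by
  have e : cos (θ + π) * x.1 + sin (θ + π) * x.2 = -(cos θ * x.1 + sin θ * x.2) := by
    rw [cos_add_pi, sin_add_pi]; ring
  rw [e, abs_neg]; exact h x

theorem F.sub_pi {ν : SN} {θ : ℝ} (h : F ν θ) : F ν (θ - π) := fun x => by
  have e : cos (θ - π) * x.1 + sin (θ - π) * x.2 = -(cos θ * x.1 + sin θ * x.2) := by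
    rw [cos_sub_pi, sin_sub_pi]; ring
  rw [e, abs_neg]; exact h x

/-- rotation by `α`, after a reflection if `s = -1` -/
noncomputable def rt (α s : ℝ) (hs : s * s = 1) : (ℝ × ℝ) ≃ₗ[ℝ] (ℝ × ℝ) where
  toFun x := (cos α * x.1 - s * sin α * x.2, sin α * x.1 + s * cos α * x.2)
  invFun y := (cos α * y.1 + sin α * y.2, s * (cos α * y.2 - sin α * y.1))
  map_add' x y := by ext <;> simp only [Prod.fst_add, Prod.snd_add] <;> ring
  map_smul' c x := by
    ext <;> simp only [Prod.smul_fst, Prod.smul_snd, smul_eq_mul, RingHom.id_apply] <;> ring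
  left_inv x := by
    have h := sin_sq_add_cos_sq α
    ext
    · show cos α * (cos α * x.1 - s * sin α * x.2) + sin α * (sin α * x.1 + s * cos α * x.2) = x.1
      linear_combination x.1 * h
    · show s * (cos α * (sin α * x.1 + s * cos α * x.2) - sin α * (cos α * x.1 - s * sin α * x.2))
        = x.2
      linear_combination (s * s * x.2) * h + x.2 * hs
  right_inv y := by
    have h := sin_sq_add_cos_sq α
    ext
    · show cos α * (cos α * y.1 + sin α * y.2) - s * sin α * (s * (cos α * y.2 - sin α * y.1)) = y.1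
      linear_combination y.1 * h - sin α * (cos α * y.2 - sin α * y.1) * hs
    · show sin α * (cos α * y.1 + sin α * y.2) + s * cos α * (s * (cos α * y.2 - sin α * y.1)) = y.2
      linear_combination y.2 * h + cos α * (cos α * y.2 - sin α * y.1) * hs

theorem rt_apply (α s : ℝ) (hs : s * s = 1) (x : ℝ × ℝ) :
    rt α s hs x = (cos α * x.1 - s * sin α * x.2, sin α * x.1 + s * cos α * x.2) := rfl

theorem F.rt {ν : SN} {θ α s : ℝ} (hs : s = 1 ∨ s = -1) (hs' : s * s = 1) (h : F ν θ) :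
    F (ν.comp (rt α s hs').toLinearMap) (s * (θ - α)) := fun x => by
  have := h (RD_.rt α s hs' x)
  rw [rt_apply] at this
  have e : cos (s * (θ - α)) * x.1 + sin (s * (θ - α)) * x.2 =
      cos θ * (cos α * x.1 - s * sin α * x.2) + sin θ * (sin α * x.1 + s * cos α * x.2) := by
    rcases hs with rfl | rfl
    · rw [one_mul, cos_sub, sin_sub]; ring
    · rw [neg_one_mul, cos_neg, sin_neg, cos_sub, sin_sub]; ring
  rw [e]; exact this

theorem main {n : ℕ} (f : ℝ → ℝ)
    (H : ∀ (ν : SN) (b c : ℝ), Jn ν b c → (∀ x, ν x = 0 → x = 0) → ∀ p : Fin n → ℝ × ℝ,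
      (∀ i, ν (p i) ≤ 1) →
      ∃ T : BinaryTree (Fin n), labels T = Finset.univ.val ∧ span ν p 0 T ≤ f (Lam ν))
    {ν : SN} (hl : Le ν) {α β γ s : ℝ} (hs : s = 1 ∨ s = -1) (ha : F ν α) (hb : F ν β)
    (hc : F ν γ) (h0 : 0 ≤ s * (β - α)) (h1 : 2 * (s * (β - α)) ≤ s * (γ - α))
    (h2 : 2 * (s * (γ - α)) ≤ s * (β - α) + π) (h3 : π / 2 ≤ s * (γ - α))
    (p : Fin n → ℝ × ℝ) (hp : ∀ i, ν (p i) ≤ 1) :
    ∃ T : BinaryTree (Fin n), labels T = Finset.univ.val ∧ span ν p 0 T ≤ f (Lam ν) := by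
  have hs' : s * s = 1 := by rcases hs with rfl | rfl <;> norm_num
  have hπ := pi_pos
  have fa : ∀ x : ℝ × ℝ, |x.1| ≤ ν.comp (rt α s hs').toLinearMap x := fun x => by
    simpa using ha.rt (α := α) hs hs' x
  have fc := hc.rt (α := α) hs hs'
  have hJ : Jn (ν.comp (rt α s hs').toLinearMap) (s * (β - α)) (s * (γ - α)) :=
    { le := fun x => by
        have := hl (rt α s hs' x)
        have h := sin_sq_add_cos_sq α
        refine this.trans (le_of_eq ?_)
        rw [rt_apply]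
        linear_combination (x.1 ^ 2 + s * s * x.2 ^ 2) * h + x.2 ^ 2 * hs'
      fa := fa, fb := hb.rt hs hs', fc := fc, b0 := h0, h1 := h1, h2 := h2, h3 := h3 }
  have hd : ∀ x, ν.comp (rt α s hs').toLinearMap x = 0 → x = 0 := fun x hx => by
    have a1 := fa x
    have a2 := fc x
    rw [hx, abs_nonpos_iff] at a1 a2
    have hsin : 0 < sin (s * (γ - α)) := sin_pos_of_pos_of_lt_pi (by linarith) (by linarith)
    rw [a1, mul_zero, zero_add, mul_eq_zero] at a2
    exact Prod.ext a1 (a2.resolve_left hsin.ne')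
  obtain ⟨T, t1, t2⟩ := H _ _ _ hJ hd (fun i => (rt α s hs').symm (p i)) fun i => by
    simpa using hp i
  refine ⟨T, t1, ?_⟩
  rw [← J.span_comp ν (rt α s hs') p T 0, map_zero, ← J.lam_comp ν (rt α s hs')]
  exact t2

theorem le_lam (η : SN) {u v : ℝ × ℝ} (hu : η u ≤ 1) (hv : η v ≤ 1) :
    η (u + v) + η (u - v) ≤ Lam η := by
  refine le_csSup ⟨4, ?_⟩ ⟨u, v, hu, hv, rfl⟩
  rintro s ⟨u, v, hu, hv, rfl⟩
  have := map_add_le_add η u v
  have := map_sub_le_add η u v
  linarith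

theorem sm (η : SN) {c : ℝ} (hc : 0 ≤ c) (x : ℝ × ℝ) : η (c • x) = c * η x := by
  rw [map_smul_eq_mul, norm_of_nonneg hc]

end RD_

open RD_ in
theorem t_RD : S_RD := by
  intro n f H η hη p hp
  refine J.reduce f (fun ν a b c h p hp => ?_) η hη p hp
  have ha : F ν a := h.fa
  have hb : F ν b := h.fb
  have hc : F ν c := h.fc
  have hl : Le ν := h.le
  have := h.ab; have := h.bc; have := h.ca; have := h.gab; have := h.gbc; have := h.gca
  rcases le_total (b - a) (c - b) with h12 | h12 <;>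
  rcases le_total (c - b) (a + π - c) with h23 | h23 <;>
  rcases le_total (b - a) (a + π - c) with h13 | h13
  · exact main f H hl (Or.inl rfl) ha hb hc (by linarith) (by linarith) (by linarith)
      (by linarith) p hp
  · exact main f H hl (Or.inl rfl) ha hb hc (by linarith) (by linarith) (by linarith)
      (by linarith) p hp
  · exact main f H hl (Or.inr rfl) hb ha hc.sub_pi (by linarith) (by linarith) (by linarith)
      (by linarith) p hp
  · exact main f H hl (Or.inl rfl) hc ha.add_pi hb.add_pi (by linarith) (by linarith)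
      (by linarith) (by linarith) p hp
  · exact main f H hl (Or.inr rfl) hc hb ha (by linarith) (by linarith) (by linarith)
      (by linarith) p hp
  · exact main f H hl (Or.inl rfl) hb hc ha.add_pi (by linarith) (by linarith) (by linarith)
      (by linarith) p hp
  · exact main f H hl (Or.inr rfl) ha.add_pi hc hb (by linarith) (by linarith) (by linarith)
      (by linarith) p hp
  · exact main f H hl (Or.inr rfl) ha.add_pi hc hb (by linarith) (by linarith) (by linarith)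
      (by linarith) p hp

open RD_ in
theorem t_LM : S_LM := by
  intro η hη
  have hp : ∀ t : ℝ, 0 < η (cos t, sin t) := fun t => by
    refine lt_of_le_of_ne (apply_nonneg η _) fun h => ?_
    have := hη _ h.symm
    have h1 : cos t = 0 := congrArg Prod.fst this
    have h2 : sin t = 0 := congrArg Prod.snd this
    have := sin_sq_add_cos_sq t
    rw [h1, h2] at this
    norm_num at this
  set d : ℝ → ℝ × ℝ := fun t => (η (cos t, sin t))⁻¹ • (cos t, sin t) with hd
  have d1 : ∀ t, η (d t) = 1 := fun t => by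
    rw [hd]; simp only
    rw [sm η (inv_nonneg.2 (hp t).le), inv_mul_cancel₀ (hp t).ne']
  have c0 : Continuous fun t : ℝ => ((cos t, sin t) : ℝ × ℝ) := by fun_prop
  have dc : Continuous d := (((J.sn_cont η).comp c0).inv₀ fun t => (hp t).ne').smul c0
  have dπ : d π = -d 0 := by
    have e : ((cos π, sin π) : ℝ × ℝ) = -(cos 0, sin 0) := by ext <;> simp
    rw [hd]; simp only
    rw [e, map_neg_eq_map, smul_neg]
  have gc : Continuous fun t => η (d 0 + d t) - η (d 0 - d t) :=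
    ((J.sn_cont η).comp (continuous_const.add dc)).sub
      ((J.sn_cont η).comp (continuous_const.sub dc))
  obtain ⟨t, -, ht⟩ := intermediate_value_Icc' pi_pos.le gc.continuousOn
    (show (0 : ℝ) ∈ Set.Icc _ _ from ⟨by
      simp only [dπ, add_neg_cancel, map_zero, zero_sub, Left.neg_nonpos_iff]
      exact apply_nonneg η _, by
      simp only [sub_self, map_zero, sub_zero]
      exact apply_nonneg η _⟩)
  set u := d 0
  set v := d t
  have hu : η u = 1 := d1 0
  have hv : η v = 1 := d1 t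
  have e : η (u - v) = η (u + v) := by simp only at ht; linarith
  set β := η (u + v) with hβ
  have two : ∀ x : ℝ × ℝ, η x = 1 → η ((2 : ℝ) • x) = 2 := fun x hx => by
    rw [sm η (by norm_num), hx, mul_one]
  have b1 : 1 ≤ β := by
    have h := map_add_le_add η (u + v) (u - v)
    have e2 : u + v + (u - v) = (2 : ℝ) • u := by module
    rw [e2, two u hu, e] at h
    linarith
  have b0 : 0 < β := by linarith
  have l1 : 2 * β ≤ Lam η := by
    have := le_lam η hu.le hv.le
    rw [e] at this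
    linarith
  have l2 : 4 * β⁻¹ ≤ Lam η := by
    have i0 : 0 ≤ β⁻¹ := inv_nonneg.2 b0.le
    have := le_lam η (u := β⁻¹ • (u + v)) (v := β⁻¹ • (u - v))
      (by rw [sm η i0, inv_mul_cancel₀ b0.ne']) (by rw [sm η i0, e, inv_mul_cancel₀ b0.ne'])
    have e1 : β⁻¹ • (u + v) + β⁻¹ • (u - v) = β⁻¹ • ((2 : ℝ) • u) := by module
    have e2 : β⁻¹ • (u + v) - β⁻¹ • (u - v) = β⁻¹ • ((2 : ℝ) • v) := by module
    rw [e1, e2, sm η i0, sm η i0, two u hu, two v hv] at this
    linarith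
  have i1 : β * β⁻¹ = 1 := mul_inv_cancel₀ b0.ne'
  have i0 : 0 < β⁻¹ := inv_pos.2 b0
  calc (8 : ℝ) = (2 * β) * (4 * β⁻¹) := by linear_combination (-8) * i1
    _ ≤ Lam η * Lam η := mul_le_mul l1 l2 (by positivity) (by linarith)
    _ = Lam η ^ 2 := by ring

end

end Pool.Agent.MP_1037db_co.PT
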