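import Pool.Agent.MP_1037db_co.PT.SA
import Pool.Agent.MP_1037db_co.PT.SB
import Pool.Agent.MP_1037db_co.PT.SC
import Pool.Agent.MP_1037db_co.Q.S1
import Pool.Agent.MP_1037db_co.Seven

/-! The table checker is sound; the link to the model of the tree checker. -/

namespace Pool.Agent.MP_1037db_co.PT

theorem hC : LC := t_LC t_LA t_LB
theorem hD : LD := t_LD t_LA t_LB
theorem hE : LE := t_LE t_LA t_LB
theorem hA : TA := t_TA t_LA t_LB hC
theorem hP : LP := t_LP t_LA t_LB hC hE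
theorem hWB : S_WB := t_WB (t_FA t_LA t_LB hC hD) (t_FB t_LA t_LB hC hD) (t_O1 t_LA t_LB hC hD)
  (t_FH t_LA hC) (t_CT t_LA t_LB hC hD t_TR)
theorem hRG : RG := t_RG hD hA (t_CV (t_QD t_TR)) (t_BK t_LA t_LB hC hD hE hP) (t_LN t_LA t_LB hE hP)
  (t_CE (t_GC (t_QD t_TR)) (t_YV t_TR t_SH) t_AV (t_S0 t_LB hC (t_S2 t_LA hA (t_VL t_LA t_LB hC)) t_AV))
theorem hEM : S_EM := t_EM hA (t_RO t_TR t_SH) (t_CP t_P1)

theorem skip {G : ℕ → Prop} {B p1 p2 q1 q2 : ℕ} (h : q2 < p1 * 2 ∨ p2 + 480 < q1 * 2) :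
    Box G B p1 p2 q1 q2 :=
  hWB (X := .sk) (orr_iff.2 (h.imp lt_iff.2 lt_iff.2)) fun _ h => nomatch h

/-- the model in units of the norm -/
noncomputable def Pm (G : LP.Geo) (k : ℕ) (a b : ℝ) : ℝ := @LP.Ph G k (10000 * a) (10000 * b) / 10000

/-- form `l` of column `k` lies above the chord from ray `x` to ray `y` on ray `e` -/
def Mf (A B : LP.Tr) (T k x y l e : ℕ) : Prop :=
  65536 * rn e * (rn y - rn x) + 512 * (tb T k x * (rn y - rn e) + tb T k y * (rn e - rn x)) ≤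
    (LP.fa A (k + 1) l * 128 + LP.fc B (k + 1) l * rn e) * (rn y - rn x)

def Mw (A B : LP.Tr) (T k n x y l l' : ℕ) : Prop := (x ≤ n ∧ n < y ∧ y ≤ 8 ∧ l < 12 ∧ l' < 12) ∧
  (Mf A B T k x y l n ∧ Mf A B T k x y l (n + 1)) ∧
  Mf A B T (k + 1) x y l' n ∧ Mf A B T (k + 1) x y l' (n + 1)

/-- the forms of the model lie above the table -/
def Mc (A B : LP.Tr) (K T W : ℕ) : Prop :=
  (∀ k < K, ∀ n < 8, Mw A B T k n (bt W (k * 128 + n * 16) 15) (bt W (k * 128 + n * 16 + 4) 15)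
    (bt W (k * 128 + n * 16 + 8) 15) (bt W (k * 128 + n * 16 + 12) 15)) ∧
  ∀ k < 61, k < K ∨ ∃ l < 12, 65536 ≤ LP.fa A (k + 1) l ∧ 131072 ≤ LP.fc B (k + 1) l

theorem rn_le : ∀ y < 9, ∀ x < 9, (x ≤ y → rn x ≤ rn y) ∧ (x < y → rn x < rn y) := by decide

theorem Mf.le {G : LP.Geo} {T k x y l n : ℕ} {α β : ℝ} (h : Mf G.A G.B T k x y l n)
    (g : Mf G.A G.B T k x y l (n + 1)) (hx : x ≤ n) (hy : n < y) (h8 : y ≤ 8) (hl : l < 12)
    (ha : 0 ≤ α) (hb : 0 ≤ β) :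
    ((α + β) * ry y - (α * ry n + β * ry (n + 1))) / (ry y - ry x) * tb T k x +
      (α * ry n + β * ry (n + 1) - (α + β) * ry x) / (ry y - ry x) * tb T k y ≤
      16384 * Pm G k (α + β) (α * ry n + β * ry (n + 1)) := by
  have a1 := (rn_le y (by omega) x (by omega)).2 (by omega)
  unfold Mf at h g
  have h := mul_le_mul_of_nonneg_left ((Nat.cast_le (α := ℝ)).2 h) ha
  have g := mul_le_mul_of_nonneg_left ((Nat.cast_le (α := ℝ)).2 g) hb
  push_cast [a1.le, (rn_le y (by omega) n (by omega)).1 hy.le, (rn_le n (by omega) x (by omega)).1 hx,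
    (rn_le y (by omega) (n + 1) (by omega)).1 hy,
    (rn_le (n + 1) (by omega) x (by omega)).1 (by omega)] at h g
  have d : (0 : ℝ) < rn y - rn x := sub_pos.2 (by exact_mod_cast a1)
  have z := mul_le_mul_of_nonneg_right
    (LP.le_Ph k hl (10000 * (α + β)) (10000 * (α * ry n + β * ry (n + 1)))).1 d.le
  unfold LP.fm at z
  unfold Pm
  unfold ry at z ⊢
  rw [div_mul_eq_mul_div, div_mul_eq_mul_div, ← add_div, div_le_iff₀ (by linarith)]
  linarith

theorem Mc.maj {G : LP.Geo} {K T W : ℕ} (h : Mc G.A G.B K T W) : Maj (Pm G) K T where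
  sym k a b := by rw [Pm, Pm, LP.Ph_comm]
  ray k hk a b hb ha := by
    obtain ⟨n, hn, α, β, h1, h2, rfl, rfl⟩ := CP_.ray hb ha
    obtain ⟨⟨a1, a2, a3, a4, a5⟩, ⟨b1, b2⟩, b3, b4⟩ := h.1 k hk n hn
    generalize bt W (k * 128 + n * 16) 15 = x, bt W (k * 128 + n * 16 + 4) 15 = y at *
    have r : ∀ u v, u ≤ v → v ≤ 8 → ry u ≤ ry v := fun u v c d => by
      have : (rn u : ℝ) ≤ rn v := by exact_mod_cast (rn_le v (by omega) u (by omega)).1 c
      unfold ry
      linarith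
    have d : 0 < ry y - ry x := by
      have : (rn x : ℝ) < rn y := by exact_mod_cast (rn_le y (by omega) x (by omega)).2 (by omega)
      unfold ry
      linarith
    refine ⟨x, by omega, y, a3, _, _, div_nonneg ?_ d.le, div_nonneg ?_ d.le, ?_, ?_,
      b1.le b2 a1 a2 a3 a4 h1 h2, b3.le b4 a1 a2 a3 a5 h1 h2⟩
    · nlinarith [r n y a2.le a3, r (n + 1) y a2 a3]
    · nlinarith [r x n a1 (by omega), r x (n + 1) (by omega) (by omega)]
    · field_simp
      ring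
    · field_simp
      ring
  sat k h1 h2 a b ha hb := by
    obtain ⟨l, hl, x, y⟩ := (h.2 k (by omega)).resolve_left (by omega)
    have x := mul_le_mul_of_nonneg_left ((Nat.cast_le (α := ℝ)).2 x) ha
    have y := mul_le_mul_of_nonneg_left ((Nat.cast_le (α := ℝ)).2 y) hb
    have z := (LP.le_Ph k hl (10000 * a) (10000 * b)).1
    unfold LP.fm at z
    unfold Pm
    push_cast at x y
    linarith

/-- the claim for the norms in John position whose constant lies between `lo / 10000` and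
`hi / 16384` -/
def Cl (lo hi : ℕ) : Prop := ∀ n, 7 < n → ∀ ν b c, Jn ν b c → (∀ x, ν x = 0 → x = 0) →
  (lo : ℝ) ≤ 10000 * Lam ν → 16384 * Lam ν ≤ hi → ∀ p : Fin n → ℝ × ℝ, (∀ i, ν (p i) ≤ 1) →
  ∃ T : BinaryTree (Fin n), labels T = Finset.univ.val ∧ span ν p 0 T ≤ 1 + Lam ν

theorem Cl.grp {G : LP.Geo} {B0 Bl B D K J T R w ta ro W M C} (h : LP.Many2 G ro C)
    (hm : Mc G.A G.B K T M) (hp : par B0 Bl D K J T R w ta ro W = true)
    (hb : Box (Good B0 Bl B D K J T w) B 0 160 240 320)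
    (hn : 0 < B0 ∧ C * B ≤ 16384 * B0 ∧ G.lim ≤ C + B0 ∧ 10000 ≤ G.c0) : Cl Bl B := by
  intro n h7 ν b c hj h0 h1 h2 p hp'
  have l0 : 0 < Bl := hn.1.trans_le (par_spec hp).bl
  obtain ⟨ρ, t, e1, e2⟩ := hEM hp hb hm.maj l0 ν b c hj h1 h2
  have a0 := (Nat.cast_pos (α := ℝ)).2 hn.1
  have a1 := (Nat.cast_le (α := ℝ)).2 hn.2.1
  have a2 := (Nat.cast_le (α := ℝ)).2 hn.2.2.1
  have a3 := (Nat.cast_pos (α := ℝ)).2 l0
  have a4 := C.cast_nonneg (α := ℝ)
  have a5 := ro.cast_nonneg (α := ℝ)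
  push_cast at a1 a2
  have L : 0 < Lam ν := by linarith
  refine h.use hn.2.2.2 h7 ν h0 p hp' (c := B0 / Lam ν) (by positivity) ?_ ?_ (fun i => 10000 * ρ (p i))
    (fun i => t (p i)) (fun i => by linarith [(e1 (p i)).1])
    (fun i => by nlinarith [(e1 (p i)).2, hp' i]) fun i j => ?_
  · rw [le_div_iff₀ L]
    nlinarith
  · rw [div_mul_cancel₀ _ L.ne']
    linarith
  · have := e2 (p i) (p j)
    rw [mul_comm 10000 (Lam ν), ← div_div, div_mul_eq_mul_div, div_le_iff₀ (by norm_num)] at this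
    refine this.trans_eq ?_
    simp only [DD, Pm, LP.dd]
    change _ = (1 - _) * LP.Ph (fz _) _ _ + _ * LP.Ph (fz _) _ _
    ring

theorem Cl.app {a b c d : ℕ} (h : Cl a b) (g : Cl c d) (e : 16384 * c ≤ 10000 * b) : Cl a d := by
  intro n h7 ν x y hj h0 h1 h2
  have e := (Nat.cast_le (α := ℝ)).2 e
  push_cast at e
  rcases le_total (16384 * Lam ν) b with u | u
  · exact h n h7 ν x y hj h0 h1 u
  · exact g n h7 ν x y hj h0 (by linarith) h2

theorem Cl.all (h : Cl 28284 60621) (η : SN) (hη : ∀ x, η x = 0 → x = 0) {n : ℕ}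
    (p : Fin n → ℝ × ℝ) (hp : ∀ i, η (p i) ≤ 1) :
    ∃ T : BinaryTree (Fin n), labels T = Finset.univ.val ∧ span η p 0 T ≤ 1 + Lam η := by
  rcases le_or_gt n 7 with c | c
  · exact seven η hη n c p hp
  refine t_RD (fun x => 1 + x) (fun ν b d hj h0 q hq => ?_) η hη p hp
  rcases le_total (37 / 10) (Lam ν) with u | u
  · simpa only [max_eq_right u] using main_lam h0 n q hq
  · have := t_LM ν h0
    have l : 0 ≤ Lam ν := by simpa using le_Lam ν (u := 0) (v := 0) (by simp) (by simp)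
    exact h n c ν b d hj h0 (by push_cast; nlinarith) (by push_cast; linarith) q hq

end Pool.Agent.MP_1037db_co.PT
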