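import Pool.Agent.MP_1037db_co.PT.Fy
import Pool.Agent.MP_1037db_co.PT.Asm
import Pool.Agent.MP_1037db_co.PT.Hae
import Pool.Agent.MP_1037db_co.PT.A1
import Pool.Agent.MP_1037db_co.PT.A2
import Pool.Agent.MP_1037db_co.PT.A3
import Pool.Agent.MP_1037db_co.PT.A4
import Pool.Agent.MP_1037db_co.PT.Hbe
import Pool.Agent.MP_1037db_co.PT.B1
import Pool.Agent.MP_1037db_co.PT.B2
import Pool.Agent.MP_1037db_co.PT.B3
import Pool.Agent.MP_1037db_co.PT.B4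
import Pool.Agent.MP_1037db_co.PT.B5
import Pool.Agent.MP_1037db_co.PT.Hce
import Pool.Agent.MP_1037db_co.PT.C1
import Pool.Agent.MP_1037db_co.PT.C2
import Pool.Agent.MP_1037db_co.PT.C3
import Pool.Agent.MP_1037db_co.PT.C4
import Pool.Agent.MP_1037db_co.PT.Hde
import Pool.Agent.MP_1037db_co.PT.D1
import Pool.Agent.MP_1037db_co.PT.D2
import Pool.Agent.MP_1037db_co.PT.D3
import Pool.Agent.MP_1037db_co.PT.D4
import Pool.Agent.MP_1037db_co.PT.Hee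
import Pool.Agent.MP_1037db_co.PT.E1
import Pool.Agent.MP_1037db_co.PT.E2
import Pool.Agent.MP_1037db_co.PT.E3
import Pool.Agent.MP_1037db_co.PT.E4
import Pool.Agent.MP_1037db_co.PT.Hfe
import Pool.Agent.MP_1037db_co.PT.F1
import Pool.Agent.MP_1037db_co.PT.F2
import Pool.Agent.MP_1037db_co.PT.F3
import Pool.Agent.MP_1037db_co.PT.F4
import Pool.Agent.MP_1037db_co.PT.Hge
import Pool.Agent.MP_1037db_co.PT.G1
import Pool.Agent.MP_1037db_co.PT.G2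
import Pool.Agent.MP_1037db_co.PT.G3

namespace Pool.Agent.MP_1037db_co.PT.Ka

@[reducible] def G : LP.Geo := ⟨FA, FB, FT, 60608, 10033, 38173, geo_ok⟩

theorem mc : Mc FA FB (nat_lit 44) T MW := by
  unfold Mc Mw Mf
  decide +kernel

theorem bA1 : Box (Good (nat_lit 28284) (nat_lit 28284) (nat_lit 46470) (nat_lit 440) (nat_lit 44) (nat_lit 192) T (nat_lit 14909)) (nat_lit 46470) 0 160 240 320 := by
  obtain ⟨p, s0, s1, s2, s3, s4, s5, s6, s7, s8, s9, s10, s11, s12, s13, s14, s15, s16, s17, s18, s19, s20, s21, s22, s23, s24, s25, s26, s27, s28⟩ := A1.s_ok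
  obtain ⟨e0, e1, e2, e3, e4, e5, e6, e7, e8, e9, e10, e11, e12, e13, e14, e15, e16, e17, e18, e19, e20, e21, e22, e23, e24, e25, e26, e27, e28⟩ := Ha.geo_ok
  have g : ∀ A, A1.Ok A → ∀ L ∈ A, Good (nat_lit 28284) (nat_lit 28284) (nat_lit 46470) (nat_lit 440) (nat_lit 44) (nat_lit 192) T (nat_lit 14909) L :=
    fun A ⟨b, l0, l1, l2, l3, l4, l5, l6, l7, l8, l9, l10, l11, l12, l13, l14, l15, l16, l17, l18, l19, l20, l21, l22, l23, l24, l25, l26, l27, l28⟩ => hRG.good p b (hRG.app (hRG.rng p b e0 (Fx.sc2_go s0) l0)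
      (hRG.app (hRG.rng p b e1 (Fx.sc2_go s1) l1)
      (hRG.app (hRG.rng p b e2 (Fx.sc2_go s2) l2)
      (hRG.app (hRG.rng p b e3 (Fx.sc2_go s3) l3)
      (hRG.app (hRG.rng p b e4 (Fx.sc2_go s4) l4)
      (hRG.app (hRG.rng p b e5 (Fx.sc2_go s5) l5)
      (hRG.app (hRG.rng p b e6 (Fx.sc2_go s6) l6)
      (hRG.app (hRG.rng p b e7 (Fx.sc2_go s7) l7)
      (hRG.app (hRG.rng p b e8 (Fx.sc2_go s8) l8)
      (hRG.app (hRG.rng p b e9 (Fx.sc2_go s9) l9)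
      (hRG.app (hRG.rng p b e10 (Fx.sc2_go s10) l10)
      (hRG.app (hRG.rng p b e11 (Fx.sc2_go s11) l11)
      (hRG.app (hRG.rng p b e12 (Fx.sc2_go s12) l12)
      (hRG.app (hRG.rng p b e13 (Fx.sc2_go s13) l13)
      (hRG.app (hRG.rng p b e14 (Fx.sc2_go s14) l14)
      (hRG.app (hRG.rng p b e15 (Fx.sc2_go s15) l15)
      (hRG.app (hRG.rng p b e16 (Fx.sc2_go s16) l16)
      (hRG.app (hRG.rng p b e17 (Fx.sc2_go s17) l17)
      (hRG.app (hRG.rng p b e18 (Fx.sc2_go s18) l18)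
      (hRG.app (hRG.rng p b e19 (Fx.sc2_go s19) l19)
      (hRG.app (hRG.rng p b e20 (Fx.sc2_go s20) l20)
      (hRG.app (hRG.rng p b e21 (Fx.sc2_go s21) l21)
      (hRG.app (hRG.rng p b e22 (Fx.sc2_go s22) l22)
      (hRG.app (hRG.rng p b e23 (Fx.sc2_go s23) l23)
      (hRG.app (hRG.rng p b e24 (Fx.sc2_go s24) l24)
      (hRG.app (hRG.rng p b e25 (Fx.sc2_go s25) l25)
      (hRG.app (hRG.rng p b e26 (Fx.sc2_go s26) l26)
      (hRG.app (hRG.rng p b e27 (Fx.sc2_go s27) l27)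
      (hRG.rng p b e28 (Fx.sc2_go s28) l28)))))))))))))))))))))))))))))
  exact (hWB A1.x0.1 (g _ A1.x0.2))

theorem bA2 : Box (Good (nat_lit 28284) (nat_lit 28363) (nat_lit 46600) (nat_lit 440) (nat_lit 44) (nat_lit 192) T (nat_lit 14814)) (nat_lit 46600) 0 160 240 320 := by
  obtain ⟨p, s0, s1, s2, s3, s4, s5, s6, s7, s8, s9, s10, s11, s12, s13, s14, s15, s16, s17, s18, s19, s20, s21, s22, s23, s24, s25, s26, s27, s28⟩ := A2.s_ok
  obtain ⟨e0, e1, e2, e3, e4, e5, e6, e7, e8, e9, e10, e11, e12, e13, e14, e15, e16, e17, e18, e19, e20, e21, e22, e23, e24, e25, e26, e27, e28⟩ := Ha.geo_ok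
  have g : ∀ A, A2.Ok A → ∀ L ∈ A, Good (nat_lit 28284) (nat_lit 28363) (nat_lit 46600) (nat_lit 440) (nat_lit 44) (nat_lit 192) T (nat_lit 14814) L :=
    fun A ⟨b, l0, l1, l2, l3, l4, l5, l6, l7, l8, l9, l10, l11, l12, l13, l14, l15, l16, l17, l18, l19, l20, l21, l22, l23, l24, l25, l26, l27, l28⟩ => hRG.good p b (hRG.app (hRG.rng p b e0 (Fx.sc2_go s0) l0)
      (hRG.app (hRG.rng p b e1 (Fx.sc2_go s1) l1)
      (hRG.app (hRG.rng p b e2 (Fx.sc2_go s2) l2)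
      (hRG.app (hRG.rng p b e3 (Fx.sc2_go s3) l3)
      (hRG.app (hRG.rng p b e4 (Fx.sc2_go s4) l4)
      (hRG.app (hRG.rng p b e5 (Fx.sc2_go s5) l5)
      (hRG.app (hRG.rng p b e6 (Fx.sc2_go s6) l6)
      (hRG.app (hRG.rng p b e7 (Fx.sc2_go s7) l7)
      (hRG.app (hRG.rng p b e8 (Fx.sc2_go s8) l8)
      (hRG.app (hRG.rng p b e9 (Fx.sc2_go s9) l9)
      (hRG.app (hRG.rng p b e10 (Fx.sc2_go s10) l10)
      (hRG.app (hRG.rng p b e11 (Fx.sc2_go s11) l11)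
      (hRG.app (hRG.rng p b e12 (Fx.sc2_go s12) l12)
      (hRG.app (hRG.rng p b e13 (Fx.sc2_go s13) l13)
      (hRG.app (hRG.rng p b e14 (Fx.sc2_go s14) l14)
      (hRG.app (hRG.rng p b e15 (Fx.sc2_go s15) l15)
      (hRG.app (hRG.rng p b e16 (Fx.sc2_go s16) l16)
      (hRG.app (hRG.rng p b e17 (Fx.sc2_go s17) l17)
      (hRG.app (hRG.rng p b e18 (Fx.sc2_go s18) l18)
      (hRG.app (hRG.rng p b e19 (Fx.sc2_go s19) l19)
      (hRG.app (hRG.rng p b e20 (Fx.sc2_go s20) l20)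
      (hRG.app (hRG.rng p b e21 (Fx.sc2_go s21) l21)
      (hRG.app (hRG.rng p b e22 (Fx.sc2_go s22) l22)
      (hRG.app (hRG.rng p b e23 (Fx.sc2_go s23) l23)
      (hRG.app (hRG.rng p b e24 (Fx.sc2_go s24) l24)
      (hRG.app (hRG.rng p b e25 (Fx.sc2_go s25) l25)
      (hRG.app (hRG.rng p b e26 (Fx.sc2_go s26) l26)
      (hRG.app (hRG.rng p b e27 (Fx.sc2_go s27) l27)
      (hRG.rng p b e28 (Fx.sc2_go s28) l28)))))))))))))))))))))))))))))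
  exact (hWB A2.x0.1 (g _ A2.x0.2))

theorem bA3 : Box (Good (nat_lit 28284) (nat_lit 28442) (nat_lit 46729) (nat_lit 440) (nat_lit 44) (nat_lit 192) T (nat_lit 14774)) (nat_lit 46729) 0 160 240 320 := by
  obtain ⟨p, s0, s1, s2, s3, s4, s5, s6, s7, s8, s9, s10, s11, s12, s13, s14, s15, s16, s17, s18, s19, s20, s21, s22, s23, s24, s25, s26, s27, s28⟩ := A3.s_ok
  obtain ⟨e0, e1, e2, e3, e4, e5, e6, e7, e8, e9, e10, e11, e12, e13, e14, e15, e16, e17, e18, e19, e20, e21, e22, e23, e24, e25, e26, e27, e28⟩ := Ha.geo_ok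
  have g : ∀ A, A3.Ok A → ∀ L ∈ A, Good (nat_lit 28284) (nat_lit 28442) (nat_lit 46729) (nat_lit 440) (nat_lit 44) (nat_lit 192) T (nat_lit 14774) L :=
    fun A ⟨b, l0, l1, l2, l3, l4, l5, l6, l7, l8, l9, l10, l11, l12, l13, l14, l15, l16, l17, l18, l19, l20, l21, l22, l23, l24, l25, l26, l27, l28⟩ => hRG.good p b (hRG.app (hRG.rng p b e0 (Fx.sc2_go s0) l0)
      (hRG.app (hRG.rng p b e1 (Fx.sc2_go s1) l1)
      (hRG.app (hRG.rng p b e2 (Fx.sc2_go s2) l2)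
      (hRG.app (hRG.rng p b e3 (Fx.sc2_go s3) l3)
      (hRG.app (hRG.rng p b e4 (Fx.sc2_go s4) l4)
      (hRG.app (hRG.rng p b e5 (Fx.sc2_go s5) l5)
      (hRG.app (hRG.rng p b e6 (Fx.sc2_go s6) l6)
      (hRG.app (hRG.rng p b e7 (Fx.sc2_go s7) l7)
      (hRG.app (hRG.rng p b e8 (Fx.sc2_go s8) l8)
      (hRG.app (hRG.rng p b e9 (Fx.sc2_go s9) l9)
      (hRG.app (hRG.rng p b e10 (Fx.sc2_go s10) l10)
      (hRG.app (hRG.rng p b e11 (Fx.sc2_go s11) l11)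
      (hRG.app (hRG.rng p b e12 (Fx.sc2_go s12) l12)
      (hRG.app (hRG.rng p b e13 (Fx.sc2_go s13) l13)
      (hRG.app (hRG.rng p b e14 (Fx.sc2_go s14) l14)
      (hRG.app (hRG.rng p b e15 (Fx.sc2_go s15) l15)
      (hRG.app (hRG.rng p b e16 (Fx.sc2_go s16) l16)
      (hRG.app (hRG.rng p b e17 (Fx.sc2_go s17) l17)
      (hRG.app (hRG.rng p b e18 (Fx.sc2_go s18) l18)
      (hRG.app (hRG.rng p b e19 (Fx.sc2_go s19) l19)
      (hRG.app (hRG.rng p b e20 (Fx.sc2_go s20) l20)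
      (hRG.app (hRG.rng p b e21 (Fx.sc2_go s21) l21)
      (hRG.app (hRG.rng p b e22 (Fx.sc2_go s22) l22)
      (hRG.app (hRG.rng p b e23 (Fx.sc2_go s23) l23)
      (hRG.app (hRG.rng p b e24 (Fx.sc2_go s24) l24)
      (hRG.app (hRG.rng p b e25 (Fx.sc2_go s25) l25)
      (hRG.app (hRG.rng p b e26 (Fx.sc2_go s26) l26)
      (hRG.app (hRG.rng p b e27 (Fx.sc2_go s27) l27)
      (hRG.rng p b e28 (Fx.sc2_go s28) l28)))))))))))))))))))))))))))))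
  exact (hWB A3.x0.1 (g _ A3.x0.2))

theorem bA4 : Box (Good (nat_lit 28284) (nat_lit 28521) (nat_lit 46859) (nat_lit 440) (nat_lit 44) (nat_lit 192) T (nat_lit 14721)) (nat_lit 46859) 0 160 240 320 := by
  obtain ⟨p, s0, s1, s2, s3, s4, s5, s6, s7, s8, s9, s10, s11, s12, s13, s14, s15, s16, s17, s18, s19, s20, s21, s22, s23, s24, s25, s26, s27, s28⟩ := A4.s_ok
  obtain ⟨e0, e1, e2, e3, e4, e5, e6, e7, e8, e9, e10, e11, e12, e13, e14, e15, e16, e17, e18, e19, e20, e21, e22, e23, e24, e25, e26, e27, e28⟩ := Ha.geo_ok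
  have g : ∀ A, A4.Ok A → ∀ L ∈ A, Good (nat_lit 28284) (nat_lit 28521) (nat_lit 46859) (nat_lit 440) (nat_lit 44) (nat_lit 192) T (nat_lit 14721) L :=
    fun A ⟨b, l0, l1, l2, l3, l4, l5, l6, l7, l8, l9, l10, l11, l12, l13, l14, l15, l16, l17, l18, l19, l20, l21, l22, l23, l24, l25, l26, l27, l28⟩ => hRG.good p b (hRG.app (hRG.rng p b e0 (Fx.sc2_go s0) l0)
      (hRG.app (hRG.rng p b e1 (Fx.sc2_go s1) l1)
      (hRG.app (hRG.rng p b e2 (Fx.sc2_go s2) l2)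
      (hRG.app (hRG.rng p b e3 (Fx.sc2_go s3) l3)
      (hRG.app (hRG.rng p b e4 (Fx.sc2_go s4) l4)
      (hRG.app (hRG.rng p b e5 (Fx.sc2_go s5) l5)
      (hRG.app (hRG.rng p b e6 (Fx.sc2_go s6) l6)
      (hRG.app (hRG.rng p b e7 (Fx.sc2_go s7) l7)
      (hRG.app (hRG.rng p b e8 (Fx.sc2_go s8) l8)
      (hRG.app (hRG.rng p b e9 (Fx.sc2_go s9) l9)
      (hRG.app (hRG.rng p b e10 (Fx.sc2_go s10) l10)
      (hRG.app (hRG.rng p b e11 (Fx.sc2_go s11) l11)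
      (hRG.app (hRG.rng p b e12 (Fx.sc2_go s12) l12)
      (hRG.app (hRG.rng p b e13 (Fx.sc2_go s13) l13)
      (hRG.app (hRG.rng p b e14 (Fx.sc2_go s14) l14)
      (hRG.app (hRG.rng p b e15 (Fx.sc2_go s15) l15)
      (hRG.app (hRG.rng p b e16 (Fx.sc2_go s16) l16)
      (hRG.app (hRG.rng p b e17 (Fx.sc2_go s17) l17)
      (hRG.app (hRG.rng p b e18 (Fx.sc2_go s18) l18)
      (hRG.app (hRG.rng p b e19 (Fx.sc2_go s19) l19)
      (hRG.app (hRG.rng p b e20 (Fx.sc2_go s20) l20)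
      (hRG.app (hRG.rng p b e21 (Fx.sc2_go s21) l21)
      (hRG.app (hRG.rng p b e22 (Fx.sc2_go s22) l22)
      (hRG.app (hRG.rng p b e23 (Fx.sc2_go s23) l23)
      (hRG.app (hRG.rng p b e24 (Fx.sc2_go s24) l24)
      (hRG.app (hRG.rng p b e25 (Fx.sc2_go s25) l25)
      (hRG.app (hRG.rng p b e26 (Fx.sc2_go s26) l26)
      (hRG.app (hRG.rng p b e27 (Fx.sc2_go s27) l27)
      (hRG.rng p b e28 (Fx.sc2_go s28) l28)))))))))))))))))))))))))))))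
  exact (hWB A4.x0.1 (g _ A4.x0.2))

theorem cl (h : LP.Many2 G 10033 9889) : Cl 28284 46859 :=
  ((Cl.grp h mc A1.s_ok.1 bA1 (by decide)).app
    ((Cl.grp h mc A2.s_ok.1 bA2 (by decide)).app
    ((Cl.grp h mc A3.s_ok.1 bA3 (by decide)).app
    (Cl.grp h mc A4.s_ok.1 bA4 (by decide)) (by decide)) (by decide)) (by decide))

end Pool.Agent.MP_1037db_co.PT.Ka


namespace Pool.Agent.MP_1037db_co.PT.Kb

@[reducible] def G : LP.Geo := ⟨FA, FB, FT, 61890, 10035, 38461, geo_ok⟩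

theorem mc : Mc FA FB (nat_lit 43) T MW := by
  unfold Mc Mw Mf
  decide +kernel

theorem bB1 : Box (Good (nat_lit 28600) (nat_lit 28600) (nat_lit 46990) (nat_lit 440) (nat_lit 43) (nat_lit 192) T (nat_lit 14682)) (nat_lit 46990) 0 160 240 320 := by
  obtain ⟨p, s0, s1, s2, s3, s4, s5, s6, s7, s8, s9, s10, s11, s12, s13, s14, s15, s16, s17, s18, s19, s20, s21, s22, s23, s24, s25, s26, s27, s28, s29, s30, s31, s32, s33⟩ := B1.s_ok
  obtain ⟨e0, e1, e2, e3, e4, e5, e6, e7, e8, e9, e10, e11, e12, e13, e14, e15, e16, e17, e18, e19, e20, e21, e22, e23, e24, e25, e26, e27, e28, e29, e30, e31, e32, e33⟩ := Hb.geo_ok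
  have g : ∀ A, B1.Ok A → ∀ L ∈ A, Good (nat_lit 28600) (nat_lit 28600) (nat_lit 46990) (nat_lit 440) (nat_lit 43) (nat_lit 192) T (nat_lit 14682) L :=
    fun A ⟨b, l0, l1, l2, l3, l4, l5, l6, l7, l8, l9, l10, l11, l12, l13, l14, l15, l16, l17, l18, l19, l20, l21, l22, l23, l24, l25, l26, l27, l28, l29, l30, l31, l32, l33⟩ => hRG.good p b (hRG.app (hRG.rng p b e0 (Fx.sc2_go s0) l0)
      (hRG.app (hRG.rng p b e1 (Fx.sc2_go s1) l1)
      (hRG.app (hRG.rng p b e2 (Fx.sc2_go s2) l2)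
      (hRG.app (hRG.rng p b e3 (Fx.sc2_go s3) l3)
      (hRG.app (hRG.rng p b e4 (Fx.sc2_go s4) l4)
      (hRG.app (hRG.rng p b e5 (Fx.sc2_go s5) l5)
      (hRG.app (hRG.rng p b e6 (Fx.sc2_go s6) l6)
      (hRG.app (hRG.rng p b e7 (Fx.sc2_go s7) l7)
      (hRG.app (hRG.rng p b e8 (Fx.sc2_go s8) l8)
      (hRG.app (hRG.rng p b e9 (Fx.sc2_go s9) l9)
      (hRG.app (hRG.rng p b e10 (Fx.sc2_go s10) l10)
      (hRG.app (hRG.rng p b e11 (Fx.sc2_go s11) l11)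
      (hRG.app (hRG.rng p b e12 (Fx.sc2_go s12) l12)
      (hRG.app (hRG.rng p b e13 (Fx.sc2_go s13) l13)
      (hRG.app (hRG.rng p b e14 (Fx.sc2_go s14) l14)
      (hRG.app (hRG.rng p b e15 (Fx.sc2_go s15) l15)
      (hRG.app (hRG.rng p b e16 (Fx.sc2_go s16) l16)
      (hRG.app (hRG.rng p b e17 (Fx.sc2_go s17) l17)
      (hRG.app (hRG.rng p b e18 (Fx.sc2_go s18) l18)
      (hRG.app (hRG.rng p b e19 (Fx.sc2_go s19) l19)
      (hRG.app (hRG.rng p b e20 (Fx.sc2_go s20) l20)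
      (hRG.app (hRG.rng p b e21 (Fx.sc2_go s21) l21)
      (hRG.app (hRG.rng p b e22 (Fx.sc2_go s22) l22)
      (hRG.app (hRG.rng p b e23 (Fx.sc2_go s23) l23)
      (hRG.app (hRG.rng p b e24 (Fx.sc2_go s24) l24)
      (hRG.app (hRG.rng p b e25 (Fx.sc2_go s25) l25)
      (hRG.app (hRG.rng p b e26 (Fx.sc2_go s26) l26)
      (hRG.app (hRG.rng p b e27 (Fx.sc2_go s27) l27)
      (hRG.app (hRG.rng p b e28 (Fx.sc2_go s28) l28)
      (hRG.app (hRG.rng p b e29 (Fx.sc2_go s29) l29)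
      (hRG.app (hRG.rng p b e30 (Fx.sc2_go s30) l30)
      (hRG.app (hRG.rng p b e31 (Fx.sc2_go s31) l31)
      (hRG.app (hRG.rng p b e32 (Fx.sc2_go s32) l32)
      (hRG.rng p b e33 (Fx.sc2_go s33) l33))))))))))))))))))))))))))))))))))
  exact (hWB B1.x0.1 (g _ B1.x0.2))

theorem bB2 : Box (Good (nat_lit 28600) (nat_lit 28680) (nat_lit 47121) (nat_lit 440) (nat_lit 43) (nat_lit 192) T (nat_lit 14629)) (nat_lit 47121) 0 160 240 320 := by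
  obtain ⟨p, s0, s1, s2, s3, s4, s5, s6, s7, s8, s9, s10, s11, s12, s13, s14, s15, s16, s17, s18, s19, s20, s21, s22, s23, s24, s25, s26, s27, s28, s29, s30, s31, s32, s33⟩ := B2.s_ok
  obtain ⟨e0, e1, e2, e3, e4, e5, e6, e7, e8, e9, e10, e11, e12, e13, e14, e15, e16, e17, e18, e19, e20, e21, e22, e23, e24, e25, e26, e27, e28, e29, e30, e31, e32, e33⟩ := Hb.geo_ok
  have g : ∀ A, B2.Ok A → ∀ L ∈ A, Good (nat_lit 28600) (nat_lit 28680) (nat_lit 47121) (nat_lit 440) (nat_lit 43) (nat_lit 192) T (nat_lit 14629) L :=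
    fun A ⟨b, l0, l1, l2, l3, l4, l5, l6, l7, l8, l9, l10, l11, l12, l13, l14, l15, l16, l17, l18, l19, l20, l21, l22, l23, l24, l25, l26, l27, l28, l29, l30, l31, l32, l33⟩ => hRG.good p b (hRG.app (hRG.rng p b e0 (Fx.sc2_go s0) l0)
      (hRG.app (hRG.rng p b e1 (Fx.sc2_go s1) l1)
      (hRG.app (hRG.rng p b e2 (Fx.sc2_go s2) l2)
      (hRG.app (hRG.rng p b e3 (Fx.sc2_go s3) l3)
      (hRG.app (hRG.rng p b e4 (Fx.sc2_go s4) l4)
      (hRG.app (hRG.rng p b e5 (Fx.sc2_go s5) l5)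
      (hRG.app (hRG.rng p b e6 (Fx.sc2_go s6) l6)
      (hRG.app (hRG.rng p b e7 (Fx.sc2_go s7) l7)
      (hRG.app (hRG.rng p b e8 (Fx.sc2_go s8) l8)
      (hRG.app (hRG.rng p b e9 (Fx.sc2_go s9) l9)
      (hRG.app (hRG.rng p b e10 (Fx.sc2_go s10) l10)
      (hRG.app (hRG.rng p b e11 (Fx.sc2_go s11) l11)
      (hRG.app (hRG.rng p b e12 (Fx.sc2_go s12) l12)
      (hRG.app (hRG.rng p b e13 (Fx.sc2_go s13) l13)
      (hRG.app (hRG.rng p b e14 (Fx.sc2_go s14) l14)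
      (hRG.app (hRG.rng p b e15 (Fx.sc2_go s15) l15)
      (hRG.app (hRG.rng p b e16 (Fx.sc2_go s16) l16)
      (hRG.app (hRG.rng p b e17 (Fx.sc2_go s17) l17)
      (hRG.app (hRG.rng p b e18 (Fx.sc2_go s18) l18)
      (hRG.app (hRG.rng p b e19 (Fx.sc2_go s19) l19)
      (hRG.app (hRG.rng p b e20 (Fx.sc2_go s20) l20)
      (hRG.app (hRG.rng p b e21 (Fx.sc2_go s21) l21)
      (hRG.app (hRG.rng p b e22 (Fx.sc2_go s22) l22)
      (hRG.app (hRG.rng p b e23 (Fx.sc2_go s23) l23)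
      (hRG.app (hRG.rng p b e24 (Fx.sc2_go s24) l24)
      (hRG.app (hRG.rng p b e25 (Fx.sc2_go s25) l25)
      (hRG.app (hRG.rng p b e26 (Fx.sc2_go s26) l26)
      (hRG.app (hRG.rng p b e27 (Fx.sc2_go s27) l27)
      (hRG.app (hRG.rng p b e28 (Fx.sc2_go s28) l28)
      (hRG.app (hRG.rng p b e29 (Fx.sc2_go s29) l29)
      (hRG.app (hRG.rng p b e30 (Fx.sc2_go s30) l30)
      (hRG.app (hRG.rng p b e31 (Fx.sc2_go s31) l31)
      (hRG.app (hRG.rng p b e32 (Fx.sc2_go s32) l32)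
      (hRG.rng p b e33 (Fx.sc2_go s33) l33))))))))))))))))))))))))))))))))))
  exact (hWB B2.x0.1 (g _ B2.x0.2))

theorem bB3 : Box (Good (nat_lit 28600) (nat_lit 28760) (nat_lit 47252) (nat_lit 440) (nat_lit 43) (nat_lit 192) T (nat_lit 14629)) (nat_lit 47252) 0 160 240 320 := by
  obtain ⟨p, s0, s1, s2, s3, s4, s5, s6, s7, s8, s9, s10, s11, s12, s13, s14, s15, s16, s17, s18, s19, s20, s21, s22, s23, s24, s25, s26, s27, s28, s29, s30, s31, s32, s33⟩ := B3.s_ok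
  obtain ⟨e0, e1, e2, e3, e4, e5, e6, e7, e8, e9, e10, e11, e12, e13, e14, e15, e16, e17, e18, e19, e20, e21, e22, e23, e24, e25, e26, e27, e28, e29, e30, e31, e32, e33⟩ := Hb.geo_ok
  have g : ∀ A, B3.Ok A → ∀ L ∈ A, Good (nat_lit 28600) (nat_lit 28760) (nat_lit 47252) (nat_lit 440) (nat_lit 43) (nat_lit 192) T (nat_lit 14629) L :=
    fun A ⟨b, l0, l1, l2, l3, l4, l5, l6, l7, l8, l9, l10, l11, l12, l13, l14, l15, l16, l17, l18, l19, l20, l21, l22, l23, l24, l25, l26, l27, l28, l29, l30, l31, l32, l33⟩ => hRG.good p b (hRG.app (hRG.rng p b e0 (Fx.sc2_go s0) l0)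
      (hRG.app (hRG.rng p b e1 (Fx.sc2_go s1) l1)
      (hRG.app (hRG.rng p b e2 (Fx.sc2_go s2) l2)
      (hRG.app (hRG.rng p b e3 (Fx.sc2_go s3) l3)
      (hRG.app (hRG.rng p b e4 (Fx.sc2_go s4) l4)
      (hRG.app (hRG.rng p b e5 (Fx.sc2_go s5) l5)
      (hRG.app (hRG.rng p b e6 (Fx.sc2_go s6) l6)
      (hRG.app (hRG.rng p b e7 (Fx.sc2_go s7) l7)
      (hRG.app (hRG.rng p b e8 (Fx.sc2_go s8) l8)
      (hRG.app (hRG.rng p b e9 (Fx.sc2_go s9) l9)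
      (hRG.app (hRG.rng p b e10 (Fx.sc2_go s10) l10)
      (hRG.app (hRG.rng p b e11 (Fx.sc2_go s11) l11)
      (hRG.app (hRG.rng p b e12 (Fx.sc2_go s12) l12)
      (hRG.app (hRG.rng p b e13 (Fx.sc2_go s13) l13)
      (hRG.app (hRG.rng p b e14 (Fx.sc2_go s14) l14)
      (hRG.app (hRG.rng p b e15 (Fx.sc2_go s15) l15)
      (hRG.app (hRG.rng p b e16 (Fx.sc2_go s16) l16)
      (hRG.app (hRG.rng p b e17 (Fx.sc2_go s17) l17)
      (hRG.app (hRG.rng p b e18 (Fx.sc2_go s18) l18)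
      (hRG.app (hRG.rng p b e19 (Fx.sc2_go s19) l19)
      (hRG.app (hRG.rng p b e20 (Fx.sc2_go s20) l20)
      (hRG.app (hRG.rng p b e21 (Fx.sc2_go s21) l21)
      (hRG.app (hRG.rng p b e22 (Fx.sc2_go s22) l22)
      (hRG.app (hRG.rng p b e23 (Fx.sc2_go s23) l23)
      (hRG.app (hRG.rng p b e24 (Fx.sc2_go s24) l24)
      (hRG.app (hRG.rng p b e25 (Fx.sc2_go s25) l25)
      (hRG.app (hRG.rng p b e26 (Fx.sc2_go s26) l26)
      (hRG.app (hRG.rng p b e27 (Fx.sc2_go s27) l27)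
      (hRG.app (hRG.rng p b e28 (Fx.sc2_go s28) l28)
      (hRG.app (hRG.rng p b e29 (Fx.sc2_go s29) l29)
      (hRG.app (hRG.rng p b e30 (Fx.sc2_go s30) l30)
      (hRG.app (hRG.rng p b e31 (Fx.sc2_go s31) l31)
      (hRG.app (hRG.rng p b e32 (Fx.sc2_go s32) l32)
      (hRG.rng p b e33 (Fx.sc2_go s33) l33))))))))))))))))))))))))))))))))))
  exact (hWB B3.x0.1 (g _ B3.x0.2))

theorem bB4 : Box (Good (nat_lit 28600) (nat_lit 28840) (nat_lit 47383) (nat_lit 440) (nat_lit 43) (nat_lit 192) T (nat_lit 14577)) (nat_lit 47383) 0 160 240 320 := by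
  obtain ⟨p, s0, s1, s2, s3, s4, s5, s6, s7, s8, s9, s10, s11, s12, s13, s14, s15, s16, s17, s18, s19, s20, s21, s22, s23, s24, s25, s26, s27, s28, s29, s30, s31, s32, s33⟩ := B4.s_ok
  obtain ⟨e0, e1, e2, e3, e4, e5, e6, e7, e8, e9, e10, e11, e12, e13, e14, e15, e16, e17, e18, e19, e20, e21, e22, e23, e24, e25, e26, e27, e28, e29, e30, e31, e32, e33⟩ := Hb.geo_ok
  have g : ∀ A, B4.Ok A → ∀ L ∈ A, Good (nat_lit 28600) (nat_lit 28840) (nat_lit 47383) (nat_lit 440) (nat_lit 43) (nat_lit 192) T (nat_lit 14577) L :=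
    fun A ⟨b, l0, l1, l2, l3, l4, l5, l6, l7, l8, l9, l10, l11, l12, l13, l14, l15, l16, l17, l18, l19, l20, l21, l22, l23, l24, l25, l26, l27, l28, l29, l30, l31, l32, l33⟩ => hRG.good p b (hRG.app (hRG.rng p b e0 (Fx.sc2_go s0) l0)
      (hRG.app (hRG.rng p b e1 (Fx.sc2_go s1) l1)
      (hRG.app (hRG.rng p b e2 (Fx.sc2_go s2) l2)
      (hRG.app (hRG.rng p b e3 (Fx.sc2_go s3) l3)
      (hRG.app (hRG.rng p b e4 (Fx.sc2_go s4) l4)
      (hRG.app (hRG.rng p b e5 (Fx.sc2_go s5) l5)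
      (hRG.app (hRG.rng p b e6 (Fx.sc2_go s6) l6)
      (hRG.app (hRG.rng p b e7 (Fx.sc2_go s7) l7)
      (hRG.app (hRG.rng p b e8 (Fx.sc2_go s8) l8)
      (hRG.app (hRG.rng p b e9 (Fx.sc2_go s9) l9)
      (hRG.app (hRG.rng p b e10 (Fx.sc2_go s10) l10)
      (hRG.app (hRG.rng p b e11 (Fx.sc2_go s11) l11)
      (hRG.app (hRG.rng p b e12 (Fx.sc2_go s12) l12)
      (hRG.app (hRG.rng p b e13 (Fx.sc2_go s13) l13)
      (hRG.app (hRG.rng p b e14 (Fx.sc2_go s14) l14)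
      (hRG.app (hRG.rng p b e15 (Fx.sc2_go s15) l15)
      (hRG.app (hRG.rng p b e16 (Fx.sc2_go s16) l16)
      (hRG.app (hRG.rng p b e17 (Fx.sc2_go s17) l17)
      (hRG.app (hRG.rng p b e18 (Fx.sc2_go s18) l18)
      (hRG.app (hRG.rng p b e19 (Fx.sc2_go s19) l19)
      (hRG.app (hRG.rng p b e20 (Fx.sc2_go s20) l20)
      (hRG.app (hRG.rng p b e21 (Fx.sc2_go s21) l21)
      (hRG.app (hRG.rng p b e22 (Fx.sc2_go s22) l22)
      (hRG.app (hRG.rng p b e23 (Fx.sc2_go s23) l23)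
      (hRG.app (hRG.rng p b e24 (Fx.sc2_go s24) l24)
      (hRG.app (hRG.rng p b e25 (Fx.sc2_go s25) l25)
      (hRG.app (hRG.rng p b e26 (Fx.sc2_go s26) l26)
      (hRG.app (hRG.rng p b e27 (Fx.sc2_go s27) l27)
      (hRG.app (hRG.rng p b e28 (Fx.sc2_go s28) l28)
      (hRG.app (hRG.rng p b e29 (Fx.sc2_go s29) l29)
      (hRG.app (hRG.rng p b e30 (Fx.sc2_go s30) l30)
      (hRG.app (hRG.rng p b e31 (Fx.sc2_go s31) l31)
      (hRG.app (hRG.rng p b e32 (Fx.sc2_go s32) l32)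
      (hRG.rng p b e33 (Fx.sc2_go s33) l33))))))))))))))))))))))))))))))))))
  exact (hWB B4.x0.1 (g _ B4.x0.2))

theorem bB5 : Box (Good (nat_lit 28600) (nat_lit 28920) (nat_lit 47514) (nat_lit 440) (nat_lit 43) (nat_lit 192) T (nat_lit 14577)) (nat_lit 47514) 0 160 240 320 := by
  obtain ⟨p, s0, s1, s2, s3, s4, s5, s6, s7, s8, s9, s10, s11, s12, s13, s14, s15, s16, s17, s18, s19, s20, s21, s22, s23, s24, s25, s26, s27, s28, s29, s30, s31, s32, s33⟩ := B5.s_ok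
  obtain ⟨e0, e1, e2, e3, e4, e5, e6, e7, e8, e9, e10, e11, e12, e13, e14, e15, e16, e17, e18, e19, e20, e21, e22, e23, e24, e25, e26, e27, e28, e29, e30, e31, e32, e33⟩ := Hb.geo_ok
  have g : ∀ A, B5.Ok A → ∀ L ∈ A, Good (nat_lit 28600) (nat_lit 28920) (nat_lit 47514) (nat_lit 440) (nat_lit 43) (nat_lit 192) T (nat_lit 14577) L :=
    fun A ⟨b, l0, l1, l2, l3, l4, l5, l6, l7, l8, l9, l10, l11, l12, l13, l14, l15, l16, l17, l18, l19, l20, l21, l22, l23, l24, l25, l26, l27, l28, l29, l30, l31, l32, l33⟩ => hRG.good p b (hRG.app (hRG.rng p b e0 (Fx.sc2_go s0) l0)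
      (hRG.app (hRG.rng p b e1 (Fx.sc2_go s1) l1)
      (hRG.app (hRG.rng p b e2 (Fx.sc2_go s2) l2)
      (hRG.app (hRG.rng p b e3 (Fx.sc2_go s3) l3)
      (hRG.app (hRG.rng p b e4 (Fx.sc2_go s4) l4)
      (hRG.app (hRG.rng p b e5 (Fx.sc2_go s5) l5)
      (hRG.app (hRG.rng p b e6 (Fx.sc2_go s6) l6)
      (hRG.app (hRG.rng p b e7 (Fx.sc2_go s7) l7)
      (hRG.app (hRG.rng p b e8 (Fx.sc2_go s8) l8)
      (hRG.app (hRG.rng p b e9 (Fx.sc2_go s9) l9)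
      (hRG.app (hRG.rng p b e10 (Fx.sc2_go s10) l10)
      (hRG.app (hRG.rng p b e11 (Fx.sc2_go s11) l11)
      (hRG.app (hRG.rng p b e12 (Fx.sc2_go s12) l12)
      (hRG.app (hRG.rng p b e13 (Fx.sc2_go s13) l13)
      (hRG.app (hRG.rng p b e14 (Fx.sc2_go s14) l14)
      (hRG.app (hRG.rng p b e15 (Fx.sc2_go s15) l15)
      (hRG.app (hRG.rng p b e16 (Fx.sc2_go s16) l16)
      (hRG.app (hRG.rng p b e17 (Fx.sc2_go s17) l17)
      (hRG.app (hRG.rng p b e18 (Fx.sc2_go s18) l18)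
      (hRG.app (hRG.rng p b e19 (Fx.sc2_go s19) l19)
      (hRG.app (hRG.rng p b e20 (Fx.sc2_go s20) l20)
      (hRG.app (hRG.rng p b e21 (Fx.sc2_go s21) l21)
      (hRG.app (hRG.rng p b e22 (Fx.sc2_go s22) l22)
      (hRG.app (hRG.rng p b e23 (Fx.sc2_go s23) l23)
      (hRG.app (hRG.rng p b e24 (Fx.sc2_go s24) l24)
      (hRG.app (hRG.rng p b e25 (Fx.sc2_go s25) l25)
      (hRG.app (hRG.rng p b e26 (Fx.sc2_go s26) l26)
      (hRG.app (hRG.rng p b e27 (Fx.sc2_go s27) l27)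
      (hRG.app (hRG.rng p b e28 (Fx.sc2_go s28) l28)
      (hRG.app (hRG.rng p b e29 (Fx.sc2_go s29) l29)
      (hRG.app (hRG.rng p b e30 (Fx.sc2_go s30) l30)
      (hRG.app (hRG.rng p b e31 (Fx.sc2_go s31) l31)
      (hRG.app (hRG.rng p b e32 (Fx.sc2_go s32) l32)
      (hRG.rng p b e33 (Fx.sc2_go s33) l33))))))))))))))))))))))))))))))))))
  exact (hWB B5.x0.1 (g _ B5.x0.2))

theorem cl (h : LP.Many2 G 10035 9861) : Cl 28600 47514 :=
  ((Cl.grp h mc B1.s_ok.1 bB1 (by decide)).app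
    ((Cl.grp h mc B2.s_ok.1 bB2 (by decide)).app
    ((Cl.grp h mc B3.s_ok.1 bB3 (by decide)).app
    ((Cl.grp h mc B4.s_ok.1 bB4 (by decide)).app
    (Cl.grp h mc B5.s_ok.1 bB5 (by decide)) (by decide)) (by decide)) (by decide)) (by decide))

end Pool.Agent.MP_1037db_co.PT.Kb


namespace Pool.Agent.MP_1037db_co.PT.Kc

@[reducible] def G : LP.Geo := ⟨FA, FB, FT, 64026, 10037, 38830, geo_ok⟩

theorem mc : Mc FA FB (nat_lit 41) T MW := by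
  unfold Mc Mw Mf
  decide +kernel

theorem bC1 : Box (Good (nat_lit 29000) (nat_lit 29000) (nat_lit 47719) (nat_lit 440) (nat_lit 41) (nat_lit 192) T (nat_lit 14487)) (nat_lit 47719) 0 160 240 320 := by
  obtain ⟨p, s0, s1, s2, s3, s4, s5, s6, s7, s8, s9, s10, s11, s12, s13, s14, s15, s16, s17, s18, s19, s20, s21, s22, s23, s24, s25, s26, s27, s28, s29, s30, s31, s32, s33, s34, s35, s36, s37⟩ := C1.s_ok
  obtain ⟨e0, e1, e2, e3, e4, e5, e6, e7, e8, e9, e10, e11, e12, e13, e14, e15, e16, e17, e18, e19, e20, e21, e22, e23, e24, e25, e26, e27, e28, e29, e30, e31, e32, e33, e34, e35, e36, e37⟩ := Hc.geo_ok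
  have g : ∀ A, C1.Ok A → ∀ L ∈ A, Good (nat_lit 29000) (nat_lit 29000) (nat_lit 47719) (nat_lit 440) (nat_lit 41) (nat_lit 192) T (nat_lit 14487) L :=
    fun A ⟨b, l0, l1, l2, l3, l4, l5, l6, l7, l8, l9, l10, l11, l12, l13, l14, l15, l16, l17, l18, l19, l20, l21, l22, l23, l24, l25, l26, l27, l28, l29, l30, l31, l32, l33, l34, l35, l36, l37⟩ => hRG.good p b (hRG.app (hRG.rng p b e0 (Fx.sc2_go s0) l0)
      (hRG.app (hRG.rng p b e1 (Fx.sc2_go s1) l1)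
      (hRG.app (hRG.rng p b e2 (Fx.sc2_go s2) l2)
      (hRG.app (hRG.rng p b e3 (Fx.sc2_go s3) l3)
      (hRG.app (hRG.rng p b e4 (Fx.sc2_go s4) l4)
      (hRG.app (hRG.rng p b e5 (Fx.sc2_go s5) l5)
      (hRG.app (hRG.rng p b e6 (Fx.sc2_go s6) l6)
      (hRG.app (hRG.rng p b e7 (Fx.sc2_go s7) l7)
      (hRG.app (hRG.rng p b e8 (Fx.sc2_go s8) l8)
      (hRG.app (hRG.rng p b e9 (Fx.sc2_go s9) l9)
      (hRG.app (hRG.rng p b e10 (Fx.sc2_go s10) l10)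
      (hRG.app (hRG.rng p b e11 (Fx.sc2_go s11) l11)
      (hRG.app (hRG.rng p b e12 (Fx.sc2_go s12) l12)
      (hRG.app (hRG.rng p b e13 (Fx.sc2_go s13) l13)
      (hRG.app (hRG.rng p b e14 (Fx.sc2_go s14) l14)
      (hRG.app (hRG.rng p b e15 (Fx.sc2_go s15) l15)
      (hRG.app (hRG.rng p b e16 (Fx.sc2_go s16) l16)
      (hRG.app (hRG.rng p b e17 (Fx.sc2_go s17) l17)
      (hRG.app (hRG.rng p b e18 (Fx.sc2_go s18) l18)
      (hRG.app (hRG.rng p b e19 (Fx.sc2_go s19) l19)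
      (hRG.app (hRG.rng p b e20 (Fx.sc2_go s20) l20)
      (hRG.app (hRG.rng p b e21 (Fx.sc2_go s21) l21)
      (hRG.app (hRG.rng p b e22 (Fx.sc2_go s22) l22)
      (hRG.app (hRG.rng p b e23 (Fx.sc2_go s23) l23)
      (hRG.app (hRG.rng p b e24 (Fx.sc2_go s24) l24)
      (hRG.app (hRG.rng p b e25 (Fx.sc2_go s25) l25)
      (hRG.app (hRG.rng p b e26 (Fx.sc2_go s26) l26)
      (hRG.app (hRG.rng p b e27 (Fx.sc2_go s27) l27)
      (hRG.app (hRG.rng p b e28 (Fx.sc2_go s28) l28)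
      (hRG.app (hRG.rng p b e29 (Fx.sc2_go s29) l29)
      (hRG.app (hRG.rng p b e30 (Fx.sc2_go s30) l30)
      (hRG.app (hRG.rng p b e31 (Fx.sc2_go s31) l31)
      (hRG.app (hRG.rng p b e32 (Fx.sc2_go s32) l32)
      (hRG.app (hRG.rng p b e33 (Fx.sc2_go s33) l33)
      (hRG.app (hRG.rng p b e34 (Fx.sc2_go s34) l34)
      (hRG.app (hRG.rng p b e35 (Fx.sc2_go s35) l35)
      (hRG.app (hRG.rng p b e36 (Fx.sc2_go s36) l36)
      (hRG.rng p b e37 (Fx.sc2_go s37) l37))))))))))))))))))))))))))))))))))))))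
  exact (hRG.sp0 (nat_lit 80) (hWB C1.x0.1 (g _ C1.x0.2))
    (hWB C1.x1.1 (g _ C1.x1.2)))

theorem bC2 : Box (Good (nat_lit 29000) (nat_lit 29125) (nat_lit 47924) (nat_lit 440) (nat_lit 41) (nat_lit 192) T (nat_lit 14436)) (nat_lit 47924) 0 160 240 320 := by
  obtain ⟨p, s0, s1, s2, s3, s4, s5, s6, s7, s8, s9, s10, s11, s12, s13, s14, s15, s16, s17, s18, s19, s20, s21, s22, s23, s24, s25, s26, s27, s28, s29, s30, s31, s32, s33, s34, s35, s36, s37⟩ := C2.s_ok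
  obtain ⟨e0, e1, e2, e3, e4, e5, e6, e7, e8, e9, e10, e11, e12, e13, e14, e15, e16, e17, e18, e19, e20, e21, e22, e23, e24, e25, e26, e27, e28, e29, e30, e31, e32, e33, e34, e35, e36, e37⟩ := Hc.geo_ok
  have g : ∀ A, C2.Ok A → ∀ L ∈ A, Good (nat_lit 29000) (nat_lit 29125) (nat_lit 47924) (nat_lit 440) (nat_lit 41) (nat_lit 192) T (nat_lit 14436) L :=
    fun A ⟨b, l0, l1, l2, l3, l4, l5, l6, l7, l8, l9, l10, l11, l12, l13, l14, l15, l16, l17, l18, l19, l20, l21, l22, l23, l24, l25, l26, l27, l28, l29, l30, l31, l32, l33, l34, l35, l36, l37⟩ => hRG.good p b (hRG.app (hRG.rng p b e0 (Fx.sc2_go s0) l0)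
      (hRG.app (hRG.rng p b e1 (Fx.sc2_go s1) l1)
      (hRG.app (hRG.rng p b e2 (Fx.sc2_go s2) l2)
      (hRG.app (hRG.rng p b e3 (Fx.sc2_go s3) l3)
      (hRG.app (hRG.rng p b e4 (Fx.sc2_go s4) l4)
      (hRG.app (hRG.rng p b e5 (Fx.sc2_go s5) l5)
      (hRG.app (hRG.rng p b e6 (Fx.sc2_go s6) l6)
      (hRG.app (hRG.rng p b e7 (Fx.sc2_go s7) l7)
      (hRG.app (hRG.rng p b e8 (Fx.sc2_go s8) l8)
      (hRG.app (hRG.rng p b e9 (Fx.sc2_go s9) l9)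
      (hRG.app (hRG.rng p b e10 (Fx.sc2_go s10) l10)
      (hRG.app (hRG.rng p b e11 (Fx.sc2_go s11) l11)
      (hRG.app (hRG.rng p b e12 (Fx.sc2_go s12) l12)
      (hRG.app (hRG.rng p b e13 (Fx.sc2_go s13) l13)
      (hRG.app (hRG.rng p b e14 (Fx.sc2_go s14) l14)
      (hRG.app (hRG.rng p b e15 (Fx.sc2_go s15) l15)
      (hRG.app (hRG.rng p b e16 (Fx.sc2_go s16) l16)
      (hRG.app (hRG.rng p b e17 (Fx.sc2_go s17) l17)
      (hRG.app (hRG.rng p b e18 (Fx.sc2_go s18) l18)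
      (hRG.app (hRG.rng p b e19 (Fx.sc2_go s19) l19)
      (hRG.app (hRG.rng p b e20 (Fx.sc2_go s20) l20)
      (hRG.app (hRG.rng p b e21 (Fx.sc2_go s21) l21)
      (hRG.app (hRG.rng p b e22 (Fx.sc2_go s22) l22)
      (hRG.app (hRG.rng p b e23 (Fx.sc2_go s23) l23)
      (hRG.app (hRG.rng p b e24 (Fx.sc2_go s24) l24)
      (hRG.app (hRG.rng p b e25 (Fx.sc2_go s25) l25)
      (hRG.app (hRG.rng p b e26 (Fx.sc2_go s26) l26)
      (hRG.app (hRG.rng p b e27 (Fx.sc2_go s27) l27)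
      (hRG.app (hRG.rng p b e28 (Fx.sc2_go s28) l28)
      (hRG.app (hRG.rng p b e29 (Fx.sc2_go s29) l29)
      (hRG.app (hRG.rng p b e30 (Fx.sc2_go s30) l30)
      (hRG.app (hRG.rng p b e31 (Fx.sc2_go s31) l31)
      (hRG.app (hRG.rng p b e32 (Fx.sc2_go s32) l32)
      (hRG.app (hRG.rng p b e33 (Fx.sc2_go s33) l33)
      (hRG.app (hRG.rng p b e34 (Fx.sc2_go s34) l34)
      (hRG.app (hRG.rng p b e35 (Fx.sc2_go s35) l35)
      (hRG.app (hRG.rng p b e36 (Fx.sc2_go s36) l36)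
      (hRG.rng p b e37 (Fx.sc2_go s37) l37))))))))))))))))))))))))))))))))))))))
  exact (hWB C2.x0.1 (g _ C2.x0.2))

theorem bC3 : Box (Good (nat_lit 29000) (nat_lit 29250) (nat_lit 48128) (nat_lit 440) (nat_lit 41) (nat_lit 192) T (nat_lit 14385)) (nat_lit 48128) 0 160 240 320 := by
  obtain ⟨p, s0, s1, s2, s3, s4, s5, s6, s7, s8, s9, s10, s11, s12, s13, s14, s15, s16, s17, s18, s19, s20, s21, s22, s23, s24, s25, s26, s27, s28, s29, s30, s31, s32, s33, s34, s35, s36, s37⟩ := C3.s_ok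
  obtain ⟨e0, e1, e2, e3, e4, e5, e6, e7, e8, e9, e10, e11, e12, e13, e14, e15, e16, e17, e18, e19, e20, e21, e22, e23, e24, e25, e26, e27, e28, e29, e30, e31, e32, e33, e34, e35, e36, e37⟩ := Hc.geo_ok
  have g : ∀ A, C3.Ok A → ∀ L ∈ A, Good (nat_lit 29000) (nat_lit 29250) (nat_lit 48128) (nat_lit 440) (nat_lit 41) (nat_lit 192) T (nat_lit 14385) L :=
    fun A ⟨b, l0, l1, l2, l3, l4, l5, l6, l7, l8, l9, l10, l11, l12, l13, l14, l15, l16, l17, l18, l19, l20, l21, l22, l23, l24, l25, l26, l27, l28, l29, l30, l31, l32, l33, l34, l35, l36, l37⟩ => hRG.good p b (hRG.app (hRG.rng p b e0 (Fx.sc2_go s0) l0)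
      (hRG.app (hRG.rng p b e1 (Fx.sc2_go s1) l1)
      (hRG.app (hRG.rng p b e2 (Fx.sc2_go s2) l2)
      (hRG.app (hRG.rng p b e3 (Fx.sc2_go s3) l3)
      (hRG.app (hRG.rng p b e4 (Fx.sc2_go s4) l4)
      (hRG.app (hRG.rng p b e5 (Fx.sc2_go s5) l5)
      (hRG.app (hRG.rng p b e6 (Fx.sc2_go s6) l6)
      (hRG.app (hRG.rng p b e7 (Fx.sc2_go s7) l7)
      (hRG.app (hRG.rng p b e8 (Fx.sc2_go s8) l8)
      (hRG.app (hRG.rng p b e9 (Fx.sc2_go s9) l9)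
      (hRG.app (hRG.rng p b e10 (Fx.sc2_go s10) l10)
      (hRG.app (hRG.rng p b e11 (Fx.sc2_go s11) l11)
      (hRG.app (hRG.rng p b e12 (Fx.sc2_go s12) l12)
      (hRG.app (hRG.rng p b e13 (Fx.sc2_go s13) l13)
      (hRG.app (hRG.rng p b e14 (Fx.sc2_go s14) l14)
      (hRG.app (hRG.rng p b e15 (Fx.sc2_go s15) l15)
      (hRG.app (hRG.rng p b e16 (Fx.sc2_go s16) l16)
      (hRG.app (hRG.rng p b e17 (Fx.sc2_go s17) l17)
      (hRG.app (hRG.rng p b e18 (Fx.sc2_go s18) l18)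
      (hRG.app (hRG.rng p b e19 (Fx.sc2_go s19) l19)
      (hRG.app (hRG.rng p b e20 (Fx.sc2_go s20) l20)
      (hRG.app (hRG.rng p b e21 (Fx.sc2_go s21) l21)
      (hRG.app (hRG.rng p b e22 (Fx.sc2_go s22) l22)
      (hRG.app (hRG.rng p b e23 (Fx.sc2_go s23) l23)
      (hRG.app (hRG.rng p b e24 (Fx.sc2_go s24) l24)
      (hRG.app (hRG.rng p b e25 (Fx.sc2_go s25) l25)
      (hRG.app (hRG.rng p b e26 (Fx.sc2_go s26) l26)
      (hRG.app (hRG.rng p b e27 (Fx.sc2_go s27) l27)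
      (hRG.app (hRG.rng p b e28 (Fx.sc2_go s28) l28)
      (hRG.app (hRG.rng p b e29 (Fx.sc2_go s29) l29)
      (hRG.app (hRG.rng p b e30 (Fx.sc2_go s30) l30)
      (hRG.app (hRG.rng p b e31 (Fx.sc2_go s31) l31)
      (hRG.app (hRG.rng p b e32 (Fx.sc2_go s32) l32)
      (hRG.app (hRG.rng p b e33 (Fx.sc2_go s33) l33)
      (hRG.app (hRG.rng p b e34 (Fx.sc2_go s34) l34)
      (hRG.app (hRG.rng p b e35 (Fx.sc2_go s35) l35)
      (hRG.app (hRG.rng p b e36 (Fx.sc2_go s36) l36)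
      (hRG.rng p b e37 (Fx.sc2_go s37) l37))))))))))))))))))))))))))))))))))))))
  exact (hWB C3.x0.1 (g _ C3.x0.2))

theorem bC4 : Box (Good (nat_lit 29000) (nat_lit 29375) (nat_lit 48333) (nat_lit 440) (nat_lit 41) (nat_lit 192) T (nat_lit 14335)) (nat_lit 48333) 0 160 240 320 := by
  obtain ⟨p, s0, s1, s2, s3, s4, s5, s6, s7, s8, s9, s10, s11, s12, s13, s14, s15, s16, s17, s18, s19, s20, s21, s22, s23, s24, s25, s26, s27, s28, s29, s30, s31, s32, s33, s34, s35, s36, s37⟩ := C4.s_ok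
  obtain ⟨e0, e1, e2, e3, e4, e5, e6, e7, e8, e9, e10, e11, e12, e13, e14, e15, e16, e17, e18, e19, e20, e21, e22, e23, e24, e25, e26, e27, e28, e29, e30, e31, e32, e33, e34, e35, e36, e37⟩ := Hc.geo_ok
  have g : ∀ A, C4.Ok A → ∀ L ∈ A, Good (nat_lit 29000) (nat_lit 29375) (nat_lit 48333) (nat_lit 440) (nat_lit 41) (nat_lit 192) T (nat_lit 14335) L :=
    fun A ⟨b, l0, l1, l2, l3, l4, l5, l6, l7, l8, l9, l10, l11, l12, l13, l14, l15, l16, l17, l18, l19, l20, l21, l22, l23, l24, l25, l26, l27, l28, l29, l30, l31, l32, l33, l34, l35, l36, l37⟩ => hRG.good p b (hRG.app (hRG.rng p b e0 (Fx.sc2_go s0) l0)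
      (hRG.app (hRG.rng p b e1 (Fx.sc2_go s1) l1)
      (hRG.app (hRG.rng p b e2 (Fx.sc2_go s2) l2)
      (hRG.app (hRG.rng p b e3 (Fx.sc2_go s3) l3)
      (hRG.app (hRG.rng p b e4 (Fx.sc2_go s4) l4)
      (hRG.app (hRG.rng p b e5 (Fx.sc2_go s5) l5)
      (hRG.app (hRG.rng p b e6 (Fx.sc2_go s6) l6)
      (hRG.app (hRG.rng p b e7 (Fx.sc2_go s7) l7)
      (hRG.app (hRG.rng p b e8 (Fx.sc2_go s8) l8)
      (hRG.app (hRG.rng p b e9 (Fx.sc2_go s9) l9)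
      (hRG.app (hRG.rng p b e10 (Fx.sc2_go s10) l10)
      (hRG.app (hRG.rng p b e11 (Fx.sc2_go s11) l11)
      (hRG.app (hRG.rng p b e12 (Fx.sc2_go s12) l12)
      (hRG.app (hRG.rng p b e13 (Fx.sc2_go s13) l13)
      (hRG.app (hRG.rng p b e14 (Fx.sc2_go s14) l14)
      (hRG.app (hRG.rng p b e15 (Fx.sc2_go s15) l15)
      (hRG.app (hRG.rng p b e16 (Fx.sc2_go s16) l16)
      (hRG.app (hRG.rng p b e17 (Fx.sc2_go s17) l17)
      (hRG.app (hRG.rng p b e18 (Fx.sc2_go s18) l18)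
      (hRG.app (hRG.rng p b e19 (Fx.sc2_go s19) l19)
      (hRG.app (hRG.rng p b e20 (Fx.sc2_go s20) l20)
      (hRG.app (hRG.rng p b e21 (Fx.sc2_go s21) l21)
      (hRG.app (hRG.rng p b e22 (Fx.sc2_go s22) l22)
      (hRG.app (hRG.rng p b e23 (Fx.sc2_go s23) l23)
      (hRG.app (hRG.rng p b e24 (Fx.sc2_go s24) l24)
      (hRG.app (hRG.rng p b e25 (Fx.sc2_go s25) l25)
      (hRG.app (hRG.rng p b e26 (Fx.sc2_go s26) l26)
      (hRG.app (hRG.rng p b e27 (Fx.sc2_go s27) l27)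
      (hRG.app (hRG.rng p b e28 (Fx.sc2_go s28) l28)
      (hRG.app (hRG.rng p b e29 (Fx.sc2_go s29) l29)
      (hRG.app (hRG.rng p b e30 (Fx.sc2_go s30) l30)
      (hRG.app (hRG.rng p b e31 (Fx.sc2_go s31) l31)
      (hRG.app (hRG.rng p b e32 (Fx.sc2_go s32) l32)
      (hRG.app (hRG.rng p b e33 (Fx.sc2_go s33) l33)
      (hRG.app (hRG.rng p b e34 (Fx.sc2_go s34) l34)
      (hRG.app (hRG.rng p b e35 (Fx.sc2_go s35) l35)
      (hRG.app (hRG.rng p b e36 (Fx.sc2_go s36) l36)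
      (hRG.rng p b e37 (Fx.sc2_go s37) l37))))))))))))))))))))))))))))))))))))))
  exact (hWB C4.x0.1 (g _ C4.x0.2))

theorem cl (h : LP.Many2 G 10037 9830) : Cl 29000 48333 :=
  ((Cl.grp h mc C1.s_ok.1 bC1 (by decide)).app
    ((Cl.grp h mc C2.s_ok.1 bC2 (by decide)).app
    ((Cl.grp h mc C3.s_ok.1 bC3 (by decide)).app
    (Cl.grp h mc C4.s_ok.1 bC4 (by decide)) (by decide)) (by decide)) (by decide))

end Pool.Agent.MP_1037db_co.PT.Kc


namespace Pool.Agent.MP_1037db_co.PT.Kd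

@[reducible] def G : LP.Geo := ⟨FA, FB, FT, 63721, 10041, 39268, geo_ok⟩

theorem mc : Mc FA FB (nat_lit 40) T MW := by
  unfold Mc Mw Mf
  decide +kernel

theorem bD1 : Box (Good (nat_lit 29500) (nat_lit 29500) (nat_lit 48620) (nat_lit 480) (nat_lit 40) (nat_lit 192) T (nat_lit 14223)) (nat_lit 48620) 0 160 240 320 := by
  obtain ⟨p, s0, s1, s2, s3, s4, s5, s6, s7, s8, s9, s10, s11, s12, s13, s14, s15, s16, s17, s18, s19, s20, s21, s22, s23, s24, s25, s26, s27, s28, s29, s30, s31⟩ := D1.s_ok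
  obtain ⟨e0, e1, e2, e3, e4, e5, e6, e7, e8, e9, e10, e11, e12, e13, e14, e15, e16, e17, e18, e19, e20, e21, e22, e23, e24, e25, e26, e27, e28, e29, e30, e31⟩ := Hd.geo_ok
  have g : ∀ A, D1.Ok A → ∀ L ∈ A, Good (nat_lit 29500) (nat_lit 29500) (nat_lit 48620) (nat_lit 480) (nat_lit 40) (nat_lit 192) T (nat_lit 14223) L :=
    fun A ⟨b, l0, l1, l2, l3, l4, l5, l6, l7, l8, l9, l10, l11, l12, l13, l14, l15, l16, l17, l18, l19, l20, l21, l22, l23, l24, l25, l26, l27, l28, l29, l30, l31⟩ => hRG.good p b (hRG.app (hRG.rng p b e0 (Fx.sc2_go s0) l0)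
      (hRG.app (hRG.rng p b e1 (Fx.sc2_go s1) l1)
      (hRG.app (hRG.rng p b e2 (Fx.sc2_go s2) l2)
      (hRG.app (hRG.rng p b e3 (Fx.sc2_go s3) l3)
      (hRG.app (hRG.rng p b e4 (Fx.sc2_go s4) l4)
      (hRG.app (hRG.rng p b e5 (Fx.sc2_go s5) l5)
      (hRG.app (hRG.rng p b e6 (Fx.sc2_go s6) l6)
      (hRG.app (hRG.rng p b e7 (Fx.sc2_go s7) l7)
      (hRG.app (hRG.rng p b e8 (Fx.sc2_go s8) l8)
      (hRG.app (hRG.rng p b e9 (Fx.sc2_go s9) l9)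
      (hRG.app (hRG.rng p b e10 (Fx.sc2_go s10) l10)
      (hRG.app (hRG.rng p b e11 (Fx.sc2_go s11) l11)
      (hRG.app (hRG.rng p b e12 (Fx.sc2_go s12) l12)
      (hRG.app (hRG.rng p b e13 (Fx.sc2_go s13) l13)
      (hRG.app (hRG.rng p b e14 (Fx.sc2_go s14) l14)
      (hRG.app (hRG.rng p b e15 (Fx.sc2_go s15) l15)
      (hRG.app (hRG.rng p b e16 (Fx.sc2_go s16) l16)
      (hRG.app (hRG.rng p b e17 (Fx.sc2_go s17) l17)
      (hRG.app (hRG.rng p b e18 (Fx.sc2_go s18) l18)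
      (hRG.app (hRG.rng p b e19 (Fx.sc2_go s19) l19)
      (hRG.app (hRG.rng p b e20 (Fx.sc2_go s20) l20)
      (hRG.app (hRG.rng p b e21 (Fx.sc2_go s21) l21)
      (hRG.app (hRG.rng p b e22 (Fx.sc2_go s22) l22)
      (hRG.app (hRG.rng p b e23 (Fx.sc2_go s23) l23)
      (hRG.app (hRG.rng p b e24 (Fx.sc2_go s24) l24)
      (hRG.app (hRG.rng p b e25 (Fx.sc2_go s25) l25)
      (hRG.app (hRG.rng p b e26 (Fx.sc2_go s26) l26)
      (hRG.app (hRG.rng p b e27 (Fx.sc2_go s27) l27)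
      (hRG.app (hRG.rng p b e28 (Fx.sc2_go s28) l28)
      (hRG.app (hRG.rng p b e29 (Fx.sc2_go s29) l29)
      (hRG.app (hRG.rng p b e30 (Fx.sc2_go s30) l30)
      (hRG.rng p b e31 (Fx.sc2_go s31) l31))))))))))))))))))))))))))))))))
  exact (hRG.sp0 (nat_lit 80) (hWB D1.x0.1 (g _ D1.x0.2))
    (hRG.sp0 (nat_lit 120) (hWB D1.x1.1 (g _ D1.x1.2))
    (hWB D1.x2.1 (g _ D1.x2.2))))

theorem bD2 : Box (Good (nat_lit 29500) (nat_lit 29675) (nat_lit 48907) (nat_lit 480) (nat_lit 40) (nat_lit 192) T (nat_lit 14112)) (nat_lit 48907) 0 160 240 320 := by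
  obtain ⟨p, s0, s1, s2, s3, s4, s5, s6, s7, s8, s9, s10, s11, s12, s13, s14, s15, s16, s17, s18, s19, s20, s21, s22, s23, s24, s25, s26, s27, s28, s29, s30, s31⟩ := D2.s_ok
  obtain ⟨e0, e1, e2, e3, e4, e5, e6, e7, e8, e9, e10, e11, e12, e13, e14, e15, e16, e17, e18, e19, e20, e21, e22, e23, e24, e25, e26, e27, e28, e29, e30, e31⟩ := Hd.geo_ok
  have g : ∀ A, D2.Ok A → ∀ L ∈ A, Good (nat_lit 29500) (nat_lit 29675) (nat_lit 48907) (nat_lit 480) (nat_lit 40) (nat_lit 192) T (nat_lit 14112) L :=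
    fun A ⟨b, l0, l1, l2, l3, l4, l5, l6, l7, l8, l9, l10, l11, l12, l13, l14, l15, l16, l17, l18, l19, l20, l21, l22, l23, l24, l25, l26, l27, l28, l29, l30, l31⟩ => hRG.good p b (hRG.app (hRG.rng p b e0 (Fx.sc2_go s0) l0)
      (hRG.app (hRG.rng p b e1 (Fx.sc2_go s1) l1)
      (hRG.app (hRG.rng p b e2 (Fx.sc2_go s2) l2)
      (hRG.app (hRG.rng p b e3 (Fx.sc2_go s3) l3)
      (hRG.app (hRG.rng p b e4 (Fx.sc2_go s4) l4)
      (hRG.app (hRG.rng p b e5 (Fx.sc2_go s5) l5)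
      (hRG.app (hRG.rng p b e6 (Fx.sc2_go s6) l6)
      (hRG.app (hRG.rng p b e7 (Fx.sc2_go s7) l7)
      (hRG.app (hRG.rng p b e8 (Fx.sc2_go s8) l8)
      (hRG.app (hRG.rng p b e9 (Fx.sc2_go s9) l9)
      (hRG.app (hRG.rng p b e10 (Fx.sc2_go s10) l10)
      (hRG.app (hRG.rng p b e11 (Fx.sc2_go s11) l11)
      (hRG.app (hRG.rng p b e12 (Fx.sc2_go s12) l12)
      (hRG.app (hRG.rng p b e13 (Fx.sc2_go s13) l13)
      (hRG.app (hRG.rng p b e14 (Fx.sc2_go s14) l14)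
      (hRG.app (hRG.rng p b e15 (Fx.sc2_go s15) l15)
      (hRG.app (hRG.rng p b e16 (Fx.sc2_go s16) l16)
      (hRG.app (hRG.rng p b e17 (Fx.sc2_go s17) l17)
      (hRG.app (hRG.rng p b e18 (Fx.sc2_go s18) l18)
      (hRG.app (hRG.rng p b e19 (Fx.sc2_go s19) l19)
      (hRG.app (hRG.rng p b e20 (Fx.sc2_go s20) l20)
      (hRG.app (hRG.rng p b e21 (Fx.sc2_go s21) l21)
      (hRG.app (hRG.rng p b e22 (Fx.sc2_go s22) l22)
      (hRG.app (hRG.rng p b e23 (Fx.sc2_go s23) l23)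
      (hRG.app (hRG.rng p b e24 (Fx.sc2_go s24) l24)
      (hRG.app (hRG.rng p b e25 (Fx.sc2_go s25) l25)
      (hRG.app (hRG.rng p b e26 (Fx.sc2_go s26) l26)
      (hRG.app (hRG.rng p b e27 (Fx.sc2_go s27) l27)
      (hRG.app (hRG.rng p b e28 (Fx.sc2_go s28) l28)
      (hRG.app (hRG.rng p b e29 (Fx.sc2_go s29) l29)
      (hRG.app (hRG.rng p b e30 (Fx.sc2_go s30) l30)
      (hRG.rng p b e31 (Fx.sc2_go s31) l31))))))))))))))))))))))))))))))))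
  exact (hRG.sp0 (nat_lit 80) (hWB D2.x0.1 (g _ D2.x0.2))
    (hRG.sp0 (nat_lit 120) (hWB D2.x1.1 (g _ D2.x1.2))
    (hWB D2.x2.1 (g _ D2.x2.2))))

theorem bD3 : Box (Good (nat_lit 29500) (nat_lit 29850) (nat_lit 49193) (nat_lit 480) (nat_lit 40) (nat_lit 192) T (nat_lit 14064)) (nat_lit 49193) 0 160 240 320 := by
  obtain ⟨p, s0, s1, s2, s3, s4, s5, s6, s7, s8, s9, s10, s11, s12, s13, s14, s15, s16, s17, s18, s19, s20, s21, s22, s23, s24, s25, s26, s27, s28, s29, s30, s31⟩ := D3.s_ok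
  obtain ⟨e0, e1, e2, e3, e4, e5, e6, e7, e8, e9, e10, e11, e12, e13, e14, e15, e16, e17, e18, e19, e20, e21, e22, e23, e24, e25, e26, e27, e28, e29, e30, e31⟩ := Hd.geo_ok
  have g : ∀ A, D3.Ok A → ∀ L ∈ A, Good (nat_lit 29500) (nat_lit 29850) (nat_lit 49193) (nat_lit 480) (nat_lit 40) (nat_lit 192) T (nat_lit 14064) L :=
    fun A ⟨b, l0, l1, l2, l3, l4, l5, l6, l7, l8, l9, l10, l11, l12, l13, l14, l15, l16, l17, l18, l19, l20, l21, l22, l23, l24, l25, l26, l27, l28, l29, l30, l31⟩ => hRG.good p b (hRG.app (hRG.rng p b e0 (Fx.sc2_go s0) l0)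
      (hRG.app (hRG.rng p b e1 (Fx.sc2_go s1) l1)
      (hRG.app (hRG.rng p b e2 (Fx.sc2_go s2) l2)
      (hRG.app (hRG.rng p b e3 (Fx.sc2_go s3) l3)
      (hRG.app (hRG.rng p b e4 (Fx.sc2_go s4) l4)
      (hRG.app (hRG.rng p b e5 (Fx.sc2_go s5) l5)
      (hRG.app (hRG.rng p b e6 (Fx.sc2_go s6) l6)
      (hRG.app (hRG.rng p b e7 (Fx.sc2_go s7) l7)
      (hRG.app (hRG.rng p b e8 (Fx.sc2_go s8) l8)
      (hRG.app (hRG.rng p b e9 (Fx.sc2_go s9) l9)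
      (hRG.app (hRG.rng p b e10 (Fx.sc2_go s10) l10)
      (hRG.app (hRG.rng p b e11 (Fx.sc2_go s11) l11)
      (hRG.app (hRG.rng p b e12 (Fx.sc2_go s12) l12)
      (hRG.app (hRG.rng p b e13 (Fx.sc2_go s13) l13)
      (hRG.app (hRG.rng p b e14 (Fx.sc2_go s14) l14)
      (hRG.app (hRG.rng p b e15 (Fx.sc2_go s15) l15)
      (hRG.app (hRG.rng p b e16 (Fx.sc2_go s16) l16)
      (hRG.app (hRG.rng p b e17 (Fx.sc2_go s17) l17)
      (hRG.app (hRG.rng p b e18 (Fx.sc2_go s18) l18)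
      (hRG.app (hRG.rng p b e19 (Fx.sc2_go s19) l19)
      (hRG.app (hRG.rng p b e20 (Fx.sc2_go s20) l20)
      (hRG.app (hRG.rng p b e21 (Fx.sc2_go s21) l21)
      (hRG.app (hRG.rng p b e22 (Fx.sc2_go s22) l22)
      (hRG.app (hRG.rng p b e23 (Fx.sc2_go s23) l23)
      (hRG.app (hRG.rng p b e24 (Fx.sc2_go s24) l24)
      (hRG.app (hRG.rng p b e25 (Fx.sc2_go s25) l25)
      (hRG.app (hRG.rng p b e26 (Fx.sc2_go s26) l26)
      (hRG.app (hRG.rng p b e27 (Fx.sc2_go s27) l27)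
      (hRG.app (hRG.rng p b e28 (Fx.sc2_go s28) l28)
      (hRG.app (hRG.rng p b e29 (Fx.sc2_go s29) l29)
      (hRG.app (hRG.rng p b e30 (Fx.sc2_go s30) l30)
      (hRG.rng p b e31 (Fx.sc2_go s31) l31))))))))))))))))))))))))))))))))
  exact (hRG.sp0 (nat_lit 80) (hWB D3.x0.1 (g _ D3.x0.2))
    (hWB D3.x1.1 (g _ D3.x1.2)))

theorem bD4 : Box (Good (nat_lit 29500) (nat_lit 30025) (nat_lit 49480) (nat_lit 480) (nat_lit 40) (nat_lit 192) T (nat_lit 13956)) (nat_lit 49480) 0 160 240 320 := by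
  obtain ⟨p, s0, s1, s2, s3, s4, s5, s6, s7, s8, s9, s10, s11, s12, s13, s14, s15, s16, s17, s18, s19, s20, s21, s22, s23, s24, s25, s26, s27, s28, s29, s30, s31⟩ := D4.s_ok
  obtain ⟨e0, e1, e2, e3, e4, e5, e6, e7, e8, e9, e10, e11, e12, e13, e14, e15, e16, e17, e18, e19, e20, e21, e22, e23, e24, e25, e26, e27, e28, e29, e30, e31⟩ := Hd.geo_ok
  have g : ∀ A, D4.Ok A → ∀ L ∈ A, Good (nat_lit 29500) (nat_lit 30025) (nat_lit 49480) (nat_lit 480) (nat_lit 40) (nat_lit 192) T (nat_lit 13956) L :=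
    fun A ⟨b, l0, l1, l2, l3, l4, l5, l6, l7, l8, l9, l10, l11, l12, l13, l14, l15, l16, l17, l18, l19, l20, l21, l22, l23, l24, l25, l26, l27, l28, l29, l30, l31⟩ => hRG.good p b (hRG.app (hRG.rng p b e0 (Fx.sc2_go s0) l0)
      (hRG.app (hRG.rng p b e1 (Fx.sc2_go s1) l1)
      (hRG.app (hRG.rng p b e2 (Fx.sc2_go s2) l2)
      (hRG.app (hRG.rng p b e3 (Fx.sc2_go s3) l3)
      (hRG.app (hRG.rng p b e4 (Fx.sc2_go s4) l4)
      (hRG.app (hRG.rng p b e5 (Fx.sc2_go s5) l5)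
      (hRG.app (hRG.rng p b e6 (Fx.sc2_go s6) l6)
      (hRG.app (hRG.rng p b e7 (Fx.sc2_go s7) l7)
      (hRG.app (hRG.rng p b e8 (Fx.sc2_go s8) l8)
      (hRG.app (hRG.rng p b e9 (Fx.sc2_go s9) l9)
      (hRG.app (hRG.rng p b e10 (Fx.sc2_go s10) l10)
      (hRG.app (hRG.rng p b e11 (Fx.sc2_go s11) l11)
      (hRG.app (hRG.rng p b e12 (Fx.sc2_go s12) l12)
      (hRG.app (hRG.rng p b e13 (Fx.sc2_go s13) l13)
      (hRG.app (hRG.rng p b e14 (Fx.sc2_go s14) l14)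
      (hRG.app (hRG.rng p b e15 (Fx.sc2_go s15) l15)
      (hRG.app (hRG.rng p b e16 (Fx.sc2_go s16) l16)
      (hRG.app (hRG.rng p b e17 (Fx.sc2_go s17) l17)
      (hRG.app (hRG.rng p b e18 (Fx.sc2_go s18) l18)
      (hRG.app (hRG.rng p b e19 (Fx.sc2_go s19) l19)
      (hRG.app (hRG.rng p b e20 (Fx.sc2_go s20) l20)
      (hRG.app (hRG.rng p b e21 (Fx.sc2_go s21) l21)
      (hRG.app (hRG.rng p b e22 (Fx.sc2_go s22) l22)
      (hRG.app (hRG.rng p b e23 (Fx.sc2_go s23) l23)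
      (hRG.app (hRG.rng p b e24 (Fx.sc2_go s24) l24)
      (hRG.app (hRG.rng p b e25 (Fx.sc2_go s25) l25)
      (hRG.app (hRG.rng p b e26 (Fx.sc2_go s26) l26)
      (hRG.app (hRG.rng p b e27 (Fx.sc2_go s27) l27)
      (hRG.app (hRG.rng p b e28 (Fx.sc2_go s28) l28)
      (hRG.app (hRG.rng p b e29 (Fx.sc2_go s29) l29)
      (hRG.app (hRG.rng p b e30 (Fx.sc2_go s30) l30)
      (hRG.rng p b e31 (Fx.sc2_go s31) l31))))))))))))))))))))))))))))))))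
  exact (hRG.sp0 (nat_lit 80) (hRG.sp0 (nat_lit 40) (hWB D4.x0.1 (g _ D4.x0.2))
    (hWB D4.x1.1 (g _ D4.x1.2)))
    (hWB D4.x2.1 (g _ D4.x2.2)))

theorem cl (h : LP.Many2 G 10041 9768) : Cl 29500 49480 :=
  ((Cl.grp h mc D1.s_ok.1 bD1 (by decide)).app
    ((Cl.grp h mc D2.s_ok.1 bD2 (by decide)).app
    ((Cl.grp h mc D3.s_ok.1 bD3 (by decide)).app
    (Cl.grp h mc D4.s_ok.1 bD4 (by decide)) (by decide)) (by decide)) (by decide))

end Pool.Agent.MP_1037db_co.PT.Kd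


namespace Pool.Agent.MP_1037db_co.PT.Ke

@[reducible] def G : LP.Geo := ⟨FA, FB, FT, 69657, 10049, 39817, geo_ok⟩

theorem mc : Mc FA FB (nat_lit 39) T MW := by
  unfold Mc Mw Mf
  decide +kernel

theorem bE1 : Box (Good (nat_lit 30200) (nat_lit 30200) (nat_lit 49972) (nat_lit 500) (nat_lit 39) (nat_lit 192) T (nat_lit 13780)) (nat_lit 49972) 0 160 240 320 := by
  obtain ⟨p, s0, s1, s2, s3, s4, s5, s6, s7, s8, s9, s10, s11, s12, s13, s14, s15, s16, s17, s18, s19, s20, s21, s22, s23, s24, s25, s26, s27, s28, s29, s30, s31, s32, s33, s34⟩ := E1.s_ok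
  obtain ⟨e0, e1, e2, e3, e4, e5, e6, e7, e8, e9, e10, e11, e12, e13, e14, e15, e16, e17, e18, e19, e20, e21, e22, e23, e24, e25, e26, e27, e28, e29, e30, e31, e32, e33, e34⟩ := He.geo_ok
  have g : ∀ A, E1.Ok A → ∀ L ∈ A, Good (nat_lit 30200) (nat_lit 30200) (nat_lit 49972) (nat_lit 500) (nat_lit 39) (nat_lit 192) T (nat_lit 13780) L :=
    fun A ⟨b, l0, l1, l2, l3, l4, l5, l6, l7, l8, l9, l10, l11, l12, l13, l14, l15, l16, l17, l18, l19, l20, l21, l22, l23, l24, l25, l26, l27, l28, l29, l30, l31, l32, l33, l34⟩ => hRG.good p b (hRG.app (hRG.rng p b e0 (Fx.sc2_go s0) l0)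
      (hRG.app (hRG.rng p b e1 (Fx.sc2_go s1) l1)
      (hRG.app (hRG.rng p b e2 (Fx.sc2_go s2) l2)
      (hRG.app (hRG.rng p b e3 (Fx.sc2_go s3) l3)
      (hRG.app (hRG.rng p b e4 (Fx.sc2_go s4) l4)
      (hRG.app (hRG.rng p b e5 (Fx.sc2_go s5) l5)
      (hRG.app (hRG.rng p b e6 (Fx.sc2_go s6) l6)
      (hRG.app (hRG.rng p b e7 (Fx.sc2_go s7) l7)
      (hRG.app (hRG.rng p b e8 (Fx.sc2_go s8) l8)
      (hRG.app (hRG.rng p b e9 (Fx.sc2_go s9) l9)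
      (hRG.app (hRG.rng p b e10 (Fx.sc2_go s10) l10)
      (hRG.app (hRG.rng p b e11 (Fx.sc2_go s11) l11)
      (hRG.app (hRG.rng p b e12 (Fx.sc2_go s12) l12)
      (hRG.app (hRG.rng p b e13 (Fx.sc2_go s13) l13)
      (hRG.app (hRG.rng p b e14 (Fx.sc2_go s14) l14)
      (hRG.app (hRG.rng p b e15 (Fx.sc2_go s15) l15)
      (hRG.app (hRG.rng p b e16 (Fx.sc2_go s16) l16)
      (hRG.app (hRG.rng p b e17 (Fx.sc2_go s17) l17)
      (hRG.app (hRG.rng p b e18 (Fx.sc2_go s18) l18)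
      (hRG.app (hRG.rng p b e19 (Fx.sc2_go s19) l19)
      (hRG.app (hRG.rng p b e20 (Fx.sc2_go s20) l20)
      (hRG.app (hRG.rng p b e21 (Fx.sc2_go s21) l21)
      (hRG.app (hRG.rng p b e22 (Fx.sc2_go s22) l22)
      (hRG.app (hRG.rng p b e23 (Fx.sc2_go s23) l23)
      (hRG.app (hRG.rng p b e24 (Fx.sc2_go s24) l24)
      (hRG.app (hRG.rng p b e25 (Fx.sc2_go s25) l25)
      (hRG.app (hRG.rng p b e26 (Fx.sc2_go s26) l26)
      (hRG.app (hRG.rng p b e27 (Fx.sc2_go s27) l27)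
      (hRG.app (hRG.rng p b e28 (Fx.sc2_go s28) l28)
      (hRG.app (hRG.rng p b e29 (Fx.sc2_go s29) l29)
      (hRG.app (hRG.rng p b e30 (Fx.sc2_go s30) l30)
      (hRG.app (hRG.rng p b e31 (Fx.sc2_go s31) l31)
      (hRG.app (hRG.rng p b e32 (Fx.sc2_go s32) l32)
      (hRG.app (hRG.rng p b e33 (Fx.sc2_go s33) l33)
      (hRG.rng p b e34 (Fx.sc2_go s34) l34)))))))))))))))))))))))))))))))))))
  exact (hRG.sp0 (nat_lit 80) (hRG.sp0 (nat_lit 40) (hRG.sp1 (nat_lit 280) (hRG.sp0 (nat_lit 20) (hWB E1.x0.1 (g _ E1.x0.2))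
    (hWB E1.x1.1 (g _ E1.x1.2)))
    (skip (by decide)))
    (hRG.sp1 (nat_lit 280) (hRG.sp0 (nat_lit 60) (hWB E1.x2.1 (g _ E1.x2.2))
    (hWB E1.x3.1 (g _ E1.x3.2)))
    (hWB E1.x4.1 (g _ E1.x4.2))))
    (hRG.sp0 (nat_lit 120) (hWB E1.x5.1 (g _ E1.x5.2))
    (hWB E1.x6.1 (g _ E1.x6.2))))

theorem bE2 : Box (Good (nat_lit 30200) (nat_lit 30500) (nat_lit 50463) (nat_lit 500) (nat_lit 39) (nat_lit 192) T (nat_lit 13586)) (nat_lit 50463) 0 160 240 320 := by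
  obtain ⟨p, s0, s1, s2, s3, s4, s5, s6, s7, s8, s9, s10, s11, s12, s13, s14, s15, s16, s17, s18, s19, s20, s21, s22, s23, s24, s25, s26, s27, s28, s29, s30, s31, s32, s33, s34⟩ := E2.s_ok
  obtain ⟨e0, e1, e2, e3, e4, e5, e6, e7, e8, e9, e10, e11, e12, e13, e14, e15, e16, e17, e18, e19, e20, e21, e22, e23, e24, e25, e26, e27, e28, e29, e30, e31, e32, e33, e34⟩ := He.geo_ok
  have g : ∀ A, E2.Ok A → ∀ L ∈ A, Good (nat_lit 30200) (nat_lit 30500) (nat_lit 50463) (nat_lit 500) (nat_lit 39) (nat_lit 192) T (nat_lit 13586) L :=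
    fun A ⟨b, l0, l1, l2, l3, l4, l5, l6, l7, l8, l9, l10, l11, l12, l13, l14, l15, l16, l17, l18, l19, l20, l21, l22, l23, l24, l25, l26, l27, l28, l29, l30, l31, l32, l33, l34⟩ => hRG.good p b (hRG.app (hRG.rng p b e0 (Fx.sc2_go s0) l0)
      (hRG.app (hRG.rng p b e1 (Fx.sc2_go s1) l1)
      (hRG.app (hRG.rng p b e2 (Fx.sc2_go s2) l2)
      (hRG.app (hRG.rng p b e3 (Fx.sc2_go s3) l3)
      (hRG.app (hRG.rng p b e4 (Fx.sc2_go s4) l4)
      (hRG.app (hRG.rng p b e5 (Fx.sc2_go s5) l5)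
      (hRG.app (hRG.rng p b e6 (Fx.sc2_go s6) l6)
      (hRG.app (hRG.rng p b e7 (Fx.sc2_go s7) l7)
      (hRG.app (hRG.rng p b e8 (Fx.sc2_go s8) l8)
      (hRG.app (hRG.rng p b e9 (Fx.sc2_go s9) l9)
      (hRG.app (hRG.rng p b e10 (Fx.sc2_go s10) l10)
      (hRG.app (hRG.rng p b e11 (Fx.sc2_go s11) l11)
      (hRG.app (hRG.rng p b e12 (Fx.sc2_go s12) l12)
      (hRG.app (hRG.rng p b e13 (Fx.sc2_go s13) l13)
      (hRG.app (hRG.rng p b e14 (Fx.sc2_go s14) l14)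
      (hRG.app (hRG.rng p b e15 (Fx.sc2_go s15) l15)
      (hRG.app (hRG.rng p b e16 (Fx.sc2_go s16) l16)
      (hRG.app (hRG.rng p b e17 (Fx.sc2_go s17) l17)
      (hRG.app (hRG.rng p b e18 (Fx.sc2_go s18) l18)
      (hRG.app (hRG.rng p b e19 (Fx.sc2_go s19) l19)
      (hRG.app (hRG.rng p b e20 (Fx.sc2_go s20) l20)
      (hRG.app (hRG.rng p b e21 (Fx.sc2_go s21) l21)
      (hRG.app (hRG.rng p b e22 (Fx.sc2_go s22) l22)
      (hRG.app (hRG.rng p b e23 (Fx.sc2_go s23) l23)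
      (hRG.app (hRG.rng p b e24 (Fx.sc2_go s24) l24)
      (hRG.app (hRG.rng p b e25 (Fx.sc2_go s25) l25)
      (hRG.app (hRG.rng p b e26 (Fx.sc2_go s26) l26)
      (hRG.app (hRG.rng p b e27 (Fx.sc2_go s27) l27)
      (hRG.app (hRG.rng p b e28 (Fx.sc2_go s28) l28)
      (hRG.app (hRG.rng p b e29 (Fx.sc2_go s29) l29)
      (hRG.app (hRG.rng p b e30 (Fx.sc2_go s30) l30)
      (hRG.app (hRG.rng p b e31 (Fx.sc2_go s31) l31)
      (hRG.app (hRG.rng p b e32 (Fx.sc2_go s32) l32)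
      (hRG.app (hRG.rng p b e33 (Fx.sc2_go s33) l33)
      (hRG.rng p b e34 (Fx.sc2_go s34) l34)))))))))))))))))))))))))))))))))))
  exact (hRG.sp0 (nat_lit 80) (hRG.sp0 (nat_lit 40) (hRG.sp1 (nat_lit 280) (hRG.sp0 (nat_lit 20) (hWB E2.x0.1 (g _ E2.x0.2))
    (hWB E2.x1.1 (g _ E2.x1.2)))
    (skip (by decide)))
    (hWB E2.x2.1 (g _ E2.x2.2)))
    (hWB E2.x3.1 (g _ E2.x3.2)))

theorem bE3 : Box (Good (nat_lit 30200) (nat_lit 30800) (nat_lit 50955) (nat_lit 500) (nat_lit 39) (nat_lit 192) T (nat_lit 13397)) (nat_lit 50955) 0 160 240 320 := by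
  obtain ⟨p, s0, s1, s2, s3, s4, s5, s6, s7, s8, s9, s10, s11, s12, s13, s14, s15, s16, s17, s18, s19, s20, s21, s22, s23, s24, s25, s26, s27, s28, s29, s30, s31, s32, s33, s34⟩ := E3.s_ok
  obtain ⟨e0, e1, e2, e3, e4, e5, e6, e7, e8, e9, e10, e11, e12, e13, e14, e15, e16, e17, e18, e19, e20, e21, e22, e23, e24, e25, e26, e27, e28, e29, e30, e31, e32, e33, e34⟩ := He.geo_ok
  have g : ∀ A, E3.Ok A → ∀ L ∈ A, Good (nat_lit 30200) (nat_lit 30800) (nat_lit 50955) (nat_lit 500) (nat_lit 39) (nat_lit 192) T (nat_lit 13397) L :=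
    fun A ⟨b, l0, l1, l2, l3, l4, l5, l6, l7, l8, l9, l10, l11, l12, l13, l14, l15, l16, l17, l18, l19, l20, l21, l22, l23, l24, l25, l26, l27, l28, l29, l30, l31, l32, l33, l34⟩ => hRG.good p b (hRG.app (hRG.rng p b e0 (Fx.sc2_go s0) l0)
      (hRG.app (hRG.rng p b e1 (Fx.sc2_go s1) l1)
      (hRG.app (hRG.rng p b e2 (Fx.sc2_go s2) l2)
      (hRG.app (hRG.rng p b e3 (Fx.sc2_go s3) l3)
      (hRG.app (hRG.rng p b e4 (Fx.sc2_go s4) l4)
      (hRG.app (hRG.rng p b e5 (Fx.sc2_go s5) l5)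
      (hRG.app (hRG.rng p b e6 (Fx.sc2_go s6) l6)
      (hRG.app (hRG.rng p b e7 (Fx.sc2_go s7) l7)
      (hRG.app (hRG.rng p b e8 (Fx.sc2_go s8) l8)
      (hRG.app (hRG.rng p b e9 (Fx.sc2_go s9) l9)
      (hRG.app (hRG.rng p b e10 (Fx.sc2_go s10) l10)
      (hRG.app (hRG.rng p b e11 (Fx.sc2_go s11) l11)
      (hRG.app (hRG.rng p b e12 (Fx.sc2_go s12) l12)
      (hRG.app (hRG.rng p b e13 (Fx.sc2_go s13) l13)
      (hRG.app (hRG.rng p b e14 (Fx.sc2_go s14) l14)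
      (hRG.app (hRG.rng p b e15 (Fx.sc2_go s15) l15)
      (hRG.app (hRG.rng p b e16 (Fx.sc2_go s16) l16)
      (hRG.app (hRG.rng p b e17 (Fx.sc2_go s17) l17)
      (hRG.app (hRG.rng p b e18 (Fx.sc2_go s18) l18)
      (hRG.app (hRG.rng p b e19 (Fx.sc2_go s19) l19)
      (hRG.app (hRG.rng p b e20 (Fx.sc2_go s20) l20)
      (hRG.app (hRG.rng p b e21 (Fx.sc2_go s21) l21)
      (hRG.app (hRG.rng p b e22 (Fx.sc2_go s22) l22)
      (hRG.app (hRG.rng p b e23 (Fx.sc2_go s23) l23)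
      (hRG.app (hRG.rng p b e24 (Fx.sc2_go s24) l24)
      (hRG.app (hRG.rng p b e25 (Fx.sc2_go s25) l25)
      (hRG.app (hRG.rng p b e26 (Fx.sc2_go s26) l26)
      (hRG.app (hRG.rng p b e27 (Fx.sc2_go s27) l27)
      (hRG.app (hRG.rng p b e28 (Fx.sc2_go s28) l28)
      (hRG.app (hRG.rng p b e29 (Fx.sc2_go s29) l29)
      (hRG.app (hRG.rng p b e30 (Fx.sc2_go s30) l30)
      (hRG.app (hRG.rng p b e31 (Fx.sc2_go s31) l31)
      (hRG.app (hRG.rng p b e32 (Fx.sc2_go s32) l32)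
      (hRG.app (hRG.rng p b e33 (Fx.sc2_go s33) l33)
      (hRG.rng p b e34 (Fx.sc2_go s34) l34)))))))))))))))))))))))))))))))))))
  exact (hRG.sp0 (nat_lit 80) (hRG.sp0 (nat_lit 40) (hRG.sp1 (nat_lit 280) (hRG.sp0 (nat_lit 20) (hWB E3.x0.1 (g _ E3.x0.2))
    (hWB E3.x1.1 (g _ E3.x1.2)))
    (skip (by decide)))
    (hWB E3.x2.1 (g _ E3.x2.2)))
    (hWB E3.x3.1 (g _ E3.x3.2)))

theorem bE4 : Box (Good (nat_lit 30200) (nat_lit 31100) (nat_lit 51446) (nat_lit 500) (nat_lit 39) (nat_lit 192) T (nat_lit 13213)) (nat_lit 51446) 0 160 240 320 := by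
  obtain ⟨p, s0, s1, s2, s3, s4, s5, s6, s7, s8, s9, s10, s11, s12, s13, s14, s15, s16, s17, s18, s19, s20, s21, s22, s23, s24, s25, s26, s27, s28, s29, s30, s31, s32, s33, s34⟩ := E4.s_ok
  obtain ⟨e0, e1, e2, e3, e4, e5, e6, e7, e8, e9, e10, e11, e12, e13, e14, e15, e16, e17, e18, e19, e20, e21, e22, e23, e24, e25, e26, e27, e28, e29, e30, e31, e32, e33, e34⟩ := He.geo_ok
  have g : ∀ A, E4.Ok A → ∀ L ∈ A, Good (nat_lit 30200) (nat_lit 31100) (nat_lit 51446) (nat_lit 500) (nat_lit 39) (nat_lit 192) T (nat_lit 13213) L :=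
    fun A ⟨b, l0, l1, l2, l3, l4, l5, l6, l7, l8, l9, l10, l11, l12, l13, l14, l15, l16, l17, l18, l19, l20, l21, l22, l23, l24, l25, l26, l27, l28, l29, l30, l31, l32, l33, l34⟩ => hRG.good p b (hRG.app (hRG.rng p b e0 (Fx.sc2_go s0) l0)
      (hRG.app (hRG.rng p b e1 (Fx.sc2_go s1) l1)
      (hRG.app (hRG.rng p b e2 (Fx.sc2_go s2) l2)
      (hRG.app (hRG.rng p b e3 (Fx.sc2_go s3) l3)
      (hRG.app (hRG.rng p b e4 (Fx.sc2_go s4) l4)
      (hRG.app (hRG.rng p b e5 (Fx.sc2_go s5) l5)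
      (hRG.app (hRG.rng p b e6 (Fx.sc2_go s6) l6)
      (hRG.app (hRG.rng p b e7 (Fx.sc2_go s7) l7)
      (hRG.app (hRG.rng p b e8 (Fx.sc2_go s8) l8)
      (hRG.app (hRG.rng p b e9 (Fx.sc2_go s9) l9)
      (hRG.app (hRG.rng p b e10 (Fx.sc2_go s10) l10)
      (hRG.app (hRG.rng p b e11 (Fx.sc2_go s11) l11)
      (hRG.app (hRG.rng p b e12 (Fx.sc2_go s12) l12)
      (hRG.app (hRG.rng p b e13 (Fx.sc2_go s13) l13)
      (hRG.app (hRG.rng p b e14 (Fx.sc2_go s14) l14)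
      (hRG.app (hRG.rng p b e15 (Fx.sc2_go s15) l15)
      (hRG.app (hRG.rng p b e16 (Fx.sc2_go s16) l16)
      (hRG.app (hRG.rng p b e17 (Fx.sc2_go s17) l17)
      (hRG.app (hRG.rng p b e18 (Fx.sc2_go s18) l18)
      (hRG.app (hRG.rng p b e19 (Fx.sc2_go s19) l19)
      (hRG.app (hRG.rng p b e20 (Fx.sc2_go s20) l20)
      (hRG.app (hRG.rng p b e21 (Fx.sc2_go s21) l21)
      (hRG.app (hRG.rng p b e22 (Fx.sc2_go s22) l22)
      (hRG.app (hRG.rng p b e23 (Fx.sc2_go s23) l23)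
      (hRG.app (hRG.rng p b e24 (Fx.sc2_go s24) l24)
      (hRG.app (hRG.rng p b e25 (Fx.sc2_go s25) l25)
      (hRG.app (hRG.rng p b e26 (Fx.sc2_go s26) l26)
      (hRG.app (hRG.rng p b e27 (Fx.sc2_go s27) l27)
      (hRG.app (hRG.rng p b e28 (Fx.sc2_go s28) l28)
      (hRG.app (hRG.rng p b e29 (Fx.sc2_go s29) l29)
      (hRG.app (hRG.rng p b e30 (Fx.sc2_go s30) l30)
      (hRG.app (hRG.rng p b e31 (Fx.sc2_go s31) l31)
      (hRG.app (hRG.rng p b e32 (Fx.sc2_go s32) l32)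
      (hRG.app (hRG.rng p b e33 (Fx.sc2_go s33) l33)
      (hRG.rng p b e34 (Fx.sc2_go s34) l34)))))))))))))))))))))))))))))))))))
  exact (hRG.sp0 (nat_lit 80) (hRG.sp0 (nat_lit 40) (hRG.sp1 (nat_lit 280) (hRG.sp0 (nat_lit 20) (hWB E4.x0.1 (g _ E4.x0.2))
    (hWB E4.x1.1 (g _ E4.x1.2)))
    (skip (by decide)))
    (hWB E4.x2.1 (g _ E4.x2.2)))
    (hWB E4.x3.1 (g _ E4.x3.2)))

theorem cl (h : LP.Many2 G 10049 9617) : Cl 30200 51446 :=
  ((Cl.grp h mc E1.s_ok.1 bE1 (by decide)).app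
    ((Cl.grp h mc E2.s_ok.1 bE2 (by decide)).app
    ((Cl.grp h mc E3.s_ok.1 bE3 (by decide)).app
    (Cl.grp h mc E4.s_ok.1 bE4 (by decide)) (by decide)) (by decide)) (by decide))

end Pool.Agent.MP_1037db_co.PT.Ke


namespace Pool.Agent.MP_1037db_co.PT.Kf

@[reducible] def G : LP.Geo := ⟨FA, FB, FT, 72571, 10062, 40829, geo_ok⟩

theorem mc : Mc FA FB (nat_lit 37) T MW := by
  unfold Mc Mw Mf
  decide +kernel

theorem bF1 : Box (Good (nat_lit 31400) (nat_lit 31400) (nat_lit 52224) (nat_lit 540) (nat_lit 37) (nat_lit 192) T (nat_lit 12881)) (nat_lit 52224) 0 160 240 320 := by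
  obtain ⟨p, s0, s1, s2, s3, s4, s5, s6, s7, s8, s9, s10, s11, s12, s13, s14, s15, s16, s17, s18, s19, s20, s21, s22, s23, s24, s25, s26, s27, s28, s29, s30, s31, s32, s33, s34, s35, s36⟩ := F1.s_ok
  obtain ⟨e0, e1, e2, e3, e4, e5, e6, e7, e8, e9, e10, e11, e12, e13, e14, e15, e16, e17, e18, e19, e20, e21, e22, e23, e24, e25, e26, e27, e28, e29, e30, e31, e32, e33, e34, e35, e36⟩ := Hf.geo_ok
  have g : ∀ A, F1.Ok A → ∀ L ∈ A, Good (nat_lit 31400) (nat_lit 31400) (nat_lit 52224) (nat_lit 540) (nat_lit 37) (nat_lit 192) T (nat_lit 12881) L :=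
    fun A ⟨b, l0, l1, l2, l3, l4, l5, l6, l7, l8, l9, l10, l11, l12, l13, l14, l15, l16, l17, l18, l19, l20, l21, l22, l23, l24, l25, l26, l27, l28, l29, l30, l31, l32, l33, l34, l35, l36⟩ => hRG.good p b (hRG.app (hRG.rng p b e0 (Fx.sc2_go s0) l0)
      (hRG.app (hRG.rng p b e1 (Fx.sc2_go s1) l1)
      (hRG.app (hRG.rng p b e2 (Fx.sc2_go s2) l2)
      (hRG.app (hRG.rng p b e3 (Fx.sc2_go s3) l3)
      (hRG.app (hRG.rng p b e4 (Fx.sc2_go s4) l4)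
      (hRG.app (hRG.rng p b e5 (Fx.sc2_go s5) l5)
      (hRG.app (hRG.rng p b e6 (Fx.sc2_go s6) l6)
      (hRG.app (hRG.rng p b e7 (Fx.sc2_go s7) l7)
      (hRG.app (hRG.rng p b e8 (Fx.sc2_go s8) l8)
      (hRG.app (hRG.rng p b e9 (Fx.sc2_go s9) l9)
      (hRG.app (hRG.rng p b e10 (Fx.sc2_go s10) l10)
      (hRG.app (hRG.rng p b e11 (Fx.sc2_go s11) l11)
      (hRG.app (hRG.rng p b e12 (Fx.sc2_go s12) l12)
      (hRG.app (hRG.rng p b e13 (Fx.sc2_go s13) l13)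
      (hRG.app (hRG.rng p b e14 (Fx.sc2_go s14) l14)
      (hRG.app (hRG.rng p b e15 (Fx.sc2_go s15) l15)
      (hRG.app (hRG.rng p b e16 (Fx.sc2_go s16) l16)
      (hRG.app (hRG.rng p b e17 (Fx.sc2_go s17) l17)
      (hRG.app (hRG.rng p b e18 (Fx.sc2_go s18) l18)
      (hRG.app (hRG.rng p b e19 (Fx.sc2_go s19) l19)
      (hRG.app (hRG.rng p b e20 (Fx.sc2_go s20) l20)
      (hRG.app (hRG.rng p b e21 (Fx.sc2_go s21) l21)
      (hRG.app (hRG.rng p b e22 (Fx.sc2_go s22) l22)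
      (hRG.app (hRG.rng p b e23 (Fx.sc2_go s23) l23)
      (hRG.app (hRG.rng p b e24 (Fx.sc2_go s24) l24)
      (hRG.app (hRG.rng p b e25 (Fx.sc2_go s25) l25)
      (hRG.app (hRG.rng p b e26 (Fx.sc2_go s26) l26)
      (hRG.app (hRG.rng p b e27 (Fx.sc2_go s27) l27)
      (hRG.app (hRG.rng p b e28 (Fx.sc2_go s28) l28)
      (hRG.app (hRG.rng p b e29 (Fx.sc2_go s29) l29)
      (hRG.app (hRG.rng p b e30 (Fx.sc2_go s30) l30)
      (hRG.app (hRG.rng p b e31 (Fx.sc2_go s31) l31)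
      (hRG.app (hRG.rng p b e32 (Fx.sc2_go s32) l32)
      (hRG.app (hRG.rng p b e33 (Fx.sc2_go s33) l33)
      (hRG.app (hRG.rng p b e34 (Fx.sc2_go s34) l34)
      (hRG.app (hRG.rng p b e35 (Fx.sc2_go s35) l35)
      (hRG.rng p b e36 (Fx.sc2_go s36) l36)))))))))))))))))))))))))))))))))))))
  exact (hRG.sp0 (nat_lit 80) (hRG.sp0 (nat_lit 40) (hWB F1.x0.1 (g _ F1.x0.2))
    (hWB F1.x1.1 (g _ F1.x1.2)))
    (hWB F1.x2.1 (g _ F1.x2.2)))

theorem bF2 : Box (Good (nat_lit 31400) (nat_lit 31875) (nat_lit 53003) (nat_lit 540) (nat_lit 37) (nat_lit 192) T (nat_lit 12584)) (nat_lit 53003) 0 160 240 320 := by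
  obtain ⟨p, s0, s1, s2, s3, s4, s5, s6, s7, s8, s9, s10, s11, s12, s13, s14, s15, s16, s17, s18, s19, s20, s21, s22, s23, s24, s25, s26, s27, s28, s29, s30, s31, s32, s33, s34, s35, s36⟩ := F2.s_ok
  obtain ⟨e0, e1, e2, e3, e4, e5, e6, e7, e8, e9, e10, e11, e12, e13, e14, e15, e16, e17, e18, e19, e20, e21, e22, e23, e24, e25, e26, e27, e28, e29, e30, e31, e32, e33, e34, e35, e36⟩ := Hf.geo_ok
  have g : ∀ A, F2.Ok A → ∀ L ∈ A, Good (nat_lit 31400) (nat_lit 31875) (nat_lit 53003) (nat_lit 540) (nat_lit 37) (nat_lit 192) T (nat_lit 12584) L :=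
    fun A ⟨b, l0, l1, l2, l3, l4, l5, l6, l7, l8, l9, l10, l11, l12, l13, l14, l15, l16, l17, l18, l19, l20, l21, l22, l23, l24, l25, l26, l27, l28, l29, l30, l31, l32, l33, l34, l35, l36⟩ => hRG.good p b (hRG.app (hRG.rng p b e0 (Fx.sc2_go s0) l0)
      (hRG.app (hRG.rng p b e1 (Fx.sc2_go s1) l1)
      (hRG.app (hRG.rng p b e2 (Fx.sc2_go s2) l2)
      (hRG.app (hRG.rng p b e3 (Fx.sc2_go s3) l3)
      (hRG.app (hRG.rng p b e4 (Fx.sc2_go s4) l4)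
      (hRG.app (hRG.rng p b e5 (Fx.sc2_go s5) l5)
      (hRG.app (hRG.rng p b e6 (Fx.sc2_go s6) l6)
      (hRG.app (hRG.rng p b e7 (Fx.sc2_go s7) l7)
      (hRG.app (hRG.rng p b e8 (Fx.sc2_go s8) l8)
      (hRG.app (hRG.rng p b e9 (Fx.sc2_go s9) l9)
      (hRG.app (hRG.rng p b e10 (Fx.sc2_go s10) l10)
      (hRG.app (hRG.rng p b e11 (Fx.sc2_go s11) l11)
      (hRG.app (hRG.rng p b e12 (Fx.sc2_go s12) l12)
      (hRG.app (hRG.rng p b e13 (Fx.sc2_go s13) l13)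
      (hRG.app (hRG.rng p b e14 (Fx.sc2_go s14) l14)
      (hRG.app (hRG.rng p b e15 (Fx.sc2_go s15) l15)
      (hRG.app (hRG.rng p b e16 (Fx.sc2_go s16) l16)
      (hRG.app (hRG.rng p b e17 (Fx.sc2_go s17) l17)
      (hRG.app (hRG.rng p b e18 (Fx.sc2_go s18) l18)
      (hRG.app (hRG.rng p b e19 (Fx.sc2_go s19) l19)
      (hRG.app (hRG.rng p b e20 (Fx.sc2_go s20) l20)
      (hRG.app (hRG.rng p b e21 (Fx.sc2_go s21) l21)
      (hRG.app (hRG.rng p b e22 (Fx.sc2_go s22) l22)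
      (hRG.app (hRG.rng p b e23 (Fx.sc2_go s23) l23)
      (hRG.app (hRG.rng p b e24 (Fx.sc2_go s24) l24)
      (hRG.app (hRG.rng p b e25 (Fx.sc2_go s25) l25)
      (hRG.app (hRG.rng p b e26 (Fx.sc2_go s26) l26)
      (hRG.app (hRG.rng p b e27 (Fx.sc2_go s27) l27)
      (hRG.app (hRG.rng p b e28 (Fx.sc2_go s28) l28)
      (hRG.app (hRG.rng p b e29 (Fx.sc2_go s29) l29)
      (hRG.app (hRG.rng p b e30 (Fx.sc2_go s30) l30)
      (hRG.app (hRG.rng p b e31 (Fx.sc2_go s31) l31)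
      (hRG.app (hRG.rng p b e32 (Fx.sc2_go s32) l32)
      (hRG.app (hRG.rng p b e33 (Fx.sc2_go s33) l33)
      (hRG.app (hRG.rng p b e34 (Fx.sc2_go s34) l34)
      (hRG.app (hRG.rng p b e35 (Fx.sc2_go s35) l35)
      (hRG.rng p b e36 (Fx.sc2_go s36) l36)))))))))))))))))))))))))))))))))))))
  exact (hRG.sp0 (nat_lit 80) (hRG.sp0 (nat_lit 40) (hWB F2.x0.1 (g _ F2.x0.2))
    (hWB F2.x1.1 (g _ F2.x1.2)))
    (hWB F2.x2.1 (g _ F2.x2.2)))

theorem bF3 : Box (Good (nat_lit 31400) (nat_lit 32350) (nat_lit 53781) (nat_lit 540) (nat_lit 37) (nat_lit 192) T (nat_lit 12301)) (nat_lit 53781) 0 160 240 320 := by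
  obtain ⟨p, s0, s1, s2, s3, s4, s5, s6, s7, s8, s9, s10, s11, s12, s13, s14, s15, s16, s17, s18, s19, s20, s21, s22, s23, s24, s25, s26, s27, s28, s29, s30, s31, s32, s33, s34, s35, s36⟩ := F3.s_ok
  obtain ⟨e0, e1, e2, e3, e4, e5, e6, e7, e8, e9, e10, e11, e12, e13, e14, e15, e16, e17, e18, e19, e20, e21, e22, e23, e24, e25, e26, e27, e28, e29, e30, e31, e32, e33, e34, e35, e36⟩ := Hf.geo_ok
  have g : ∀ A, F3.Ok A → ∀ L ∈ A, Good (nat_lit 31400) (nat_lit 32350) (nat_lit 53781) (nat_lit 540) (nat_lit 37) (nat_lit 192) T (nat_lit 12301) L :=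
    fun A ⟨b, l0, l1, l2, l3, l4, l5, l6, l7, l8, l9, l10, l11, l12, l13, l14, l15, l16, l17, l18, l19, l20, l21, l22, l23, l24, l25, l26, l27, l28, l29, l30, l31, l32, l33, l34, l35, l36⟩ => hRG.good p b (hRG.app (hRG.rng p b e0 (Fx.sc2_go s0) l0)
      (hRG.app (hRG.rng p b e1 (Fx.sc2_go s1) l1)
      (hRG.app (hRG.rng p b e2 (Fx.sc2_go s2) l2)
      (hRG.app (hRG.rng p b e3 (Fx.sc2_go s3) l3)
      (hRG.app (hRG.rng p b e4 (Fx.sc2_go s4) l4)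
      (hRG.app (hRG.rng p b e5 (Fx.sc2_go s5) l5)
      (hRG.app (hRG.rng p b e6 (Fx.sc2_go s6) l6)
      (hRG.app (hRG.rng p b e7 (Fx.sc2_go s7) l7)
      (hRG.app (hRG.rng p b e8 (Fx.sc2_go s8) l8)
      (hRG.app (hRG.rng p b e9 (Fx.sc2_go s9) l9)
      (hRG.app (hRG.rng p b e10 (Fx.sc2_go s10) l10)
      (hRG.app (hRG.rng p b e11 (Fx.sc2_go s11) l11)
      (hRG.app (hRG.rng p b e12 (Fx.sc2_go s12) l12)
      (hRG.app (hRG.rng p b e13 (Fx.sc2_go s13) l13)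
      (hRG.app (hRG.rng p b e14 (Fx.sc2_go s14) l14)
      (hRG.app (hRG.rng p b e15 (Fx.sc2_go s15) l15)
      (hRG.app (hRG.rng p b e16 (Fx.sc2_go s16) l16)
      (hRG.app (hRG.rng p b e17 (Fx.sc2_go s17) l17)
      (hRG.app (hRG.rng p b e18 (Fx.sc2_go s18) l18)
      (hRG.app (hRG.rng p b e19 (Fx.sc2_go s19) l19)
      (hRG.app (hRG.rng p b e20 (Fx.sc2_go s20) l20)
      (hRG.app (hRG.rng p b e21 (Fx.sc2_go s21) l21)
      (hRG.app (hRG.rng p b e22 (Fx.sc2_go s22) l22)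
      (hRG.app (hRG.rng p b e23 (Fx.sc2_go s23) l23)
      (hRG.app (hRG.rng p b e24 (Fx.sc2_go s24) l24)
      (hRG.app (hRG.rng p b e25 (Fx.sc2_go s25) l25)
      (hRG.app (hRG.rng p b e26 (Fx.sc2_go s26) l26)
      (hRG.app (hRG.rng p b e27 (Fx.sc2_go s27) l27)
      (hRG.app (hRG.rng p b e28 (Fx.sc2_go s28) l28)
      (hRG.app (hRG.rng p b e29 (Fx.sc2_go s29) l29)
      (hRG.app (hRG.rng p b e30 (Fx.sc2_go s30) l30)
      (hRG.app (hRG.rng p b e31 (Fx.sc2_go s31) l31)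
      (hRG.app (hRG.rng p b e32 (Fx.sc2_go s32) l32)
      (hRG.app (hRG.rng p b e33 (Fx.sc2_go s33) l33)
      (hRG.app (hRG.rng p b e34 (Fx.sc2_go s34) l34)
      (hRG.app (hRG.rng p b e35 (Fx.sc2_go s35) l35)
      (hRG.rng p b e36 (Fx.sc2_go s36) l36)))))))))))))))))))))))))))))))))))))
  exact (hWB F3.x0.1 (g _ F3.x0.2))

theorem bF4 : Box (Good (nat_lit 31400) (nat_lit 32825) (nat_lit 54559) (nat_lit 540) (nat_lit 37) (nat_lit 192) T (nat_lit 12012)) (nat_lit 54559) 0 160 240 320 := by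
  obtain ⟨p, s0, s1, s2, s3, s4, s5, s6, s7, s8, s9, s10, s11, s12, s13, s14, s15, s16, s17, s18, s19, s20, s21, s22, s23, s24, s25, s26, s27, s28, s29, s30, s31, s32, s33, s34, s35, s36⟩ := F4.s_ok
  obtain ⟨e0, e1, e2, e3, e4, e5, e6, e7, e8, e9, e10, e11, e12, e13, e14, e15, e16, e17, e18, e19, e20, e21, e22, e23, e24, e25, e26, e27, e28, e29, e30, e31, e32, e33, e34, e35, e36⟩ := Hf.geo_ok
  have g : ∀ A, F4.Ok A → ∀ L ∈ A, Good (nat_lit 31400) (nat_lit 32825) (nat_lit 54559) (nat_lit 540) (nat_lit 37) (nat_lit 192) T (nat_lit 12012) L :=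
    fun A ⟨b, l0, l1, l2, l3, l4, l5, l6, l7, l8, l9, l10, l11, l12, l13, l14, l15, l16, l17, l18, l19, l20, l21, l22, l23, l24, l25, l26, l27, l28, l29, l30, l31, l32, l33, l34, l35, l36⟩ => hRG.good p b (hRG.app (hRG.rng p b e0 (Fx.sc2_go s0) l0)
      (hRG.app (hRG.rng p b e1 (Fx.sc2_go s1) l1)
      (hRG.app (hRG.rng p b e2 (Fx.sc2_go s2) l2)
      (hRG.app (hRG.rng p b e3 (Fx.sc2_go s3) l3)
      (hRG.app (hRG.rng p b e4 (Fx.sc2_go s4) l4)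
      (hRG.app (hRG.rng p b e5 (Fx.sc2_go s5) l5)
      (hRG.app (hRG.rng p b e6 (Fx.sc2_go s6) l6)
      (hRG.app (hRG.rng p b e7 (Fx.sc2_go s7) l7)
      (hRG.app (hRG.rng p b e8 (Fx.sc2_go s8) l8)
      (hRG.app (hRG.rng p b e9 (Fx.sc2_go s9) l9)
      (hRG.app (hRG.rng p b e10 (Fx.sc2_go s10) l10)
      (hRG.app (hRG.rng p b e11 (Fx.sc2_go s11) l11)
      (hRG.app (hRG.rng p b e12 (Fx.sc2_go s12) l12)
      (hRG.app (hRG.rng p b e13 (Fx.sc2_go s13) l13)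
      (hRG.app (hRG.rng p b e14 (Fx.sc2_go s14) l14)
      (hRG.app (hRG.rng p b e15 (Fx.sc2_go s15) l15)
      (hRG.app (hRG.rng p b e16 (Fx.sc2_go s16) l16)
      (hRG.app (hRG.rng p b e17 (Fx.sc2_go s17) l17)
      (hRG.app (hRG.rng p b e18 (Fx.sc2_go s18) l18)
      (hRG.app (hRG.rng p b e19 (Fx.sc2_go s19) l19)
      (hRG.app (hRG.rng p b e20 (Fx.sc2_go s20) l20)
      (hRG.app (hRG.rng p b e21 (Fx.sc2_go s21) l21)
      (hRG.app (hRG.rng p b e22 (Fx.sc2_go s22) l22)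
      (hRG.app (hRG.rng p b e23 (Fx.sc2_go s23) l23)
      (hRG.app (hRG.rng p b e24 (Fx.sc2_go s24) l24)
      (hRG.app (hRG.rng p b e25 (Fx.sc2_go s25) l25)
      (hRG.app (hRG.rng p b e26 (Fx.sc2_go s26) l26)
      (hRG.app (hRG.rng p b e27 (Fx.sc2_go s27) l27)
      (hRG.app (hRG.rng p b e28 (Fx.sc2_go s28) l28)
      (hRG.app (hRG.rng p b e29 (Fx.sc2_go s29) l29)
      (hRG.app (hRG.rng p b e30 (Fx.sc2_go s30) l30)
      (hRG.app (hRG.rng p b e31 (Fx.sc2_go s31) l31)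
      (hRG.app (hRG.rng p b e32 (Fx.sc2_go s32) l32)
      (hRG.app (hRG.rng p b e33 (Fx.sc2_go s33) l33)
      (hRG.app (hRG.rng p b e34 (Fx.sc2_go s34) l34)
      (hRG.app (hRG.rng p b e35 (Fx.sc2_go s35) l35)
      (hRG.rng p b e36 (Fx.sc2_go s36) l36)))))))))))))))))))))))))))))))))))))
  exact (hWB F4.x0.1 (g _ F4.x0.2))

theorem cl (h : LP.Many2 G 10062 9429) : Cl 31400 54559 :=
  ((Cl.grp h mc F1.s_ok.1 bF1 (by decide)).app
    ((Cl.grp h mc F2.s_ok.1 bF2 (by decide)).app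
    ((Cl.grp h mc F3.s_ok.1 bF3 (by decide)).app
    (Cl.grp h mc F4.s_ok.1 bF4 (by decide)) (by decide)) (by decide)) (by decide))

end Pool.Agent.MP_1037db_co.PT.Kf


namespace Pool.Agent.MP_1037db_co.PT.Kg

@[reducible] def G : LP.Geo := ⟨FA, FB, FT, 75135, 10069, 42299, geo_ok⟩

theorem mc : Mc FA FB (nat_lit 33) T MW := by
  unfold Mc Mw Mf
  decide +kernel

theorem bG1 : Box (Good (nat_lit 33300) (nat_lit 33300) (nat_lit 56579) (nat_lit 600) (nat_lit 33) (nat_lit 192) T (nat_lit 11418)) (nat_lit 56579) 0 160 240 320 := by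
  obtain ⟨p, s0, s1, s2, s3, s4, s5, s6, s7, s8, s9, s10, s11, s12, s13, s14, s15, s16⟩ := G1.s_ok
  obtain ⟨e0, e1, e2, e3, e4, e5, e6, e7, e8, e9, e10, e11, e12, e13, e14, e15, e16⟩ := Hg.geo_ok
  have g : ∀ A, G1.Ok A → ∀ L ∈ A, Good (nat_lit 33300) (nat_lit 33300) (nat_lit 56579) (nat_lit 600) (nat_lit 33) (nat_lit 192) T (nat_lit 11418) L :=
    fun A ⟨b, l0, l1, l2, l3, l4, l5, l6, l7, l8, l9, l10, l11, l12, l13, l14, l15, l16⟩ => hRG.good p b (hRG.app (hRG.rng p b e0 (Fx.sc2_go s0) l0)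
      (hRG.app (hRG.rng p b e1 (Fx.sc2_go s1) l1)
      (hRG.app (hRG.rng p b e2 (Fx.sc2_go s2) l2)
      (hRG.app (hRG.rng p b e3 (Fx.sc2_go s3) l3)
      (hRG.app (hRG.rng p b e4 (Fx.sc2_go s4) l4)
      (hRG.app (hRG.rng p b e5 (Fx.sc2_go s5) l5)
      (hRG.app (hRG.rng p b e6 (Fx.sc2_go s6) l6)
      (hRG.app (hRG.rng p b e7 (Fx.sc2_go s7) l7)
      (hRG.app (hRG.rng p b e8 (Fx.sc2_go s8) l8)
      (hRG.app (hRG.rng p b e9 (Fx.sc2_go s9) l9)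
      (hRG.app (hRG.rng p b e10 (Fx.sc2_go s10) l10)
      (hRG.app (hRG.rng p b e11 (Fx.sc2_go s11) l11)
      (hRG.app (hRG.rng p b e12 (Fx.sc2_go s12) l12)
      (hRG.app (hRG.rng p b e13 (Fx.sc2_go s13) l13)
      (hRG.app (hRG.rng p b e14 (Fx.sc2_go s14) l14)
      (hRG.app (hRG.rng p b e15 (Fx.sc2_go s15) l15)
      (hRG.rng p b e16 (Fx.sc2_go s16) l16)))))))))))))))))
  exact (hWB G1.x0.1 (g _ G1.x0.2))

theorem bG2 : Box (Good (nat_lit 33300) (nat_lit 34533) (nat_lit 58601) (nat_lit 600) (nat_lit 33) (nat_lit 192) T (nat_lit 11418)) (nat_lit 58601) 0 160 240 320 := by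
  obtain ⟨p, s0, s1, s2, s3, s4, s5, s6, s7, s8, s9, s10, s11, s12, s13, s14, s15, s16⟩ := G2.s_ok
  obtain ⟨e0, e1, e2, e3, e4, e5, e6, e7, e8, e9, e10, e11, e12, e13, e14, e15, e16⟩ := Hg.geo_ok
  have g : ∀ A, G2.Ok A → ∀ L ∈ A, Good (nat_lit 33300) (nat_lit 34533) (nat_lit 58601) (nat_lit 600) (nat_lit 33) (nat_lit 192) T (nat_lit 11418) L :=
    fun A ⟨b, l0, l1, l2, l3, l4, l5, l6, l7, l8, l9, l10, l11, l12, l13, l14, l15, l16⟩ => hRG.good p b (hRG.app (hRG.rng p b e0 (Fx.sc2_go s0) l0)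
      (hRG.app (hRG.rng p b e1 (Fx.sc2_go s1) l1)
      (hRG.app (hRG.rng p b e2 (Fx.sc2_go s2) l2)
      (hRG.app (hRG.rng p b e3 (Fx.sc2_go s3) l3)
      (hRG.app (hRG.rng p b e4 (Fx.sc2_go s4) l4)
      (hRG.app (hRG.rng p b e5 (Fx.sc2_go s5) l5)
      (hRG.app (hRG.rng p b e6 (Fx.sc2_go s6) l6)
      (hRG.app (hRG.rng p b e7 (Fx.sc2_go s7) l7)
      (hRG.app (hRG.rng p b e8 (Fx.sc2_go s8) l8)
      (hRG.app (hRG.rng p b e9 (Fx.sc2_go s9) l9)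
      (hRG.app (hRG.rng p b e10 (Fx.sc2_go s10) l10)
      (hRG.app (hRG.rng p b e11 (Fx.sc2_go s11) l11)
      (hRG.app (hRG.rng p b e12 (Fx.sc2_go s12) l12)
      (hRG.app (hRG.rng p b e13 (Fx.sc2_go s13) l13)
      (hRG.app (hRG.rng p b e14 (Fx.sc2_go s14) l14)
      (hRG.app (hRG.rng p b e15 (Fx.sc2_go s15) l15)
      (hRG.rng p b e16 (Fx.sc2_go s16) l16)))))))))))))))))
  exact (hWB G2.x0.1 (g _ G2.x0.2))

theorem bG3 : Box (Good (nat_lit 33300) (nat_lit 35767) (nat_lit 60621) (nat_lit 600) (nat_lit 33) (nat_lit 192) T (nat_lit 11418)) (nat_lit 60621) 0 160 240 320 := by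
  obtain ⟨p, s0, s1, s2, s3, s4, s5, s6, s7, s8, s9, s10, s11, s12, s13, s14, s15, s16⟩ := G3.s_ok
  obtain ⟨e0, e1, e2, e3, e4, e5, e6, e7, e8, e9, e10, e11, e12, e13, e14, e15, e16⟩ := Hg.geo_ok
  have g : ∀ A, G3.Ok A → ∀ L ∈ A, Good (nat_lit 33300) (nat_lit 35767) (nat_lit 60621) (nat_lit 600) (nat_lit 33) (nat_lit 192) T (nat_lit 11418) L :=
    fun A ⟨b, l0, l1, l2, l3, l4, l5, l6, l7, l8, l9, l10, l11, l12, l13, l14, l15, l16⟩ => hRG.good p b (hRG.app (hRG.rng p b e0 (Fx.sc2_go s0) l0)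
      (hRG.app (hRG.rng p b e1 (Fx.sc2_go s1) l1)
      (hRG.app (hRG.rng p b e2 (Fx.sc2_go s2) l2)
      (hRG.app (hRG.rng p b e3 (Fx.sc2_go s3) l3)
      (hRG.app (hRG.rng p b e4 (Fx.sc2_go s4) l4)
      (hRG.app (hRG.rng p b e5 (Fx.sc2_go s5) l5)
      (hRG.app (hRG.rng p b e6 (Fx.sc2_go s6) l6)
      (hRG.app (hRG.rng p b e7 (Fx.sc2_go s7) l7)
      (hRG.app (hRG.rng p b e8 (Fx.sc2_go s8) l8)
      (hRG.app (hRG.rng p b e9 (Fx.sc2_go s9) l9)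
      (hRG.app (hRG.rng p b e10 (Fx.sc2_go s10) l10)
      (hRG.app (hRG.rng p b e11 (Fx.sc2_go s11) l11)
      (hRG.app (hRG.rng p b e12 (Fx.sc2_go s12) l12)
      (hRG.app (hRG.rng p b e13 (Fx.sc2_go s13) l13)
      (hRG.app (hRG.rng p b e14 (Fx.sc2_go s14) l14)
      (hRG.app (hRG.rng p b e15 (Fx.sc2_go s15) l15)
      (hRG.rng p b e16 (Fx.sc2_go s16) l16)))))))))))))))))
  exact (hWB G3.x0.1 (g _ G3.x0.2))

theorem cl (h : LP.Many2 G 10069 8999) : Cl 33300 60621 :=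
  ((Cl.grp h mc G1.s_ok.1 bG1 (by decide)).app
    ((Cl.grp h mc G2.s_ok.1 bG2 (by decide)).app
    (Cl.grp h mc G3.s_ok.1 bG3 (by decide)) (by decide)) (by decide))

end Pool.Agent.MP_1037db_co.PT.Kg
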