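import Pool.Agent.MP_1037db_co.PT.Chk

/-! The table against the cells: the four corners of a cell at once. -/

namespace Pool.Agent.MP_1037db_co.PT.Fx

open Nat (add mul sub land lor shiftRight shiftLeft ble beq div mod)

noncomputable section

def O9 : Nat := on (nat_lit 960) (nat_lit 4)
def G9 : Nat := mul O9 (nat_lit 1125899906842624)
def H9 : Nat := mul O9 H5
def X9 : Nat := mul O9 (nat_lit 65535)
def C9 : Nat := mul O9 (add (mul O5 (nat_lit 14680064)) (mul RN (nat_lit 114688)))
def D9 : Nat := mul O9 (sub (mul O5 (nat_lit 2097152)) (mul RN (nat_lit 16384)))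
def S9 : Nat := add (add (nat_lit 1) (shiftLeft (nat_lit 1) (nat_lit 944))) (add (shiftLeft (nat_lit 1) (nat_lit 1888)) (shiftLeft (nat_lit 1) (nat_lit 2832)))
def Y9 : Nat := mul O9 (nat_lit 1048575)
def Z9 : Nat := mul O9 (nat_lit 131071)
def U9 : Nat := mul O9 (nat_lit 65536)
def q4 (a b c d : Nat) : Nat := add (add a (shiftLeft b (nat_lit 960))) (shiftLeft (add c (shiftLeft d (nat_lit 960))) (nat_lit 1920))
def xa (Bl T k : Nat) : Nat := mul O9 (add (mul (row T k) (mul Bl (nat_lit 917504))) H5)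
def xd (Bl T k : Nat) : Nat := mul (dl T k) (mul Bl (nat_lit 896))
def xe (Bl T k : Nat) : Nat := mul O9 (mul (dl T k) (mul (mul Bl (nat_lit 917504)) k))
def xl (Bl D T k : Nat) : Nat := add (xa Bl T k) (mul O9 (mul (xd Bl T k) (sub (mul k (nat_lit 1024)) D)))
def m8 (k : Nat) : Nat := add (mul O9 (mul (land (mul k (on (nat_lit 63) (nat_lit 15))) O5) (nat_lit 1099511627775))) (nat_lit 1)
def m9 (g i : Nat) : Nat := Nat.rec (nat_lit 0) (fun k _ => m8 k) (add (land (shiftRight g i) (nat_lit 32767)) (nat_lit 1))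
def pa (g a b i : Nat) : Nat :=
  add (mul a (land (shiftRight g (add (mul i (nat_lit 64)) (nat_lit 252))) (nat_lit 4095))) (mul b (land (shiftRight g (add (mul i (nat_lit 64)) (nat_lit 264))) (nat_lit 4095)))
def pb (g i : Nat) : Nat := add (land (shiftRight g (add (mul i (nat_lit 64)) (nat_lit 224))) (nat_lit 268435455)) (nat_lit 1125899906842624)
def pd (g i : Nat) : Nat := land (shiftRight g (add (mul i (nat_lit 64)) (nat_lit 276))) (nat_lit 4095)
def f1 (g a b w x : Nat) : Bool :=
  Nat.rec true (fun i ih => Bool.rec false ih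
    (beq (land (sub (mul O9 (sub (pb g i) (mul (pd g i) w))) (add x (pa g a b i))) G9) G9)) (land (shiftRight g (nat_lit 16)) (nat_lit 15))
def f2 (Bl T V x l n : Nat) : Bool :=
  Nat.rec true (fun i ih => Nat.rec false (fun k _ => Bool.rec false ih
    (beq (land (sub (add (xa Bl T k) (mul x (xd Bl T k))) (add V (xe Bl T k))) H9) H9)) (add (add l i) (nat_lit 1))) n
def lo (D l : Nat) : Nat := mul O9 (add (add (mul l (nat_lit 1024)) D) (nat_lit 1))
def nk (D K j u : Nat) : Bool := orr (ble K u) (lt (mul (add j (nat_lit 1)) D) (mul u (nat_lit 1024)))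
def fz (Bl D K T j g l u n w a b x V : Nat) : Bool :=
  Bool.rec false (Bool.rec false (Bool.rec false
    (Bool.rec (beq (land (sub (xl Bl D T u) (add V (xe Bl T u))) H9) H9) true (nk D K j u))
    (f2 Bl T V x l n))
    (Bool.rec (beq (land (sub (add x G9) (lo D l)) G9) G9) true (beq l (nat_lit 0))))
    (f1 g a b w (mul x (nat_lit 256)))
def xv (g e : Nat) : Nat := add (land (mul (land (shiftRight g e) (nat_lit 18446744073709551615)) S9) X9) (nat_lit 1)
def vx (m1 m2 m3 P : Nat) : Nat := add (add (land P m1) (mul (land P m2) (nat_lit 2))) (mul (land P m3) (nat_lit 4))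
def fy (B0 Bl D K T j g l u n a b P m1 m2 m3 m4 Z w e : Nat) : Bool :=
  Bool.rec false (Nat.rec false (fun x _ => Nat.rec false (fun y _ => Nat.rec false (fun v _ =>
      Nat.rec false (fun V _ => fz Bl D K T j g l u n w a b x V)
        (add (mul (add (land C9 m4) (sub v (land v m4))) B0) (nat_lit 1)))
      (add (sub (add P (mul y (nat_lit 7))) (add (add (land y m1) (mul (land y m2) (nat_lit 2))) (mul (land y m3) (nat_lit 4)))) (nat_lit 1)))
      (add (add D9 (mul (add (land (shiftRight Z (nat_lit 14)) Y9) O9) RN)) (nat_lit 1))) (xv g e))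
    (beq (land (shiftRight Z (nat_lit 34)) Z9) U9)
def fh (B0 Bl D K T j g l u n a b P m1 m2 m3 m4 E al ga w : Nat) : Bool :=
  Bool.rec false (Nat.rec false (fun w1 _ =>
      fy B0 Bl D K T j g l u n a b P m1 m2 m3 m4 (sub (add E (mul al w1)) (mul ga w1)) w1 (nat_lit 160)) (add (bt w (nat_lit 16) (nat_lit 65535)) (nat_lit 1)))
    (Nat.rec false (fun w0 _ =>
      fy B0 Bl D K T j g l u n a b P m1 m2 m3 m4 (sub (add E (mul al w0)) (mul ga w0)) w0 (nat_lit 96)) (add (land w (nat_lit 65535)) (nat_lit 1)))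
def fg (B0 Bl B D K T j a b P al be ga w g : Nat) : Bool :=
  Nat.rec false (fun l _ => Nat.rec false (fun u _ => Nat.rec false (fun m1 _ => Nat.rec false (fun m2 _ =>
    Nat.rec false (fun m3 _ => Nat.rec false (fun m4 _ => Bool.rec false
      (fh B0 Bl D K T j g l u (sub (mn u K) l) a b (vx m1 m2 m3 P) m1 m2 m3 m4 (add B (mul be (bt w (nat_lit 32) (nat_lit 65535)))) al ga w)
      (ble (nat_lit 1) (bt w (nat_lit 16) (nat_lit 65535)))) (m9 g (nat_lit 80))) (m9 g (nat_lit 64))) (m9 g (nat_lit 48))) (m9 g (nat_lit 32)))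
    (add (land (shiftRight g (nat_lit 8)) (nat_lit 255)) (nat_lit 1))) (add (land g (nat_lit 255)) (nat_lit 1))
def f0 (B0 Bl D K T j a b P g : Nat) : Bool :=
  fb (land g (nat_lit 255)) fun l => fb (bt g (nat_lit 8) (nat_lit 255)) fun u => Nat.rec false (fun m4 _ => Nat.rec false (fun x _ =>
    fb (mul (add (land C9 m4) (sub (mul P (nat_lit 896)) (land (mul P (nat_lit 896)) m4))) B0) fun V =>
      fz Bl D K T j g l u (sub (mn u K) l) (nat_lit 0) a b x V) (xv g (nat_lit 96))) (m9 g (nat_lit 80))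
def yb (c d a b : Nat) : Nat :=
  add (shiftRight (add (sub (add (mul b (add c (nat_lit 2))) (mul a (nat_lit 1048576))) (add (mul a d) (mul b (nat_lit 1048576))))
    (sub (add (mul a (add d (nat_lit 2))) (mul b (nat_lit 1048576))) (add (mul b c) (mul a (nat_lit 1048576))))) (nat_lit 20)) (nat_lit 1)
def yg (c d a b : Nat) : Nat := shiftRight (add (mul a c) (mul b d)) (nat_lit 20)
def f4 (B0 Bl B D K T : Nat) (W : List Nat) (j p q y z y' z' m a b P : Nat) (d : List Nat) : Bool :=
  an (ble m j) (fb (ch (sub (nat_lit 1200) (mul (sub j m) (nat_lit 2)))) fun c1 => fb (ch (sub (nat_lit 1200) (mul m (nat_lit 2)))) fun c2 =>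
    fb (ch (mul m (nat_lit 2))) fun c3 => fb (ch (mul (sub j m) (nat_lit 2))) fun c4 =>
    fb (q4 (add p y) (add p y') (add q z) (add q z')) fun al =>
    fb (q4 (yb c1 c2 p y) (yb c1 c2 p y') (yb c1 c2 q z) (yb c1 c2 q z')) fun be =>
    fb (q4 (yg c3 c4 p y) (yg c3 c4 p y') (yg c3 c4 q z) (yg c3 c4 q z')) fun ga => fb (mul P (nat_lit 128)) fun P' =>
      sw (fun w g => fb g fun g => fg B0 Bl B D K T j a b P' al be ga w g) W d)
def f5 (B0 Bl B D K T : Nat) (W : List Nat) (j p q y z c g : Nat) (d : List Nat) : Bool :=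
  an (ble (lor (lor p q) (lor y z)) (nat_lit 65535)) (fb (land c (nat_lit 65535)) fun y' => fb (bt c (nat_lit 16) (nat_lit 65535)) fun z' =>
    fb (q4 (ou p) (ou p) (ou q) (ou q)) fun a => fb (q4 (ou y) (ou y') (ou z) (ou z')) fun b =>
    fb (q4 (bt c (nat_lit 64) M5) (bt c (nat_lit 80) M5) (bt c (nat_lit 96) M5) (bt c (nat_lit 112) M5)) fun P =>
      an (f0 B0 Bl D K T j a b P g) (orr (emp d) (fb (bt c (nat_lit 32) (nat_lit 255)) fun m => f4 B0 Bl B D K T W j p q y z y' z' m a b P d)))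
def fC (B0 Bl B D K T : Nat) (W : List Nat) (B1 B2 j p q y z c : Nat) (d : List Nat) : Bool :=
  List.rec true (fun g t _ => Bool.rec (scC B0 Bl B D K T W j p q y z c d) true
    (fb p fun p => fb q fun q => fb y fun y => fb z fun z => f5 B1 Bl B2 D K T W j p q y z c g t)) d
/-- the same check as `scas` -/
def sc2 (B0 Bl B D K T : Nat) (W : List Nat) (G : List (List (List Nat)))
    (E : List (List (List (List Nat)))) (j : Nat) : Bool :=
  an (an (an (ble B0 (nat_lit 65535)) (ble Bl (nat_lit 65535))) (an (ble B (nat_lit 1048575)) (an (ble D (nat_lit 1023)) (ble K (nat_lit 59)))))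
    (fb (mul B0 (nat_lit 1024)) fun B1 => fb (mul O9 (add (mul B (nat_lit 16384)) (nat_lit 1125899906842624))) fun B2 =>
      rng (fun j ss ds => fb j fun j => strips (fC B0 Bl B D K T W B1 B2 j) ss ds (nat_lit 16384)) G E j)

end

end Pool.Agent.MP_1037db_co.PT.Fx
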