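import Pool.Agent.MP_1037db_co.PT.SA
import Pool.Agent.MP_1037db_co.PT.Fx

set_option exponentiation.threshold 4000
set_option linter.unusedVariables false
set_option maxRecDepth 20000

/-! The check of four corners at once implies the four checks. -/

namespace Pool.Agent.MP_1037db_co.PT.Fx

noncomputable section

abbrev R4 (x : ℕ) (f : ℕ → ℕ) : Prop := Rep 960 4 x f

theorem ri {a b : Bool} (h : (Bool.rec false b a : Bool) = true) : a = true ∧ b = true := by
  cases a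
  exacts [Bool.noConfusion h, ⟨rfl, h⟩]

theorem ro {a b : Bool} (h : (Bool.rec b true a : Bool) = true) : a = true ∨ b = true := by
  cases a
  exacts [.inr h, .inl rfl]

theorem frc {f : ℕ → Bool → Bool} {t : ℕ} (h : Nat.rec (motive := fun _ => Bool) false f t = true) :
    ∃ r b, t = r + 1 ∧ f r b = true := by
  cases t with
  | zero => exact Bool.noConfusion h
  | succ r => exact ⟨r, _, rfl, h⟩

theorem frp {f : ℕ → Bool → Bool} {x : ℕ}
    (h : Nat.rec (motive := fun _ => Bool) false f (Nat.add x (nat_lit 1)) = true) : ∃ b, f x b = true := ⟨_, h⟩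

theorem alr {f : ℕ → Bool → Bool} {P : ℕ → Prop} (hf : ∀ i b, f i b = true → P i ∧ b = true) :
    ∀ n, Nat.rec (motive := fun _ => Bool) true f n = true → ∀ i < n, P i := by
  intro n
  induction n with
  | zero => exact fun _ _ h => absurd h (Nat.not_lt_zero _)
  | succ n ih =>
    intro h i hi
    obtain ⟨a, b⟩ := hf _ _ h
    exact (Nat.lt_succ_iff_lt_or_eq.1 hi).elim (ih b i) fun e => e ▸ a

theorem fbe (n : ℕ) (f : ℕ → Bool) : fb n f = f n := (fb_eq n f).trans rfl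

theorem ml {a b A B : ℕ} (h : a ≤ A) (h' : b ≤ B) : a * b ≤ A * B := Nat.mul_le_mul h h'

theorem r1 : R4 O9 fun _ => 1 := t_LA.on 960 4 (by norm_num)

theorem cst {c : ℕ} (h : c < 2 ^ 960) : R4 (O9 * c) fun _ => c :=
  (t_LA.mul c r1 fun _ _ => by rwa [one_mul]).congr fun _ _ => one_mul c

theorem one {a : ℕ} (h : a < 2 ^ 960) : Rep 960 1 a fun _ => a :=
  ⟨h, fun k hk => by
    obtain rfl : k = 0 := by omega
    rw [la, Nat.mul_zero, pow_zero, Nat.div_one, Nat.mod_eq_of_lt h]⟩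

theorem rq (f : ℕ → ℕ) (h : ∀ i < 4, f i < 2 ^ 960) : R4 (q4 (f 0) (f 1) (f 2) (f 3)) f :=
  (t_LA.app (t_LA.app (one (h 0 (by norm_num))) (one (h 1 (by norm_num))))
    (t_LA.app (one (h 2 (by norm_num))) (one (h 3 (by norm_num))))).congr fun k hk => by
      have : k < 4 := hk
      interval_cases k <;> rfl

theorem lnd {x y : ℕ} {f g : ℕ → ℕ} (hx : R4 x f) (hy : R4 y g) : R4 (x &&& y) fun i => f i &&& g i :=
  (t_LB.land x hy).congr fun i hi => by rw [hx.eq i hi]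

theorem tst {X Y M : ℕ} {f g : ℕ → ℕ} (hX : R4 X f) (hY : R4 Y g) (hle : ∀ i < 4, g i ≤ f i) (hM : M < 2 ^ 960)
    (h : (X - Y) &&& (O9 * M) = O9 * M) : ∀ i < 4, (f i - g i) &&& M = M := fun i hi => by
  have a := (lnd (t_LA.sub hX hY hle) (cst hM)).eq i hi
  rw [h, (cst hM).eq i hi] at a
  exact a.symm

theorem gd {x M : ℕ} (h : x &&& M = M) : M ≤ x := h ▸ Nat.and_le_left

theorem nM : M5 ≤ 2 ^ 912 := by decide +kernel
theorem nH : 2 ^ 959 ≤ H5 ∧ H5 ≤ 2 ^ 959 + 2 ^ 896 := by decide +kernel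
theorem nR : RN ≤ 2 ^ 904 := by decide +kernel
theorem nO : O5 ≤ 2 ^ 897 := by decide +kernel

variable {B0 Bl B D K T j g l u n w a b x V P k : ℕ} {fa fb' fx fV fP : ℕ → ℕ}

theorem row_le : row T k ≤ 2 ^ 912 := (bt_le _ _ _).trans nM

theorem dl_le : dl T k ≤ 2 ^ 912 := (Nat.sub_le _ _).trans row_le

theorem tk_go (hB : Bl ≤ 65535) (hk : k ≤ 59) (hV : R4 V fV) (bV : ∀ i < 4, fV i ≤ 2 ^ 957) {X : ℕ}
    (hX : R4 X fun i => fx i * xd Bl T k) (bx : ∀ i < 4, fx i ≤ 65535)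
    (h : (xa Bl T k + X - (V + xe Bl T k)) &&& H9 = H9) : ∀ i < 4, tk Bl T (fV i) k (fx i) = true := fun i hi => by
  have a1 := ml (row_le (T := T) (k := k)) (ml hB (le_refl 917504))
  have a2 : xd Bl T k ≤ _ := ml (dl_le (T := T) (k := k)) (ml hB (le_refl 896))
  have a3 := ml (dl_le (T := T) (k := k)) (ml (ml hB (le_refl 917504)) hk)
  have a4 := fun i hi => ml (bx i hi) a2
  have := nH
  have e := tst (t_LA.add (cst (c := row T k * (Bl * 917504) + H5) (by omega)) hX fun i hi => by have := a4 i hi; omega)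
    (t_LA.add hV (cst (c := dl T k * (Bl * 917504 * k)) (by omega)) fun i hi => by have := bV i hi; omega)
    (fun i hi => by have := bV i hi; omega) (M := H5) (by omega) h i hi
  simp only [tk, ge, fl, Nat.beq_eq, Nat.add_eq, Nat.mul_eq, Nat.sub_eq, Nat.land_eq]
  refine Eq.trans (congrArg (· &&& H5) ?_) e
  congr 1
  simp only [xd, Nat.mul_eq]
  ring

theorem f2_go (hB : Bl ≤ 65535) (hV : R4 V fV) (bV : ∀ i < 4, fV i ≤ 2 ^ 957) (hx : R4 x fx)
    (bx : ∀ i < 4, fx i ≤ 65535) (hn : l + n ≤ 59 ∨ n = 0) :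
    f2 Bl T V x l n = true → ∀ t < n, ∀ i < 4, tk Bl T (fV i) (l + t) (fx i) = true := by
  delta f2
  have hb := And.intro @Nat.eq_of_beq_eq_true @Nat.add_eq
  generalize Nat.beq = bq, Nat.add = ad at hb ⊢
  as_aux_lemma =>
    intro h t ht
    refine alr (P := fun t => l + t ≤ 59 → ∀ i < 4, tk Bl T (fV i) (l + t) (fx i) = true) (fun t c h => ?_) n h t ht
      (by omega)
    obtain ⟨k, _, e, h⟩ := frc h
    obtain rfl : l + t = k := by rw [hb.2, hb.2] at e; exact Nat.succ.inj e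
    have e := hb.1 (ri h).1
    rw [hb.2, hb.2] at e
    exact ⟨fun hk => tk_go hB hk hV bV (t_LA.mul _ hx fun i hi => by
      have := ml (bx i hi) (ml (dl_le (T := T) (k := l + t)) (ml hB (le_refl 896)))
      exact lt_of_le_of_lt this (by norm_num)) bx e, (ri h).2⟩

theorem pa_eq : pa g a b k = a * bt g (k * 64 + 252) 4095 + b * bt g (k * 64 + 264) 4095 := rfl

theorem pb_eq : pb g k = bt g (k * 64 + 224) 268435455 + 1125899906842624 := rfl

theorem pd_eq : pd g k = bt g (k * 64 + 276) 4095 := rfl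

theorem g9_eq : G9 = O9 * 1125899906842624 := rfl

theorem f1_go (ha : R4 a fa) (hb' : R4 b fb') (hx : R4 x fun i => fx i * 256) (ba : ∀ i < 4, fa i ≤ 2 ^ 29)
    (bb : ∀ i < 4, fb' i ≤ 2 ^ 29) (bx : ∀ i < 4, fx i ≤ 65535) (hw : w ≤ 65535) :
    f1 g a b w x = true → ∀ i < 4, pc g (fa i) (fb' i) w (fx i) = true := by
  delta f1
  have hb := And.intro @Nat.eq_of_beq_eq_true (show bt g 16 15 = Nat.land (Nat.shiftRight g (nat_lit 16)) (nat_lit 15) from rfl)
  generalize Nat.beq = bq, Nat.land (Nat.shiftRight g (nat_lit 16)) (nat_lit 15) = n at hb ⊢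
  as_aux_lemma =>
    intro h i hi
    simp only [pc, al_iff, Nat.ble_eq, Nat.add_eq, Nat.mul_eq, Nat.mul_comm _ (fa i), Nat.mul_comm _ (fb' i)]
    rw [hb.2]
    refine alr (fun t c h => ⟨?_, (ri h).2⟩) n h
    have c1 := bt_le g (t * 64 + 252) 4095
    have c2 := bt_le g (t * 64 + 264) 4095
    have c3 := ml (bt_le g (t * 64 + 276) 4095) hw
    have c4 := bt_le g (t * 64 + 224) 268435455
    have d1 := fun i hi => ml (ba i hi) c1
    have d2 := fun i hi => ml (bb i hi) c2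
    have e0 : (O9 * (bt g (t * 64 + 224) 268435455 + 1125899906842624 - bt g (t * 64 + 276) 4095 * w) -
        (x + (a * bt g (t * 64 + 252) 4095 + b * bt g (t * 64 + 264) 4095))) &&& (O9 * 1125899906842624) = O9 * 1125899906842624 := by
      have := hb.1 (ri h).1
      rw [pa_eq, pb_eq, pd_eq, g9_eq] at this
      exact this
    have e := gd (tst (cst (by omega))
      (t_LA.add hx (t_LA.add (t_LA.mul (bt g (t * 64 + 252) 4095) ha fun i hi => by have := d1 i hi; omega)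
        (t_LA.mul (bt g (t * 64 + 264) 4095) hb' fun i hi => by have := d2 i hi; omega)
        fun i hi => by have := d1 i hi; have := d2 i hi; omega)
        fun i hi => by have := d1 i hi; have := d2 i hi; have := bx i hi; omega)
      (fun i hi => by have := d1 i hi; have := d2 i hi; have := bx i hi; omega) (by norm_num) e0 i hi)
    omega

theorem fz_go (hB : Bl ≤ 65535) (hD : D ≤ 1023) (hK : K ≤ 59) (ha : R4 a fa) (hb' : R4 b fb') (hx : R4 x fx)
    (hV : R4 V fV) (ba : ∀ i < 4, fa i ≤ 2 ^ 29) (bb : ∀ i < 4, fb' i ≤ 2 ^ 29) (bx : ∀ i < 4, fx i ≤ 65535)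
    (bV : ∀ i < 4, fV i ≤ 2 ^ 957) (hw : w ≤ 65535) (hl : l = bt g 0 255) (hu : u = bt g 8 255) (hn : n = min u K - l) :
    fz Bl D K T j g l u n w a b x V = true →
      ∀ i < 4, pc g (fa i) (fb' i) w (fx i) = true ∧ s3 Bl D K T j g (fV i) (fx i) = true := by
  delta fz
  have hb := @Nat.eq_of_beq_eq_true
  generalize Nat.beq = bq at hb ⊢
  as_aux_lemma =>
    intro h i hi
    obtain ⟨h1, h⟩ := ri h
    obtain ⟨h2, h⟩ := ri h
    obtain ⟨h3, h4⟩ := ri h
    have bl : l ≤ 255 := hl ▸ bt_le _ _ _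
    refine ⟨f1_go ha hb' (t_LA.mul 256 hx fun i hi => by have := bx i hi; omega) ba bb bx hw h1 i hi, ?_⟩
    simp only [s3, an_iff, orr_iff, al_iff, fbe, lt_iff, mn_eq, Nat.beq_eq, Nat.ble_eq, Nat.add_eq, Nat.mul_eq,
      Nat.sub_eq, ← hl, ← hu, ← hn]
    refine ⟨(ro h2).imp hb fun e => ?_, fun t ht => f2_go hB hV bV hx bx (by omega) h3 t ht i hi, ?_⟩
    · have := gd (tst (t_LA.add hx (cst (c := 1125899906842624) (by norm_num)) fun i hi => by have := bx i hi; omega)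
        (cst (c := l * 1024 + D + 1) (by omega)) (fun i hi => by omega) (M := 1125899906842624) (by norm_num) (hb e) i hi)
      omega
    by_cases c : K ≤ u
    · exact .inl (.inl c)
    refine (ro h4).imp (fun e => by simpa only [nk, orr_iff, lt_iff, Nat.ble_eq, Nat.add_eq, Nat.mul_eq] using e) fun e => ?_
    refine tk_go (fx := fun _ => u * 1024 - D) hB (by omega) hV bV ((cst (c := xd Bl T u * (u * 1024 - D)) ?_).congr
      fun _ _ => Nat.mul_comm _ _) (fun _ _ => by omega) (hb e) i hi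
    exact lt_of_le_of_lt (ml (ml (dl_le (T := T) (k := u)) (ml hB (le_refl 896))) (show u * 1024 - D ≤ 65535 by omega)) (by norm_num)

theorem xv_go {e : ℕ} (h : xv g e = x + 1) : R4 x fun i => bt g (i * 16 + e) 65535 := by
  obtain rfl : (bt g e 18446744073709551615 * S9) &&& (O9 * 65535) = x := Nat.succ.inj h
  refine (t_LB.land _ (cst (c := 65535) (by norm_num))).congr fun i hi => ?_
  have s : S9 = 1 + 2 ^ 944 + (2 ^ 1888 + 2 ^ 2832) := by decide +kernel
  have e1 : bt g (i * 16 + e) 65535 = _ := bt_eq g _ 16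
  have e2 : bt g e 18446744073709551615 = _ := bt_eq g e 64
  rw [e1, e2, s, la, show 65535 = 2 ^ 16 - 1 from rfl, Nat.and_two_pow_sub_one_eq_mod, Nat.add_comm _ e, pow_add,
    ← Nat.div_div_eq_div_mul]
  generalize g / 2 ^ e = t
  clear e1 e2 s h
  have hu : t % 2 ^ 64 < 2 ^ 64 := Nat.mod_lt _ (by norm_num)
  have k : ∀ c, t % 2 ^ 64 * (1 + 2 ^ 944 + (2 ^ 1888 + 2 ^ 2832)) / 2 ^ (960 * i) =
      t % 2 ^ 64 / 2 ^ (i * 16) + 2 ^ 16 * c → t % 2 ^ 64 * (1 + 2 ^ 944 + (2 ^ 1888 + 2 ^ 2832)) / 2 ^ (960 * i) %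
        2 ^ 960 % 2 ^ 16 = t / 2 ^ (i * 16) % 2 ^ 16 := fun c e => by
    rw [e, Nat.mod_mod_of_dvd _ (pow_dvd_pow 2 (by norm_num)), Nat.add_mul_mod_self_left]
    clear e
    interval_cases i <;> omega
  refine k (t % 2 ^ 64 * [2 ^ 928 + 2 ^ 1872 + 2 ^ 2816, 2 ^ 912 + 2 ^ 1856, 2 ^ 896, 0].getD i 0) ?_
  clear k
  generalize t % 2 ^ 64 = v at hu
  interval_cases i <;> simp only [List.getD_cons_zero, List.getD_cons_succ] <;> omega

theorem m9_go {i m : ℕ} (h : m9 g i = m + 1) : R4 m fun _ => mk g i := by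
  obtain rfl : O9 * mk g i = m := Nat.succ.inj h
  have : mk g i ≤ _ := ml (Nat.and_le_right.trans nO) (le_refl 1099511627775)
  exact cst (by omega)

theorem sl_le {M y : ℕ} : sl M x y ≤ x + y := Nat.add_le_add Nat.and_le_left (Nat.sub_le _ _)

theorem c9 : R4 C9 fun _ => O5 * 14680064 + RN * 114688 :=
  cst (c := O5 * 14680064 + RN * 114688) (by have := nO; have := nR; omega)

theorem v_go {m v : ℕ} {f : ℕ → ℕ} (hB : B0 ≤ 65535) (hm : R4 m fun _ => mk g 80) (hv : R4 v f) (bv : ∀ i < 4, f i ≤ 2 ^ 930) :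
    R4 (((C9 &&& m) + (v - (v &&& m))) * (B0 * 1024))
      (fun i => sl (mk g 80) (O5 * 14680064 + RN * 114688) (f i) * (B0 * 1024)) ∧
    ∀ i < 4, sl (mk g 80) (O5 * 14680064 + RN * 114688) (f i) * (B0 * 1024) ≤ 2 ^ 957 := by
  have b1 : ∀ i < 4, sl (mk g 80) (O5 * 14680064 + RN * 114688) (f i) ≤ 2 ^ 931 := fun i hi =>
    sl_le.trans (by have := nO; have := nR; have := bv i hi; omega)
  have b2 := fun i hi => (ml (b1 i hi) (ml hB (le_refl 1024))).trans (show _ ≤ 2 ^ 957 by norm_num)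
  exact ⟨t_LA.mul _ (t_LA.add (lnd c9 hm) (t_LA.sub hv (lnd hv hm) fun _ _ => Nat.and_le_left)
    fun i hi => lt_of_le_of_lt (b1 i hi) (by norm_num)) fun i hi => lt_of_le_of_lt (b2 i hi) (by norm_num), b2⟩

theorem vx_go {m1 m2 m3 : ℕ} (h1 : R4 m1 fun _ => mk g 32) (h2 : R4 m2 fun _ => mk g 48) (h3 : R4 m3 fun _ => mk g 64)
    (hP : R4 P fP) (bP : ∀ i < 4, fP i ≤ 2 ^ 926) :
    R4 (vx m1 m2 m3 P) fun i => (fP i &&& mk g 32) + (fP i &&& mk g 48) * 2 + (fP i &&& mk g 64) * 4 := by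
  have c := fun i hi M => (Nat.and_le_left (n := fP i) (m := M)).trans (bP i hi)
  exact t_LA.add (t_LA.add (lnd hP h1) (t_LA.mul 2 (lnd hP h2) fun i hi => by have := c i hi (mk g 48); omega)
    fun i hi => by have := c i hi (mk g 48); have := c i hi (mk g 32); omega)
    (t_LA.mul 4 (lnd hP h3) fun i hi => by have := c i hi (mk g 64); omega)
    fun i hi => by have := c i hi (mk g 48); have := c i hi (mk g 32); have := c i hi (mk g 64); omega

/-- the data of the four corners -/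
structure Cn (g l u n K a b : ℕ) (fa fb' : ℕ → ℕ) : Prop where
  ra : R4 a fa
  rb : R4 b fb'
  ba : ∀ i < 4, fa i ≤ 2 ^ 29
  bb : ∀ i < 4, fb' i ≤ 2 ^ 29
  el : l = bt g 0 255
  eu : u = bt g 8 255
  en : n = min u K - l

theorem fy_go {m1 m2 m3 m4 Z e : ℕ} {fZ fY fW : ℕ → ℕ} (hB0 : B0 ≤ 65535) (hB : Bl ≤ 65535) (hD : D ≤ 1023) (hK : K ≤ 59)
    (c : Cn g l u n K a b fa fb') (h1 : R4 m1 fun _ => mk g 32) (h2 : R4 m2 fun _ => mk g 48)
    (h3 : R4 m3 fun _ => mk g 64) (h4 : R4 m4 fun _ => mk g 80) (hP : R4 P fP) (bP : ∀ i < 4, fP i ≤ 2 ^ 926)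
    (hZ : R4 Z fW) (bZ : ∀ i < 4, fW i < 2251799813685248 ∧ (1125899906842624 ≤ fW i → fW i = 1125899906842624 + fZ i)) (hw : w ≤ 65535)
    (hY : ∀ i, fY i = O5 * 2097152 - RN * 16384 + RN * (fZ i / 16384 + 1)) :
    fy (B0 * 1024) Bl D K T j g l u n a b (vx m1 m2 m3 P) m1 m2 m3 m4 Z w e = true → ∀ i < 4,
      fZ i / 16384 + 1 ≤ 1048576 ∧ pc g (fa i) (fb' i) w (bt g (i * 16 + e) 65535) = true ∧
      s3 Bl D K T j g (sl (mk g 80) (O5 * 14680064 + RN * 114688)
        (v7 g (fP i) (fY i)) * (B0 * 1024)) (bt g (i * 16 + e) 65535) = true := by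
  delta fy
  have hb := And.intro @Nat.eq_of_beq_eq_true (And.intro (@xv_go g) @Nat.add_eq)
  generalize Nat.beq = bq, xv g = xg, Nat.add = ad at hb ⊢
  as_aux_lemma =>
    intro h
    obtain ⟨t, h⟩ := ri h
    obtain ⟨x, _, ex, h⟩ := frc h
    obtain ⟨y, _, ey, h⟩ := frc h
    obtain ⟨v, _, ev, h⟩ := frc h
    obtain ⟨V, _, eV, h⟩ := frc h
    simp only [hb.2.2, Nat.mul_eq, Nat.sub_eq, Nat.land_eq, Nat.add_right_cancel_iff] at ey ev eV
    have z : ∀ i < 4, fZ i < 2 ^ 34 ∧ fW i = 1125899906842624 + fZ i := fun i hi => by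
      have a := (t_LB.bt (m := 17) Z 34 (by norm_num) (cst (c := 131071) (by norm_num))).eq i hi
      have e : bt Z 34 (O9 * 131071) = O9 * 65536 := hb.1 t
      rw [e, (cst (c := 65536) (by norm_num)).eq i hi, t_LB.get hZ hi (by norm_num)] at a
      have := bZ i hi
      omega
    have y1 : R4 (bt Z 14 (O9 * 1048575)) fun i => fZ i / 16384 :=
      (t_LB.bt (m := 20) Z 14 (by norm_num) (cst (c := 1048575) (by norm_num))).congr fun i hi => by
        rw [t_LB.get hZ hi (by norm_num)]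
        have := z i hi
        omega
    have b1 : ∀ i < 4, fZ i / 16384 + 1 ≤ 1048576 := fun i hi => by have := z i hi; omega
    have b2 := fun i hi => ml (b1 i hi) nR
    have := nO
    have y2 := t_LA.add (cst (c := O5 * 2097152 - RN * 16384) (by omega))
      (t_LA.mul RN (t_LA.add y1 r1 fun i hi => by have := b1 i hi; omega) fun i hi => by have := b2 i hi; omega)
      fun i hi => by have := b2 i hi; omega
    have b3 : ∀ i < 4, fY i ≤ 2 ^ 925 := fun i hi => by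
      have := b2 i hi
      rw [hY, Nat.mul_comm RN (fZ i / 16384 + 1)]
      omega
    have y3 : R4 y fY := (ey ▸ y2 :).congr fun i _ => by rw [hY, Nat.mul_comm RN (fZ i / 16384 + 1)]
    clear y2 b2 hY y1 z this
    have c1 := fun i hi M => (Nat.and_le_left (n := fP i) (m := M)).trans (bP i hi)
    have v1 : R4 v fun i => v7 g (fP i) (fY i) := by
      refine ev ▸ (t_LA.sub (t_LA.add (vx_go h1 h2 h3 hP bP) (t_LA.mul 7 y3 fun i hi => by have := b3 i hi; omega)
        fun i hi => ?_) (vx_go h1 h2 h3 y3 fun i hi => (b3 i hi).trans (by norm_num)) fun i hi => ?_).congr fun i hi => ?_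
      · have := c1 i hi (mk g 32); have := c1 i hi (mk g 48); have := c1 i hi (mk g 64); have := b3 i hi; omega
      all_goals
        try simp only [v7, sl, Nat.add_eq, Nat.mul_eq, Nat.sub_eq, Nat.land_eq]
        have := Nat.and_le_left (n := fY i) (m := mk g 32)
        have := Nat.and_le_left (n := fY i) (m := mk g 48)
        have := Nat.and_le_left (n := fY i) (m := mk g 64)
        omega
    obtain ⟨v2, v3⟩ := v_go hB0 h4 v1 fun i hi => by
      have := b3 i hi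
      have := bP i hi
      have := fun M => sl_le (M := M) (x := fP i) (y := fY i)
      have a1 := this (mk g 32)
      have a2 := this (mk g 48)
      have a3 := this (mk g 64)
      simp only [v7, Nat.add_eq, Nat.mul_eq]
      omega
    exact fun i hi => ⟨b1 i hi, fz_go hB hD hK c.ra c.rb (hb.2.1 ex) (eV ▸ v2) c.ba c.bb (fun _ _ => bt_le _ _ _) v3 hw
      c.el c.eu c.en h i hi⟩

def cx (a b c d i : ℕ) : ℕ := [a, b, c, d].getD i 0

theorem rc {a b c d A : ℕ} (hA : A < 2 ^ 960) (ha : a ≤ A) (hb : b ≤ A) (hc : c ≤ A) (hd : d ≤ A) :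
    R4 (q4 a b c d) (cx a b c d) ∧ ∀ i < 4, cx a b c d i ≤ A := by
  have : ∀ i < 4, cx a b c d i ≤ A := fun i hi => by interval_cases i <;> assumption
  exact ⟨rq (cx a b c d) fun i hi => (this i hi).trans_lt hA, this⟩

variable {p q y z c h s m : ℕ}

theorem s0_of {e : ℕ} (H : ∀ i < 4, s1 B0 Bl B D K T j c g h w s e (cx p p q q i)
    (cx y (bt c 0 65535) z (bt c 16 65535) i) i = true) : s0 B0 Bl B D K T j p q y z c g h w s e = true :=
  an_iff.2 ⟨an_iff.2 ⟨H 0 (by norm_num), H 1 (by norm_num)⟩, an_iff.2 ⟨H 2 (by norm_num), H 3 (by norm_num)⟩⟩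

theorem ou_le : ou a ≤ 2 ^ 29 := by
  have : Nat.div 268435456 a ≤ 268435456 := Nat.div_le_self _ _
  simp only [ou, Nat.add_eq]
  omega

theorem ch_le : ch a ≤ 4294967295 := bt_le _ _ _

theorem yb_le {c d : ℕ} (hc : c ≤ 4294967295) (hd : d ≤ 4294967295) (ha : a ≤ 65535) (hb : b ≤ 65535) :
    yb c d a b ≤ 2 ^ 31 := by
  have := ml hb (Nat.add_le_add_right hc 2)
  have := ml ha (Nat.add_le_add_right hd 2)
  simp only [yb, Nat.add_eq, Nat.mul_eq, Nat.sub_eq, Nat.shiftRight_eq', Nat.shiftRight_eq_div_pow]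
  omega

theorem yg_le {c d : ℕ} (hc : c ≤ 4294967295) (hd : d ≤ 4294967295) (ha : a ≤ 65535) (hb : b ≤ 65535) :
    yg c d a b ≤ 2 ^ 30 := by
  have := ml ha hc
  have := ml hb hd
  simp only [yg, Nat.add_eq, Nat.mul_eq, Nat.shiftRight_eq', Nat.shiftRight_eq_div_pow]
  omega

theorem yv_eq : yv B j m w s a b = (B * 16384 + w * (a + b) + s * yb (ch (1200 - (j - m) * 2)) (ch (1200 - m * 2)) a b -
    w * yg (ch (m * 2)) (ch ((j - m) * 2)) a b) / 16384 + 1 := by
  simp only [yv, yb, yg, Nat.add_eq, Nat.mul_eq, Nat.sub_eq, div_eq]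

/-- the data of a cell -/
structure Ce (c a b P : ℕ) (A A' : ℕ → ℕ) : Prop where
  ra : R4 a fun i => ou (A i)
  rb : R4 b fun i => ou (A' i)
  ba : ∀ i < 4, A i ≤ 65535
  bb : ∀ i < 4, A' i ≤ 65535
  rp : R4 P fun i => bt c (i * 16 + 64) M5

variable {A A' : ℕ → ℕ}

theorem s1_iff {e i : ℕ} : s1 B0 Bl B D K T j c g h w s e a b i = true ↔
    cn (Nat.beq h 0) 0 (yv B j (bt c 32 255) w s a b) ≤ 1048576 ∧ pc g (ou a) (ou b) w (bt g (i * 16 + e) 65535) = true ∧
    s3 Bl D K T j g (vl g h (bt c (i * 16 + 64) M5) (cn (Nat.beq h 0) 0 (yv B j (bt c 32 255) w s a b)) * (B0 * 1024))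
      (bt g (i * 16 + e) 65535) = true := by
  simp only [s1, s2, an_iff, fbe, Nat.ble_eq, and_assoc, Nat.add_eq, Nat.mul_eq]

theorem vl0 {Y : ℕ} : vl g 0 P Y = sl (mk g 80) (O5 * 14680064 + RN * 114688) (P * 896) := by
  simp only [vl, cn_eq, Nat.beq_eq, if_true, Nat.add_eq, Nat.mul_eq]

theorem vl1 {Y : ℕ} (h0 : h ≠ 0) : vl g h P Y = sl (mk g 80) (O5 * 14680064 + RN * 114688)
    (v7 g (P * 128) (O5 * 2097152 - RN * 16384 + RN * Y)) := by
  simp only [vl, cn_eq, Nat.beq_eq, h0, if_false, Nat.add_eq, Nat.mul_eq, Nat.sub_eq]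

theorem f0_go (hB0 : B0 ≤ 65535) (hB : Bl ≤ 65535) (hD : D ≤ 1023) (hK : K ≤ 59) (e : Ce c a b P A A') :
    f0 (B0 * 1024) Bl D K T j a b P g = true → ∀ i < 4, s1 B0 Bl B D K T j c g 0 0 0 96 (A i) (A' i) i = true := by
  delta f0
  have hb := And.intro (@xv_go g) (@m9_go g)
  generalize xv g = xg, m9 g = mg at hb ⊢
  as_aux_lemma =>
    simp only [fbe]
    intro h i hi
    obtain ⟨m4, _, e4, h⟩ := frc h
    obtain ⟨x, _, ex, h⟩ := frc h
    have bP : ∀ i < 4, bt c (i * 16 + 64) M5 * 896 ≤ 2 ^ 930 := fun i _ =>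
      (ml ((bt_le _ _ _).trans nM) (le_refl 896)).trans (by norm_num)
    obtain ⟨v2, v3⟩ := v_go hB0 (hb.2 e4) (t_LA.mul 896 e.rp fun i hi => (bP i hi).trans_lt (by norm_num)) bP
    have := fz_go hB hD hK e.ra e.rb (hb.1 ex) v2 (fun _ _ => ou_le) (fun _ _ => ou_le) (fun _ _ => bt_le _ _ _) v3
      (Nat.zero_le _) rfl rfl (mn_eq _ _ ▸ rfl) h i hi
    rw [s1_iff, vl0]
    exact ⟨Nat.zero_le _, this⟩

theorem fh_go {m1 m2 m3 m4 E al ga : ℕ} : fh B0 Bl D K T j g l u n a b P m1 m2 m3 m4 E al ga w = true →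
    fy B0 Bl D K T j g l u n a b P m1 m2 m3 m4 (E + al * Nat.land w 65535 - ga * Nat.land w 65535) (Nat.land w 65535) 96 = true ∧
    fy B0 Bl D K T j g l u n a b P m1 m2 m3 m4 (E + al * bt w 16 65535 - ga * bt w 16 65535) (bt w 16 65535) 160 = true := by
  delta fh
  have hb := @Nat.add_eq
  generalize Nat.add = ad, fy = F at hb ⊢
  as_aux_lemma =>
    intro h
    obtain ⟨w0, _, e5, h1⟩ := frc (ri h).1
    obtain ⟨w1, _, e6, h2⟩ := frc (ri h).2
    simp only [hb, Nat.add_right_cancel_iff] at e5 e6 h1 h2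
    subst e5 e6
    exact ⟨h1, h2⟩

theorem bt0 : bt w 0 k = Nat.land w k := congrArg (Nat.land · k) Nat.shiftRight_zero

theorem fg_go {P' al be ga : ℕ} (hB0 : B0 ≤ 65535) (hB : Bl ≤ 65535) (hB' : B ≤ 1048575) (hD : D ≤ 1023) (hK : K ≤ 59)
    (e : Ce c a b P A A') (hP : P' = P * 128) (hm : m = bt c 32 255) (ha : R4 al fun i => A i + A' i)
    (hbe : R4 be fun i => yb (ch (1200 - (j - m) * 2)) (ch (1200 - m * 2)) (A i) (A' i))
    (hga : R4 ga fun i => yg (ch (m * 2)) (ch ((j - m) * 2)) (A i) (A' i)) :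
    fg (B0 * 1024) Bl (O9 * (B * 16384 + 1125899906842624)) D K T j a b P' al be ga w g = true → ∀ i < 4,
      s1 B0 Bl B D K T j c g (bt w 16 65535) (bt w 0 65535) (bt w 32 65535) 96 (A i) (A' i) i = true ∧
      s1 B0 Bl B D K T j c g (bt w 16 65535) (bt w 16 65535) (bt w 32 65535) 160 (A i) (A' i) i = true := by
  generalize hF : fg = F
  revert hF
  delta fg
  have hb := And.intro @m9_go (And.intro @Nat.add_eq @Nat.le_of_ble_eq_true)
  generalize m9 = mg, Nat.add = ad, Nat.ble = bl at hb ⊢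
  as_aux_lemma =>
    rintro rfl h
    obtain ⟨l, _, el, h⟩ := frc h
    obtain ⟨u, _, eu, h⟩ := frc h
    obtain ⟨m1, _, e1, h⟩ := frc h
    obtain ⟨m2, _, e2, h⟩ := frc h
    obtain ⟨m3, _, e3, h⟩ := frc h
    obtain ⟨m4, _, e4, h⟩ := frc h
    obtain ⟨h0, h⟩ := ri h
    obtain ⟨h1, h2⟩ := fh_go h
    simp only [hb.2.1, Nat.add_right_cancel_iff, Nat.mul_eq, Nat.sub_eq, mn_eq] at el eu h1 h2
    have h0 : bt w 16 65535 ≠ 0 := Nat.pos_iff_ne_zero.1 (hb.2.2 h0)
    have bs := bt_le w 32 65535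
    generalize bt w 32 65535 = s at *
    have bP : ∀ i < 4, bt c (i * 16 + 64) M5 * 128 ≤ 2 ^ 926 := fun i _ =>
      (ml ((bt_le _ _ _).trans nM) (le_refl 128)).trans (by norm_num)
    have k : ∀ {w' t}, w' ≤ 65535 → fy (B0 * 1024) Bl D K T j g l u (min u K - l) a b (vx m1 m2 m3 P') m1 m2 m3 m4
        (O9 * (B * 16384 + 1125899906842624) + be * s + al * w' - ga * w') w' t = true → ∀ i < 4,
        s1 B0 Bl B D K T j c g (bt w 16 65535) w' s t (A i) (A' i) i = true := fun {w' t} hw h i hi => by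
      have b1 := fun i hi => ml (yb_le (ch_le (a := 1200 - (j - m) * 2)) (ch_le (a := 1200 - m * 2)) (e.ba i hi)
        (e.bb i hi)) bs
      have b2 := fun i hi => ml (Nat.add_le_add (e.ba i hi) (e.bb i hi)) hw
      have b3 := fun i hi => ml (yg_le (ch_le (a := m * 2)) (ch_le (a := (j - m) * 2)) (e.ba i hi) (e.bb i hi)) hw
      rw [s1_iff, vl1 h0, cn_eq, if_neg (mt Nat.eq_of_beq_eq_true h0), ← hm, yv_eq]
      refine fy_go hB0 hB hD hK ⟨e.ra, e.rb, fun _ _ => ou_le, fun _ _ => ou_le, (bt0.trans el).symm, eu.symm, rfl⟩ (hb.1 e1) (hb.1 e2)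
        (hb.1 e3) (hb.1 e4) (hP ▸ t_LA.mul 128 e.rp fun i hi => (bP i hi).trans_lt (by norm_num)) bP
        (fZ := fun i => B * 16384 + w' * (A i + A' i) + s * yb (ch (1200 - (j - m) * 2)) (ch (1200 - m * 2)) (A i) (A' i) -
          w' * yg (ch (m * 2)) (ch ((j - m) * 2)) (A i) (A' i))
        (t_LA.sub (t_LA.add (t_LA.add (cst (c := B * 16384 + 1125899906842624) (by omega))
          (t_LA.mul s hbe fun i hi => by have := b1 i hi; omega) fun i hi => by have := b1 i hi; omega)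
          (t_LA.mul w' ha fun i hi => by have := b2 i hi; omega) fun i hi => by have := b1 i hi; have := b2 i hi; omega)
          (t_LA.mul w' hga fun i hi => by have := b3 i hi; omega) fun i hi => by have := b3 i hi; omega)
        (fun i hi => ?_) hw (fun _ => rfl) h i hi
      have := b1 i hi
      have := b2 i hi
      have := b3 i hi
      simp only [Nat.mul_comm w', Nat.mul_comm s]
      omega
    exact fun i hi => ⟨bt0 (w := w) ▸ k Nat.and_le_right h1 i hi, k (bt_le _ _ _) h2 i hi⟩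

theorem sw_of {f f' : ℕ → ℕ → Bool} (H : ∀ w g, f w g = true → f' w g = true) (W : List ℕ) :
    ∀ d, sw f W d = true → sw f' W d = true := by
  induction W with
  | nil => exact fun _ _ => rfl
  | cons w W ih => exact fun d h => an_iff.2 ⟨H _ _ (an_iff.1 h).1, ih _ (an_iff.1 h).2⟩

theorem cells_of {f f' : ℕ → ℕ → ℕ → List ℕ → Bool} (H : ∀ y z c d, f y z c d = true → f' y z c d = true) (cs : List ℕ) :
    ∀ ds y z, cells f cs ds y z = true → cells f' cs ds y z = true := by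
  induction cs with
  | nil => exact fun _ _ _ _ => rfl
  | cons c cs ih => exact fun ds y z h => an_iff.2 ⟨H _ _ _ _ (an_iff.1 h).1, ih _ _ _ (an_iff.1 h).2⟩

theorem strips_of {f f' : ℕ → ℕ → ℕ → ℕ → ℕ → List ℕ → Bool}
    (H : ∀ p q y z c d, f p q y z c d = true → f' p q y z c d = true) (ss : List (List ℕ)) :
    ∀ ds p, strips f ss ds p = true → strips f' ss ds p = true := by
  induction ss with
  | nil => exact fun _ _ _ => rfl
  | cons c cs ih => exact fun ds p h => an_iff.2 ⟨cells_of (H _ _) _ _ _ _ (an_iff.1 h).1, ih _ _ (an_iff.1 h).2⟩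

theorem rng_of {f f' : ℕ → List (List ℕ) → List (List (List ℕ)) → Bool}
    (H : ∀ j s d, f j s d = true → f' j s d = true) (G : List (List (List ℕ))) :
    ∀ E j, rng f G E j = true → rng f' G E j = true := by
  induction G with
  | nil => exact fun _ _ _ => rfl
  | cons c cs ih => exact fun E j h => an_iff.2 ⟨H _ _ _ (an_iff.1 h).1, ih _ _ (an_iff.1 h).2⟩

theorem f4_go {W d : List ℕ} {y' z' : ℕ} : f4 B0 Bl B D K T W j p q y z y' z' m a b P d = true → m ≤ j ∧
    sw (fun w g => fg B0 Bl B D K T j a b (P * 128) (q4 (p + y) (p + y') (q + z) (q + z'))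
      (q4 (yb (ch (1200 - (j - m) * 2)) (ch (1200 - m * 2)) p y) (yb (ch (1200 - (j - m) * 2)) (ch (1200 - m * 2)) p y')
        (yb (ch (1200 - (j - m) * 2)) (ch (1200 - m * 2)) q z) (yb (ch (1200 - (j - m) * 2)) (ch (1200 - m * 2)) q z'))
      (q4 (yg (ch (m * 2)) (ch ((j - m) * 2)) p y) (yg (ch (m * 2)) (ch ((j - m) * 2)) p y')
        (yg (ch (m * 2)) (ch ((j - m) * 2)) q z) (yg (ch (m * 2)) (ch ((j - m) * 2)) q z')) w g) W d = true := by
  generalize hF : f4 = F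
  revert hF
  delta f4
  have hb := @Nat.le_of_ble_eq_true
  generalize Nat.ble = bl, fg = G, q4 = Q, yb = Y, yg = Y', ch = C, sw = S at hb ⊢
  as_aux_lemma =>
    rintro rfl h
    simp only [an_iff, fbe] at h
    exact ⟨hb h.1, h.2⟩

theorem f5_of {W d : List ℕ} : f5 B0 Bl B D K T W j p q y z c g d = true → p ||| q ||| (y ||| z) ≤ 65535 ∧
    f0 B0 Bl D K T j (q4 (ou p) (ou p) (ou q) (ou q)) (q4 (ou y) (ou (bt c 0 65535)) (ou z) (ou (bt c 16 65535)))
      (q4 (bt c 64 M5) (bt c 80 M5) (bt c 96 M5) (bt c 112 M5)) g = true ∧ (emp d = true ∨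
    f4 B0 Bl B D K T W j p q y z (bt c 0 65535) (bt c 16 65535) (bt c 32 255) (q4 (ou p) (ou p) (ou q) (ou q))
      (q4 (ou y) (ou (bt c 0 65535)) (ou z) (ou (bt c 16 65535)))
      (q4 (bt c 64 M5) (bt c 80 M5) (bt c 96 M5) (bt c 112 M5)) d = true) := by
  generalize hF : f5 = F
  revert hF
  delta f5
  rw [bt0]
  have hb := @Nat.le_of_ble_eq_true
  generalize Nat.ble = bl, f0 = G, q4 = Q, f4 = Y, ou = Y', bt = C, M5 = S at hb ⊢
  as_aux_lemma =>
    rintro rfl h
    simp only [an_iff, orr_iff, fbe] at h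
    exact ⟨hb h.1, h.2⟩

theorem f5_go {W d : List ℕ} (hB0 : B0 ≤ 65535) (hB : Bl ≤ 65535) (hB' : B ≤ 1048575) (hD : D ≤ 1023) (hK : K ≤ 59)
    (h : f5 (B0 * 1024) Bl (O9 * (B * 16384 + 1125899906842624)) D K T W j p q y z c g d = true) :
    scC B0 Bl B D K T W j p q y z c (g :: d) = true := by
  obtain ⟨b, h0, h⟩ := f5_of h
  have hp : p ≤ 65535 := (Nat.left_le_or.trans Nat.left_le_or).trans b
  have hq : q ≤ 65535 := (Nat.right_le_or.trans Nat.left_le_or).trans b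
  have hy : y ≤ 65535 := (Nat.left_le_or.trans Nat.right_le_or).trans b
  have hz : z ≤ 65535 := (Nat.right_le_or.trans Nat.right_le_or).trans b
  have hy' := bt_le c 0 65535
  have hz' := bt_le c 16 65535
  have a1 := (rc (A := 65535) (by norm_num) hp hp hq hq).2
  have a2 := (rc (A := 65535) (by norm_num) hy hy' hz hz').2
  have e : Ce c _ _ _ (cx p p q q) (cx y (bt c 0 65535) z (bt c 16 65535)) :=
    ⟨rq _ fun _ _ => ou_le.trans_lt (by norm_num), rq _ fun _ _ => ou_le.trans_lt (by norm_num), a1, a2,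
      rq _ fun _ _ => ((bt_le _ _ _).trans nM).trans_lt (by norm_num)⟩
  simp only [scC, orr_iff, an_iff, Nat.ble_eq]
  refine .inr ⟨s0_of (f0_go hB0 hB hD hK e h0), h.imp_right fun h => ⟨(f4_go h).1, sw_of (fun w g h => ?_) _ _ (f4_go h).2⟩⟩
  have := fg_go hB0 hB hB' hD hK e rfl rfl (rq _ fun i hi => by have := a1 i hi; have := a2 i hi; omega)
    (rq _ fun i hi => (yb_le ch_le ch_le (a1 i hi) (a2 i hi)).trans_lt (by norm_num))
    (rq _ fun i hi => (yg_le ch_le ch_le (a1 i hi) (a2 i hi)).trans_lt (by norm_num)) h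
  exact an_iff.2 ⟨s0_of fun i hi => (this i hi).1, s0_of fun i hi => (this i hi).2⟩

theorem sc2_go {W : List ℕ} {G : List (List (List ℕ))} {E : List (List (List (List ℕ)))}
    (h : sc2 B0 Bl B D K T W G E j = true) : scas B0 Bl B D K T W G E j = true := by
  simp only [sc2, an_iff, fbe, Nat.ble_eq, Nat.add_eq, Nat.mul_eq] at h
  obtain ⟨⟨⟨a1, a2⟩, a3, a4, a5⟩, h⟩ := h
  simp only [scas, sca, fbe]
  refine rng_of (fun j s d => strips_of (fun p q y z c d h => ?_) _ _ _) _ _ _ h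
  cases d with
  | nil => rfl
  | cons g d =>
    refine (ro h).elim (fun h => f5_go a1 a2 a3 a4 a5 ?_) id
    simpa only [fbe] using h

end

end Pool.Agent.MP_1037db_co.PT.Fx
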