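import Pool.Agent.MP_1037db_co.PT.Stm

namespace Pool.Agent.MP_1037db_co.PT

section


open Real

namespace LA_

theorem app {w n m x y : ℕ} {f g : ℕ → ℕ} (hx : Rep w n x f) (hy : Rep w m y g) :
    Rep w (n + m) (x + y * 2 ^ (w * n)) fun k => if k < n then f k else g (k - n) := by
  refine ⟨?_, fun k hk => ?_⟩
  · have h1 := hx.lt
    have h2 : (y + 1) * 2 ^ (w * n) ≤ 2 ^ (w * m) * 2 ^ (w * n) := Nat.mul_le_mul_right _ hy.lt
    rw [mul_add, pow_add, mul_comm (2 ^ (w * n))]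
    rw [add_mul, one_mul] at h2
    omega
  · split_ifs with h
    · rw [← hx.eq k h]
      obtain ⟨j, rfl⟩ := Nat.exists_eq_add_of_lt h
      have e : y * 2 ^ (w * (k + j + 1)) = 2 ^ (w * k) * (2 ^ w * (y * 2 ^ (w * j))) := by
        rw [mul_add, mul_add, mul_one, pow_add, pow_add]; ring
      rw [la, la, e, Nat.add_mul_div_left _ _ (Nat.two_pow_pos _), Nat.add_mul_mod_self_left]
    · obtain ⟨j, rfl⟩ := Nat.exists_eq_add_of_le (not_lt.1 h)
      rw [Nat.add_sub_cancel_left, ← hy.eq j (by omega), la, la, mul_add, pow_add,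
        ← Nat.div_div_eq_div_mul, Nat.add_mul_div_right _ _ (Nat.two_pow_pos _),
        Nat.div_eq_of_lt hx.lt, zero_add]

theorem inj {w n x y : ℕ} {f : ℕ → ℕ} (hx : Rep w n x f) (hy : Rep w n y f) : x = y := by
  have key : ∀ m ≤ n, x % 2 ^ (w * m) = y % 2 ^ (w * m) := by
    intro m
    induction m with
    | zero => intro _; simp [Nat.mod_one]
    | succ m ih =>
      intro hm
      have e := (hx.eq m hm).trans (hy.eq m hm).symm
      rw [la, la] at e
      rw [mul_add, mul_one, pow_add, Nat.mod_mul, Nat.mod_mul, ih (by omega), e]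
  have := key n le_rfl
  rwa [Nat.mod_eq_of_lt hx.lt, Nat.mod_eq_of_lt hy.lt] at this

/-- the number with the given lanes -/
def S (w n : ℕ) (f : ℕ → ℕ) : ℕ := ∑ k ∈ Finset.range n, f k * 2 ^ (w * k)

theorem rep {w n : ℕ} {f : ℕ → ℕ} (h : ∀ k < n, f k < 2 ^ w) : Rep w n (S w n f) f := by
  induction n with
  | zero => exact ⟨by simp [S], fun k hk => absurd hk (Nat.not_lt_zero k)⟩
  | succ n ih =>
    have h1 : Rep w 1 (f n) fun _ => f n :=
      ⟨by simpa using h n (Nat.lt_succ_self n), fun k hk => by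
        obtain rfl : k = 0 := by omega
        simp [la, Nat.mod_eq_of_lt (h n (Nat.lt_succ_self n))]⟩
    rw [S, Finset.sum_range_succ]
    refine (app (ih fun k hk => h k (by omega)) h1).congr fun k hk => ?_
    split_ifs with h2
    · rfl
    · rw [show k = n by omega]

theorem eqS {w n x : ℕ} {f : ℕ → ℕ} (h : Rep w n x f) : x = S w n f :=
  inj h (rep fun _ hk => h.bd hk)

theorem S_add (w n : ℕ) (f g : ℕ → ℕ) : S w n f + S w n g = S w n fun k => f k + g k := by
  simp only [S, add_mul, Finset.sum_add_distrib]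

end LA_

open LA_ in
theorem t_LA : LA where
  on w n hw := by
    have h2 : 2 ≤ 2 ^ w := Nat.one_lt_two_pow (by omega)
    have e : on w n = S w n fun _ => 1 := by
      have := Nat.geomSum_eq h2 n
      simp only [S, one_mul, pow_mul]
      rw [this, ← pow_mul]
      show (1 <<< (w * n) - 1) / (1 <<< w - 1) = _
      rw [Nat.one_shiftLeft, Nat.one_shiftLeft]
    rw [e]
    exact rep fun _ _ => h2
  add hx hy h := by
    rw [eqS hx, eqS hy, S_add]
    exact rep h
  mul := fun {w n x f} c hx h => by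
    have e : x * c = S w n fun k => f k * c := by
      rw [eqS hx, S, S, Finset.sum_mul]
      exact Finset.sum_congr rfl fun k _ => by ring
    rw [e]
    exact rep h
  sub := fun {w n x y f g} hx hy h => by
    have e : x = y + S w n fun k => f k - g k := by
      rw [eqS hx, eqS hy, S_add, S, S]
      exact Finset.sum_congr rfl fun k hk => by
        rw [Nat.add_sub_cancel' (h k (Finset.mem_range.1 hk))]
    rw [e, Nat.add_sub_cancel_left]
    exact rep fun k hk => lt_of_le_of_lt (Nat.sub_le _ _) (hx.bd hk)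
  app hx hy := by
    rw [Nat.shiftLeft_eq]
    exact app hx hy
  ext := fun {w n m x f} hx h => by
    obtain ⟨j, rfl⟩ := Nat.exists_eq_add_of_le h
    simpa using app hx (Rep.zero w j)
  inj := inj

end

section


open Real

namespace LB_

theorem tb_la (w x k i : ℕ) : (la w x k).testBit i = (decide (i < w) && x.testBit (i + w * k)) := by
  rw [la, Nat.testBit_mod_two_pow, Nat.testBit_div_two_pow]

theorem tb_bt (x s m i : ℕ) :
    (bt x s (2 ^ m - 1)).testBit i = (decide (i < m) && x.testBit (i + s)) := by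
  rw [bt_eq, Nat.testBit_mod_two_pow, Nat.testBit_div_two_pow]

theorem la_and (w x y k : ℕ) : la w (x &&& y) k = la w x k &&& la w y k :=
  Nat.eq_of_testBit_eq fun i => by
    simp only [tb_la, Nat.testBit_and]; cases decide (i < w) <;> simp

theorem la_or (w x y k : ℕ) : la w (x ||| y) k = la w x k ||| la w y k :=
  Nat.eq_of_testBit_eq fun i => by
    simp only [tb_la, Nat.testBit_or]; cases decide (i < w) <;> simp

theorem la_shr (w x j k : ℕ) : la w (x >>> (w * j)) k = la w x (k + j) := by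
  rw [la, la, Nat.shiftRight_eq_div_pow, Nat.div_div_eq_div_mul, ← pow_add, ← mul_add, add_comm]

theorem la_big {w n x k : ℕ} (h : x < 2 ^ (w * n)) (hk : n ≤ k) : la w x k = 0 := by
  rw [la, Nat.div_eq_of_lt (h.trans_le (Nat.pow_le_pow_right two_pos (Nat.mul_le_mul_left w hk))),
    Nat.zero_mod]

end LB_

open LB_

theorem t_LB : LB where
  land := fun x h => ⟨Nat.and_le_right.trans_lt h.lt, fun k hk => by rw [la_and, h.eq k hk]⟩
  lor := fun h h' => ⟨Nat.or_lt_two_pow h.lt h'.lt, fun k hk => by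
    rw [la_or, h.eq k hk, h'.eq k hk]⟩
  bt := @fun w n M m x s hm h => ⟨(bt_le x s M).trans_lt h.lt, fun k hk => by
    have e : bt x s M = (x >>> s) &&& M := rfl
    rw [e, la_and, h.eq k hk]
    refine Nat.eq_of_testBit_eq fun i => ?_
    rw [tb_bt, Nat.testBit_and, tb_la, Nat.testBit_two_pow_sub_one, Nat.testBit_shiftRight,
      show s + (i + w * k) = i + (s + w * k) by ring]
    by_cases c : i < m
    · simp [c, show i < w by omega]
    · simp [c]⟩
  get := @fun w n x f k s m h hk hs => by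
    rw [← h.eq k hk]
    refine Nat.eq_of_testBit_eq fun i => ?_
    rw [tb_bt, Nat.testBit_mod_two_pow, Nat.testBit_div_two_pow, tb_la, add_assoc]
    by_cases c : i < m
    · simp [c, show i + s < w by omega]
    · simp [c]
  shr := @fun w n x f j h => ⟨(Nat.shiftRight_le _ _).trans_lt h.lt, fun k _ => by
    rw [la_shr]
    split_ifs with c
    · exact h.eq _ c
    · exact la_big h.lt (not_lt.1 c)⟩
  blk := @fun w n x f s m h hs => ⟨by rw [bt_eq]; exact Nat.mod_lt _ (Nat.two_pow_pos _),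
    fun k hk => by
      rw [← h.eq (s + k) (by omega)]
      refine Nat.eq_of_testBit_eq fun i => ?_
      rw [tb_la, tb_la, tb_bt, show i + w * k + w * s = i + w * (s + k) by ring]
      by_cases c : i < w
      · have : w * (k + 1) ≤ w * m := Nat.mul_le_mul_left w hk
        rw [mul_add_one] at this
        simp [c, show i + w * k < w * m by omega]
      · simp [c]⟩
  or31 := @fun a b _ _ h => by
    by_contra c
    rw [not_or, not_le, not_le] at c
    exact absurd (Nat.or_lt_two_pow c.1 c.2) (not_lt.2 h)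
  fl := @fun w n H x f hH hx h k hk => by
    have e : x &&& H = H := Nat.eq_of_beq_eq_true h
    have e1 := la_and (w + 1) x H k
    rw [e, hH.eq k hk, hx.eq k hk] at e1
    rw [e1]
    exact Nat.and_le_left

end

section


open Real

namespace LC_

theorem dif (hA : LA) {w n H x y : ℕ} {f g : ℕ → ℕ} (hH : Rep (w + 1) n H fun _ => 2 ^ w)
    (hx : Rep (w + 1) n x f) (hy : Rep (w + 1) n y g) (hf : ∀ k < n, f k < 2 ^ w)
    (hg : ∀ k < n, g k < 2 ^ w) : Rep (w + 1) n (x + H - y) fun k => f k + 2 ^ w - g k :=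
  hA.sub (hA.add hx hH fun k hk => by have := hf k hk; rw [pow_succ]; omega) hy
    fun k hk => by have := hg k hk; omega

theorem top (D : ℕ) : D &&& 2 ^ 31 = D / 2 ^ 31 % 2 ^ 1 * 2 ^ 31 := by
  rw [Nat.and_two_pow, Nat.testBit_eq_decide_div_mod_eq, pow_one]
  rcases Nat.mod_two_eq_zero_or_one (D / 2 ^ 31) with h | h <;> rw [h] <;> rfl

theorem lane {a b : ℕ} (ha : a < 2 ^ 31) (hb : b < 2 ^ 31) :
    (a + 2 ^ 31 - b) &&& ((a + 2 ^ 31 - b) / 2 ^ 31 % 2 ^ 1 * 2 ^ 31 -
      (a + 2 ^ 31 - b) / 2 ^ 31 % 2 ^ 1) = a - b := by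
  rcases le_or_gt b a with h | h
  · have e : (a + 2 ^ 31 - b) / 2 ^ 31 % 2 ^ 1 = 1 := by omega
    rw [e, one_mul, Nat.and_two_pow_sub_one_eq_mod]
    omega
  · have e : (a + 2 ^ 31 - b) / 2 ^ 31 % 2 ^ 1 = 0 := by omega
    rw [e, zero_mul, Nat.sub_zero, Nat.and_zero]
    omega

theorem ls_rep (hA : LA) (hB : LB) {n H x y : ℕ} {f g : ℕ → ℕ} (hH : Rep 32 n H fun _ => 2 ^ 31)
    (hx : Rep 32 n x f) (hy : Rep 32 n y g) (hf : ∀ k < n, f k < 2 ^ 31)
    (hg : ∀ k < n, g k < 2 ^ 31) : Rep 32 n (ls H x y) fun k => f k - g k := by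
  have hd : Rep 32 n (x + H - y) fun k => f k + 2 ^ 31 - g k := dif hA (w := 31) hH hx hy hf hg
  show Rep 32 n ((x + H - y) &&& (((x + H - y) &&& H) - (((x + H - y) &&& H) >>> 31))) _
  generalize x + H - y = d at hd ⊢
  have hZ : Rep 32 n (bt d 31 (on 32 n)) fun k => (f k + 2 ^ 31 - g k) / 2 ^ 31 % 2 ^ 1 :=
    (hB.bt (m := 1) d 31 (by omega) (hA.on 32 n (by omega))).congr fun k hk =>
      hB.get hd hk (by omega)
  generalize bt d 31 (on 32 n) = Z at hZ
  have hM := hA.mul (2 ^ 31) hZ fun k _ => by omega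
  have e : d &&& H = Z * 2 ^ 31 :=
    hA.inj ((hB.land d hH).congr fun k hk => by rw [hd.eq k hk]; exact top _) hM
  rw [e, Nat.shiftRight_eq_div_pow, Nat.mul_div_cancel _ (Nat.two_pow_pos 31)]
  exact (hB.land d (hA.sub hM hZ fun k _ => by omega)).congr fun k hk => by
    rw [hd.eq k hk]; exact lane (hf k hk) (hg k hk)

theorem cst (hA : LA) {w n O : ℕ} (c : ℕ) (h : Rep w n O fun _ => 1) (hc : c < 2 ^ w) :
    Rep w n (O * c) fun _ => c :=
  (hA.mul c h fun _ _ => by rwa [one_mul]).congr fun _ _ => one_mul c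

theorem sc_eq (O H M v z : ℕ) : sc1 O H M v z =
    cn (Nat.ble 8192 z) (bt (ls H (v * z) (O * (z * 65536 - 536870912))) 14 M) 0 := rfl

end LC_

theorem t_LC (hA : LA) (hB : LB) : LC := by
  have o4 : Rep 32 480 O4 fun _ => 1 := hA.on 32 480 (by omega)
  have h4 : Rep 32 480 H4 fun _ => 2 ^ 31 := LC_.cst hA 2147483648 o4 (by omega)
  have o6 : Rep 32 1920 O6 fun _ => 1 := hA.on 32 1920 (by omega)
  have o5 : Rep 64 15 O5 fun _ => 1 := hA.on 64 15 (by omega)
  refine ⟨LC_.ls_rep hA hB, ?_, hA.on 32 240 (by omega), o4, h4, LC_.cst hA 65535 o4 (by omega), o6,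
    LC_.cst hA 2147483648 o6 (by omega), LC_.cst hA 65535 o6 (by omega), o5,
    LC_.cst hA 9223372036854775808 o5 (by omega), LC_.cst hA 65535 o5 (by omega), ?_, ?_, ?_⟩
  · intro w n H x y f g hH hx hy hf hg h k hk
    have a := hB.fl hH (LC_.dif hA hH hx hy hf hg) h k hk
    have b := hg k hk
    omega
  · intro x y f g hx hy hf hg
    exact (hA.sub hx (LC_.ls_rep hA hB h4 hx hy hf hg) fun k _ => Nat.sub_le _ _).congr
      fun k _ => by omega
  · intro x y f g hx hy hf hg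
    exact (hA.add hy (LC_.ls_rep hA hB h4 hx hy hf hg) fun k hk => by
      have := hf k hk; have := hg k hk; omega).congr fun k _ => by omega
  · intro n O H M v f z hO hH hM hv hf hz
    rw [LC_.sc_eq, cn_eq]
    by_cases h : 8192 ≤ z
    · have b : ∀ k < n, f k * z < 2 ^ 31 := fun k hk =>
        lt_of_le_of_lt (Nat.mul_le_mul (show f k ≤ 131071 from Nat.le_of_lt_succ (hf k hk)) hz) (by omega)
      have r := LC_.ls_rep hA hB hH (hA.mul z hv fun k hk => (b k hk).trans (by omega))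
        (LC_.cst hA (z * 65536 - 536870912) hO (by omega)) b fun _ _ => by omega
      rw [if_pos (Nat.ble_eq_true_of_le h)]
      exact (hB.bt (m := 16) _ 14 (by omega) hM).congr fun k hk => by
        rw [hB.get r hk (by omega), if_pos h]; rfl
    · rw [if_neg fun e => h (Nat.le_of_ble_eq_true e)]
      exact (Rep.zero 32 n).congr fun k _ => by rw [if_neg h]

end

section


open Real

namespace LD_

theorem shl (c d u v : ℕ) : (c + d <<< u) <<< v = c <<< v + d <<< (u + v) := by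
  simp only [Nat.shiftLeft_eq, pow_add]; ring

theorem c4_eq (a b c d : ℕ) :
    c4 a b c d = (a + b <<< (32 * 480)) + (c + d <<< (32 * 480)) <<< (32 * (480 + 480)) := by
  rw [shl]; rfl

theorem c4_rep (hA : LA) {a b c d : ℕ} {fa fb fc fd : ℕ → ℕ} (ha : Rep 32 480 a fa)
    (hb : Rep 32 480 b fb) (hc : Rep 32 480 c fc) (hd : Rep 32 480 d fd) :
    Rep 32 1920 (c4 a b c d) fun i => if i < 480 then fa i else
      if i < 960 then fb (i - 480) else if i < 1440 then fc (i - 960) else fd (i - 1440) := by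
  rw [c4_eq]
  refine (hA.app (hA.app ha hb) (hA.app hc hd)).congr fun k _ => ?_
  by_cases h1 : k < 480
  · rw [if_pos (by omega), if_pos h1, if_pos h1]
  by_cases h2 : k < 960
  · rw [if_pos (by omega), if_neg h1, if_neg h1, if_pos h2]
  by_cases h3 : k < 1440
  · rw [if_neg (by omega), if_pos (by omega), if_neg h1, if_neg h2, if_pos h3]
  · rw [if_neg (by omega), if_neg (by omega), if_neg h1, if_neg h2, if_neg h3]
    exact congrArg fd (by omega)

theorem cst (hA : LA) {w n O : ℕ} (c : ℕ) (h : Rep w n O fun _ => 1) (hc : c < 2 ^ w) :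
    Rep w n (O * c) fun _ => c :=
  (hA.mul c h fun _ _ => by rwa [one_mul]).congr fun _ _ => one_mul c

theorem cut (hA : LA) (hB : LB) {w n m x : ℕ} {f : ℕ → ℕ} (h : Rep w m x f) (hn : n ≤ m)
    (z : ∀ k < m, n ≤ k → f k = 0) : Rep w n x f := by
  have a := (hB.blk (s := 0) (m := n) h (by omega)).congr (g := f) fun k _ => by rw [zero_add]
  have e := hA.inj h ((hA.ext a hn).congr fun k hk => by
    by_cases c : k < n
    · rw [if_pos c]
    · rw [if_neg c, z k hk (by omega)])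
  rw [← e] at a
  exact a

theorem l2 (hA : LA) : Rep 32 240 L2 fun _ => 2 ^ 32 - 1 := by
  rw [show L2 = on 32 240 * 4294967295 by decide +kernel]
  exact cst hA 4294967295 (hA.on 32 240 (by omega)) (by omega)

theorem l6 (hA : LA) : Rep 32 1920 L6 fun i => if i % 480 < 240 then 2 ^ 32 - 1 else 0 := by
  rw [show L6 = c4 L2 L2 L2 L2 by decide +kernel]
  have h := hA.ext (m := 480) (l2 hA) (by omega)
  refine (c4_rep hA h h h h).congr fun k hk => ?_
  split_ifs <;> first | rfl | omega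

theorem msk {x : ℕ} (h : x < 2 ^ 32) (c : Prop) [Decidable c] :
    x &&& (if c then 2 ^ 32 - 1 else 0) = if c then x else 0 := by
  split_ifs
  · rw [Nat.and_two_pow_sub_one_eq_mod, Nat.mod_eq_of_lt h]
  · exact Nat.and_zero x

theorem ng_eq (v : ℕ) :
    ng v = ((v >>> (32 * 240)) &&& L6) + (0 + (v &&& L6) <<< (32 * 240)) := by
  rw [zero_add]; rfl

theorem cat_cons (a : ℕ) (A : List ℕ) : cat (a :: A) = (a &&& L2) + cat A <<< (32 * 240) := rfl

theorem cat_rep (hA : LA) (hB : LB) (A : List ℕ) :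
    Rep 32 (A.length * 240) (cat A) fun i => la 32 (A.getD (i / 240) 0) (i % 240) := by
  induction A with
  | nil => exact ⟨Nat.one_pos, fun k hk => absurd hk (Nat.not_lt_zero k)⟩
  | cons a A ih =>
    rw [cat_cons, List.length_cons, Nat.add_mul, one_mul, add_comm (A.length * 240)]
    refine (hA.app (hB.land a (l2 hA)) ih).congr fun k _ => ?_
    by_cases h : k < 240
    · rw [if_pos h, Nat.div_eq_of_lt h, Nat.mod_eq_of_lt h, Nat.and_two_pow_sub_one_eq_mod]
      exact Nat.mod_mod _ _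
    · rw [if_neg h, show k / 240 = (k - 240) / 240 + 1 by omega,
        show k % 240 = (k - 240) % 240 by omega]
      rfl

theorem wt_eq (A : List ℕ) (f : ℕ → ℕ → ℕ → ℕ → ℕ → Bool) : wt A f =
    f (ln A) (on 32 (ln A * 240)) (on 32 (ln A * 240) * 2147483648)
      (bt (cat A) 16 (on 32 (ln A * 240) * 65535)) (cat A &&& (on 32 (ln A * 240) * 65535)) := by
  unfold wt
  rw [fb_eq, fb_eq, fb_eq, fb_eq, fb_eq, fb_eq]
  simp only [Nat.mul_eq, Nat.land_eq]

theorem wv_eq (L r : ℕ) (h : r < 240) : la 32 L r / 2 ^ 16 % 2 ^ 16 = wv L r := by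
  rw [wv, show (65535 : ℕ) = 2 ^ 16 - 1 from rfl, bt_eq, Nat.mod_eq_of_lt h, pow_add,
    ← Nat.div_div_eq_div_mul, la]
  omega

theorem tv_eq (L r : ℕ) (h : r < 240) : la 32 L r &&& (2 ^ 16 - 1) = tv L r := by
  rw [tv, show (65535 : ℕ) = 2 ^ 16 - 1 from rfl, bt_eq, Nat.mod_eq_of_lt h, Nat.div_eq_of_lt h,
    Nat.and_two_pow_sub_one_eq_mod, la]
  omega

end LD_

theorem t_LD (hA : LA) (hB : LB) : LD where
  c4 := LD_.c4_rep hA
  b4 := by
    intro v F s h hs
    have e : L4 = 2 ^ (32 * 480) - 1 := by decide +kernel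
    rw [e, show 15360 * s = 32 * (480 * s) by omega]
    exact hB.blk h (by omega)
  ng := by
    intro v F h
    rw [LD_.ng_eq]
    have s := hB.shr 240 h
    have a := (hB.land (v >>> (32 * 240)) (LD_.l6 hA)).congr
      (g := fun k => if k % 480 < 240 then F (k + 240) else 0) fun k hk => by
        rw [s.eq k hk, LD_.msk (s.bd hk)]
        by_cases c : k % 480 < 240
        · rw [if_pos c, if_pos c, if_pos (by omega)]
        · rw [if_neg c, if_neg c]
    have b := (hB.land v (LD_.l6 hA)).congr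
      (g := fun k => if k % 480 < 240 then F k else 0) fun k hk => by
        rw [h.eq k hk, LD_.msk (h.bd hk)]
    have b' := LD_.cut hA hB (n := 1680) b (by omega) fun k _ _ => if_neg (by omega)
    have c : Rep 32 1920 (0 + (v &&& L6) <<< (32 * 240))
        fun k => if k % 480 < 240 then 0 else F (k - 240) :=
      (hA.app (Rep.zero 32 240) b').congr fun k _ => by
        by_cases c : k % 480 < 240
        · rw [if_pos c]
          split_ifs <;> first | rfl | omega
        · rw [if_neg c, if_neg (by omega), if_pos (by omega)]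
    refine (hA.add a c fun k hk => ?_).congr fun k hk => ?_
    · by_cases c : k % 480 < 240
      · rw [if_pos c, if_pos c]; exact h.bd (by omega)
      · rw [if_neg c, if_neg c, zero_add]; exact h.bd (by omega)
    · by_cases c : k % 480 < 240
      · rw [if_pos c, if_pos c]; exact congrArg F (by omega)
      · rw [if_neg c, if_neg c, zero_add]; exact congrArg F (by omega)
  wt := by
    intro A f h
    rw [LD_.wt_eq, ln_eq] at h
    have o := hA.on 32 (A.length * 240) (by omega)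
    have m : Rep 32 (A.length * 240) _ fun _ => 2 ^ 16 - 1 := LD_.cst hA 65535 o (by omega)
    have z := LD_.cat_rep hA hB A
    refine ⟨_, _, _, _, _, ⟨rfl, o, LD_.cst hA 2147483648 o (by omega), ?_, ?_⟩, h⟩
    · exact (hB.bt (m := 16) _ 16 (by omega) m).congr fun k hk => by
        rw [hB.get z hk (by omega), LD_.wv_eq _ _ (Nat.mod_lt _ (by omega))]
    · exact (hB.land _ m).congr fun k hk => by
        rw [z.eq k hk, LD_.tv_eq _ _ (Nat.mod_lt _ (by omega))]

end

section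


open Real

namespace LE_

theorem tb_la (w x k i : ℕ) : (la w x k).testBit i = (decide (i < w) && x.testBit (i + w * k)) := by
  rw [la, Nat.testBit_mod_two_pow, Nat.testBit_div_two_pow]

theorem refine {w m N x : ℕ} {F : ℕ → ℕ} (hm : 0 < m) (h : Rep (w * m) N x F) :
    Rep w (N * m) x fun i => la w (F (i / m)) (i % m) := by
  refine ⟨by have := h.lt; rwa [Nat.mul_assoc, Nat.mul_comm m N] at this, fun k hk => ?_⟩
  have hq : k / m < N := (Nat.div_lt_iff_lt_mul hm).2 hk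
  have hr : k % m < m := Nat.mod_lt _ hm
  rw [← h.eq _ hq]
  refine Nat.eq_of_testBit_eq fun i => ?_
  rw [tb_la, tb_la, tb_la]
  by_cases hi : i < w
  · have h1 : i + w * (k % m) < w * m := by
      calc i + w * (k % m) < w * (k % m + 1) := by rw [Nat.mul_add]; omega
        _ ≤ w * m := Nat.mul_le_mul_left _ hr
    have h2 : i + w * (k % m) + w * m * (k / m) = i + w * k := by
      rw [Nat.add_assoc, Nat.mul_assoc, ← Nat.mul_add, Nat.mod_add_div]
    rw [h2, decide_eq_true h1, Bool.true_and]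
  · rw [decide_eq_false hi, Bool.false_and, Bool.false_and]

theorem la_ones (w s r : ℕ) : la w (2 ^ (s * w) - 1) r = if r < s then 2 ^ w - 1 else 0 := by
  refine Nat.eq_of_testBit_eq fun i => ?_
  rw [tb_la, Nat.testBit_two_pow_sub_one]
  by_cases hi : i < w
  · split_ifs with h
    · have h1 : i + w * r < s * w := by
        calc i + w * r < w * (r + 1) := by rw [Nat.mul_add]; omega
          _ ≤ w * s := Nat.mul_le_mul_left _ h
          _ = s * w := Nat.mul_comm _ _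
      rw [Nat.testBit_two_pow_sub_one, decide_eq_true h1, Bool.and_true]
    · have h1 : ¬ i + w * r < s * w := by
        have : w * s ≤ w * r := Nat.mul_le_mul_left _ (Nat.le_of_not_lt h)
        rw [Nat.mul_comm s w]; omega
      rw [decide_eq_false h1, Bool.and_false, Nat.zero_testBit]
  · split_ifs with h
    · rw [Nat.testBit_two_pow_sub_one, decide_eq_false hi, Bool.false_and]
    · rw [decide_eq_false hi, Bool.false_and, Nat.zero_testBit]

theorem low (hA : LA) {w m s : ℕ} (N : ℕ) (hw : 0 < w) (hm : 0 < m) (hs : s ≤ m) :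
    Rep w (N * m) (on (w * m) N <<< (s * w) - on (w * m) N)
      fun i => if i % m < s then 2 ^ w - 1 else 0 := by
  have e : on (w * m) N <<< (s * w) - on (w * m) N = on (w * m) N * (2 ^ (s * w) - 1) := by
    rw [Nat.shiftLeft_eq, Nat.mul_sub, Nat.mul_one]
  have h1 : 2 ^ (s * w) ≤ 2 ^ (w * m) :=
    Nat.pow_le_pow_right (by decide) (by rw [Nat.mul_comm w m]; exact Nat.mul_le_mul_right _ hs)
  have h2 := Nat.two_pow_pos (s * w)
  rw [e]
  refine (refine hm (hA.mul (2 ^ (s * w) - 1) (hA.on (w * m) N (Nat.mul_pos hw hm))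
    fun k _ => by omega)).congr fun k _ => ?_
  rw [Nat.one_mul, la_ones]

theorem la_shr (w x j k : ℕ) : la w (x >>> (j * w)) k = la w x (k + j) := by
  refine Nat.eq_of_testBit_eq fun i => ?_
  rw [tb_la, tb_la, Nat.testBit_shiftRight]
  congr 2; ring

theorem la_shl (w x s k : ℕ) (h : s ≤ k) : la w (x <<< (s * w)) k = la w x (k - s) := by
  obtain ⟨d, rfl⟩ := Nat.exists_eq_add_of_le h
  refine Nat.eq_of_testBit_eq fun i => ?_
  have e : i + w * (s + d) = (i + w * d) + s * w := by ring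
  rw [tb_la, tb_la, Nat.testBit_shiftLeft, e, Nat.add_sub_cancel, Nat.add_sub_cancel_left,
    decide_eq_true (Nat.le_add_left _ _), Bool.true_and]

theorem la_and (w x k : ℕ) : la w x k &&& (2 ^ w - 1) = la w x k := by
  rw [Nat.and_two_pow_sub_one_eq_mod, la, Nat.mod_mod]

theorem hml (hA : LA) (N j : ℕ) :
    Rep 32 (N * 240) (ml N j) fun i => if i % 240 < 240 - j then 2 ^ 32 - 1 else 0 := by
  have h := low hA (w := 32) (m := 240) (s := 240 - j) N (by decide) (by decide) (Nat.sub_le _ _)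
  rw [show 32 * 240 = 7680 from rfl] at h
  exact h

theorem hmh (hA : LA) (N : ℕ) {j : ℕ} (hj : j ≤ 240) :
    Rep 32 (N * 240) (mh N j) fun i => if 240 ≤ i % 240 + j then 2 ^ 32 - 1 else 0 := by
  have h := hA.sub (hA.mul 4294967295 (hA.on 32 (N * 240) (by decide)) fun k _ => by decide)
    (hml hA N j) fun k _ => by split_ifs <;> decide
  refine Rep.congr h fun k _ => ?_
  split_ifs with h1 h2 h2 <;> first | rfl | omega

end LE_

theorem t_LE (hA : LA) (hB : LB) : LE := by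
  refine ⟨LE_.hmh hA, fun {N V f j} hV hj => ?_⟩
  have h1 := hB.land (V >>> (j * 32)) (LE_.hml hA N j)
  have h2 := hB.land (V <<< ((240 - j) * 32)) (LE_.hmh hA N hj)
  have key : ∀ k < N * 240,
      (la 32 (V >>> (j * 32)) k &&& if k % 240 < 240 - j then 2 ^ 32 - 1 else 0) +
        (la 32 (V <<< ((240 - j) * 32)) k &&& if 240 ≤ k % 240 + j then 2 ^ 32 - 1 else 0) =
      f (240 * (k / 240) + (k % 240 + j) % 240) := by
    intro k hk
    by_cases h : 240 ≤ k % 240 + j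
    · rw [if_pos h, if_neg (by omega), Nat.and_zero, Nat.zero_add, LE_.la_and,
        LE_.la_shl _ _ _ _ (by omega), hV.eq _ (by omega)]
      congr 1; omega
    · rw [if_neg h, if_pos (by omega), Nat.and_zero, Nat.add_zero, LE_.la_and, LE_.la_shr,
        hV.eq _ (by omega)]
      congr 1; omega
  exact (hA.add h1 h2 fun k hk => by rw [key k hk]; exact hV.bd (by omega)).congr key

end

section


open Real

namespace TR_

noncomputable def run : ℕ → ℕ → ℤ → ℤ → Bool
  | 0, _, _, _ => true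
  | n + 1, i, c, s => (decide (ch i = 0 ∨ (ch i : ℤ) * 2 ^ 40 + 2 ^ 36 ≤ 2 ^ 60 + c) &&
      decide (2 ^ 60 + c + 2 ^ 36 ≤ ((ch i : ℤ) + 2) * 2 ^ 40)) &&
      run n (i + 1) ((1125875791940262 * c - 7368945047619 * s) / 2 ^ 50) ((7368945047619 * c + 1125875791940262 * s) / 2 ^ 50)

theorem run_ok : run 1920 0 (2 ^ 60) 0 = true := by decide +kernel

noncomputable def z : ℂ := Complex.exp ((π / 480 : ℝ) * Complex.I)
noncomputable def w : ℂ := ⟨1125875791940262 / 2 ^ 50, 7368945047619 / 2 ^ 50⟩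

theorem w_le : ‖w‖ ≤ 1 := by
  rw [← sq_le_one_iff₀ (norm_nonneg _), Complex.sq_norm, Complex.normSq_apply, w]; norm_num

theorem wz : ‖w - z‖ ≤ 1 / 10 ^ 12 := by
  set e : ℝ := 6544984694978735 / 10 ^ 18 with he
  have h1 := Complex.exp_bound (x := (e : ℂ) * Complex.I) (by simp [he]; norm_num) (n := 5)
    (by norm_num)
  have h2 : ∑ m ∈ Finset.range 5, ((e : ℂ) * Complex.I) ^ m / (m.factorial : ℂ) =
      ⟨1 - e ^ 2 / 2 + e ^ 4 / 24, e - e ^ 3 / 6⟩ := by
    simp only [Finset.sum_range_succ, Finset.sum_range_zero, Nat.factorial, mul_pow]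
    apply Complex.ext <;> simp [pow_succ] <;> ring
  have h3 : ‖(e : ℂ) * Complex.I‖ = e := by simp [he]
  rw [h2, h3] at h1
  have h4 : ‖w - ⟨1 - e ^ 2 / 2 + e ^ 4 / 24, e - e ^ 3 / 6⟩‖ ≤ 1 / 10 ^ 14 := by
    refine (Complex.norm_le_abs_re_add_abs_im _).trans ?_
    simp only [w, Complex.sub_re, Complex.sub_im, he]
    norm_num [abs_of_nonpos]
  have h5 : ‖Complex.exp (e * Complex.I) - z‖ ≤ 1 / 10 ^ 14 := by
    refine (Complex.norm_le_abs_re_add_abs_im _).trans ?_
    simp only [z, Complex.sub_re, Complex.sub_im, Complex.exp_ofReal_mul_I_re,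
      Complex.exp_ofReal_mul_I_im]
    have h6 : |e - π / 480| ≤ 1 / 10 ^ 15 := by
      have := pi_gt_d20; have := pi_lt_d20
      rw [abs_le, he]; constructor <;> linarith
    have := abs_cos_sub_cos_le e (π / 480); have := abs_sin_sub_sin_le e (π / 480)
    linarith
  have h7 : e ^ 5 * (((5 : ℕ).succ : ℝ) * (((5 : ℕ).factorial : ℝ) * (5 : ℕ))⁻¹) ≤ 2 / 10 ^ 13 := by
    rw [he]; norm_num [Nat.factorial]
  have h8 := norm_sub_le_norm_sub_add_norm_sub w
    ⟨1 - e ^ 2 / 2 + e ^ 4 / 24, e - e ^ 3 / 6⟩ z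
  have h9 := norm_sub_le_norm_sub_add_norm_sub
    (⟨1 - e ^ 2 / 2 + e ^ 4 / 24, e - e ^ 3 / 6⟩ : ℂ) (Complex.exp (e * Complex.I)) z
  rw [norm_sub_rev] at h1
  linarith

theorem fl (x : ℤ) : |((x / 2 ^ 50 : ℤ) : ℝ) / 2 ^ 60 - x / 2 ^ 110| ≤ 1 / 2 ^ 60 := by
  have h1 : ((2 ^ 50 * (x / 2 ^ 50) + x % 2 ^ 50 : ℤ) : ℝ) = x := by
    rw [Int.mul_ediv_add_emod]
  have h2 : (0 : ℝ) ≤ (x % 2 ^ 50 : ℤ) := by exact_mod_cast Int.emod_nonneg x (by norm_num)
  have h3 : ((x % 2 ^ 50 : ℤ) : ℝ) ≤ 2 ^ 50 := by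
    exact_mod_cast (Int.emod_lt_of_pos x (by norm_num)).le
  rw [Int.cast_add, Int.cast_mul] at h1
  generalize ((x / 2 ^ 50 : ℤ) : ℝ) = q at *
  generalize ((x % 2 ^ 50 : ℤ) : ℝ) = r at *
  push_cast at h1
  rw [abs_le]; constructor <;> linarith

theorem sound (n : ℕ) : ∀ (i : ℕ) (c s : ℤ), run n i c s = true → i + n ≤ 1920 →
    ‖(⟨c / 2 ^ 60, s / 2 ^ 60⟩ : ℂ) - z ^ i‖ ≤ i * (2 / 10 ^ 12) → ∀ j, i ≤ j → j < i + n →
    (ch j : ℝ) ≤ 2 ^ 20 * (1 + cos (j * (π / 480))) ∧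
      2 ^ 20 * (1 + cos (j * (π / 480))) ≤ (ch j : ℝ) + 2 := by
  induction n with
  | zero => intro i c s _ _ _ j h1 h2; omega
  | succ n ih =>
    intro i c s hr hn he j h1 h2
    simp only [run, Bool.and_eq_true, decide_eq_true_eq] at hr
    obtain ⟨⟨ha, hb⟩, hc⟩ := hr
    have hz : z ^ i = Complex.exp ((i * (π / 480) : ℝ) * Complex.I) := by
      rw [z, ← Complex.exp_nat_mul]; push_cast; ring_nf
    rcases h1.eq_or_lt with rfl | h1
    · have h3 := (Complex.abs_re_le_norm _).trans he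
      rw [Complex.sub_re, hz, Complex.exp_ofReal_mul_I_re, abs_le] at h3
      have h4 : (i : ℝ) ≤ 1920 := by exact_mod_cast (by omega : i ≤ 1920)
      have hb' : (2 : ℝ) ^ 60 + c + 2 ^ 36 ≤ ((ch i : ℝ) + 2) * 2 ^ 40 := by exact_mod_cast hb
      refine ⟨?_, by linarith [h3.1, h3.2]⟩
      rcases ha with ha | ha
      · rw [ha]; have := neg_one_le_cos (i * (π / 480)); push_cast; linarith
      · have ha' : (ch i : ℝ) * 2 ^ 40 + 2 ^ 36 ≤ 2 ^ 60 + c := by exact_mod_cast ha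
        linarith [h3.1, h3.2]
    · refine ih (i + 1) _ _ hc (by omega) ?_ j h1 (by omega)
      set x : ℂ := ⟨c / 2 ^ 60, s / 2 ^ 60⟩ with hx
      have h3 : ‖(⟨(((1125875791940262 * c - 7368945047619 * s) / 2 ^ 50 : ℤ) : ℝ) / 2 ^ 60,
          (((7368945047619 * c + 1125875791940262 * s) / 2 ^ 50 : ℤ) : ℝ) / 2 ^ 60⟩ : ℂ) - w * x‖ ≤ 1 / 10 ^ 12 := by
        refine (Complex.norm_le_abs_re_add_abs_im _).trans ?_
        have e1 := fl (1125875791940262 * c - 7368945047619 * s)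
        have e2 := fl (7368945047619 * c + 1125875791940262 * s)
        have e3 : (w * x).re = ((1125875791940262 * c - 7368945047619 * s : ℤ) : ℝ) / 2 ^ 110 := by
          simp only [Complex.mul_re, w, hx]; push_cast; ring
        have e4 : (w * x).im = ((7368945047619 * c + 1125875791940262 * s : ℤ) : ℝ) / 2 ^ 110 := by
          simp only [Complex.mul_im, w, hx]; push_cast; ring
        rw [Complex.sub_re, Complex.sub_im, e3, e4]
        linarith
      have h4 : ‖w * x - z ^ (i + 1)‖ ≤ i * (2 / 10 ^ 12) + 1 / 10 ^ 12 := by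
        have e : w * x - z ^ (i + 1) = w * (x - z ^ i) + (w - z) * z ^ i := by ring
        rw [e]
        refine (norm_add_le _ _).trans (add_le_add ?_ ?_)
        · rw [norm_mul]; exact (mul_le_of_le_one_left (norm_nonneg _) w_le).trans he
        · rw [norm_mul, hz, Complex.norm_exp_ofReal_mul_I, mul_one]; exact wz
      refine (norm_sub_le_norm_sub_add_norm_sub _ (w * x) _).trans ?_
      push_cast at h3 h4 ⊢
      linarith

end TR_

theorem t_TR : S_TR := fun i hi =>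
  TR_.sound 1920 0 _ _ TR_.run_ok le_rfl (by
    simp only [pow_zero, Nat.cast_zero, zero_mul, norm_le_zero_iff]
    apply Complex.ext <;> norm_num) i (Nat.zero_le _) (by omega)

end

section


open Real

namespace FA_

theorem ev_op {k : ℕ} (hk : k < 480) : ev ((k + 240) % 480) = -ev k := by
  by_cases h : k < 240
  · rw [Nat.mod_eq_of_lt (by omega), ev_half]
  · obtain ⟨j, rfl⟩ : ∃ j, k = j + 240 := ⟨k - 240, by omega⟩
    rw [show (j + 240 + 240) % 480 = j by omega, ev_half, neg_neg]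

theorem dt_neg (φ x : ℝ × ℝ) : dt (-φ) x = dt φ (-x) := by
  simp only [dt, Prod.fst_neg, Prod.snd_neg]; ring

theorem hng (hD : LD) {ν : SN} {l m : ℝ} {φ : ℝ × ℝ} {F lo : ℕ} (h : V4 ν l m φ F lo) :
    V4 ν l m (-φ) (ng F) lo := by
  obtain ⟨hd, f, hr, hb, hv⟩ := h
  refine ⟨fun x => ?_, _, hD.ng hr, fun i hi => hb _ (by omega), fun k hk => ?_⟩
  · rw [dt_neg, ← map_neg_eq_map ν x]; exact hd _
  · have := hv ((k + 240) % 480) (Nat.mod_lt _ (by norm_num))
    rw [ev_op hk, ← dt_neg] at this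
    rw [show 480 * (k / 480) + (k % 480 + 240) % 480 = (k + 240) % 480 by omega,
      show 480 * ((480 + k) / 480) + ((480 + k) % 480 + 240) % 480 = 480 + (k + 240) % 480 by omega,
      show 480 * ((960 + k) / 480) + ((960 + k) % 480 + 240) % 480 = 960 + (k + 240) % 480 by omega,
      show 480 * ((1440 + k) / 480) + ((1440 + k) % 480 + 240) % 480 = 1440 + (k + 240) % 480 by
        omega]
    exact this

theorem hsel (hD : LD) {ν : SN} {l m : ℝ} {F : List ℕ} {lo e : ℕ}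
    (h : ∃ φ, V4 ν l m φ (F.getD (e >>> 1) 0) lo) : ∃ φ, V4 ν l m φ (sel F e) lo := by
  obtain ⟨φ, h⟩ := h
  rw [sel, cn_eq, gt_eq]
  split_ifs
  · exact ⟨φ, h⟩
  · exact ⟨-φ, hng hD h⟩

theorem hzero (ν : SN) (l m : ℝ) : V4 ν l m 0 0 0 := by
  refine ⟨fun x => ?_, _, Rep.zero 32 1920, fun i _ => ⟨le_rfl, by norm_num⟩, fun k _ => ?_⟩
  · simp [dt]
  · simp [bil, dt]

theorem lane (a b t : ℕ) (ht : t ≤ 256) :
    (((a * t + b * (256 - t)) / 2 ^ 8 % 2 ^ 16 : ℕ) : ℝ) ≤ t / 256 * a + (1 - t / 256) * b := by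
  have h1 : (((a * t + b * (256 - t)) / 2 ^ 8 % 2 ^ 16 : ℕ) : ℝ) ≤
      (((a * t + b * (256 - t)) / 2 ^ 8 : ℕ) : ℝ) := Nat.cast_le.2 (Nat.mod_le _ _)
  have h2 : (((a * t + b * (256 - t)) / 2 ^ 8 : ℕ) : ℝ) ≤
      ((a * t + b * (256 - t) : ℕ) : ℝ) / ((2 ^ 8 : ℕ) : ℝ) := Nat.cast_div_le
  rw [Nat.cast_add, Nat.cast_mul, Nat.cast_mul, Nat.cast_sub ht] at h2
  push_cast at h2
  refine h1.trans (le_trans (le_of_eq (by push_cast; rfl)) (h2.trans (le_of_eq (by ring))))

theorem bil_mono {l m a b c d a' b' c' d' : ℝ} (u : U2 l m) (ha : a ≤ a') (hb : b ≤ b')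
    (hc : c ≤ c') (hd : d ≤ d') : bil l m a b c d ≤ bil l m a' b' c' d' := by
  obtain ⟨l0, l1, m0, m1⟩ := u
  have l2 := sub_nonneg.2 l1
  have m2 := sub_nonneg.2 m1
  unfold bil
  gcongr

theorem hcmb (hA : LA) (hB : LB) (hC : LC) {ν : SN} {l m : ℝ} {φ ψ : ℝ × ℝ} {x y t : ℕ}
    (u : U2 l m) (h1 : V4 ν l m φ x 0) (h2 : V4 ν l m ψ y 0) (ht : t ≤ 256) :
    ∃ χ, V4 ν l m χ (cmb t x y) 0 := by
  obtain ⟨d1, f, rf, bf, vf⟩ := h1
  obtain ⟨d2, g, rg, bg, vg⟩ := h2
  have t0 : (0 : ℝ) ≤ t / 256 := by positivity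
  have t1 : (0 : ℝ) ≤ 1 - t / 256 := by
    have : (t : ℝ) ≤ 256 := by exact_mod_cast ht
    linarith
  have e1 : ∀ k < 1920, f k * t ≤ 65536 * 256 := fun k hk => Nat.mul_le_mul (bf k hk).2.le ht
  have e2 : ∀ k < 1920, g k * (256 - t) ≤ 65536 * 256 := fun k hk =>
    Nat.mul_le_mul (bg k hk).2.le (Nat.sub_le _ _)
  have r1 := hA.add (hA.mul t rf fun k hk => (e1 k hk).trans_lt (by norm_num))
    (hA.mul (256 - t) rg fun k hk => (e2 k hk).trans_lt (by norm_num))
    fun k hk => (Nat.add_le_add (e1 k hk) (e2 k hk)).trans_lt (by norm_num)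
  have r2 := (hB.bt (m := 16) (x * t + y * (256 - t)) 8 (by norm_num) hC.m6).congr
    fun k hk => hB.get (s := 8) (m := 16) r1 hk (by norm_num)
  have ed : ∀ z, dt (((t : ℝ) / 256) • φ + (1 - (t : ℝ) / 256) • ψ) z =
      t / 256 * dt φ z + (1 - t / 256) * dt ψ z := fun z => by
    simp only [dt, Prod.fst_add, Prod.snd_add, Prod.smul_fst, Prod.smul_snd, smul_eq_mul]; ring
  refine ⟨((t : ℝ) / 256) • φ + (1 - (t : ℝ) / 256) • ψ, fun z => ?_, _, r2,
    fun i _ => ⟨Nat.zero_le _, Nat.mod_lt _ (by norm_num)⟩, fun k hk => ?_⟩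
  · rw [ed]
    have a1 := mul_le_mul_of_nonneg_left (d1 z) t0
    have a2 := mul_le_mul_of_nonneg_left (d2 z) t1
    linarith
  · refine (bil_mono u (lane _ _ t ht) (lane _ _ t ht) (lane _ _ t ht) (lane _ _ t ht)).trans ?_
    have a1 := mul_le_mul_of_nonneg_left (vf k hk) t0
    have a2 := mul_le_mul_of_nonneg_left (vg k hk) t1
    rw [ed]
    unfold bil at a1 a2 ⊢
    linarith

end FA_

theorem t_FA (hA : LA) (hB : LB) (hC : LC) (hD : LD) : FA where
  ng h := FA_.hng hD h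
  sel {ν l m F} e h := by
    refine FA_.hsel hD ?_
    by_cases hi : e >>> 1 < F.length
    · rw [List.getD_eq_getElem _ _ hi]; exact h _ (List.getElem_mem hi)
    · rw [List.getD_eq_default _ _ (not_lt.1 hi)]; exact ⟨0, FA_.hzero ν l m⟩
  s6 {ν l m φ ψ χ a b c} k i h1 h2 h3 := by
    refine FA_.hsel hD ?_
    have h : ∀ e, e < 6 → ∃ ξ, V4 ν l m ξ ([a, b, c].getD (e >>> 1) 0) 16384 := by
      intro e he
      interval_cases e
      exacts [⟨φ, h1⟩, ⟨φ, h1⟩, ⟨ψ, h2⟩, ⟨ψ, h2⟩, ⟨χ, h3⟩, ⟨χ, h3⟩]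
    exact h _ (Nat.mod_lt _ (by norm_num))
  cmb u h1 h2 ht := FA_.hcmb hA hB hC u h1 h2 ht

end

section


open Real

namespace FB_

theorem le_bil {l m x a b c d : ℝ} (h : U2 l m) (ha : x ≤ a) (hb : x ≤ b) (hc : x ≤ c)
    (hd : x ≤ d) : x ≤ bil l m a b c d := by
  obtain ⟨h1, h2, h3, h4⟩ := h
  have e1 : x ≤ (1 - m) * a + m * b := by
    linarith [mul_le_mul_of_nonneg_left ha (sub_nonneg.2 h4), mul_le_mul_of_nonneg_left hb h3]
  have e2 : x ≤ (1 - m) * c + m * d := by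
    linarith [mul_le_mul_of_nonneg_left hc (sub_nonneg.2 h4), mul_le_mul_of_nonneg_left hd h3]
  unfold bil
  linarith [mul_le_mul_of_nonneg_left e1 (sub_nonneg.2 h2), mul_le_mul_of_nonneg_left e2 h1]

theorem nu_mod (ν : SN) (i : ℕ) : ν (ev i) = ν (ev (i % 240)) := by
  have : ∀ q r : ℕ, ν (ev (r + 240 * q)) = ν (ev r) := by
    intro q r
    induction q with
    | zero => rfl
    | succ q ih => rw [Nat.mul_succ, ← Nat.add_assoc, nu_half, ih]
  rw [← this (i / 240) (i % 240), Nat.mod_add_div]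

end FB_

theorem t_FB (hA : LA) (hB : LB) (hC : LC) (hD : LD) : FB := by
  refine ⟨?_, ?_, ?_, ?_, ?_⟩
  · rintro ν r l m ⟨φ, f, h1, h2, h3⟩
    refine ⟨φ, h1, _, hD.c4 h2 h2 h2 h2, fun i hi => ⟨Nat.zero_le _, ?_⟩, fun k hk => ?_⟩
    · split_ifs <;> exact (h3 _ (by omega)).1
    · rw [if_pos hk, if_neg (by omega), if_pos (by omega), if_neg (by omega), if_neg (by omega),
        if_pos (by omega), if_neg (by omega), if_neg (by omega), if_neg (by omega),
        Nat.add_sub_cancel_left, Nat.add_sub_cancel_left, Nat.add_sub_cancel_left]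
      refine le_trans (le_of_eq ?_) (h3 k hk).2
      unfold bil; ring
  · rintro ν r ⟨φ, f, h1, h2, h3⟩
    exact ⟨f, h2, fun k hk => ⟨(h3 k hk).1, by linarith [(h3 k hk).2, h1 (ev k)]⟩⟩
  · rintro ν l m φ v lo hu ⟨h1, f, h2, h3, h4⟩
    have b : ∀ s ≤ 3, ∀ k < 480, f (480 * s + k) < 2 ^ 31 := fun s hs k hk => by
      have := (h3 (480 * s + k) (by omega)).2; omega
    have r1 := hC.mn2 (hD.b4 0 h2 (by omega)) (hD.b4 1 h2 (by omega)) (b 0 (by omega))
      (b 1 (by omega))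
    have r2 := hC.mn2 (hD.b4 2 h2 (by omega)) (hD.b4 3 h2 (by omega)) (b 2 (by omega))
      (b 3 (by omega))
    refine ⟨_, hC.mn2 r1 r2 (fun k hk => (min_le_left _ _).trans_lt (b 0 (by omega) k hk))
      (fun k hk => (min_le_left _ _).trans_lt (b 2 (by omega) k hk)), fun k hk => ⟨?_, ?_⟩⟩
    · exact ((min_le_left _ _).trans (min_le_left _ _)).trans_lt (h3 _ (by omega)).2
    · refine le_trans (FB_.le_bil hu ?_ ?_ ?_ ?_) ((h4 k hk).trans (by linarith [h1 (ev k)])) <;>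
        refine Nat.cast_le.2 ?_ <;> simp only [Nat.reduceMul, Nat.zero_add] <;> omega
  · rintro ν x y ⟨f, h1, h2⟩ ⟨g, h3, h4⟩
    refine ⟨_, hC.mx2 h1 h3 (fun k hk => by have := (h2 k hk).1; omega)
      (fun k hk => by have := (h4 k hk).1; omega), fun k hk =>
      ⟨max_lt (h2 k hk).1 (h4 k hk).1, ?_⟩⟩
    rw [Nat.cast_max]
    exact max_le (h2 k hk).2 (h4 k hk).2
  · rintro ν U L ⟨f, h1, h2⟩ hw i
    have s := hB.shr 240 h1
    have r1 := hC.mx2 h1 s (fun k hk => by have := (h2 k hk).1; omega) (fun k hk => by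
      split_ifs with h
      · have := (h2 _ h).1; omega
      · omega)
    have m1 : Rep 32 240 (O2 * 65535) fun _ => 2 ^ 16 - 1 :=
      (hA.mul 65535 hC.o2 (by intros; omega)).congr fun _ _ => rfl
    have r2 := hB.bt (m := 16) L 16 (by omega) m1
    have bl : ∀ k, bt L (16 + 32 * k) (2 ^ 16 - 1) ≤ 65535 := fun k => bt_le _ _ _
    have r3 := hA.add r2 (hA.mul 32768 hC.o2 (by intros; omega)) (fun k _ => by
      have := bl k; omega)
    have g := hC.ge (w := 31) hC.h4 r1 (hA.ext r3 (m := 480) (by omega)) (fun k hk => by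
      have := (h2 k hk).1
      split_ifs with h
      · have := (h2 _ h).1; omega
      · omega) (fun k _ => by have := bl k; split_ifs <;> omega) hw (i % 240) (by omega)
    have hi : i % 240 < 240 := Nat.mod_lt _ (by omega)
    rw [if_pos hi, if_pos (by omega), Nat.add_comm 16] at g
    have a1 := (h2 (i % 240) (by omega)).2
    have a2 := (h2 (i % 240 + 240) (by omega)).2
    rw [nu_half] at a2
    have g' : ((wv L i + 1 * 32768 : ℕ) : ℝ) ≤ (max (f (i % 240)) (f (i % 240 + 240)) : ℕ) :=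
      Nat.cast_le.2 g
    rw [Nat.cast_max] at g'
    have := g'.trans (max_le a1 a2)
    push_cast at this
    rw [FB_.nu_mod]
    linarith

end

section


open Real

namespace O1_

theorem bil_le {l m a b c d a' b' c' d' : ℝ} (h : U2 l m) (ha : a ≤ a') (hb : b ≤ b') (hc : c ≤ c')
    (hd : d ≤ d') : bil l m a b c d ≤ bil l m a' b' c' d' := by
  obtain ⟨h1, h2, h3, h4⟩ := h
  have h5 := sub_nonneg.2 h2
  have h6 := sub_nonneg.2 h4
  unfold bil
  gcongr

theorem lane {N z m : ℕ} (hz : 8192 ≤ z) (hm : 0 < m)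
    (h : m ≤ if 8192 ≤ z then (N * z - (z * 65536 - 536870912)) / 16384 % 65536 else 0) :
    ((m : ℝ) - 32768) * (268435456 / z) ≤ 16384 * (N - 65536) := by
  rw [if_pos hz] at h
  have h1 : m * 16384 + z * 65536 ≤ N * z + 536870912 := by
    generalize N * z = P at *
    omega
  have h2 : (m : ℝ) * 16384 + z * 65536 ≤ N * z + 536870912 := by exact_mod_cast h1
  have h3 : (0 : ℝ) < z := by exact_mod_cast (by omega : 0 < z)
  rw [← mul_div_assoc, div_le_iff₀ h3]
  linarith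

theorem zf_le (y : ℕ) : zf y ≤ 16384 := by
  rw [zf, mn_eq]; exact min_le_left _ _

theorem zf_y {B a : ℕ} (hz : 8192 ≤ zf (B + 65536 - a)) :
    (B : ℝ) + 65536 - a ≤ 268435456 / zf (B + 65536 - a) ∧
      (1 : ℝ) ≤ 268435456 / zf (B + 65536 - a) := by
  have h0 := zf_le (B + 65536 - a)
  have h1 : zf (B + 65536 - a) ≤ 268435456 / (B + 65536 - a) := by
    rw [zf, mn_eq]; exact min_le_right _ _
  have h2 : zf (B + 65536 - a) * (B + 65536 - a) ≤ 268435456 :=
    (Nat.mul_le_mul_right _ h1).trans (Nat.div_mul_le_self _ _)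
  have h3 : (B : ℝ) + 65536 ≤ (B + 65536 - a : ℕ) + a := by
    exact_mod_cast (by omega : B + 65536 ≤ B + 65536 - a + a)
  generalize zf (B + 65536 - a) = z at *
  generalize B + 65536 - a = y at *
  have h4 : (0 : ℝ) < z := by exact_mod_cast (by omega : 0 < z)
  have h5 : (z : ℝ) * y ≤ 268435456 := by exact_mod_cast h2
  have h6 : (z : ℝ) ≤ 16384 := by exact_mod_cast h0
  rw [le_div_iff₀ h4, le_div_iff₀ h4]
  exact ⟨by nlinarith, by linarith⟩

theorem ev_neg {k : ℕ} (hk : k < 480) : ev ((k + 240) % 480) = -ev k := by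
  rcases lt_or_ge k 240 with h | h
  · rw [Nat.mod_eq_of_lt (by omega), ev_half]
  · obtain ⟨j, rfl⟩ := Nat.exists_eq_add_of_le' h
    rw [show (j + 240 + 240) % 480 = j by omega, ev_half, neg_neg]

theorem homog {ν : SN} {φ : ℝ × ℝ} {Y : ℝ} (hY : 0 < Y)
    (h : ∀ x, ν x ≤ 1 → 16384 * dt φ x ≤ Y) : Du ν ((16384 / Y) • φ) := by
  intro x
  have e : dt ((16384 / Y) • φ) x = 16384 * dt φ x / Y := by
    simp only [dt, Prod.smul_fst, Prod.smul_snd, smul_eq_mul]; ring
  rw [e, div_le_iff₀ hY]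
  by_contra hc
  rw [not_le] at hc
  have h0 : 0 ≤ ν x * Y := mul_nonneg (apply_nonneg ν x) hY.le
  have h1 : 0 < 16384 * dt φ x + ν x * Y := by linarith
  have h2 := h ((2 * Y / (16384 * dt φ x + ν x * Y)) • x) (by
    rw [smul_nn ν (by positivity), div_mul_eq_mul_div, div_le_one h1]; linarith)
  have e2 : 16384 * dt φ ((2 * Y / (16384 * dt φ x + ν x * Y)) • x) =
      Y * (2 * (16384 * dt φ x)) / (16384 * dt φ x + ν x * Y) := by
    generalize 16384 * dt φ x + ν x * Y = s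
    simp only [dt, Prod.smul_fst, Prod.smul_snd, smul_eq_mul]; ring
  rw [e2, div_le_iff₀ h1] at h2
  have := le_of_mul_le_mul_left h2 hY
  linarith

/-- the scale of block `s` -/
noncomputable def zz (B k : ℕ) (F G : ℕ → ℕ) (s : ℕ) : ℕ :=
  zf (B + 65536 - (F (s + k) + G (s + (k + 240) % 480)))

/-- the lanes of block `s` -/
noncomputable def ll (B k : ℕ) (F G : ℕ → ℕ) (s j : ℕ) : ℕ :=
  if 8192 ≤ zz B k F G s then ((F (s + j) + G (s + j)) * zz B k F G s -
    (zz B k F G s * 65536 - 536870912)) / 16384 % 65536 else 0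

theorem ll_lt (B k : ℕ) (F G : ℕ → ℕ) (s j : ℕ) : ll B k F G s j < 65536 := by
  unfold ll
  split_ifs
  · exact Nat.mod_lt _ (by norm_num)
  · norm_num

theorem ov_rep (hA : LA) (hB : LB) (hC : LC) (hD : LD) (B : ℕ) {f g k : ℕ} {F G : ℕ → ℕ}
    (hf : Rep 32 1920 f F) (hg : Rep 32 1920 g G) (bf : ∀ i < 1920, F i < 65536)
    (bg : ∀ i < 1920, G i < 65536) (hk : k < 480) (s : ℕ) (hs : s ≤ 3) :
    Rep 32 480 (ov B f g (f + g) (k * 32) ((k + 240) % 480 * 32) (15360 * s))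
      (ll B k F G (480 * s)) := by
  have get : ∀ {x X} (i : ℕ), Rep 32 1920 x X → i < 480 →
      bt x (15360 * s + i * 32) 4294967295 = X (480 * s + i) := fun {x X} i hx hi => by
    have h1 : 480 * s + i < 1920 := by omega
    have := hB.get (s := 0) (m := 32) hx h1 le_rfl
    rw [pow_zero, Nat.div_one, Nat.mod_eq_of_lt (hx.bd h1),
      show 0 + 32 * (480 * s + i) = 15360 * s + i * 32 by omega] at this
    exact this
  have hn := hA.add hf hg fun i hi => by
    have := bf i hi; have := bg i hi; omega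
  have e : ov B f g (f + g) (k * 32) ((k + 240) % 480 * 32) (15360 * s) =
      sc1 O4 H4 M4 (bt (f + g) (15360 * s) L4) (zf (B + 65536 -
        (bt f (15360 * s + k * 32) 4294967295 +
          bt g (15360 * s + (k + 240) % 480 * 32) 4294967295))) := rfl
  rw [e, get k hf hk, get _ hg (Nat.mod_lt _ (by norm_num))]
  exact hC.sc1 hC.o4 hC.h4 hC.m4 (hD.b4 s hn hs) (fun j hj => by
    have := bf (480 * s + j) (by omega); have := bg (480 * s + j) (by omega); omega) (zf_le _)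

end O1_

open O1_ in
theorem t_O1 (hA : LA) (hB : LB) (hC : LC) (hD : LD) : S_O1 := by
  intro ν B l m φ ψ f g k hN hU ⟨dφ, F, hf, bf, iF⟩ ⟨dψ, G, hg, bg, iG⟩ hk
  have R := ov_rep hA hB hC hD B hf hg (fun i hi => (bf i hi).2) (fun i hi => (bg i hi).2) hk
  have b31 : ∀ s j, ll B k F G s j < 2 ^ 31 := fun s j => (ll_lt B k F G s j).trans (by norm_num)
  have hR := hC.mn2 (hC.mn2 (R 0 (by norm_num)) (R 1 (by norm_num)) (fun j _ => b31 _ j)
      fun j _ => b31 _ j) (hC.mn2 (R 2 (by norm_num)) (R 3 le_rfl) (fun j _ => b31 _ j)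
      fun j _ => b31 _ j) (fun j _ => (min_le_left _ _).trans_lt (b31 _ j))
      fun j _ => (min_le_left _ _).trans_lt (b31 _ j)
  have e : o1 B f g k = mn2 (mn2 (ov B f g (f + g) (k * 32) ((k + 240) % 480 * 32) (15360 * 0))
      (ov B f g (f + g) (k * 32) ((k + 240) % 480 * 32) (15360 * 1)))
      (mn2 (ov B f g (f + g) (k * 32) ((k + 240) % 480 * 32) (15360 * 2))
      (ov B f g (f + g) (k * 32) ((k + 240) % 480 * 32) (15360 * 3))) := by
    simp only [Nat.reduceMul]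
    rfl
  rw [← e] at hR
  simp only [Nat.reduceMul] at hR
  have lt : ∀ j, min (min (ll B k F G 0 j) (ll B k F G 480 j))
      (min (ll B k F G 960 j) (ll B k F G 1440 j)) < 65536 := fun j =>
    ((min_le_left _ _).trans (min_le_left _ _)).trans_lt (ll_lt _ _ _ _ _ _)
  by_cases hz : 8192 ≤ zz B k F G 0 ∧ 8192 ≤ zz B k F G 480 ∧ 8192 ≤ zz B k F G 960 ∧
      8192 ≤ zz B k F G 1440
  · obtain ⟨z0, z1, z2, z3⟩ := hz
    obtain ⟨y0, p0⟩ := zf_y z0
    obtain ⟨y1, p1⟩ := zf_y z1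
    obtain ⟨y2, p2⟩ := zf_y z2
    obtain ⟨y3, p3⟩ := zf_y z3
    rw [← zz] at y0 y1 y2 y3 p0 p1 p2 p3
    have hy := bil_le hU y0 y1 y2 y3
    have hp := bil_le hU p0 p1 p2 p3
    have hl : ∀ j (c : ℕ), 0 < c → c ≤ min (min (ll B k F G 0 j) (ll B k F G 480 j))
        (min (ll B k F G 960 j) (ll B k F G 1440 j)) → _ := fun j c h0 hc => bil_le hU
      (lane z0 h0 (hc.trans ((min_le_left _ _).trans (min_le_left _ _))))
      (lane z1 h0 (hc.trans ((min_le_left _ _).trans (min_le_right _ _))))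
      (lane z2 h0 (hc.trans ((min_le_right _ _).trans (min_le_left _ _))))
      (lane z3 h0 (hc.trans ((min_le_right _ _).trans (min_le_right _ _))))
    generalize (268435456 : ℝ) / zz B k F G 0 = Y0 at *
    generalize (268435456 : ℝ) / zz B k F G 480 = Y1 at *
    generalize (268435456 : ℝ) / zz B k F G 960 = Y2 at *
    generalize (268435456 : ℝ) / zz B k F G 1440 = Y3 at *
    have hY : 0 < bil l m Y0 Y1 Y2 Y3 := lt_of_lt_of_le (by unfold bil; linarith) hp
    have hd : Du ν ((16384 / bil l m Y0 Y1 Y2 Y3) • (φ + ψ)) := homog hY fun x hx => by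
      have h1 := hN.lam x (ev k) hx (hN.le.ev k)
      have h2 := dφ (x + ev k)
      have h3 := dψ (x - ev k)
      have h4 := iF k hk
      have h5 := iG _ (Nat.mod_lt (k + 240) (by norm_num))
      rw [ev_neg hk] at h5
      refine le_trans ?_ hy
      push_cast
      simp only [dt, bil, zero_add, Prod.fst_add, Prod.snd_add, Prod.fst_sub, Prod.snd_sub,
        Prod.fst_neg, Prod.snd_neg] at h2 h3 h4 h5 ⊢
      linarith
    refine ⟨_, _, hd, hR, fun j hj => ⟨lt j, ?_⟩⟩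
    have hl := fun h => hl j _ h le_rfl
    generalize min (min (ll B k F G 0 j) (ll B k F G 480 j))
      (min (ll B k F G 960 j) (ll B k F G 1440 j)) = c at hl ⊢
    rcases Nat.eq_zero_or_pos c with rfl | h0
    · have h1 := hd (-ev j)
      have h2 := hN.le.ev j
      rw [map_neg_eq_map] at h1
      generalize (16384 / bil l m Y0 Y1 Y2 Y3) • (φ + ψ) = χ at h1 ⊢
      simp only [dt, Prod.fst_neg, Prod.snd_neg, Nat.cast_zero] at h1 ⊢
      linarith
    · have h1 := hl h0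
      have h4 := iF j hj
      have h5 := iG j hj
      have h6 : ((c : ℝ) - 32768) * bil l m Y0 Y1 Y2 Y3 ≤ 16384 * (16384 * dt (φ + ψ) (ev j)) := by
        push_cast at h1
        simp only [dt, bil, zero_add, Prod.fst_add, Prod.snd_add] at h1 h4 h5 ⊢
        linarith
      have e2 : dt ((16384 / bil l m Y0 Y1 Y2 Y3) • (φ + ψ)) (ev j) =
          16384 * dt (φ + ψ) (ev j) / bil l m Y0 Y1 Y2 Y3 := by
        generalize φ + ψ = χ
        simp only [dt, Prod.smul_fst, Prod.smul_snd, smul_eq_mul]; ring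
      rw [e2, ← mul_div_assoc, ← sub_le_iff_le_add, le_div_iff₀ hY]
      exact h6
  · refine ⟨0, _, fun x => by simp [dt], hR, fun j _ => ⟨lt j, ?_⟩⟩
    have : min (min (ll B k F G 0 j) (ll B k F G 480 j))
        (min (ll B k F G 960 j) (ll B k F G 1440 j)) = 0 := by
      simp only [not_and_or] at hz
      rcases hz with h | h | h | h <;> simp [ll, h]
    rw [this]
    simp [dt]

end

section


open Real

namespace FH_

theorem du_of_unit {ν : SN} {χ : ℝ × ℝ} (h : ∀ x, ν x ≤ 1 → dt χ x ≤ 1) : Du ν χ := by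
  intro x
  by_contra hc
  rw [not_le] at hc
  have h0 : 0 ≤ ν x := apply_nonneg ν x
  obtain ⟨t, h1, h2⟩ := exists_between hc
  have ht : 0 < t := lt_of_le_of_lt h0 h1
  have h3 : ν (t⁻¹ • x) ≤ 1 := by
    rw [smul_nn ν (inv_nonneg.2 ht.le), inv_mul_le_iff₀ ht, mul_one]
    exact h1.le
  have h4 := h _ h3
  have e : dt χ (t⁻¹ • x) = t⁻¹ * dt χ x := by
    simp only [dt, Prod.smul_fst, Prod.smul_snd, smul_eq_mul]
    ring
  rw [e, inv_mul_le_iff₀ ht, mul_one] at h4
  linarith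

theorem lane_le {F z : ℕ} (hF : 32768 ≤ F) (h1 : 8192 ≤ z) (h2 : z ≤ 16384) :
    (((F * z - (z * 65536 - 536870912)) / 16384 % 65536 : ℕ) : ℝ) ≤
      ((F : ℝ) - 65536) * (z / 16384) + 32768 := by
  have hz : 32768 * z ≤ F * z := Nat.mul_le_mul_right z hF
  obtain ⟨P, hP⟩ : ∃ P, P = F * z := ⟨_, rfl⟩
  rw [← hP] at hz ⊢
  have h3 : (P - (z * 65536 - 536870912)) / 16384 % 65536 * 16384 + z * 65536 ≤ P + 536870912 := by
    omega
  have h4 : (((P - (z * 65536 - 536870912)) / 16384 % 65536 : ℕ) : ℝ) * 16384 + z * 65536 ≤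
      (F : ℝ) * z + 536870912 := by
    rw [← Nat.cast_mul F z, ← hP]
    exact_mod_cast h3
  generalize (((P - (z * 65536 - 536870912)) / 16384 % 65536 : ℕ) : ℝ) = r at h4 ⊢
  linarith

theorem bil_le {l m a b c d a' b' c' d' : ℝ} (h : U2 l m) (ha : a ≤ a') (hb : b ≤ b') (hc : c ≤ c')
    (hd : d ≤ d') : bil l m a b c d ≤ bil l m a' b' c' d' := by
  obtain ⟨l0, l1, m0, m1⟩ := h
  have l2 : 0 ≤ 1 - l := sub_nonneg.2 l1
  have m2 : 0 ≤ 1 - m := sub_nonneg.2 m1
  unfold bil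
  gcongr

theorem hy_eq (v y : ℕ) : hy v y = sc1 O6 H6 M6 v (zf y) := by unfold hy; rfl

theorem zf_eq (y : ℕ) : zf y = min 16384 (268435456 / y) := by
  unfold zf
  rw [mn_eq, div_eq]

end FH_

open FH_ in
theorem t_FH (hA : LA) (hC : LC) : FH := by
  constructor
  · rintro ν l m φ ψ f g y hU ⟨-, F, hF, bF, eF⟩ ⟨-, G, hG, bG, eG⟩ hy'
    have hz2 : zf y ≤ 16384 := by rw [zf_eq]; exact min_le_left _ _
    have hz3 : zf y * y ≤ 268435456 := by
      refine le_trans (Nat.mul_le_mul_right y ?_) (Nat.div_mul_le_self 268435456 y)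
      rw [zf_eq]; exact min_le_right _ _
    have hs : Rep 32 1920 (f + g) fun k => F k + G k := hA.add hF hG fun k hk => by
      have := (bF k hk).2
      have := (bG k hk).2
      omega
    have hr := hC.sc1 hC.o6 hC.h6 hC.m6 hs (fun k hk => by
      have := (bF k hk).2
      have := (bG k hk).2
      show F k + G k < 131072
      omega) hz2
    rw [← hy_eq] at hr
    generalize zf y = z at hz2 hz3 hr
    generalize hy (f + g) y = H at hr ⊢
    by_cases hz : 8192 ≤ z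
    · simp only [hz, if_true] at hr
      have z0 : (0 : ℝ) ≤ (z : ℝ) / 16384 := by positivity
      have ed : ∀ x, dt (((z : ℝ) / 16384) • (φ + ψ)) x = (z / 16384) * (dt φ x + dt ψ x) := by
        intro x
        simp only [dt, Prod.smul_fst, Prod.smul_snd, smul_eq_mul, Prod.fst_add, Prod.snd_add]
        ring
      refine ⟨((z : ℝ) / 16384) • (φ + ψ), du_of_unit fun x hx => ?_, _, hr,
        fun i _ => ⟨Nat.zero_le _, Nat.mod_lt _ (by norm_num)⟩, fun k hk => ?_⟩
      · have h1 := hy' x hx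
        have e : dt (φ + ψ) x = dt φ x + dt ψ x := by
          simp only [dt, Prod.fst_add, Prod.snd_add]
          ring
        rw [e] at h1
        rw [ed]
        have h2 : (z : ℝ) * y ≤ 268435456 := by exact_mod_cast hz3
        have h3 := mul_le_mul_of_nonneg_left h1 z0
        linarith
      · have hl : ∀ i < 1920,
            ((((F i + G i) * z - (z * 65536 - 536870912)) / 16384 % 65536 : ℕ) : ℝ) ≤
              ((F i : ℝ) + G i - 65536) * (z / 16384) + 32768 := fun i hi => by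
          have h := lane_le (F := F i + G i) (by
            have := (bF i hi).1
            have := (bG i hi).1
            omega) hz hz2
          rwa [Nat.cast_add (F i) (G i)] at h
        refine (bil_le hU (hl k (by omega)) (hl (480 + k) (by omega)) (hl (960 + k) (by omega))
          (hl (1440 + k) (by omega))).trans ?_
        have h1 := mul_le_mul_of_nonneg_left (add_le_add (eF k hk) (eG k hk)) z0
        rw [ed]
        unfold bil at h1 ⊢
        linarith
    · simp only [hz, if_false] at hr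
      refine ⟨0, fun x => ?_, _, hr, fun i _ => ⟨le_rfl, by norm_num⟩, fun k _ => ?_⟩
      · simp only [dt, Prod.fst_zero, Prod.snd_zero, zero_mul, add_zero]
        exact apply_nonneg ν x
      · simp only [dt, bil, Prod.fst_zero, Prod.snd_zero, zero_mul, add_zero, Nat.cast_zero,
          mul_zero, zero_add]
        norm_num
  · intro ν B φ ψ p hN hφ hψ
    by_contra hc
    rw [not_or] at hc
    obtain ⟨h1, h2⟩ := hc
    simp only [not_forall, not_le] at h1 h2
    obtain ⟨x, hx, h1⟩ := h1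
    obtain ⟨x', hx', h2⟩ := h2
    have h3 := hN.lam x' x hx' hx
    have h4 := hφ (x' + x)
    have h5 := hψ (x' - x)
    have h6 : (B : ℝ) ≤ (B - p : ℕ) + p := by exact_mod_cast (le_tsub_add : B ≤ B - p + p)
    simp only [dt, Prod.fst_add, Prod.snd_add, Prod.fst_sub, Prod.snd_sub, Prod.fst_neg,
      Prod.snd_neg] at h1 h2 h4 h5
    linarith

end

section


open Real

namespace CT_

/-- a point of the chord between two unit vectors is a shrunk intermediate unit vector -/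
theorem arc {A b B : ℝ} (h1 : A ≤ b) (h2 : b ≤ B) (h3 : B < A + π) :
    ∃ m τ : ℝ, 0 ≤ m ∧ m ≤ 1 ∧ 0 ≤ τ ∧ τ ≤ 1 ∧ (1 - m) * cos A + m * cos B = τ * cos b ∧
      (1 - m) * sin A + m * sin B = τ * sin b := by
  rcases (h1.trans h2).eq_or_lt with rfl | hlt
  · obtain rfl := le_antisymm h1 h2
    exact ⟨0, 1, le_rfl, zero_le_one, zero_le_one, le_rfl, by ring, by ring⟩
  · obtain ⟨x, rfl⟩ : ∃ x, A = b - x := ⟨b - A, by ring⟩
    obtain ⟨y, rfl⟩ : ∃ y, B = b + y := ⟨B - b, by ring⟩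
    have sx : 0 ≤ sin x := sin_nonneg_of_nonneg_of_le_pi (by linarith) (by linarith)
    have sy : 0 ≤ sin y := sin_nonneg_of_nonneg_of_le_pi (by linarith) (by linarith)
    have sxy : 0 < sin (x + y) := sin_pos_of_pos_of_lt_pi (by linarith) (by linarith)
    have hle : sin (x + y) ≤ sin x + sin y := by
      rw [sin_add]
      exact add_le_add (mul_le_of_le_one_right sx (cos_le_one y))
        (mul_le_of_le_one_left sy (cos_le_one x))
    have hS : 0 < sin x + sin y := sxy.trans_le hle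
    refine ⟨sin x / (sin x + sin y), sin (x + y) / (sin x + sin y), div_nonneg sx hS.le,
      (div_le_one hS).2 (by linarith), div_nonneg sxy.le hS.le, (div_le_one hS).2 hle, ?_, ?_⟩
    · rw [cos_sub, cos_add, sin_add]
      field_simp
      ring
    · rw [sin_sub, sin_add, sin_add]
      field_simp
      ring

theorem du {ν : SN} {b τ : ℝ} (h : ∀ x : ℝ × ℝ, |cos b * x.1 + sin b * x.2| ≤ ν x) (t0 : 0 ≤ τ)
    (t1 : τ ≤ 1) : Du ν (τ * cos b, τ * sin b) := fun x => by
  have h1 := mul_le_mul_of_nonneg_left ((le_abs_self _).trans (h x)) t0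
  have h2 := mul_le_of_le_one_left (apply_nonneg ν x) t1
  simp only [dt]
  linarith

theorem cp_eq {p : ℕ} (hp : p ≤ 960) (k : ℕ) : cp (2 * k + (960 - p)) = cp p := by
  have h : (2 * k + (960 - p)) % 2 = p % 2 := by omega
  have e : ∀ i : ℕ, Nat.land i (nat_lit 1) = i % 2 := fun i => Nat.and_one_is_mod i
  unfold cp
  rw [e, e, h]

theorem lane (X s : ℕ) : bt X (s + 6) (2 ^ 16 - 1) = bt X s (2 ^ 32 - 1) / 64 % 65536 := by
  rw [bt_eq, bt_eq, pow_add, ← Nat.div_div_eq_div_mul]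
  generalize X / 2 ^ s = Y
  omega

theorem ch_eq {p : ℕ} (hp : p ≤ 960) (k : ℕ) :
    ch (2 * k + (960 - p)) = bt (cp p) ((960 - p) / 2 * 32 + 32 * k) (2 ^ 32 - 1) := by
  have e : ∀ i : ℕ, ch i = bt (cp i) (i >>> 1 * 32) (2 ^ 32 - 1) := fun _ => rfl
  have h : (2 * k + (960 - p)) / 2 * 32 = (960 - p) / 2 * 32 + 32 * k := by omega
  rw [e, cp_eq hp, Nat.shiftRight_one, h]

theorem rep (hA : LA) (hB : LB) (hC : LC) {p : ℕ} (hp : p ≤ 960) :
    Rep 32 480 (ct p) fun k => ch (2 * k + (960 - p)) / 64 % 65536 + 16384 := by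
  have e : ct p = bt (cp p) ((960 - p) >>> 1 * 32 + 6) M4 + O4 * 16384 := rfl
  have h1 := hB.bt (m := 16) (cp p) ((960 - p) / 2 * 32 + 6) (by norm_num) hC.m4
  have h2 := hA.mul 16384 hC.o4 (fun _ _ => by norm_num)
  have h3 : Rep 32 480 (bt (cp p) ((960 - p) / 2 * 32 + 6) M4)
      fun k => ch (2 * k + (960 - p)) / 64 % 65536 := h1.congr fun k _ => by
    rw [ch_eq hp, ← lane, add_right_comm]
  rw [e, Nat.shiftRight_one]
  refine (hA.add h3 h2 fun k _ => ?_).congr fun k _ => by rw [one_mul]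
  have := Nat.mod_lt (ch (2 * k + (960 - p)) / 64) (by norm_num : 0 < 65536)
  omega

theorem ctf (hA : LA) (hB : LB) (hC : LC) (hT : S_TR) {p : ℕ} (hp : p ≤ 960) :
    ∃ f, Rep 32 480 (ct p) f ∧ ∀ k < 480, (16384 ≤ f k ∧ f k < 65536) ∧
      (f k : ℝ) ≤ 16384 * dt (cos (p * (π / 480)), sin (p * (π / 480))) (ev k) + 32768 := by
  refine ⟨_, rep hA hB hC hp, fun k hk => ?_⟩
  have h1 := (hT (2 * k + (960 - p)) (by omega)).1
  have e : ((2 * k + (960 - p) : ℕ) : ℝ) * (π / 480) = (k * (π / 240) - p * (π / 480)) + 2 * π := by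
    rw [Nat.cast_add, Nat.cast_sub hp]; push_cast; ring
  rw [e, cos_add_two_pi] at h1
  have h2 := cos_le_one (k * (π / 240) - p * (π / 480))
  generalize ch (2 * k + (960 - p)) = c at *
  have h3 : c ≤ 2097152 := by
    have : (c : ℝ) ≤ 2097152 := by linarith
    exact_mod_cast this
  have h4 : 64 * (c / 64 % 65536) ≤ c := by omega
  have h5 : (64 : ℝ) * (c / 64 % 65536 : ℕ) ≤ c := by exact_mod_cast h4
  refine ⟨by omega, ?_⟩
  rw [cos_sub] at h1
  rw [Nat.cast_add]
  simp only [dt, ev]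
  push_cast at h5 ⊢
  linarith

theorem v4 (hD : LD) {ν : SN} {l m : ℝ} {φ : ℝ × ℝ} {a b c d : ℕ} {fa fb fc fd : ℕ → ℕ}
    (hφ : Du ν φ) (ha : Rep 32 480 a fa) (hb : Rep 32 480 b fb) (hc : Rep 32 480 c fc)
    (hd : Rep 32 480 d fd) (ba : ∀ k < 480, 16384 ≤ fa k ∧ fa k < 65536)
    (bb : ∀ k < 480, 16384 ≤ fb k ∧ fb k < 65536) (bc : ∀ k < 480, 16384 ≤ fc k ∧ fc k < 65536)
    (bd : ∀ k < 480, 16384 ≤ fd k ∧ fd k < 65536)
    (h : ∀ k < 480, bil l m (fa k) (fb k) (fc k) (fd k) ≤ 16384 * dt φ (ev k) + 32768) :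
    V4 ν l m φ (c4 a b c d) 16384 := by
  refine ⟨hφ, _, hD.c4 ha hb hc hd, fun i hi => ?_, fun k hk => ?_⟩
  · split_ifs
    · exact ba _ (by omega)
    · exact bb _ (by omega)
    · exact bc _ (by omega)
    · exact bd _ (by omega)
  · rw [if_pos hk, if_neg (by omega : ¬ 480 + k < 480), if_pos (by omega : 480 + k < 960),
      if_neg (by omega : ¬ 960 + k < 480), if_neg (by omega : ¬ 960 + k < 960),
      if_pos (by omega : 960 + k < 1440), if_neg (by omega : ¬ 1440 + k < 480),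
      if_neg (by omega : ¬ 1440 + k < 960), if_neg (by omega : ¬ 1440 + k < 1440),
      Nat.add_sub_cancel_left, Nat.add_sub_cancel_left, Nat.add_sub_cancel_left]
    exact h k hk

theorem two (hA : LA) (hB : LB) (hC : LC) (hT : S_TR) {ν : SN} {b : ℝ} {p q : ℕ}
    (h : ∀ x : ℝ × ℝ, |cos b * x.1 + sin b * x.2| ≤ ν x) (h1 : p * (π / 480) ≤ b)
    (h2 : b ≤ q * (π / 480)) (hq : q ≤ 400) : ∃ (m : ℝ) (ψ : ℝ × ℝ) (f g : ℕ → ℕ), 0 ≤ m ∧ m ≤ 1 ∧
      Du ν ψ ∧ Rep 32 480 (ct p) f ∧ Rep 32 480 (ct q) g ∧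
      (∀ k < 480, 16384 ≤ f k ∧ f k < 65536) ∧ (∀ k < 480, 16384 ≤ g k ∧ g k < 65536) ∧
      ∀ k < 480, (1 - m) * f k + m * g k ≤ 16384 * dt ψ (ev k) + 32768 := by
  have hpi := pi_pos
  have hq' : (q : ℝ) ≤ 400 := by exact_mod_cast hq
  have hp0 : (0 : ℝ) ≤ p * (π / 480) := by positivity
  have hq1 : (q : ℝ) * (π / 480) ≤ 400 * (π / 480) :=
    mul_le_mul_of_nonneg_right hq' (by positivity)
  have hp : p ≤ 400 := by
    have : (p : ℝ) ≤ 400 := le_of_mul_le_mul_right ((h1.trans h2).trans hq1) (by positivity)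
    exact_mod_cast this
  obtain ⟨m, τ, m0, m1, t0, t1, e1, e2⟩ := arc h1 h2 (by linarith)
  obtain ⟨f, f1, f2⟩ := ctf hA hB hC hT (p := p) (by omega)
  obtain ⟨g, g1, g2⟩ := ctf hA hB hC hT (p := q) (by omega)
  refine ⟨m, _, f, g, m0, m1, du h t0 t1, f1, g1, fun k hk => (f2 k hk).1,
    fun k hk => (g2 k hk).1, fun k hk => ?_⟩
  have a1 := mul_le_mul_of_nonneg_left (f2 k hk).2 (sub_nonneg.2 m1)
  have a2 := mul_le_mul_of_nonneg_left (g2 k hk).2 m0
  rw [← e1, ← e2]
  simp only [dt] at a1 a2 ⊢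
  linarith

end CT_

open CT_ in
theorem t_CT (hA : LA) (hB : LB) (hC : LC) (hD : LD) (hT : S_TR) : S_CT := by
  intro ν b c p1 p2 q1 q2 hJ a1 a2 a3 a4 a5 a6
  obtain ⟨m, ψ, f, g, m0, m1, d1, f1, g1, f2, g2, k1⟩ := two hA hB hC hT hJ.fb a1 a2 a5
  obtain ⟨l, χ, f', g', l0, l1, d2, f3, g3, f4, g4, k2⟩ := two hA hB hC hT hJ.fc a3 a4 a6
  obtain ⟨e, e1, e2⟩ := ctf hA hB hC hT (p := 0) (by omega)
  have d0 : Du ν (cos ((0 : ℕ) * (π / 480)), sin ((0 : ℕ) * (π / 480))) := fun x => by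
    have := (le_abs_self _).trans (hJ.fa x)
    simpa [dt] using this
  refine ⟨l, m, _, ψ, χ, ⟨l0, l1, m0, m1⟩,
    v4 hD d0 e1 e1 e1 e1 (fun k hk => (e2 k hk).1) (fun k hk => (e2 k hk).1)
      (fun k hk => (e2 k hk).1) (fun k hk => (e2 k hk).1) fun k hk => ?_,
    v4 hD d1 f1 g1 f1 g1 f2 g2 f2 g2 fun k hk => ?_,
    v4 hD d2 f3 f3 g3 g3 f4 f4 g4 g4 fun k hk => ?_⟩
  · have := (e2 k hk).2
    unfold bil
    linarith
  · have := k1 k hk
    unfold bil
    linarith
  · have := k2 k hk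
    unfold bil
    linarith

end

section


open Real

namespace WB_

theorem ops_nil (B L F U) : ops B L [] F U = wl U L := rfl
theorem ops_cons (B L a o F U) :
    ops B L (a :: o) F U = fb (op B F a) fun r => ops B L o (c1 r :: F) (mx2 U r) := rfl
theorem wT_lf (B C o t F U) : wT B C (Th.lf o t) F U = ops B t o F U := rfl
theorem wT_nd (B C k p x y F U) : wT B C (Th.nd k p x y) F U =
    an (fb (hy (s6 C k 0 + ng (s6 C k 3)) p) fun h => wT B C x (h :: F) (mx2 U (m4 h)))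
      (fb (hy (s6 C k 0 + s6 C k 3) (B - p)) fun h => wT B C y (h :: F) (mx2 U (m4 h))) := rfl
theorem wB_sk (B p1 p2 q1 q2) : wB B Bx.sk p1 p2 q1 q2 =
    orr (lt q2 (p1 * 2)) (lt (p2 + 480) (q1 * 2)) := rfl
theorem wB_lf (B T p1 p2 q1 q2) : wB B (Bx.lf T) p1 p2 q1 q2 =
    an (an (Nat.ble p2 400) (Nat.ble q2 400)) (fb (c1 (ct 0)) fun a => fb (c2 (ct p1) (ct p2))
      fun b => fb (c3 (ct q1) (ct q2)) fun c => w3 B T a b c) := rfl
theorem wB_nd (B k p x y p1 p2 q1 q2) : wB B (Bx.nd k p x y) p1 p2 q1 q2 =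
    cb (Nat.beq k 0) (an (wB B x p1 p q1 q2) (wB B y p p2 q1 q2))
      (an (wB B x p1 p2 q1 p) (wB B y p1 p2 p q2)) := rfl
theorem op_eq (B F o) : op B F o = o1 B (sel F (bt o 0 63))
    (cmb (mn (bt o 18 511) 256) (sel F (bt o 6 63)) (sel F (bt o 12 63))) (bt o 27 511 % 480) := rfl

theorem weak {ν l m φ F lo} (h : V4 ν l m φ F lo) : V4 ν l m φ F 0 := by
  obtain ⟨h1, f, h2, h3, h4⟩ := h
  exact ⟨h1, f, h2, fun i hi => ⟨Nat.zero_le _, (h3 i hi).2⟩, h4⟩

theorem cons {ν l m φ F lo} {A : List ℕ} (h : V4 ν l m φ F lo) (hA : VL ν l m A) :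
    VL ν l m (F :: A) := by
  intro v hv
  rcases List.mem_cons.1 hv with rfl | hv
  · exact ⟨φ, weak h⟩
  · exact hA v hv

theorem vop (h1 : FA) (h3 : S_O1) {ν B l m F} (hN : Nm ν B) (hU : U2 l m) (hF : VL ν l m F)
    (o : ℕ) : VF ν (op B F o) := by
  obtain ⟨φ, a⟩ := h1.sel (bt o 0 63) hF
  obtain ⟨ψ, b⟩ := h1.sel (bt o 6 63) hF
  obtain ⟨χ, c⟩ := h1.sel (bt o 12 63) hF
  obtain ⟨ξ, e⟩ := h1.cmb (t := mn (bt o 18 511) 256) hU b c (by rw [mn_eq]; exact min_le_right _ _)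
  rw [op_eq]
  exact h3 hN hU a e (Nat.mod_lt _ (by decide))

theorem vops (h1 : FA) (h2 : FB) (h3 : S_O1) {ν B l m L} (hN : Nm ν B) (hU : U2 l m)
    (o : List ℕ) : ∀ F U, VL ν l m F → V1 ν U → ops B L o F U = true → VW ν L := by
  induction o with
  | nil => exact fun F U _ hV h => h2.wl hV (ops_nil B L F U ▸ h)
  | cons a o ih =>
    intro F U hF hV h
    rw [ops_cons, fb_eq] at h
    have hr := vop h1 h3 hN hU hF a
    obtain ⟨φ, hφ⟩ := h2.c1 l m hr
    exact ih _ _ (cons hφ hF) (h2.mx2 hV (h2.v1 hr)) h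

theorem lT_sub (X : Th) : ∀ A : List ℕ, ∀ L ∈ A, L ∈ lT X A := by
  induction X with
  | lf o t => exact fun A L h => List.mem_cons_of_mem _ h
  | nd k p l r ihl ihr => exact fun A L h => ihl _ L (ihr _ L h)

theorem lB_sub (X : Bx) : ∀ A : List ℕ, ∀ L ∈ A, L ∈ lB X A := by
  induction X with
  | sk => exact fun A L h => h
  | lf T => exact lT_sub T
  | nd k p l r ihl ihr => exact fun A L h => ihl _ L (ihr _ L h)

theorem vT (h1 : FA) (h2 : FB) (h3 : S_O1) (h4 : FH) {ν B l m φ ψ χ a b c} (hN : Nm ν B)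
    (hU : U2 l m) (ha : V4 ν l m φ a 16384) (hb : V4 ν l m ψ b 16384) (hc : V4 ν l m χ c 16384)
    (X : Th) : ∀ F U (A : List ℕ), VL ν l m F → V1 ν U → wT B [a, b, c] X F U = true →
      ∃ L ∈ lT X A, VW ν L := by
  induction X with
  | lf o t =>
    intro F U A hF hV h
    rw [wT_lf] at h
    exact ⟨t, List.mem_cons_self, vops h1 h2 h3 hN hU o F U hF hV h⟩
  | nd k p x y ihx ihy =>
    intro F U A hF hV h
    rw [wT_nd, fb_eq, fb_eq] at h
    obtain ⟨e1, e2⟩ := an_iff.1 h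
    obtain ⟨α, hα⟩ := h1.s6 k 0 ha hb hc
    obtain ⟨β, hβ⟩ := h1.s6 k 3 ha hb hc
    rcases h4.di p hN hα.1 hβ.1 with hd | hd
    · obtain ⟨ξ, hξ⟩ := h4.hy hU hα (h1.ng hβ) hd
      exact ihx _ _ _ (cons hξ hF) (h2.mx2 hV (h2.m4 hU hξ)) e1
    · obtain ⟨ξ, hξ⟩ := h4.hy hU hα hβ hd
      obtain ⟨L, hL, hW⟩ := ihy _ _ A (cons hξ hF) (h2.mx2 hV (h2.m4 hU hξ)) e2
      exact ⟨L, lT_sub x _ L hL, hW⟩

theorem vB (h1 : FA) (h2 : FB) (h3 : S_O1) (h4 : FH) (h5 : S_CT) {ν B b c} (hJ : Jn ν b c)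
    (hN : Nm ν B) (X : Bx) : ∀ (p1 p2 q1 q2 : ℕ) (A : List ℕ), wB B X p1 p2 q1 q2 = true →
      p1 * (π / 480) ≤ b → b ≤ p2 * (π / 480) → q1 * (π / 480) ≤ c → c ≤ q2 * (π / 480) →
      ∃ L ∈ lB X A, VW ν L := by
  have hp : 0 < π / 480 := by positivity
  induction X with
  | sk =>
    intro p1 p2 q1 q2 A h a1 a2 a3 a4
    exfalso
    rw [wB_sk] at h
    rcases orr_iff.1 h with e | e
    · have e1 : q2 < p1 * 2 := lt_iff.1 e
      have e2 : (q2 : ℝ) < p1 * 2 := by exact_mod_cast e1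
      have := mul_lt_mul_of_pos_right e2 hp
      have := hJ.h1
      linarith
    · have e1 : p2 + 480 < q1 * 2 := lt_iff.1 e
      have e2 : (p2 : ℝ) + 480 < q1 * 2 := by exact_mod_cast e1
      have := mul_lt_mul_of_pos_right e2 hp
      have := hJ.h2
      linarith
  | lf T =>
    intro p1 p2 q1 q2 A h a1 a2 a3 a4
    rw [wB_lf, fb_eq, fb_eq, fb_eq, w3] at h
    obtain ⟨e1, e2⟩ := an_iff.1 h
    obtain ⟨e3, e4⟩ := an_iff.1 e1
    obtain ⟨l, m, φ, ψ, χ, hU, ha, hb, hc⟩ := h5 hJ a1 a2 a3 a4 (Nat.le_of_ble_eq_true e3)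
      (Nat.le_of_ble_eq_true e4)
    generalize c1 (ct 0) = a' at ha e2
    generalize c2 (ct p1) (ct p2) = b' at hb e2
    generalize c3 (ct q1) (ct q2) = c' at hc e2
    exact vT h1 h2 h3 h4 hN hU ha hb hc T _ _ A
      (cons ha (cons hb (cons hc fun _ hv => absurd hv List.not_mem_nil)))
      (h2.mx2 (h2.m4 hU ha) (h2.mx2 (h2.m4 hU hb) (h2.m4 hU hc))) e2
  | nd k p x y ihx ihy =>
    intro p1 p2 q1 q2 A h a1 a2 a3 a4
    have h' := h
    have sub : (∃ L ∈ lB y A, VW ν L) → ∃ L ∈ lB (Bx.nd k p x y) A, VW ν L :=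
      fun ⟨L, hL, hW⟩ => ⟨L, lB_sub x _ L hL, hW⟩
    rw [wB_nd, cb_eq] at h'
    split_ifs at h'
    · obtain ⟨e1, e2⟩ := an_iff.1 h'
      rcases le_total b (p * (π / 480)) with e | e
      · exact ihx _ _ _ _ _ e1 a1 e a3 a4
      · exact sub (ihy _ _ _ _ _ e2 e a2 a3 a4)
    · obtain ⟨e1, e2⟩ := an_iff.1 h'
      rcases le_total c (p * (π / 480)) with e | e
      · exact ihx _ _ _ _ _ e1 a1 a2 a3 e
      · exact sub (ihy _ _ _ _ _ e2 a1 a2 e a4)

end WB_

theorem t_WB (h1 : FA) (h2 : FB) (h3 : S_O1) (h4 : FH) (h5 : S_CT) : S_WB := by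
  intro G B X p1 p2 q1 q2 h hG ν b c hJ hN a1 a2 a3 a4
  obtain ⟨L, hL, hW⟩ := WB_.vB h1 h2 h3 h4 h5 hJ hN X p1 p2 q1 q2 [] h a1 a2 a3 a4
  exact ⟨L, hG L hL, hW⟩

end

end Pool.Agent.MP_1037db_co.PT
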