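import Pool.Agent.MP_1037db_co.PT.Chk
import Pool.Agent.MP_1037db_co.J.John

/-! Meaning of the table checker: definitions, elementary facts, statements. -/

namespace Pool.Agent.MP_1037db_co.PT

open Real

noncomputable section

/-! ### unfolding -/

theorem an_iff {a b : Bool} : an a b = true ↔ a = true ∧ b = true := by cases a <;> simp [an]
theorem orr_iff {a b : Bool} : orr a b = true ↔ a = true ∨ b = true := by cases a <;> simp [orr]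
theorem cb_eq (c a b : Bool) : cb c a b = if c = true then a else b := by cases c <;> rfl
theorem cn_eq (c : Bool) (a b : ℕ) : cn c a b = if c = true then a else b := by cases c <;> rfl
theorem fb_eq (n : ℕ) (f : ℕ → Bool) : fb n f = f n := rfl
theorem lt_iff {a b : ℕ} : lt a b = true ↔ a < b := by simp [lt]
theorem mn_eq (a b : ℕ) : mn a b = min a b := by simp [mn, cn_eq, min_def]
theorem mx_eq (a b : ℕ) : mx a b = max a b := by simp [mx, cn_eq, max_def]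
theorem al_iff {n : ℕ} {f : ℕ → Bool} : al n f = true ↔ ∀ k < n, f k = true := by
  induction n with
  | zero => simp [al]
  | succ n ih =>
    rw [show al (n + 1) f = an (f n) (al n f) from rfl, an_iff, ih, Nat.forall_lt_succ_right, and_comm]
theorem gt_eq (l : List ℕ) (i : ℕ) : gt l i = l.getD i 0 := by
  induction l generalizing i with
  | nil => rfl
  | cons a l ih => cases i with
    | zero => rfl
    | succ i => exact ih i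
theorem tl_eq {α : Type} (l : List α) : tl l = l.tail := by cases l <;> rfl
theorem hd_eq {α : Type} (l : List (List α)) : hd l = l.getD 0 [] := by cases l <;> rfl
theorem emp_iff {d : List ℕ} : emp d = true ↔ d = [] := by cases d <;> simp [emp]
theorem ln_eq {α : Type} (l : List α) : ln l = l.length := by
  induction l with
  | nil => rfl
  | cons a l ih => exact congrArg (· + 1) ih
theorem bt_eq (x i m : ℕ) : bt x i (2 ^ m - 1) = x / 2 ^ i % 2 ^ m := by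
  simp [bt, Nat.shiftRight_eq_div_pow]
theorem bt_le (x i w : ℕ) : bt x i w ≤ w := Nat.and_le_right
theorem div_eq (a b : ℕ) : Nat.div a b = a / b := rfl
theorem mod_eq (a b : ℕ) : Nat.mod a b = a % b := rfl
theorem shl_eq (a b : ℕ) : Nat.shiftLeft a b = a <<< b := rfl

/-! ### lanes -/

/-- lane `k` of width `w` -/
def la (w x k : ℕ) : ℕ := x / 2 ^ (w * k) % 2 ^ w

/-- `x` consists of `n` lanes of width `w` with contents `f` -/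
structure Rep (w n x : ℕ) (f : ℕ → ℕ) : Prop where
  lt : x < 2 ^ (w * n)
  eq : ∀ k < n, la w x k = f k

theorem Rep.congr {w n x : ℕ} {f g : ℕ → ℕ} (h : Rep w n x f) (e : ∀ k < n, f k = g k) :
    Rep w n x g := ⟨h.lt, fun k hk => (h.eq k hk).trans (e k hk)⟩
theorem Rep.bd {w n x k : ℕ} {f : ℕ → ℕ} (h : Rep w n x f) (hk : k < n) : f k < 2 ^ w :=
  h.eq k hk ▸ Nat.mod_lt _ (Nat.two_pow_pos w)
theorem Rep.zero (w n : ℕ) : Rep w n 0 fun _ => 0 := ⟨Nat.two_pow_pos _, fun _ _ => by simp [la]⟩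

structure LA : Prop where
  on : ∀ w n, 0 < w → Rep w n (on w n) fun _ => 1
  add : ∀ {w n x y f g}, Rep w n x f → Rep w n y g → (∀ k < n, f k + g k < 2 ^ w) →
    Rep w n (x + y) fun k => f k + g k
  mul : ∀ {w n x f} (c : ℕ), Rep w n x f → (∀ k < n, f k * c < 2 ^ w) →
    Rep w n (x * c) fun k => f k * c
  sub : ∀ {w n x y f g}, Rep w n x f → Rep w n y g → (∀ k < n, g k ≤ f k) →
    Rep w n (x - y) fun k => f k - g k
  app : ∀ {w n m x y f g}, Rep w n x f → Rep w m y g →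
    Rep w (n + m) (x + y <<< (w * n)) fun k => if k < n then f k else g (k - n)
  ext : ∀ {w n m x f}, Rep w n x f → n ≤ m → Rep w m x fun k => if k < n then f k else 0
  inj : ∀ {w n x y f}, Rep w n x f → Rep w n y f → x = y

structure LB : Prop where
  land : ∀ {w n y g} (x : ℕ), Rep w n y g → Rep w n (x &&& y) fun k => la w x k &&& g k
  lor : ∀ {w n x y f g}, Rep w n x f → Rep w n y g → Rep w n (x ||| y) fun k => f k ||| g k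
  bt : ∀ {w n M m} (x s : ℕ), m ≤ w → Rep w n M (fun _ => 2 ^ m - 1) →
    Rep w n (bt x s M) fun k => bt x (s + w * k) (2 ^ m - 1)
  get : ∀ {w n x f k s m}, Rep w n x f → k < n → s + m ≤ w →
    PT.bt x (s + w * k) (2 ^ m - 1) = f k / 2 ^ s % 2 ^ m
  shr : ∀ {w n x f} (j : ℕ), Rep w n x f →
    Rep w n (x >>> (w * j)) fun k => if k + j < n then f (k + j) else 0
  blk : ∀ {w n x f s m}, Rep w n x f → s + m ≤ n →
    Rep w m (PT.bt x (w * s) (2 ^ (w * m) - 1)) fun k => f (s + k)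
  or31 : ∀ {a b : ℕ}, a < 2 ^ 32 → b < 2 ^ 32 → 2 ^ 31 ≤ a ||| b → 2 ^ 31 ≤ a ∨ 2 ^ 31 ≤ b
  fl : ∀ {w n H x f}, Rep (w + 1) n H (fun _ => 2 ^ w) → Rep (w + 1) n x f → fl H x = true →
    ∀ k < n, 2 ^ w ≤ f k

structure LC : Prop where
  ls : ∀ {n H x y f g}, Rep 32 n H (fun _ => 2 ^ 31) → Rep 32 n x f → Rep 32 n y g →
    (∀ k < n, f k < 2 ^ 31) → (∀ k < n, g k < 2 ^ 31) → Rep 32 n (ls H x y) fun k => f k - g k
  ge : ∀ {w n H x y f g}, Rep (w + 1) n H (fun _ => 2 ^ w) → Rep (w + 1) n x f →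
    Rep (w + 1) n y g → (∀ k < n, f k < 2 ^ w) → (∀ k < n, g k < 2 ^ w) → ge H x y = true →
    ∀ k < n, g k ≤ f k
  o2 : Rep 32 240 O2 fun _ => 1
  o4 : Rep 32 480 O4 fun _ => 1
  h4 : Rep 32 480 H4 fun _ => 2 ^ 31
  m4 : Rep 32 480 M4 fun _ => 2 ^ 16 - 1
  o6 : Rep 32 1920 O6 fun _ => 1
  h6 : Rep 32 1920 H6 fun _ => 2 ^ 31
  m6 : Rep 32 1920 M6 fun _ => 2 ^ 16 - 1
  o5 : Rep 64 15 O5 fun _ => 1
  h5 : Rep 64 15 H5 fun _ => 2 ^ 63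
  m5 : Rep 64 15 M5 fun _ => 2 ^ 16 - 1
  mn2 : ∀ {x y f g}, Rep 32 480 x f → Rep 32 480 y g → (∀ k < 480, f k < 2 ^ 31) →
    (∀ k < 480, g k < 2 ^ 31) → Rep 32 480 (mn2 x y) fun k => min (f k) (g k)
  mx2 : ∀ {x y f g}, Rep 32 480 x f → Rep 32 480 y g → (∀ k < 480, f k < 2 ^ 31) →
    (∀ k < 480, g k < 2 ^ 31) → Rep 32 480 (mx2 x y) fun k => max (f k) (g k)
  sc1 : ∀ {n O H M v f z}, Rep 32 n O (fun _ => 1) → Rep 32 n H (fun _ => 2 ^ 31) →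
    Rep 32 n M (fun _ => 2 ^ 16 - 1) → Rep 32 n v f → (∀ k < n, f k < 131072) → z ≤ 16384 →
    Rep 32 n (sc1 O H M v z) fun k =>
      if 8192 ≤ z then (f k * z - (z * 65536 - 536870912)) / 16384 % 65536 else 0

/-- lower bounds stored in a block -/
def wv (L i : ℕ) : ℕ := bt L (32 * (i % 240) + 16) 65535
/-- angular coordinates stored in a block -/
def tv (L i : ℕ) : ℕ := bt L (32 * (i % 240)) 65535 + 61440 * (i / 240)

structure Blk (A : List ℕ) (N O H V T : ℕ) : Prop where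
  n : N = A.length
  o : Rep 32 (N * 240) O fun _ => 1
  h : Rep 32 (N * 240) H fun _ => 2 ^ 31
  v : Rep 32 (N * 240) V fun i => wv (A.getD (i / 240) 0) (i % 240)
  t : Rep 32 (N * 240) T fun i => tv (A.getD (i / 240) 0) (i % 240)

structure LD : Prop where
  c4 : ∀ {a b c d fa fb fc fd}, Rep 32 480 a fa → Rep 32 480 b fb → Rep 32 480 c fc →
    Rep 32 480 d fd → Rep 32 1920 (c4 a b c d) fun i => if i < 480 then fa i else
      if i < 960 then fb (i - 480) else if i < 1440 then fc (i - 960) else fd (i - 1440)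
  b4 : ∀ {v F} (s : ℕ), Rep 32 1920 v F → s ≤ 3 →
    Rep 32 480 (bt v (15360 * s) L4) fun k => F (480 * s + k)
  ng : ∀ {v F}, Rep 32 1920 v F →
    Rep 32 1920 (ng v) fun i => F (480 * (i / 480) + (i % 480 + 240) % 480)
  wt : ∀ {A f}, wt A f = true → ∃ N O H V T, Blk A N O H V T ∧ f N O H V T = true

structure LE : Prop where
  mh : ∀ (N : ℕ) {j}, j ≤ 240 →
    Rep 32 (N * 240) (mh N j) fun i => if 240 ≤ i % 240 + j then 2 ^ 32 - 1 else 0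
  rot : ∀ {N V f j}, Rep 32 (N * 240) V f → j ≤ 240 →
    Rep 32 (N * 240) (rot N V j) fun i => f (240 * (i / 240) + (i % 240 + j) % 240)

/-! ### norms -/

abbrev SN := Seminorm ℝ (ℝ × ℝ)

def S_TR : Prop := ∀ i < 1920, (ch i : ℝ) ≤ 2 ^ 20 * (1 + cos (i * (π / 480))) ∧
  2 ^ 20 * (1 + cos (i * (π / 480))) ≤ (ch i : ℝ) + 2

def ev (k : ℕ) : ℝ × ℝ := (cos (k * (π / 240)), sin (k * (π / 240)))
def uv (ν : SN) (k : ℕ) : ℝ × ℝ := (ν (ev k))⁻¹ • ev k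
def Le (ν : SN) : Prop := ∀ x : ℝ × ℝ, ν x ^ 2 ≤ x.1 ^ 2 + x.2 ^ 2

structure Nm (ν : SN) (B : ℕ) : Prop where
  le : Le ν
  lam : ∀ x y, ν x ≤ 1 → ν y ≤ 1 → 16384 * (ν (x + y) + ν (x - y)) ≤ B

/-- John position with sorted gaps -/
structure Jn (ν : SN) (b c : ℝ) : Prop where
  le : Le ν
  fa : ∀ x : ℝ × ℝ, |x.1| ≤ ν x
  fb : ∀ x : ℝ × ℝ, |cos b * x.1 + sin b * x.2| ≤ ν x
  fc : ∀ x : ℝ × ℝ, |cos c * x.1 + sin c * x.2| ≤ ν x
  b0 : 0 ≤ b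
  h1 : 2 * b ≤ c
  h2 : 2 * c ≤ b + π
  h3 : π / 2 ≤ c

theorem ev_half (k : ℕ) : ev (k + 240) = -ev k := by
  have e : ((k + 240 : ℕ) : ℝ) * (π / 240) = k * (π / 240) + π := by push_cast; ring
  simp only [ev, e, cos_add_pi, sin_add_pi, Prod.neg_mk]
theorem nu_half (ν : SN) (k : ℕ) : ν (ev (k + 240)) = ν (ev k) := by rw [ev_half, map_neg_eq_map]
theorem uv_half (ν : SN) (k : ℕ) : uv ν (k + 240) = -uv ν k := by
  rw [uv, nu_half, ev_half, smul_neg, uv]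
theorem Le.ev {ν : SN} (h : Le ν) (k : ℕ) : ν (ev k) ≤ 1 := by
  have := h (PT.ev k)
  simp only [PT.ev, cos_sq_add_sin_sq] at this
  exact (sq_le_one_iff₀ (apply_nonneg ν _)).1 this
theorem nu_uv {ν : SN} {k : ℕ} (h : 0 < ν (ev k)) : ν (uv ν k) = 1 := by
  rw [uv, smul_nn ν (inv_nonneg.2 h.le), inv_mul_cancel₀ h.ne']

def VW (ν : SN) (L : ℕ) : Prop := ∀ i, (wv L i : ℝ) ≤ 16384 * ν (ev i)

/-! ### functionals -/

def dt (φ x : ℝ × ℝ) : ℝ := φ.1 * x.1 + φ.2 * x.2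
def Du (ν : SN) (φ : ℝ × ℝ) : Prop := ∀ x, dt φ x ≤ ν x
def bil (l m a b c d : ℝ) : ℝ := (1 - l) * ((1 - m) * a + m * b) + l * ((1 - m) * c + m * d)
def U2 (l m : ℝ) : Prop := 0 ≤ l ∧ l ≤ 1 ∧ 0 ≤ m ∧ m ≤ 1

def V4 (ν : SN) (l m : ℝ) (φ : ℝ × ℝ) (F lo : ℕ) : Prop :=
  Du ν φ ∧ ∃ f, Rep 32 1920 F f ∧ (∀ i < 1920, lo ≤ f i ∧ f i < 65536) ∧ ∀ k < 480,
    bil l m (f k) (f (480 + k)) (f (960 + k)) (f (1440 + k)) ≤ 16384 * dt φ (ev k) + 32768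
def V1 (ν : SN) (U : ℕ) : Prop :=
  ∃ f, Rep 32 480 U f ∧ ∀ k < 480, f k < 65536 ∧ (f k : ℝ) ≤ 16384 * ν (ev k) + 32768
def VF (ν : SN) (U : ℕ) : Prop := ∃ φ f, Du ν φ ∧ Rep 32 480 U f ∧
  ∀ k < 480, f k < 65536 ∧ (f k : ℝ) ≤ 16384 * dt φ (ev k) + 32768
def VL (ν : SN) (l m : ℝ) (F : List ℕ) : Prop := ∀ v ∈ F, ∃ φ, V4 ν l m φ v 0

structure FA : Prop where
  ng : ∀ {ν l m φ F lo}, V4 ν l m φ F lo → V4 ν l m (-φ) (ng F) lo
  sel : ∀ {ν l m F} (e : ℕ), VL ν l m F → ∃ φ, V4 ν l m φ (sel F e) 0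
  s6 : ∀ {ν l m φ ψ χ a b c} (k i : ℕ), V4 ν l m φ a 16384 → V4 ν l m ψ b 16384 →
    V4 ν l m χ c 16384 → ∃ ξ, V4 ν l m ξ (s6 [a, b, c] k i) 16384
  cmb : ∀ {ν l m φ ψ x y t}, U2 l m → V4 ν l m φ x 0 → V4 ν l m ψ y 0 → t ≤ 256 →
    ∃ χ, V4 ν l m χ (cmb t x y) 0

structure FB : Prop where
  c1 : ∀ {ν r} (l m : ℝ), VF ν r → ∃ φ, V4 ν l m φ (c1 r) 0
  v1 : ∀ {ν r}, VF ν r → V1 ν r
  m4 : ∀ {ν l m φ v lo}, U2 l m → V4 ν l m φ v lo → V1 ν (m4 v)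
  mx2 : ∀ {ν x y}, V1 ν x → V1 ν y → V1 ν (mx2 x y)
  wl : ∀ {ν U L}, V1 ν U → wl U L = true → VW ν L

def S_O1 : Prop := ∀ {ν B l m φ ψ f g k}, Nm ν B → U2 l m → V4 ν l m φ f 0 → V4 ν l m ψ g 0 →
  k < 480 → VF ν (o1 B f g k)

structure FH : Prop where
  hy : ∀ {ν l m φ ψ f g} {y : ℕ}, U2 l m → V4 ν l m φ f 16384 → V4 ν l m ψ g 16384 →
    (∀ x, ν x ≤ 1 → 16384 * dt (φ + ψ) x ≤ y) → ∃ χ, V4 ν l m χ (hy (f + g) y) 0
  di : ∀ {ν B φ ψ} (p : ℕ), Nm ν B → Du ν φ → Du ν ψ →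
    (∀ x, ν x ≤ 1 → 16384 * dt (φ + -ψ) x ≤ p) ∨
      ∀ x, ν x ≤ 1 → 16384 * dt (φ + ψ) x ≤ (B - p : ℕ)

def S_CT : Prop := ∀ {ν b c} {p1 p2 q1 q2 : ℕ}, Jn ν b c → p1 * (π / 480) ≤ b → b ≤ p2 * (π / 480) →
  q1 * (π / 480) ≤ c → c ≤ q2 * (π / 480) → p2 ≤ 400 → q2 ≤ 400 → ∃ l m φ ψ χ, U2 l m ∧
    V4 ν l m φ (c1 (ct 0)) 16384 ∧ V4 ν l m ψ (c2 (ct p1) (ct p2)) 16384 ∧
    V4 ν l m χ (c3 (ct q1) (ct q2)) 16384

def Box (G : ℕ → Prop) (B p1 p2 q1 q2 : ℕ) : Prop := ∀ ν b c, Jn ν b c → Nm ν B →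
  p1 * (π / 480) ≤ b → b ≤ p2 * (π / 480) → q1 * (π / 480) ≤ c → c ≤ q2 * (π / 480) →
  ∃ L, G L ∧ VW ν L

def S_WB : Prop := ∀ {G B X p1 p2 q1 q2}, wB B X p1 p2 q1 q2 = true → (∀ L ∈ lB X [], G L) →
  Box G B p1 p2 q1 q2

/-! ### geometry of the cells -/

def S_QD : Prop := ∀ {ν : SN} {j A B D e : ℕ} (i : ℕ), Le ν → j < 240 →
  qd (ch (j * 2)) A B D e = true → ν ((A : ℝ) • ev (i + j) - (B : ℝ) • ev i) ≤ D ∧
    (e = 1 → ν ((A : ℝ) • ev (i + j) - (B : ℝ) • ev i) < D)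

structure Cel (ν : SN) (i j p q y z c : ℕ) (l m : ℝ) : Prop where
  u : U2 l m
  p0 : 16384 ≤ p
  pq : p < q
  n1 : 0 < ν (ev i)
  n2 : 0 < ν (ev (i + j))
  r1 : 16384 / ν (ev i) = (1 - l) * p + l * q
  r2 : 16384 / ν (ev (i + j)) = bil l m y (bt c 0 65535) z (bt c 16 65535)
  lo : (1 - l) * y + l * z ≤ 16384 / ν (ev (i + j))
  hi : 16384 / ν (ev (i + j)) ≤ (1 - l) * bt c 0 65535 + l * bt c 16 65535

def S_CV : Prop := ∀ {ν : SN} {R w j : ℕ} {ss} (i : ℕ), Le ν → (∀ k, (w : ℝ) ≤ 16384 * ν (ev k)) →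
  268435456 ≤ R * w → 16384 < R → j < 240 → cov R (ch (j * 2)) ss 16384 = true →
  ∃ p q y z c l m, ∃ σ : List (List (List ℕ)) → List ℕ, Cel ν i j p q y z c l m ∧
    ∀ f ds, strips f ss ds 16384 = true → f p q y z c (σ ds) = true

def nn (o : ℕ) : ℕ := bt RN (64 * o) 65535
def ra (o : ℕ) : ℝ := (bt RA (o * 16) 65535 : ℕ) / 8192
def rb (o : ℕ) : ℝ := (bt RB (o * 16) 65535 : ℕ) / 8192
theorem rep_RN : Rep 64 15 RN nn := ⟨by decide +kernel, by decide +kernel⟩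
theorem ray_cases : ∀ o < 15, nn o ≤ 128 ∧
    (bt RA (o * 16) 65535 = 8192 ∧ bt RB (o * 16) 65535 = 64 * nn o ∨
      bt RA (o * 16) 65535 = 64 * nn o ∧ bt RB (o * 16) 65535 = 8192) := by decide +kernel
/-- the quantity bounded by the table, scaled -/
def nv (ν : SN) (i j o : ℕ) : ℝ := 16384 * ν (ra o • uv ν (i + j) - rb o • uv ν i)
/-- value at corner `n` -/
def ph (c n o : ℕ) : ℕ := bt c (n * 16 + 64 + 64 * o) 65535

def S_GC : Prop := ∀ {ν : SN} {i j p q y z c l m d}, Le ν → j < 240 → Cel ν i j p q y z c l m →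
  geoC (ch (j * 2)) p q y z c d = true →
  (0 < y ∧ 0 < z ∧ 0 < bt c 0 65535 ∧ 0 < bt c 16 65535) ∧
    ∀ o < 15, nv ν i j o ≤ bil l m (ph c 0 o) (ph c 1 o) (ph c 2 o) (ph c 3 o)

def S_SH : Prop := ∀ {ν : SN} (θ x y s : ℝ), Le ν → 0 < s → 1 ≤ s ^ 2 + ν (cos θ, sin θ) ^ 2 →
  ν (cos θ, sin θ) * x - s * |y| ≤ ν (x * cos θ - y * sin θ, x * sin θ + y * cos θ)

def S_YV : Prop := ∀ {ν : SN} {B i j p q y z c l m} {n lo hi s : ℕ} {κ : ℝ}, Nm ν B → j < 240 →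
  Cel ν i j p q y z c l m → n ≤ j → 0 ≤ κ → κ ≤ 1 → lo ≤ hi →
  16384 * ν (ev (i + n)) = (1 - κ) * lo + κ * hi → 0 < s → 268435456 ≤ lo * lo + s * s →
  16384 * ν (uv ν (i + j) - uv ν i) ≤
    (1 - κ) * bil l m (yv B j n lo s p y) (yv B j n lo s p (bt c 0 65535)) (yv B j n lo s q z)
      (yv B j n lo s q (bt c 16 65535)) +
    κ * bil l m (yv B j n hi s p y) (yv B j n hi s p (bt c 0 65535)) (yv B j n hi s q z)
      (yv B j n hi s q (bt c 16 65535))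

/-! ### the table -/

def Tb (T k o : ℕ) : ℕ := bt T (k * 960 + 64 * o) 65535
/-- the affine function that interpolates the table on column `k` -/
def Lk (T k o : ℕ) (x : ℝ) : ℝ := Tb T k o + (Tb T (k + 1) o - Tb T k o) * (x / 1024 - k)

structure Tab (D K T : ℕ) : Prop where
  d : D ≤ 1023
  k : K ≤ 59
  z : ∀ o < 15, 2097152 ≤ Tb T 0 o * 128 + nn o * 16384
  mono : ∀ k < K, ∀ o < 15, Tb T k o ≤ Tb T (k + 1) o
  st : ∀ k, k + 1 < K → ∀ o < 15,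
    Lk T k o (k * 1024 - D : ℕ) ≤ Lk T (k + 1) o ((k + 1) * 1024 - D : ℕ)

def mb (g i o : ℕ) : ℕ := la 64 (bt g i 32767 * on 63 15) o &&& 1
def sr (g i o : ℕ) (x y : ℝ) : ℝ := if mb g i o = 1 then x else y
/-- the mixed bound, scaled by `896` -/
def vr (g h o : ℕ) (φ Y : ℝ) : ℝ :=
  sr g 80 o (14680064 + nn o * 114688) (if h = 0 then φ * 896 else
    sr g 32 o (φ * 128) (2097152 - nn o * 16384 + nn o * Y) +
    sr g 48 o (φ * 128) (2097152 - nn o * 16384 + nn o * Y) * 2 +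
    sr g 64 o (φ * 128) (2097152 - nn o * 16384 + nn o * Y) * 4)

structure TA : Prop where
  tab : ∀ {D K T}, tab D K T = true → Tab D K T
  tk : ∀ {Bl T V k x f}, Bl ≤ 65535 → k ≤ 59 → x ≤ 65535 → (∀ o < 15, Tb T k o ≤ Tb T (k + 1) o) →
    Rep 64 15 V f → (∀ o < 15, f o ≤ 2 ^ 60) → tk Bl T V k x = true →
    ∀ o < 15, (f o : ℝ) ≤ 917504 * Bl * Lk T k o x

def S_VL : Prop := ∀ {P φ Y} (g h : ℕ), Rep 64 15 P φ → (∀ o < 15, φ o < 65536) → Y ≤ 1048576 →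
  ∃ f, Rep 64 15 (vl g h P Y) f ∧ ∀ o < 15, f o < 2 ^ 30 ∧ (f o : ℝ) = vr g h o (φ o) Y

def X0 (g n : ℕ) : ℕ := bt g (n * 64 + 224) 268435455
def X1 (g n : ℕ) : ℕ := bt g (n * 64 + 252) 4095
def X2 (g n : ℕ) : ℕ := bt g (n * 64 + 264) 4095
def X3 (g n : ℕ) : ℕ := bt g (n * 64 + 276) 4095

structure Av (B0 Bl D K T j g : ℕ) (a b w x : ℝ) (V : ℕ → ℝ) : Prop where
  pl : ∀ n < bt g 16 15, 256 * x + X1 g n * a + X2 g n * b + X3 g n * w ≤ X0 g n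
  k0 : bt g 0 255 = 0 ∨ ((bt g 0 255 * 1024 + D : ℕ) : ℝ) < x
  md : ∀ k, bt g 0 255 ≤ k → k < bt g 8 255 → k < K → ∀ o < 15,
    B0 * V o ≤ 896 * Bl * Lk T k o x
  k1 : K ≤ bt g 8 255 ∨ (j + 1) * D < bt g 8 255 * 1024 ∨ ∀ o < 15,
    B0 * V o ≤ 896 * Bl * Lk T (bt g 8 255) o (bt g 8 255 * 1024 - D : ℕ)

def S_S2 : Prop := ∀ {B0 Bl D K T j g h w a b P x Y φ}, Tab D K T → B0 ≤ 65535 → Bl ≤ 65535 →
  Rep 64 15 P φ → (∀ o < 15, φ o < 65536) → x ≤ 65535 →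
  s2 B0 Bl D K T j g h w a b P x Y = true →
  Av B0 Bl D K T j g (ou a) (ou b) w x fun o => vr g h o (φ o) Y

structure AV : Prop where
  mix : ∀ {B0 Bl D K T j g a b w x V a' b' w' x' V'} {t : ℝ}, Av B0 Bl D K T j g a b w x V →
    Av B0 Bl D K T j g a' b' w' x' V' → 0 ≤ t → t ≤ 1 →
    Av B0 Bl D K T j g ((1 - t) * a + t * a') ((1 - t) * b + t * b') ((1 - t) * w + t * w')
      ((1 - t) * x + t * x') fun o => (1 - t) * V o + t * V' o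
  mono : ∀ {B0 Bl D K T j g a b w x V a' b' w' V'}, Av B0 Bl D K T j g a b w x V → a' ≤ a →
    b' ≤ b → w' ≤ w → (∀ o < 15, V' o ≤ V o) → Av B0 Bl D K T j g a' b' w' x V'
  fin : ∀ {B0 Bl D K T j g n a b w x V} {u : ℝ}, Tab D K T → Av B0 Bl D K T j g a b w x V →
    n < bt g 16 15 → (X0 g n : ℝ) ≤ 256 * u + X1 g n * a + X2 g n * b + X3 g n * w → 0 ≤ u →
    u ≤ j * D → ∀ o < 15, ∀ k < K, ∀ z : ℝ, 1024 * k ≤ z → z ≤ 1024 * (k + 1) → |u - z| ≤ D →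
    B0 * V o ≤ 896 * Bl * Lk T k o u
  vmix : ∀ (g h o : ℕ) (t φ Y φ' Y' : ℝ), (1 - t) * vr g h o φ Y + t * vr g h o φ' Y' =
    vr g h o ((1 - t) * φ + t * φ') ((1 - t) * Y + t * Y')
  val : ∀ {ν : SN} {i j o} (g h : ℕ) {φ Y : ℝ}, o < 15 → 0 < ν (ev i) → 0 < ν (ev (i + j)) →
    nv ν i j o ≤ φ → (h ≠ 0 → 16384 * ν (uv ν (i + j) - uv ν i) ≤ Y) →
    896 * nv ν i j o ≤ vr g h o φ Y

/-- value of `Y` used at a corner -/
def yc (B j c h w s a b : ℕ) : ℕ := if h = 0 then 0 else yv B j (bt c 32 255) w s a b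

def S_S0 : Prop := ∀ {ν : SN} {B0 Bl B D K T i j p q y z c l m g h w s e}, Tab D K T → B0 ≤ 65535 →
  Bl ≤ 65535 → Cel ν i j p q y z c l m → 0 < y → 0 < z → 0 < bt c 0 65535 → 0 < bt c 16 65535 →
  s0 B0 Bl B D K T j p q y z c g h w s e = true →
  ∃ x, Av B0 Bl D K T j g (16384 * ν (ev i)) (16384 * ν (ev (i + j))) w x fun o =>
    vr g h o (bil l m (ph c 0 o) (ph c 1 o) (ph c 2 o) (ph c 3 o))
      (bil l m (yc B j c h w s p y) (yc B j c h w s p (bt c 0 65535)) (yc B j c h w s q z)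
        (yc B j c h w s q (bt c 16 65535)))

/-! ### blocks -/

structure TOK (D K J w L : ℕ) : Prop where
  w : ∀ i, w ≤ wv L i
  le : ∀ i, tv L i ≤ tv L (i + 1)
  st : ∀ i, tv L (i + 1) ≤ tv L i + D
  far : ∀ i, tv L i + (K * 1024 + D + 1) ≤ tv L (i + J)

def S_BK : Prop := ∀ {D K J w A}, D ≤ 1023 → K ≤ 59 → J ≤ 240 → w ≤ 16384 →
  blk D K J w A = true → ∀ L ∈ A, TOK D K J w L

def Pl (g x a b w : ℕ) : Prop :=
  ∃ n < bt g 16 15, X0 g n ≤ 256 * x + X1 g n * a + X2 g n * b + X3 g n * w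

def AllW (p : ℕ → ℕ → Prop) : List ℕ → List ℕ → Prop
  | [], _ => True
  | w :: W, d => p w (gt d 0) ∧ AllW p W (tl d)

/-- the lane operations of the last stage -/
structure LP : Prop where
  pls : ∀ {n O x a b w} {fx fa fb fw : ℕ → ℕ} (g : ℕ), Rep 32 n O (fun _ => 1) →
    Rep 32 n x (fun k => fx k * 256) → Rep 32 n a fa → Rep 32 n b fb → Rep 32 n w fw →
    (∀ k < n, fx k < 131072 ∧ fa k < 65536 ∧ fb k < 65536 ∧ fw k < 65536) →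
    ∃ f, Rep 32 n (pls O x a b w g) f ∧ ∀ k < n, 2 ^ 31 ≤ f k → Pl g (fx k) (fa k) (fb k) (fw k)
  inf : ∀ {n O w f} (h : ℕ), Rep 32 n O (fun _ => 1) → Rep 32 n w f → (∀ k < n, f k < 65536) →
    h < 2 ^ 31 → ∃ r, Rep 32 n (inf O w h) r ∧ ∀ k < n, 2 ^ 31 ≤ r k → h < f k
  mc : ∀ {n O H w f l}, Rep 32 n O (fun _ => 1) → Rep 32 n H (fun _ => 2 ^ 31) → Rep 32 n w f →
    (∀ k < n, f k < 65536) → l < 65536 → Rep 32 n (mc O H w l) fun k => max (f k) l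
  xj : ∀ {A N O H V T j}, Blk A N O H V T → j ≤ 240 → Rep 32 (N * 240) (xj N O H T j) fun i =>
    tv (A.getD (i / 240) 0) (i % 240 + j) - tv (A.getD (i / 240) 0) (i % 240)

def LnC (W : List ℕ) (L i j p q y z c : ℕ) (d : List ℕ) : Prop :=
  ou p < wv L i ∨ ou (min y z) < wv L (i + j) ∨ (d ≠ [] ∧
    (Pl (gt d 0) (tv L (i + j) - tv L i) (max (wv L i) (om q))
        (max (wv L (i + j)) (om (max (bt c 0 65535) (bt c 16 65535)))) 0 ∨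
      (tl d ≠ [] ∧ AllW (fun w g => bt w 16 65535 < wv L (i + min (bt c 32 255) 240) ∨
        Pl g (tv L (i + j) - tv L i) (max (wv L i) (om q))
          (max (wv L (i + j)) (om (max (bt c 0 65535) (bt c 16 65535))))
          (max (wv L (i + min (bt c 32 255) 240)) (bt w 0 65535))) W (tl d))))

def S_LN : Prop := ∀ {A N O H V T W j p q y z c d L}, Blk A N O H V T → L ∈ A → j ≤ 240 →
  lnC N O H V W (xj N O H T j * 256) (rot N V j) p q y z c d = true →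
  ∀ i, LnC W L i j p q y z c d

def Pair (ν : SN) (B0 Bl D K T L i j : ℕ) : Prop := ∀ o < 15, ∀ k < K, ∀ z : ℝ, 1024 * k ≤ z →
  z ≤ 1024 * (k + 1) → |(tv L (i + j) - tv L i : ℝ) - z| ≤ D →
  B0 * nv ν i j o ≤ Bl * Lk T k o (tv L (i + j) - tv L i)

def S_CE : Prop := ∀ {ν : SN} {B0 Bl B D K J T W w L i j p q y z c l m d d'}, Nm ν B → VW ν L →
  TOK D K J w L → Tab D K T → B0 ≤ 65535 → Bl ≤ 65535 → wok W w = true → w < 16384 → j < 240 →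
  Cel ν i j p q y z c l m → geoC (ch (j * 2)) p q y z c d' = true →
  scC B0 Bl B D K T W j p q y z c d = true → LnC W L i j p q y z c d →
  Pair ν B0 Bl D K T L i j

def Cov (B0 Bl B D K T : ℕ) (A : List ℕ) (j0 j1 : ℕ) : Prop := ∀ L ∈ A, ∀ ν, Nm ν B → VW ν L →
  ∀ i j, j0 ≤ j → j < j1 → Pair ν B0 Bl D K T L i j

def Good (B0 Bl B D K J T w L : ℕ) : Prop :=
  TOK D K J w L ∧ ∀ ν, Nm ν B → VW ν L → ∀ i j, 1 ≤ j → j < J → Pair ν B0 Bl D K T L i j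

structure Par (B0 Bl D K J T R w ta ro : ℕ) (W : List ℕ) : Prop where
  bl : B0 ≤ Bl
  b : Bl ≤ 65535
  r : 16384 < R
  a : ta ≤ 4096
  j : J ≤ 240
  v : w < 16384
  t : tab D K T = true
  k : wok W w = true
  rw : 268435456 ≤ R * w
  wa : 281474976710656 ≤ w * w * (1048576 + ta * ta)
  o : 21474836480000 + ro * ta * (ch 1198 - 1048574) ≤ ro * 1024 * ch 2

theorem par_spec {B0 Bl D K J T R w ta ro W} (h : par B0 Bl D K J T R w ta ro W = true) :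
    Par B0 Bl D K J T R w ta ro W := by
  simp only [par, an_iff, lt_iff, Nat.ble_eq] at h
  obtain ⟨⟨⟨a, b⟩, ⟨c, d⟩, e, f⟩, ⟨g, i⟩, j, k, l⟩ := h
  exact ⟨a, b, c, d, e, f, g, i, j, k, l⟩

structure RG : Prop where
  rng : ∀ {B0 Bl B D K J T R w ta ro W A G E F j0 j1}, par B0 Bl D K J T R w ta ro W = true →
    blk D K J w A = true → geos R G E j0 j1 = true → scas B0 Bl B D K T W G F j0 = true →
    lns A W G F j0 = true → Cov B0 Bl B D K T A j0 j1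
  app : ∀ {B0 Bl B D K T A a b c}, Cov B0 Bl B D K T A a b → Cov B0 Bl B D K T A b c →
    Cov B0 Bl B D K T A a c
  good : ∀ {B0 Bl B D K J T R w ta ro W A}, par B0 Bl D K J T R w ta ro W = true →
    blk D K J w A = true → Cov B0 Bl B D K T A 1 J → ∀ L ∈ A, Good B0 Bl B D K J T w L
  sp0 : ∀ {G B p1 p2 q1 q2} (p : ℕ), Box G B p1 p q1 q2 → Box G B p p2 q1 q2 → Box G B p1 p2 q1 q2
  sp1 : ∀ {G B p1 p2 q1 q2} (p : ℕ), Box G B p1 p2 q1 p → Box G B p1 p2 p q2 → Box G B p1 p2 q1 q2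

/-! ### the embedding into the model -/

def fz (n : ℤ) : ℕ := min (n % 120).toNat (120 - (n % 120).toNat)
def DD (P : ℕ → ℝ → ℝ → ℝ) (a s b t : ℝ) : ℝ :=
  (1 - (t - s - ⌊t - s⌋)) * P (fz ⌊t - s⌋) a b + (t - s - ⌊t - s⌋) * P (fz (⌊t - s⌋ + 1)) a b

def rn (n : ℕ) : ℕ := [0, 32, 54, 72, 87, 100, 111, 120, 128].getD n 0
def ry (n : ℕ) : ℝ := rn n / 128
theorem ray_rn : ∀ n < 9, 0 < n →
    (nn (if n = 8 then 14 else n - 1) = rn n ∧ bt RA ((if n = 8 then 14 else n - 1) * 16) 65535 = 8192 ∧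
      bt RB ((if n = 8 then 14 else n - 1) * 16) 65535 = 64 * rn n) ∧
    nn (if n = 8 then 14 else n + 6) = rn n ∧
      bt RA ((if n = 8 then 14 else n + 6) * 16) 65535 = 64 * rn n ∧
      bt RB ((if n = 8 then 14 else n + 6) * 16) 65535 = 8192 := by decide +kernel
def tb (T k n : ℕ) : ℕ :=
  if n = 0 then 16384 else if n = 8 then Tb T k 14 else max (Tb T k (n - 1)) (Tb T k (n + 6))

/-- `P` lies above the table -/
structure Maj (P : ℕ → ℝ → ℝ → ℝ) (K T : ℕ) : Prop where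
  sym : ∀ k a b, P k a b = P k b a
  ray : ∀ k < K, ∀ a b : ℝ, 0 ≤ b → b ≤ a → ∃ x ≤ 8, ∃ y ≤ 8, ∃ α β : ℝ, 0 ≤ α ∧ 0 ≤ β ∧
    a = α + β ∧ b = α * ry x + β * ry y ∧ α * tb T k x + β * tb T k y ≤ 16384 * P k a b ∧
    α * tb T (k + 1) x + β * tb T (k + 1) y ≤ 16384 * P (k + 1) a b
  sat : ∀ k, K ≤ k → k ≤ 60 → ∀ a b : ℝ, 0 ≤ a → 0 ≤ b → a + b ≤ P k a b

def S_RO : Prop := ∀ {ν : SN} {w ta ro : ℕ}, Le ν → (∀ k, (w : ℝ) ≤ 16384 * ν (ev k)) →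
  ta ≤ 4096 → 281474976710656 ≤ w * w * (1048576 + ta * ta) →
  21474836480000 + ro * ta * (ch 1198 - 1048574) ≤ ro * 1024 * ch 2 →
  ∀ x, ∃ k < 480, ∃ t ρ : ℝ, 0 ≤ t ∧ t ≤ 1 ∧ x = ρ • ((1 - t) • uv ν k + t • uv ν (k + 1)) ∧
    ν x ≤ ρ ∧ 10000 * ρ ≤ ro * ν x

/-- what the last steps use -/
structure Ctx (ν : SN) (B0 Bl D K J T w L : ℕ) : Prop where
  pos : ∀ k, 0 < ν (ev k)
  bl : B0 ≤ Bl
  tab : Tab D K T
  tok : TOK D K J w L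
  pr : ∀ i j, 1 ≤ j → j < J → Pair ν B0 Bl D K T L i j

def Lr (T : ℕ) (σ : Bool) (k n : ℕ) (x : ℝ) : ℝ :=
  if n = 0 then 16384 else Lk T k (if n = 8 then 14 else if σ then n - 1 else n + 6) x

def S_P1 : Prop := ∀ {ν : SN} {B0 Bl D K J T w L}, Ctx ν B0 Bl D K J T w L → ∀ i j, ∀ n ≤ 8,
  ∀ k < K, ∀ z : ℝ, 1024 * k ≤ z → z ≤ 1024 * (k + 1) → |(tv L (i + j) - tv L i : ℝ) - z| ≤ D →
  B0 * (16384 * ν (uv ν (i + j) - ry n • uv ν i)) ≤ Bl * Lr T true k n (tv L (i + j) - tv L i) ∧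
  B0 * (16384 * ν (ry n • uv ν (i + j) - uv ν i)) ≤ Bl * Lr T false k n (tv L (i + j) - tv L i)

/-- the angular coordinate of a point of a chord, in columns -/
def tc (L k : ℕ) (t : ℝ) : ℝ := ((1 - t) * tv L k + t * tv L (k + 1)) / 1024

def S_CP : Prop := ∀ {ν : SN} {B0 Bl D K J T w L P} {c : ℝ}, Ctx ν B0 Bl D K J T w L → Maj P K T →
  0 ≤ c → c * Bl ≤ B0 → 0 < Bl → ∀ (k l : ℕ) (s t a b : ℝ), k ≤ l → 0 ≤ s → s ≤ 1 → 0 ≤ t → t ≤ 1 →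
  (k = l → s ≤ t) → tc L l t - tc L k s ≤ 60 → 0 ≤ a → 0 ≤ b →
  c * ν (b • ((1 - t) • uv ν l + t • uv ν (l + 1)) - a • ((1 - s) • uv ν k + s • uv ν (k + 1))) ≤
    DD P a (tc L k s) b (tc L l t)

/-- the norm embeds into the model -/
def Em (P : ℕ → ℝ → ℝ → ℝ) (ν : SN) (c : ℝ) (ro : ℕ) : Prop := ∃ ρ t : ℝ × ℝ → ℝ,
  (∀ x, ν x ≤ ρ x ∧ 10000 * ρ x ≤ ro * ν x) ∧
    ∀ x y, c * ν (y - x) ≤ DD P (ρ x) (t x) (ρ y) (t y)

def S_EM : Prop := ∀ {B0 Bl B D K J T R w ta ro W P}, par B0 Bl D K J T R w ta ro W = true →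
  Box (Good B0 Bl B D K J T w) B 0 160 240 320 → Maj P K T → 0 < Bl → ∀ ν b c, Jn ν b c →
  (Bl : ℝ) ≤ 10000 * Lam ν → 16384 * Lam ν ≤ B → Em P ν (B0 / (10000 * Lam ν)) ro

def S_RD : Prop := ∀ {n : ℕ} (f : ℝ → ℝ),
  (∀ (ν : SN) (b c : ℝ), Jn ν b c → (∀ x, ν x = 0 → x = 0) → ∀ p : Fin n → ℝ × ℝ,
    (∀ i, ν (p i) ≤ 1) →
    ∃ T : BinaryTree (Fin n), labels T = Finset.univ.val ∧ span ν p 0 T ≤ f (Lam ν)) →
  ∀ (η : SN), (∀ x, η x = 0 → x = 0) → ∀ p : Fin n → ℝ × ℝ, (∀ i, η (p i) ≤ 1) →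
    ∃ T : BinaryTree (Fin n), labels T = Finset.univ.val ∧ span η p 0 T ≤ f (Lam η)

def S_LM : Prop := ∀ η : SN, (∀ x, η x = 0 → x = 0) → 8 ≤ Lam η ^ 2

end

end Pool.Agent.MP_1037db_co.PT
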